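import Mathlib
import Pool.Agent.Helper766.M.Defs
import Pool.Agent.Helper766.M.L_beta_lint

set_option autoImplicit false

open MeasureTheory Set Real
open scoped ENNReal

namespace Pool.Agent.Helper961_mbly

open Pool.Agent.Helper766.M

theorem const_gam' (n : ℕ) {γ : ℝ} (hγ : 1 < γ) :
    ENNReal.ofReal (Lcl 1 n) * ENNReal.ofReal (Gamma (γ - 1) *
        Gamma (1 + (n : ℝ) / 2 + 1) / Gamma (γ - 1 + (1 + (n : ℝ) / 2) + 1)) =
      ENNReal.ofReal (Gamma (γ - 1) * Gamma (1 + 1) / Gamma (γ - 1 + 1 + 1)) *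
        ENNReal.ofReal (Lcl γ n) ∧
    0 < Gamma (γ - 1) * Gamma (1 + 1) / Gamma (γ - 1 + 1 + 1) := by
  have hpi := pi_pos
  have h4p : (0 : ℝ) < 4 * π := by positivity
  have h2 : Gamma (1 + 1 : ℝ) = 1 := by
    rw [Gamma_add_one one_ne_zero, Gamma_one, mul_one]
  have e1 : (1 : ℝ) + (n : ℝ) / 2 + 1 = 1 + 1 + (n : ℝ) / 2 := by ring
  have e2 : γ - 1 + (1 + (n : ℝ) / 2) + 1 = γ + 1 + (n : ℝ) / 2 := by ring
  have e3 : γ - 1 + 1 + 1 = γ + 1 := by ring
  have hn : (0 : ℝ) ≤ n := Nat.cast_nonneg n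
  have g1 : 0 < Gamma (γ - 1) := Gamma_pos_of_pos (by linarith)
  have g2 : 0 < Gamma (1 + 1 + (n : ℝ) / 2) := Gamma_pos_of_pos (by positivity)
  have g3 : 0 < Gamma (γ + 1 + (n : ℝ) / 2) :=
    Gamma_pos_of_pos (by linarith [div_nonneg hn (by norm_num : (0:ℝ) ≤ 2)])
  have g4 : 0 < Gamma (γ + 1) := Gamma_pos_of_pos (by linarith)
  have h6 : 0 < (4 * π) ^ ((n : ℝ) / 2) := rpow_pos_of_pos h4p _
  rw [e1, e2, e3, h2]
  unfold Lcl
  rw [h2]
  generalize (4 * π) ^ ((n : ℝ) / 2) = A at *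
  generalize Gamma (1 + 1 + (n : ℝ) / 2) = B at *
  generalize Gamma (γ + 1 + (n : ℝ) / 2) = D at *
  generalize Gamma (γ + 1) = E at *
  generalize Gamma (γ - 1) = F at *
  refine ⟨?_, by positivity⟩
  rw [← ENNReal.ofReal_mul (by positivity), ← ENNReal.ofReal_mul (by positivity)]
  congr 1
  field_simp

/-- The Aizenman-Lieb argument. -/
theorem al_lift (n : ℕ) (lamb : ℕ → ℝ≥0∞) {γ : ℝ} (hγ : 1 ≤ γ) (Λ : ℝ)
    (W K : ℝ≥0∞)
    (h : ∀ t : ℝ, 0 ≤ t → t < Λ → ∑' k, (ENNReal.ofReal (Λ - t) - lamb k) ≤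
      ENNReal.ofReal (Lcl 1 n) * K * (W - ENNReal.ofReal t) ^ (1 + (n : ℝ) / 2)) :
    ∑' k, (ENNReal.ofReal Λ - lamb k) ^ γ ≤
      ENNReal.ofReal (Lcl γ n) * K * W ^ (γ + (n : ℝ) / 2) := by
  have h' : ∀ t : ℝ, 0 ≤ t → ∑' k, (ENNReal.ofReal Λ - lamb k - ENNReal.ofReal t) ≤
      ENNReal.ofReal (Lcl 1 n) * K * (W - ENNReal.ofReal t) ^ (1 + (n : ℝ) / 2) := by
    intro t ht
    rcases lt_or_ge t Λ with h1 | h1
    · refine le_trans (le_of_eq ?_) (h t ht h1)
      refine tsum_congr fun k => ?_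
      rw [ENNReal.ofReal_sub _ ht, tsub_right_comm]
    · have h2 : ∀ k, ENNReal.ofReal Λ - lamb k - ENNReal.ofReal t = 0 := by
        intro k
        rw [tsub_eq_zero_iff_le]
        exact tsub_le_self.trans (ENNReal.ofReal_le_ofReal h1)
      simp only [h2, tsum_zero, zero_le]
  rcases hγ.eq_or_lt with rfl | hγ1
  · have h0 := h' 0 le_rfl
    simp only [ENNReal.ofReal_zero, tsub_zero] at h0
    simpa only [ENNReal.rpow_one] using h0
  · have hδ : 0 < γ - 1 := by linarith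
    have hq : (0 : ℝ) < 1 + (n : ℝ) / 2 := by positivity
    obtain ⟨hc1, hc2⟩ := const_gam' n hγ1
    set B1 := ENNReal.ofReal (Gamma (γ - 1) * Gamma (1 + 1) / Gamma (γ - 1 + 1 + 1)) with hB1
    set C0 := ENNReal.ofReal (Lcl 1 n) with hC0
    have hL : ∫⁻ t in Ioi (0 : ℝ), ENNReal.ofReal (t ^ ((γ - 1) - 1)) *
        ∑' k, (ENNReal.ofReal Λ - lamb k - ENNReal.ofReal t) =
        B1 * ∑' k, (ENNReal.ofReal Λ - lamb k) ^ γ := by
      have h1 : ∀ t : ℝ, ENNReal.ofReal (t ^ ((γ - 1) - 1)) *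
          ∑' k, (ENNReal.ofReal Λ - lamb k - ENNReal.ofReal t) =
          ∑' k, ENNReal.ofReal (t ^ ((γ - 1) - 1)) *
            (ENNReal.ofReal Λ - lamb k - ENNReal.ofReal t) :=
        fun t => ENNReal.tsum_mul_left.symm
      simp only [h1]
      rw [lintegral_tsum]
      · rw [← ENNReal.tsum_mul_left]
        congr 1
        funext k
        have h2 := beta_lint (ENNReal.ofReal Λ - lamb k) (δ := γ - 1) (q := 1) hδ one_pos
        simp only [ENNReal.rpow_one] at h2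
        rw [h2, add_sub_cancel]
      · intro k
        apply Measurable.aemeasurable
        refine Measurable.mul ?_ ?_
        · exact (measurable_id.pow_const _).ennreal_ofReal
        · exact measurable_const.sub measurable_id.ennreal_ofReal
    have hR : ∫⁻ t in Ioi (0 : ℝ), ENNReal.ofReal (t ^ ((γ - 1) - 1)) *
        (C0 * K * (W - ENNReal.ofReal t) ^ (1 + (n : ℝ) / 2)) =
        B1 * (ENNReal.ofReal (Lcl γ n) * K * W ^ (γ + (n : ℝ) / 2)) := by
      have h1 : ∀ t : ℝ, ENNReal.ofReal (t ^ ((γ - 1) - 1)) *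
          (C0 * K * (W - ENNReal.ofReal t) ^ (1 + (n : ℝ) / 2)) =
          (C0 * K) * (ENNReal.ofReal (t ^ ((γ - 1) - 1)) *
            (W - ENNReal.ofReal t) ^ (1 + (n : ℝ) / 2)) :=
        fun t => mul_left_comm _ _ _
      simp only [h1]
      rw [lintegral_const_mul'', beta_lint W hδ hq]
      · rw [← mul_assoc, mul_right_comm C0 K, hc1, show 1 + (n : ℝ) / 2 + (γ - 1) =
          γ + (n : ℝ) / 2 by ring]
        ring
      · apply Measurable.aemeasurable
        refine Measurable.mul ?_ ?_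
        · exact (measurable_id.pow_const _).ennreal_ofReal
        · exact (measurable_const.sub measurable_id.ennreal_ofReal).pow_const _
    have hfin : B1 * ∑' k, (ENNReal.ofReal Λ - lamb k) ^ γ ≤
        B1 * (ENNReal.ofReal (Lcl γ n) * K * W ^ (γ + (n : ℝ) / 2)) := by
      rw [← hL, ← hR]
      apply setLIntegral_mono' measurableSet_Ioi
      intro t ht
      exact mul_le_mul_right (h' t (le_of_lt ht)) _
    have hB0 : B1 ≠ 0 := (ENNReal.ofReal_pos.2 hc2).ne'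
    exact (ENNReal.mul_le_mul_iff_right hB0 ENNReal.ofReal_ne_top).1 hfin

end Pool.Agent.Helper961_mbly
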