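import Mathlib

set_option autoImplicit false

open MeasureTheory Set Real
open scoped ENNReal

namespace Pool.Agent.Helper961_mbly

/-- The Fourier coefficient at the frequency `l`. -/
noncomputable def cf (f : ℝ → ℂ) (l : ℝ) : ℂ :=
  ∫ t, f t * Complex.exp (-(Complex.I * ((l * t : ℝ) : ℂ)))

theorem norm_ex (x : ℝ) : ‖Complex.exp (-(Complex.I * ((x : ℝ) : ℂ)))‖ = 1 := by
  rw [Complex.norm_exp]
  simp

theorem ex_cont (l : ℝ) : Continuous fun t : ℝ => Complex.exp (-(Complex.I * ((l * t : ℝ) : ℂ))) := by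
  fun_prop

theorem pars {f : ℝ → ℂ} (hf : Continuous f) {c P : ℝ} (hP : 0 < P)
    (hs : ∀ t, t ∉ Ioc c (c + P) → f t = 0) (l0 : ℝ) :
    HasSum (fun k : ℤ => ‖cf f (l0 + 2 * π * k / P)‖ ^ 2 / P) (∫ t, ‖f t‖ ^ 2) := by
  have hab : c < c + P := by linarith
  obtain ⟨g, hg⟩ : ∃ g : ℝ → ℂ, g = fun t => f t * Complex.exp (-(Complex.I * ((l0 * t : ℝ) : ℂ))) :=
    ⟨_, rfl⟩
  have hgc : Continuous g := by rw [hg]; exact hf.mul (ex_cont l0)
  have hL2 : MemLp g 2 (volume.restrict (Ioc c (c + P))) := by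
    have h0 : HasCompactSupport g := by
      refine HasCompactSupport.intro (isCompact_Icc (a := c) (b := c + P)) fun t ht => ?_
      rw [hg]
      simp only [hs t fun h => ht ⟨h.1.le, h.2⟩, zero_mul]
    exact (hgc.memLp_of_hasCompactSupport h0).restrict _
  have h := hasSum_sq_fourierCoeffOn hab hL2
  have hc : ∀ k : ℤ, fourierCoeffOn hab g k = (1 / P : ℝ) • cf f (l0 + 2 * π * k / P) := by
    intro k
    rw [fourierCoeffOn_eq_integral]
    have e0 : c + P - c = P := by ring
    have e1 : ∀ x : ℝ, fourier (-k) (x : AddCircle (c + P - c)) • g x =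
        f x * Complex.exp (-(Complex.I * (((l0 + 2 * π * k / P) * x : ℝ) : ℂ))) := by
      intro x
      rw [fourier_coe_apply, hg, smul_eq_mul, mul_left_comm, ← Complex.exp_add, e0]
      congr 2
      push_cast
      have hPc : (P : ℂ) ≠ 0 := by exact_mod_cast hP.ne'
      field_simp
      ring
    simp only [e1]
    rw [e0]
    congr 1
    rw [intervalIntegral.integral_of_le hab.le, cf,
      setIntegral_eq_integral_of_forall_compl_eq_zero]
    intro x hx
    rw [hs x hx, zero_mul]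
  have e2 : (c + P - c)⁻¹ • ∫ x in c..c + P, ‖g x‖ ^ 2 = P⁻¹ * ∫ t, ‖f t‖ ^ 2 := by
    have e0 : c + P - c = P := by ring
    rw [e0, smul_eq_mul]
    congr 1
    rw [intervalIntegral.integral_of_le hab.le]
    rw [setIntegral_eq_integral_of_forall_compl_eq_zero]
    · refine integral_congr_ae (Filter.Eventually.of_forall fun x => ?_)
      simp only [hg, norm_mul, norm_ex, mul_one]
    · intro x hx
      simp only [hg, hs x hx, zero_mul, norm_zero]
      norm_num
  rw [e2] at h
  have h3 := h.mul_left P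
  rw [← mul_assoc, mul_inv_cancel₀ hP.ne', one_mul] at h3
  refine h3.congr_fun ?_
  intro k
  rw [hc k, norm_smul, mul_pow, Real.norm_of_nonneg (by positivity)]
  field_simp

theorem cf_deriv {f f' : ℝ → ℂ} (hf : ∀ t, HasDerivAt f (f' t) t) (hf' : Continuous f')
    (hc : HasCompactSupport f) (l : ℝ) : cf f' l = Complex.I * l * cf f l := by
  have hfc : Continuous f := continuous_iff_continuousAt.2 fun t => (hf t).continuousAt
  have hc' : HasCompactSupport f' := by
    have : f' = deriv f := by funext t; exact (hf t).deriv.symm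
    rw [this]
    exact hc.deriv
  have he : ∀ t : ℝ, HasDerivAt (fun t : ℝ => Complex.exp (-(Complex.I * ((l * t : ℝ) : ℂ))))
      (Complex.exp (-(Complex.I * ((l * t : ℝ) : ℂ))) * (-(Complex.I * l))) t := by
    intro t
    have h1 : HasDerivAt (fun t : ℝ => ((l * t : ℝ) : ℂ)) (l : ℂ) t := by
      have h2 : HasDerivAt (fun t : ℝ => l * t) l t := by
        simpa using (hasDerivAt_id t).const_mul l
      exact h2.ofReal_comp
    exact ((h1.const_mul Complex.I).neg).cexp
  have hd : ∀ t, HasDerivAt (fun t => f t * Complex.exp (-(Complex.I * ((l * t : ℝ) : ℂ))))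
      (f' t * Complex.exp (-(Complex.I * ((l * t : ℝ) : ℂ))) +
        f t * (Complex.exp (-(Complex.I * ((l * t : ℝ) : ℂ))) * (-(Complex.I * l)))) t :=
    fun t => (hf t).mul (he t)
  have i1 : Integrable (fun t => f t * Complex.exp (-(Complex.I * ((l * t : ℝ) : ℂ)))) :=
    (hfc.mul (ex_cont l)).integrable_of_hasCompactSupport hc.mul_right
  have i2 : Integrable (fun t => f' t * Complex.exp (-(Complex.I * ((l * t : ℝ) : ℂ)))) :=
    (hf'.mul (ex_cont l)).integrable_of_hasCompactSupport hc'.mul_right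
  have i3 : Integrable (fun t => f t * (Complex.exp (-(Complex.I * ((l * t : ℝ) : ℂ))) *
      (-(Complex.I * l)))) := by
    have := i1.mul_const (-(Complex.I * l))
    refine this.congr (Filter.Eventually.of_forall fun t => ?_)
    ring
  have h0 := integral_eq_zero_of_hasDerivAt_of_integrable hd (i2.add i3) i1
  rw [integral_add i2 i3] at h0
  have e3 : ∫ t, f t * (Complex.exp (-(Complex.I * ((l * t : ℝ) : ℂ))) * (-(Complex.I * l))) =
      -(Complex.I * l) * cf f l := by
    rw [cf, ← integral_const_mul]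
    refine integral_congr_ae (Filter.Eventually.of_forall fun t => ?_)
    ring
  rw [e3] at h0
  have e4 : cf f' l = ∫ t, f' t * Complex.exp (-(Complex.I * ((l * t : ℝ) : ℂ))) := rfl
  rw [e4]
  linear_combination h0

/-- The one dimensional inequality. -/
theorem F1 {f f' : ℝ → ℂ} (hf : ∀ t, HasDerivAt f (f' t) t) (hf' : Continuous f')
    (hc : HasCompactSupport f) {c P : ℝ} (hP : 0 < P)
    (hs : ∀ t, t ∉ Ioo c (c + P) → f t = 0) (l0 Λ : ℝ) (S : Finset ℤ)
    (hS : ∀ k, k ∉ S → Λ ≤ (l0 + 2 * π * k / P) ^ 2) :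
    Λ * ∫ t, ‖f t‖ ^ 2 ≤ (∫ t, ‖f' t‖ ^ 2) +
      ∑ k ∈ S, (Λ - (l0 + 2 * π * k / P) ^ 2) * (‖cf f (l0 + 2 * π * k / P)‖ ^ 2 / P) := by
  have hfc : Continuous f := continuous_iff_continuousAt.2 fun t => (hf t).continuousAt
  have hs1 : ∀ t, t ∉ Ioc c (c + P) → f t = 0 := fun t ht => hs t fun h => ht ⟨h.1, h.2.le⟩
  have hs2 : ∀ t, t ∉ Ioc c (c + P) → f' t = 0 := by
    intro t ht
    have hd := (hf t).deriv
    rw [← hd]
    rcases lt_or_ge (c + P) t with h1 | h1
    · have : f =ᶠ[nhds t] fun _ => 0 := by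
        filter_upwards [Ioi_mem_nhds h1] with y hy
        exact hs y fun h => absurd h.2 (not_lt.2 (le_of_lt hy))
      rw [this.deriv_eq]; simp
    · have h2 : t ≤ c := by
        by_contra h3
        exact ht ⟨not_le.1 h3, h1⟩
      rcases h2.lt_or_eq with h3 | h3
      · have : f =ᶠ[nhds t] fun _ => 0 := by
          filter_upwards [Iio_mem_nhds h3] with y hy
          exact hs y fun h => absurd h.1 (not_lt.2 (le_of_lt hy))
        rw [this.deriv_eq]; simp
      · -- one sided derivative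
        have h4 : HasDerivWithinAt f (f' t) (Iic t) t := (hf t).hasDerivWithinAt
        have h5 : HasDerivWithinAt f 0 (Iic t) t := by
          have h6 : HasDerivWithinAt (fun _ : ℝ => (0 : ℂ)) 0 (Iic t) t := hasDerivWithinAt_const _ _ _
          refine h6.congr (fun y hy => ?_) ?_
          · exact hs y fun h => by
              have : y ≤ t := hy
              linarith [h.1]
          · exact hs t fun h => by linarith [h.1]
        have h7 : UniqueDiffWithinAt ℝ (Iic t) t := uniqueDiffWithinAt_Iic t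
        rw [hd]
        exact h7.eq_deriv _ h4 h5
  have p1 := pars hfc hP hs1 l0
  have p2 := pars hf' hP hs2 l0
  have e1 : ∀ k : ℤ, ‖cf f' (l0 + 2 * π * k / P)‖ ^ 2 / P =
      (l0 + 2 * π * k / P) ^ 2 * (‖cf f (l0 + 2 * π * k / P)‖ ^ 2 / P) := by
    intro k
    rw [cf_deriv hf hf' hc, norm_mul, norm_mul, Complex.norm_I, one_mul, Complex.norm_real, mul_pow,
      Real.norm_eq_abs, sq_abs]
    ring
  simp only [e1] at p2
  have p3 := p2.sub (p1.mul_left Λ)
  have p4 := sum_le_hasSum S (fun k hk => ?_) p3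
  · have e5 : ∑ k ∈ S, (Λ - (l0 + 2 * π * k / P) ^ 2) * (‖cf f (l0 + 2 * π * k / P)‖ ^ 2 / P) =
        -∑ k ∈ S, ((l0 + 2 * π * k / P) ^ 2 * (‖cf f (l0 + 2 * π * k / P)‖ ^ 2 / P) -
          Λ * (‖cf f (l0 + 2 * π * k / P)‖ ^ 2 / P)) := by
      rw [← Finset.sum_neg_distrib]
      refine Finset.sum_congr rfl fun k _ => ?_
      ring
    rw [e5]
    linarith
  · have h1 := hS k hk
    have h2 : 0 ≤ ‖cf f (l0 + 2 * π * k / P)‖ ^ 2 / P := by positivity
    nlinarith

/-- Bessel's inequality. -/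
theorem F2 {f : ℝ → ℂ} (hf : Continuous f) {c P : ℝ} (hP : 0 < P)
    (hs : ∀ t, t ∉ Ioc c (c + P) → f t = 0) (l0 : ℝ) (S : Finset ℤ) :
    ∑ k ∈ S, ‖cf f (l0 + 2 * π * k / P)‖ ^ 2 / P ≤ ∫ t, ‖f t‖ ^ 2 :=
  sum_le_hasSum S (fun k _ => by positivity) (pars hf hP hs l0)

end Pool.Agent.Helper961_mbly
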