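import Mathlib
import Pool.Agent.Helper766.M.Defs
import Pool.Agent.Helper766.M.L_slice_reg

set_option autoImplicit false

open MeasureTheory Set Real
open scoped ENNReal

namespace Pool.Agent.Helper961_mbly

open Pool.Agent.Helper766.M

theorem cons_cont2 {n : ℕ} :
    Continuous fun p : ℝ × (Fin n → ℝ) => (Fin.cons p.1 p.2 : Fin (n + 1) → ℝ) := by
  refine continuous_pi fun i => ?_
  refine Fin.cases ?_ (fun j => ?_) i
  · exact continuous_fst
  · exact (continuous_apply j).comp continuous_snd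

theorem cons_cont_left {n : ℕ} (y : Fin n → ℝ) :
    Continuous fun t : ℝ => (Fin.cons t y : Fin (n + 1) → ℝ) :=
  cons_cont2.comp (continuous_id.prodMk continuous_const)

theorem cons_cont_right {n : ℕ} (t : ℝ) :
    Continuous fun y : Fin n → ℝ => (Fin.cons t y : Fin (n + 1) → ℝ) :=
  cons_cont2.comp (continuous_const.prodMk continuous_id)

theorem cons_deriv {n : ℕ} (y : Fin n → ℝ) (t : ℝ) :
    HasDerivAt (fun t : ℝ => (Fin.cons t y : Fin (n + 1) → ℝ))
      (Pi.single 0 1 : Fin (n + 1) → ℝ) t := by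
  rw [hasDerivAt_pi]
  intro i
  refine Fin.cases ?_ (fun j => ?_) i
  · simpa using hasDerivAt_id' (𝕜 := ℝ) t
  · simpa using hasDerivAt_const t (y j)

/-- A bound for the support of a compactly supported function. -/
theorem supp_bd {n : ℕ} {f : (Fin (n + 1) → ℝ) → ℂ} (hc : HasCompactSupport f) :
    ∃ M : ℝ, 0 < M ∧ (∀ (t : ℝ) (y : Fin n → ℝ), t ∉ Ioo (-M) M → f (Fin.cons t y) = 0) ∧
      ∀ (t : ℝ) (y : Fin n → ℝ), y ∉ Metric.closedBall 0 M → f (Fin.cons t y) = 0 := by
  obtain ⟨M, hM⟩ := hc.isCompact.isBounded.subset_closedBall 0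
  have hz : ∀ z : Fin (n + 1) → ℝ, M < ‖z‖ → f z = 0 := by
    intro z hz
    by_contra h
    have h1 := hM (subset_tsupport f h)
    rw [mem_closedBall_zero_iff] at h1
    linarith
  refine ⟨|M| + 1, by positivity, ?_, ?_⟩
  · intro t y ht
    refine hz _ ?_
    have h1 := norm_le_pi_norm (Fin.cons t y : Fin (n + 1) → ℝ) 0
    rw [Fin.cons_zero, Real.norm_eq_abs] at h1
    have h2 : |M| + 1 ≤ |t| := by
      by_contra h3
      exact ht (abs_lt.1 (not_le.1 h3))
    have := le_abs_self M
    linarith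
  · intro t y hy
    refine hz _ ?_
    rw [mem_closedBall_zero_iff, not_le] at hy
    have h1 : ‖y‖ ≤ ‖(Fin.cons t y : Fin (n + 1) → ℝ)‖ := by
      refine (pi_norm_le_iff_of_nonneg (norm_nonneg _)).2 fun j => ?_
      have h1 := norm_le_pi_norm (Fin.cons t y : Fin (n + 1) → ℝ) j.succ
      rwa [Fin.cons_succ] at h1
    have := le_abs_self M
    linarith

/-- Partial integration in the first variable against a continuous function. -/
theorem PInt {n : ℕ} {f : (Fin (n + 1) → ℝ) → ℂ} (hf : ContDiff ℝ 1 f)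
    (hc : HasCompactSupport f) {e : ℝ → ℂ} (he : Continuous e) :
    ContDiff ℝ 1 (fun y : Fin n → ℝ => ∫ t, f (Fin.cons t y) * e t) ∧
    HasCompactSupport (fun y : Fin n → ℝ => ∫ t, f (Fin.cons t y) * e t) ∧
    ∀ (y : Fin n → ℝ) (k : Fin n),
      fderiv ℝ (fun y : Fin n → ℝ => ∫ t, f (Fin.cons t y) * e t) y (Pi.single k 1) =
        ∫ t, fderiv ℝ f (Fin.cons t y) (Pi.single k.succ 1) * e t := by
  obtain ⟨M, hM0, hM1, hM2⟩ := supp_bd hc
  have hfd : Continuous (fderiv ℝ f) := hf.continuous_fderiv (by norm_num)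
  have hfc : HasCompactSupport (fderiv ℝ f) := hc.fderiv (𝕜 := ℝ)
  obtain ⟨C, hC⟩ := hfc.exists_bound_of_continuous hfd
  have hC0 : 0 ≤ C := le_trans (norm_nonneg _) (hC 0)
  obtain ⟨E, hE⟩ : ∃ E : ℝ, ∀ t ∈ Icc (-M) M, ‖e t‖ ≤ E :=
    isCompact_Icc.exists_bound_of_continuousOn he.continuousOn
  have hE0 : 0 ≤ E := le_trans (norm_nonneg _) (hE 0 ⟨by linarith, hM0.le⟩)
  -- the derivative vanishes away from the support
  have hD0 : ∀ (t : ℝ) (y : Fin n → ℝ), t ∉ Icc (-M) M → fderiv ℝ f (Fin.cons t y) = 0 := by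
    intro t y ht
    have h1 : f =ᶠ[nhds (Fin.cons t y : Fin (n + 1) → ℝ)] fun _ => 0 := by
      have ho : IsOpen {z : Fin (n + 1) → ℝ | z 0 ∉ Icc (-M) M} :=
        (isClosed_Icc.preimage (continuous_apply 0)).isOpen_compl
      filter_upwards [ho.mem_nhds (show (Fin.cons t y : Fin (n + 1) → ℝ) ∈ _ by simpa using ht)]
        with z hz
      have h2 := hM1 (z 0) (Fin.tail z) (fun h => hz ⟨h.1.le, h.2.le⟩)
      rwa [Fin.cons_self_tail] at h2
    rw [h1.fderiv_eq]
    simp
  have hLn : Continuous fun p : ℝ × (Fin n → ℝ) => fderiv ℝ f (Fin.cons p.1 p.2) :=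
    hfd.comp cons_cont2
  have key : ∀ y : Fin n → ℝ, HasFDerivAt (fun y : Fin n → ℝ => ∫ t, f (Fin.cons t y) * e t)
      (∫ t, e t • (fderiv ℝ f (Fin.cons t y)).comp (slice_reg_L n)) y := by
    intro y
    refine hasFDerivAt_integral_of_dominated_of_fderiv_le (μ := (volume : Measure ℝ))
      (F := fun (y : Fin n → ℝ) (t : ℝ) => f (Fin.cons t y) * e t)
      (F' := fun (y : Fin n → ℝ) (t : ℝ) => e t • (fderiv ℝ f (Fin.cons t y)).comp (slice_reg_L n))
      (s := Set.univ)
      (bound := (Icc (-M) M).indicator (fun _ => E * (C * ‖slice_reg_L n‖)))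
      Filter.univ_mem ?_ ?_ ?_ ?_ ?_ ?_
    · refine Filter.Eventually.of_forall fun y => ?_
      exact ((hf.continuous.comp (cons_cont_left y)).mul he).aestronglyMeasurable
    · refine ((hf.continuous.comp (cons_cont_left y)).mul he).integrable_of_hasCompactSupport ?_
      refine HasCompactSupport.intro (isCompact_Icc (a := -M) (b := M)) fun t ht => ?_
      show f (Fin.cons t y) * e t = 0
      rw [hM1 t y (fun h => ht ⟨h.1.le, h.2.le⟩), zero_mul]
    · have h1 : Continuous fun t : ℝ => e t • (fderiv ℝ f (Fin.cons t y)).comp (slice_reg_L n) := by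
        refine he.smul ?_
        exact (hfd.comp (cons_cont_left y)).clm_comp continuous_const
      exact h1.aestronglyMeasurable
    · refine Filter.Eventually.of_forall fun t y _ => ?_
      by_cases ht : t ∈ Icc (-M) M
      · rw [Set.indicator_of_mem ht, norm_smul]
        refine mul_le_mul (hE t ht) ?_ (norm_nonneg _) hE0
        refine (ContinuousLinearMap.opNorm_comp_le _ _).trans ?_
        exact mul_le_mul_of_nonneg_right (hC _) (norm_nonneg _)
      · rw [Set.indicator_of_notMem ht, hD0 t y ht]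
        simp
    · rw [integrable_indicator_iff measurableSet_Icc]
      exact integrableOn_const (isCompact_Icc.measure_lt_top.ne)
    · refine Filter.Eventually.of_forall fun t y _ => ?_
      have h1 : HasFDerivAt f (fderiv ℝ f (Fin.cons t y)) (Fin.cons t y) :=
        (hf.differentiable (by norm_num) _).hasFDerivAt
      have h2 := HasFDerivAt.comp (g := f) y h1 (slice_reg_fd t y)
      have h3 := h2.mul_const (e t)
      exact h3
  have hcd : Continuous fun y : Fin n → ℝ =>
      ∫ t, e t • (fderiv ℝ f (Fin.cons t y)).comp (slice_reg_L n) := by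
    have h1 : (fun y : Fin n → ℝ => ∫ t, e t • (fderiv ℝ f (Fin.cons t y)).comp (slice_reg_L n)) =
        fun y : Fin n → ℝ => ∫ t in Icc (-M) M,
          e t • (fderiv ℝ f (Fin.cons t y)).comp (slice_reg_L n) := by
      funext y
      refine (setIntegral_eq_integral_of_forall_compl_eq_zero fun t ht => ?_).symm
      rw [hD0 t y ht, ContinuousLinearMap.zero_comp]
      refine ContinuousLinearMap.ext fun v => ?_
      show e t * ((0 : (Fin n → ℝ) →L[ℝ] ℂ) v) = 0
      simp
    rw [h1]
    refine continuous_parametric_integral_of_continuous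
      (f := fun (y : Fin n → ℝ) (t : ℝ) => e t • (fderiv ℝ f (Fin.cons t y)).comp (slice_reg_L n))
      ?_ isCompact_Icc
    have h2 : Continuous fun p : (Fin n → ℝ) × ℝ => fderiv ℝ f (Fin.cons p.2 p.1) :=
      hfd.comp (cons_cont2.comp continuous_swap)
    exact (he.comp continuous_snd).smul (h2.clm_comp continuous_const)
  refine ⟨?_, ?_, ?_⟩
  · rw [contDiff_one_iff_fderiv]
    refine ⟨fun y => (key y).differentiableAt, ?_⟩
    have : fderiv ℝ (fun y : Fin n → ℝ => ∫ t, f (Fin.cons t y) * e t) =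
        fun y => ∫ t, e t • (fderiv ℝ f (Fin.cons t y)).comp (slice_reg_L n) :=
      funext fun y => (key y).fderiv
    rw [this]
    exact hcd
  · refine HasCompactSupport.intro (isCompact_closedBall (0 : Fin n → ℝ) M) fun y hy => ?_
    simp only [hM2 _ y hy, zero_mul, integral_zero]
  · intro y k
    rw [(key y).fderiv]
    have hint : Integrable fun t : ℝ => e t • (fderiv ℝ f (Fin.cons t y)).comp (slice_reg_L n) := by
      refine Continuous.integrable_of_hasCompactSupport ?_ ?_
      · exact he.smul ((hfd.comp (cons_cont_left y)).clm_comp continuous_const)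
      · refine HasCompactSupport.intro (isCompact_Icc (a := -M) (b := M)) fun t ht => ?_
        rw [hD0 t y ht, ContinuousLinearMap.zero_comp]
        refine ContinuousLinearMap.ext fun v => ?_
        show e t * ((0 : (Fin n → ℝ) →L[ℝ] ℂ) v) = 0
        simp
    rw [ContinuousLinearMap.integral_apply hint]
    refine integral_congr_ae (Filter.Eventually.of_forall fun t => ?_)
    have h4 : slice_reg_L n (Pi.single k 1) = Pi.single k.succ 1 := by
      funext i
      refine Fin.cases ?_ (fun l => ?_) i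
      · show (0 : ℝ) = _
        rw [Pi.single_eq_of_ne (Fin.succ_ne_zero k).symm]
      · show (Pi.single k (1 : ℝ) : Fin n → ℝ) l = _
        by_cases h : l = k
        · subst h
          rw [Pi.single_eq_same, Pi.single_eq_same]
        · rw [Pi.single_eq_of_ne h, Pi.single_eq_of_ne (fun h' => h (Fin.succ_injective _ h'))]
    show e t * (fderiv ℝ f (Fin.cons t y)) (slice_reg_L n (Pi.single k 1)) = _
    rw [h4, mul_comm]

/-- Fubini with the first variable integrated first. -/
theorem int_cons' {n : ℕ} (f : (Fin (n + 1) → ℝ) → ℂ) (hf : Continuous f)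
    (hc : HasCompactSupport f) :
    ∫ x, f x = ∫ y : Fin n → ℝ, ∫ t : ℝ, f (Fin.cons t y : Fin (n + 1) → ℝ) := by
  have hmp := volume_preserving_piFinSuccAbove (fun _ : Fin (n + 1) => ℝ) 0
  have hi : Integrable f := hf.integrable_of_hasCompactSupport hc
  have h1 : ∀ q : ℝ × (Fin n → ℝ),
      (MeasurableEquiv.piFinSuccAbove (fun _ : Fin (n + 1) => ℝ) 0).symm q =
        (Fin.cons q.1 q.2 : Fin (n + 1) → ℝ) := by
    intro q
    show Fin.insertNth (α := fun _ : Fin (n + 1) => ℝ) 0 q.1 q.2 = _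
    rw [Fin.insertNth_zero]
    rfl
  have hmp' := hmp.symm
  have h2 := hmp'.integral_comp
    (MeasurableEquiv.piFinSuccAbove (fun _ : Fin (n + 1) => ℝ) 0).symm.measurableEmbedding f
  have h3 := (hmp'.integrable_comp_emb
    (MeasurableEquiv.piFinSuccAbove (fun _ : Fin (n + 1) => ℝ) 0).symm.measurableEmbedding).2 hi
  rw [← h2]
  have h4 := integral_prod_symm _ h3
  simp only [Function.comp_def, h1] at h4
  simp only [h1]
  exact h4

theorem lint_cons' {n : ℕ} (f : (Fin (n + 1) → ℝ) → ℝ≥0∞) (hf : Measurable f) :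
    (∫⁻ x, f x = ∫⁻ y : Fin n → ℝ, ∫⁻ t : ℝ, f (Fin.cons t y : Fin (n + 1) → ℝ)) ∧
      Measurable fun y : Fin n → ℝ => ∫⁻ t : ℝ, f (Fin.cons t y : Fin (n + 1) → ℝ) := by
  have hmp := (volume_preserving_piFinSuccAbove (fun _ : Fin (n + 1) => ℝ) 0).symm
  have hcons : ∀ p : ℝ × (Fin n → ℝ),
      (MeasurableEquiv.piFinSuccAbove (fun _ : Fin (n + 1) => ℝ) 0).symm p =
        (Fin.cons p.1 p.2 : Fin (n + 1) → ℝ) := by
    intro p
    exact Fin.insertNth_zero' p.1 p.2
  have hmeas : Measurable fun p : ℝ × (Fin n → ℝ) => f (Fin.cons p.1 p.2 : Fin (n + 1) → ℝ) := by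
    have h1 := hf.comp (MeasurableEquiv.piFinSuccAbove (fun _ : Fin (n + 1) => ℝ) 0).symm.measurable
    convert h1 using 1
    funext p
    simp only [Function.comp]
    rw [hcons]
  refine ⟨?_, hmeas.lintegral_prod_left'⟩
  rw [← hmp.lintegral_comp hf, Measure.volume_eq_prod]
  rw [lintegral_prod_symm _ (by
    have h2 : (fun p : ℝ × (Fin n → ℝ) =>
      f ((MeasurableEquiv.piFinSuccAbove (fun _ : Fin (n + 1) => ℝ) 0).symm p)) =
      fun p : ℝ × (Fin n → ℝ) => f (Fin.cons p.1 p.2 : Fin (n + 1) → ℝ) := by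
      funext p; rw [hcons]
    rw [h2]
    exact hmeas.aemeasurable)]
  refine lintegral_congr fun t => lintegral_congr fun y => ?_
  rw [hcons]

end Pool.Agent.Helper961_mbly
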