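import Mathlib
import Pool.Agent.Helper766.M.Defs
import Pool.Agent.Helper766.M.L_beta_lint

set_option autoImplicit false

open MeasureTheory Set Real
open scoped ENNReal

namespace Pool.Agent.Helper961_mbly

open Pool.Agent.Helper766.M

theorem riem_half (F : ℝ → ℝ≥0∞) (hF : AntitoneOn F (Ici 0)) {h : ℝ} (hh : 0 < h) (M : ℕ) :
    ∑ i ∈ Finset.range M, F (h * (i + 1 : ℕ)) * ENNReal.ofReal h ≤
      ∫⁻ x in Ioc 0 (h * M), F x := by
  induction M with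
  | zero => simp
  | succ M ih =>
    rw [Finset.sum_range_succ]
    have h1 : Ioc 0 (h * (M + 1 : ℕ)) = Ioc 0 (h * M) ∪ Ioc (h * M) (h * (M + 1 : ℕ)) := by
      rw [Ioc_union_Ioc_eq_Ioc]
      · positivity
      · push_cast
        nlinarith
    rw [h1, lintegral_union measurableSet_Ioc]
    · refine add_le_add ih ?_
      have h2 : F (h * (M + 1 : ℕ)) * ENNReal.ofReal h =
          ∫⁻ _ in Ioc (h * M) (h * (M + 1 : ℕ)), F (h * (M + 1 : ℕ)) := by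
        rw [setLIntegral_const, Real.volume_Ioc]
        congr 2
        push_cast
        ring
      rw [h2]
      refine setLIntegral_mono' measurableSet_Ioc fun x hx => ?_
      have hx0 : 0 ≤ x := le_trans (by positivity) hx.1.le
      exact hF hx0 (le_trans hx0 hx.2) hx.2
    · rw [Set.disjoint_left]
      intro x hx hx'
      exact absurd hx.2 (not_le.2 hx'.1)

theorem sum_Icc_symm (f : ℤ → ℝ≥0∞) (M : ℕ) :
    ∑ k ∈ Finset.Icc (-(M : ℤ)) M, f k =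
      f 0 + ∑ i ∈ Finset.range M, (f ((i + 1 : ℕ) : ℤ) + f (-((i + 1 : ℕ) : ℤ))) := by
  induction M with
  | zero => simp
  | succ M ih =>
    have h1 : Finset.Icc (-((M + 1 : ℕ) : ℤ)) ((M + 1 : ℕ) : ℤ) =
        insert ((M + 1 : ℕ) : ℤ) (insert (-((M + 1 : ℕ) : ℤ)) (Finset.Icc (-(M : ℤ)) M)) := by
      ext k
      simp only [Finset.mem_Icc, Finset.mem_insert]
      push_cast
      omega
    rw [h1, Finset.sum_insert, Finset.sum_insert, ih, Finset.sum_range_succ]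
    · ring
    · simp only [Finset.mem_Icc, not_and, not_le]
      push_cast
      omega
    · simp only [Finset.mem_insert, Finset.mem_Icc, not_or, not_and, not_le]
      push_cast
      omega

theorem riem (F : ℝ → ℝ≥0∞) (hF : AntitoneOn F (Ici 0)) (he : ∀ x, F (-x) = F x) {h : ℝ}
    (hh : 0 < h) (M : ℕ) :
    ∑ k ∈ Finset.Icc (-(M : ℤ)) M, F (h * k) * ENNReal.ofReal h ≤
      F 0 * ENNReal.ofReal h + 2 * ∫⁻ x in Ioi 0, F x := by
  rw [sum_Icc_symm]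
  have h1 : ∀ i : ℕ, F (h * ((-((i + 1 : ℕ) : ℤ) : ℤ) : ℝ)) = F (h * ((i + 1 : ℕ) : ℝ)) := by
    intro i
    rw [← he]
    congr 1
    push_cast
    ring
  have h2 : ∑ i ∈ Finset.range M, (F (h * (((i + 1 : ℕ) : ℤ) : ℝ)) * ENNReal.ofReal h +
      F (h * ((-((i + 1 : ℕ) : ℤ) : ℤ) : ℝ)) * ENNReal.ofReal h) =
      2 * ∑ i ∈ Finset.range M, F (h * ((i + 1 : ℕ) : ℝ)) * ENNReal.ofReal h := by
    rw [Finset.mul_sum]
    refine Finset.sum_congr rfl fun i _ => ?_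
    rw [h1 i, two_mul, Int.cast_natCast]
  rw [h2]
  have h3 := riem_half F hF hh M
  have h4 : ∫⁻ x in Ioc 0 (h * M), F x ≤ ∫⁻ x in Ioi 0, F x :=
    lintegral_mono_set Ioc_subset_Ioi_self
  have h5 : F (h * ((0 : ℤ) : ℝ)) = F 0 := by simp
  rw [h5]
  gcongr
  exact h3.trans h4

theorem beta_sq (v : ℝ≥0∞) {q : ℝ} (hq : 0 < q) :
    2 * ∫⁻ x in Ioi (0 : ℝ), (v - ENNReal.ofReal (x ^ 2)) ^ q =
      ENNReal.ofReal (Gamma (1 / 2) * Gamma (q + 1) / Gamma (1 / 2 + q + 1)) *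
        v ^ (q + 1 / 2) := by
  rw [← beta_lint v (δ := 1 / 2) (by norm_num) hq]
  have himg : (fun x : ℝ => x ^ 2) '' Ioi 0 = Ioi 0 := by
    ext y
    constructor
    · rintro ⟨x, hx, rfl⟩
      have hx' : (0 : ℝ) < x := hx
      exact pow_pos hx' 2
    · intro hy
      exact ⟨√y, Real.sqrt_pos.2 hy, Real.sq_sqrt (le_of_lt hy)⟩
  have hinj : InjOn (fun x : ℝ => x ^ 2) (Ioi 0) := by
    intro x hx y hy hxy
    exact (pow_left_inj₀ (le_of_lt hx) (le_of_lt hy) two_ne_zero).1 hxy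
  have hder : ∀ x ∈ Ioi (0 : ℝ), HasDerivWithinAt (fun x : ℝ => x ^ 2) (2 * x) (Ioi 0) x := by
    intro x _
    have := (hasDerivAt_pow 2 x).hasDerivWithinAt (s := Ioi 0)
    simpa using this
  have h := lintegral_image_eq_lintegral_abs_deriv_mul measurableSet_Ioi hder hinj
    (fun t => ENNReal.ofReal (t ^ ((1 / 2 : ℝ) - 1)) * (v - ENNReal.ofReal t) ^ q)
  rw [himg] at h
  rw [h, ← lintegral_const_mul' _ _ (by norm_num)]
  refine setLIntegral_congr_fun measurableSet_Ioi fun x hx => ?_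
  have hx0 : (0 : ℝ) < x := hx
  beta_reduce
  have e1 : (x ^ 2) ^ ((1 / 2 : ℝ) - 1) = x⁻¹ := by
    rw [← Real.rpow_natCast, ← Real.rpow_mul hx0.le]
    rw [show ((2 : ℕ) : ℝ) * ((1 / 2 : ℝ) - 1) = -1 by push_cast; norm_num, Real.rpow_neg_one]
  rw [e1, ← mul_assoc, ← ENNReal.ofReal_mul (abs_nonneg _), abs_of_pos (by positivity)]
  have e2 : 2 * x * x⁻¹ = 2 := by field_simp
  rw [e2]
  norm_num

theorem Lcl_succ (n : ℕ) : Lcl 1 (n + 1) = 1 / (2 * π) * (Lcl 1 n *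
    (Gamma (1 / 2) * Gamma (1 + (n : ℝ) / 2 + 1) / Gamma (1 / 2 + (1 + (n : ℝ) / 2) + 1))) := by
  have hpi : 0 < π := Real.pi_pos
  have h4 : 0 < 4 * π := by positivity
  have hn : (0 : ℝ) ≤ n := Nat.cast_nonneg n
  have hG1 : 0 < Gamma (1 + 1 + (n : ℝ) / 2) := Real.Gamma_pos_of_pos (by positivity)
  have hG2 : 0 < Gamma (1 + 1 + ((n + 1 : ℕ) : ℝ) / 2) := Real.Gamma_pos_of_pos (by positivity)
  unfold Lcl
  have e1 : 1 + (n : ℝ) / 2 + 1 = 1 + 1 + (n : ℝ) / 2 := by ring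
  have e2 : 1 / 2 + (1 + (n : ℝ) / 2) + 1 = 1 + 1 + ((n + 1 : ℕ) : ℝ) / 2 := by push_cast; ring
  have e4 : (4 * π) ^ (((n + 1 : ℕ) : ℝ) / 2) = (4 * π) ^ ((n : ℝ) / 2) * (2 * √π) := by
    have : (((n + 1 : ℕ) : ℝ) / 2) = (n : ℝ) / 2 + 1 / 2 := by push_cast; ring
    rw [this, Real.rpow_add h4, ← Real.sqrt_eq_rpow (4 * π)]
    have h5 : √(4 * π) = 2 * √π := by
      rw [Real.sqrt_mul (by norm_num)]
      have : √(4 : ℝ) = 2 := by
        rw [show (4 : ℝ) = 2 ^ 2 by norm_num, Real.sqrt_sq (by norm_num)]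
      rw [this]
    rw [h5]
  rw [e1, e2, e4, Real.Gamma_one_half_eq]
  have hs : 0 < √π := Real.sqrt_pos.mpr hpi
  have hss : √π * √π = π := Real.mul_self_sqrt hpi.le
  have hp : 0 < (4 * π) ^ ((n : ℝ) / 2) := Real.rpow_pos_of_pos h4 _
  generalize Gamma (1 + 1 + ((n + 1 : ℕ) : ℝ) / 2) = D at *
  generalize Gamma (1 + 1 + (n : ℝ) / 2) = B at *
  generalize (4 * π) ^ ((n : ℝ) / 2) = A at *
  generalize √π = s at *
  rw [← hss]
  field_simp

theorem Lcl_pos (γ : ℝ) (hγ : 0 ≤ γ) (n : ℕ) : 0 < Lcl γ n := by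
  unfold Lcl
  have h1 : 0 < Gamma (γ + 1) := Gamma_pos_of_pos (by linarith)
  have h2 : 0 < Gamma (γ + 1 + (n : ℝ) / 2) := Gamma_pos_of_pos (by positivity)
  have h3 : 0 < (4 * π) ^ ((n : ℝ) / 2) := Real.rpow_pos_of_pos (by positivity) _
  positivity

theorem Lcl_one_zero : Lcl 1 0 = 1 := by
  unfold Lcl
  have h1 : Gamma (1 + 1 : ℝ) ≠ 0 := (Gamma_pos_of_pos (by norm_num)).ne'
  simp only [Nat.cast_zero, zero_div, Real.rpow_zero, add_zero, one_mul]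
  exact div_self h1

theorem Lcl_one_one : Lcl 1 1 = 2 / (3 * π) := by
  have h := Lcl_succ 0
  rw [Lcl_one_zero, zero_add] at h
  rw [h]
  have e1 : (1 : ℝ) + ((0 : ℕ) : ℝ) / 2 + 1 = 1 + 1 := by norm_num
  have e2 : 1 / 2 + (1 + ((0 : ℕ) : ℝ) / 2) + 1 = 3 / 2 + (1 : ℝ) := by norm_num
  rw [e1, e2, Gamma_add_one (by norm_num : (1 : ℝ) ≠ 0), Gamma_one,
    Gamma_add_one (by norm_num : (3 / 2 : ℝ) ≠ 0), show (3 / 2 : ℝ) = 1 / 2 + 1 by norm_num,
    Gamma_add_one (by norm_num : (1 / 2 : ℝ) ≠ 0)]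
  have h2 : Gamma (1 / 2) ≠ 0 := (Gamma_pos_of_pos (by norm_num)).ne'
  have h3 := Real.pi_pos.ne'
  field_simp
  norm_num

end Pool.Agent.Helper961_mbly
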