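import Mathlib
import Pool.Agent.Helper766.M.Defs
import Pool.Agent.Helper961_mbly.F1
import Pool.Agent.Helper961_mbly.PInt
import Pool.Agent.Helper961_mbly.Riem

set_option autoImplicit false

open MeasureTheory Set Real
open scoped ENNReal

namespace Pool.Agent.Helper961_mbly

open Pool.Agent.Helper766.M

/-- The operator inequality `∑ |v_j⟩⟨v_j| ≤ ω`. -/
def Domin {n N : ℕ} (v : Fin N → (Fin n → ℝ) → ℂ) (ω : (Fin n → ℝ) → ℝ≥0∞) : Prop :=
  ∀ φ : (Fin n → ℝ) → ℂ, Continuous φ → (∃ C, ∀ x, ‖φ x‖ ≤ C) →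
    ∑ j, ‖∫ x, v j x * φ x‖ₑ ^ 2 ≤ ∫⁻ x, ω x * ‖φ x‖ₑ ^ 2

/-- Families of `C¹` functions with compact support vanishing outside `D`. -/
structure Fam {n N : ℕ} (D : Set (Fin n → ℝ)) (v : Fin N → (Fin n → ℝ) → ℂ) : Prop where
  smooth : ∀ i, ContDiff ℝ 1 (v i)
  cpt : ∀ i, HasCompactSupport (v i)
  zero : ∀ i x, x ∉ D → v i x = 0

/-- The weighted Berezin-Li-Yau inequality. -/
def BL (n : ℕ) (D : Set (Fin n → ℝ)) (τ : ℝ) : Prop :=
  ∀ (N : ℕ) (v : Fin N → (Fin n → ℝ) → ℂ) (ω : (Fin n → ℝ) → ℝ≥0∞) (Λ : ℝ), Fam D v →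
    Measurable ω → Domin v ω →
    ENNReal.ofReal Λ * ∑ j, ∫⁻ x, ‖v j x‖ₑ ^ 2 ≤ Tmag 0 v +
      ENNReal.ofReal (Lcl 1 n) * (∫⁻ x, ω x) * ENNReal.ofReal (Λ - τ) ^ (1 + (n : ℝ) / 2)

theorem eT_zero {n : ℕ} (f : (Fin n → ℝ) → ℂ) (x : Fin n → ℝ) :
    eT 0 f x = ∑ l, ‖fderiv ℝ f x (Pi.single l 1)‖ₑ ^ 2 := by
  unfold eT
  simp

theorem lint_sq {X : Type*} [TopologicalSpace X] [MeasurableSpace X] [OpensMeasurableSpace X]
    (μ : Measure X) [IsFiniteMeasureOnCompacts μ]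
    {f : X → ℂ} (hf : Continuous f) (hc : HasCompactSupport f) :
    ∫⁻ x, ‖f x‖ₑ ^ 2 ∂μ = ENNReal.ofReal (∫ x, ‖f x‖ ^ 2 ∂μ) := by
  have hint : Integrable (fun x => ‖f x‖ ^ 2) μ := by
    have hcs : HasCompactSupport (fun x => ‖f x‖ ^ 2) := by
      refine hc.mono fun x hx => ?_
      rw [Function.mem_support] at hx ⊢
      intro e
      apply hx
      rw [e, norm_zero]
      norm_num
    exact (hf.norm.pow 2).integrable_of_hasCompactSupport hcs
  rw [ofReal_integral_eq_lintegral_ofReal hint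
    (Filter.Eventually.of_forall fun x => by positivity)]
  refine lintegral_congr fun x => ?_
  rw [ENNReal.ofReal_pow (norm_nonneg _), ofReal_norm]

/-- The normalized exponential. -/
noncomputable def ek (P l : ℝ) (t : ℝ) : ℂ :=
  ((1 / √P : ℝ) : ℂ) * Complex.exp (-(Complex.I * ((l * t : ℝ) : ℂ)))

theorem ek_cont (P l : ℝ) : Continuous (ek P l) := continuous_const.mul (ex_cont l)

theorem ek_norm {P : ℝ} (hP : 0 < P) (l t : ℝ) : ‖ek P l t‖ₑ ^ 2 = ENNReal.ofReal (1 / P) := by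
  rw [ek, ← ofReal_norm, norm_mul, norm_ex, mul_one, ← ENNReal.ofReal_pow (norm_nonneg _)]
  congr 1
  rw [Complex.norm_real, Real.norm_of_nonneg (by positivity), div_pow, Real.sq_sqrt hP.le]
  norm_num

theorem ek_int {P : ℝ} (hP : 0 < P) (l : ℝ) (f : ℝ → ℂ) :
    ‖∫ t, f t * ek P l t‖ₑ ^ 2 = ENNReal.ofReal (‖cf f l‖ ^ 2 / P) := by
  have h1 : ∫ t, f t * ek P l t = ((1 / √P : ℝ) : ℂ) * cf f l := by
    rw [cf, ← integral_const_mul]
    refine integral_congr_ae (Filter.Eventually.of_forall fun t => ?_)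
    simp only [ek]
    ring
  rw [h1, ← ofReal_norm, norm_mul, ← ENNReal.ofReal_pow (by positivity)]
  congr 1
  rw [Complex.norm_real, Real.norm_of_nonneg (by positivity), mul_pow, div_pow, Real.sq_sqrt hP.le]
  ring

/-- The pointwise inequality in one variable. -/
theorem line_ineq {f f' : ℝ → ℂ} (hf : ∀ t, HasDerivAt f (f' t) t) (hf' : Continuous f')
    (hc : HasCompactSupport f) {c P : ℝ} (hP : 0 < P)
    (hs : ∀ t, t ∉ Ioo c (c + P) → f t = 0) (l0 Λ : ℝ) (S : Finset ℤ)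
    (hS : ∀ k, k ∉ S → Λ ≤ (l0 + 2 * π * k / P) ^ 2) :
    ENNReal.ofReal Λ * ∫⁻ t, ‖f t‖ₑ ^ 2 ≤ (∫⁻ t, ‖f' t‖ₑ ^ 2) +
      ∑ k ∈ S, ENNReal.ofReal (Λ - (l0 + 2 * π * k / P) ^ 2) *
        ‖∫ t, f t * ek P (l0 + 2 * π * k / P) t‖ₑ ^ 2 := by
  rcases lt_or_ge Λ 0 with hΛ | hΛ
  · rw [ENNReal.ofReal_of_nonpos hΛ.le, zero_mul]
    exact zero_le
  have hfc : Continuous f := continuous_iff_continuousAt.2 fun t => (hf t).continuousAt
  have hc' : HasCompactSupport f' := by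
    have : f' = deriv f := by funext t; exact (hf t).deriv.symm
    rw [this]
    exact hc.deriv
  rw [lint_sq volume hfc hc, lint_sq volume hf' hc', ← ENNReal.ofReal_mul hΛ]
  have h1 := F1 hf hf' hc hP hs l0 Λ S hS
  have h2 : Λ * ∫ t, ‖f t‖ ^ 2 ≤ (∫ t, ‖f' t‖ ^ 2) +
      ∑ k ∈ S, max (Λ - (l0 + 2 * π * k / P) ^ 2) 0 *
        (‖cf f (l0 + 2 * π * k / P)‖ ^ 2 / P) := by
    refine h1.trans ?_
    gcongr
    exact le_max_left _ _
  refine (ENNReal.ofReal_le_ofReal h2).trans ?_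
  rw [ENNReal.ofReal_add (integral_nonneg fun t => by positivity)
    (Finset.sum_nonneg fun k _ => mul_nonneg (le_max_right _ _) (by positivity)),
    ENNReal.ofReal_sum_of_nonneg fun k _ => mul_nonneg (le_max_right _ _) (by positivity)]
  gcongr with k _
  rw [ENNReal.ofReal_mul (le_max_right _ _), ek_int hP, ENNReal.ofReal_max, ENNReal.ofReal_zero,
    max_eq_left zero_le]

theorem line_bessel {f : ℝ → ℂ} (hf : Continuous f) (hc : HasCompactSupport f) {c P : ℝ}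
    (hP : 0 < P) (hs : ∀ t, t ∉ Ioo c (c + P) → f t = 0) (l0 : ℝ) (S : Finset ℤ) :
    ∑ k ∈ S, ‖∫ t, f t * ek P (l0 + 2 * π * k / P) t‖ₑ ^ 2 ≤ ∫⁻ t, ‖f t‖ₑ ^ 2 := by
  rw [lint_sq volume hf hc]
  simp only [ek_int hP]
  rw [← ENNReal.ofReal_sum_of_nonneg fun k _ => by positivity]
  refine ENNReal.ofReal_le_ofReal (F2 hf hP (fun t ht => hs t fun h => ht ⟨h.1, h.2.le⟩) l0 S)

/-- The coefficient functions. -/
noncomputable def wk {n N : ℕ} (v : Fin N → (Fin (n + 1) → ℝ) → ℂ) (P l : ℝ) :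
    Fin N → (Fin n → ℝ) → ℂ := fun j y => ∫ t, v j (Fin.cons t y) * ek P l t

theorem wk_domin {n N : ℕ} {D : Set (Fin (n + 1) → ℝ)} {v : Fin N → (Fin (n + 1) → ℝ) → ℂ}
    (hv : Fam D v) {ω : (Fin (n + 1) → ℝ) → ℝ≥0∞} (hω : Measurable ω) (hd : Domin v ω)
    {P : ℝ} (hP : 0 < P) (l : ℝ) :
    Domin (wk v P l) (fun y => ENNReal.ofReal (1 / P) * ∫⁻ t, ω (Fin.cons t y)) := by
  intro φ hφ hφb
  obtain ⟨C, hC⟩ := hφb
  have hlast : Continuous fun x : Fin (n + 1) → ℝ => φ (Fin.tail x) := by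
    refine hφ.comp ?_
    exact continuous_pi fun j => continuous_apply _
  have h1 := hd (fun x => ek P l (x 0) * φ (Fin.tail x))
    (((ek_cont P l).comp (continuous_apply 0)).mul hlast)
    ⟨1 / √P * C, fun x => by
      rw [norm_mul]
      refine mul_le_mul (le_of_eq ?_) (hC _) (norm_nonneg _) (by positivity)
      rw [ek, norm_mul, norm_ex, mul_one, Complex.norm_real, Real.norm_of_nonneg (by positivity)]⟩
  have h2 : ∀ j, ∫ y, wk v P l j y * φ y =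
      ∫ x, v j x * (ek P l (x 0) * φ (Fin.tail x)) := by
    intro j
    rw [int_cons' (fun x => v j x * (ek P l (x 0) * φ (Fin.tail x)))
      ((hv.smooth j).continuous.mul (((ek_cont P l).comp (continuous_apply 0)).mul hlast))
      ((hv.cpt j).mul_right)]
    refine integral_congr_ae (Filter.Eventually.of_forall fun y => ?_)
    simp only [wk, Fin.cons_zero, Fin.tail_cons]
    rw [← integral_mul_const]
    refine integral_congr_ae (Filter.Eventually.of_forall fun t => ?_)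
    simp only
    ring
  simp only [h2]
  refine h1.trans (le_of_eq ?_)
  have hm : Measurable fun x : Fin (n + 1) → ℝ => ω x * ‖ek P l (x 0) * φ (Fin.tail x)‖ₑ ^ 2 :=
    hω.mul ((((ek_cont P l).comp (continuous_apply 0)).mul hlast).measurable.enorm.pow_const 2)
  rw [(lint_cons' _ hm).1]
  refine lintegral_congr fun y => ?_
  have hm2 : Measurable fun t : ℝ => ω (Fin.cons t y) := hω.comp (cons_cont_left y).measurable
  simp only [Fin.cons_zero, Fin.tail_cons, enorm_mul, mul_pow, ek_norm hP]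
  rw [← lintegral_const_mul _ hm2, ← lintegral_mul_const]
  · refine lintegral_congr fun t => ?_
    ring
  · exact hm2.const_mul _

theorem wk_fam {n N : ℕ} {D : Set (Fin n → ℝ)} {v : Fin N → (Fin (n + 1) → ℝ) → ℂ}
    (hv : Fam (Fin.tail ⁻¹' D) v) (P l : ℝ) : Fam D (wk v P l) := by
  refine ⟨fun i => (PInt (hv.smooth i) (hv.cpt i) (ek_cont P l)).1,
    fun i => (PInt (hv.smooth i) (hv.cpt i) (ek_cont P l)).2.1, fun i y hy => ?_⟩
  unfold wk
  have : ∀ t : ℝ, v i (Fin.cons t y) = 0 := fun t => hv.zero i _ (by simpa using hy)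
  simp [this]

/-- The tangential derivatives vanish where the function vanishes on the whole slice. -/
theorem fd_succ_zero {n : ℕ} {f : (Fin (n + 1) → ℝ) → ℂ} (hf : ContDiff ℝ 1 f) {t : ℝ}
    (h0 : ∀ y : Fin n → ℝ, f (Fin.cons t y) = 0) (y : Fin n → ℝ) (l : Fin n) :
    fderiv ℝ f (Fin.cons t y) (Pi.single l.succ 1) = 0 := by
  have h1 : HasDerivAt (fun s : ℝ => (Fin.cons t (y + s • (Pi.single l 1 : Fin n → ℝ)) :
      Fin (n + 1) → ℝ)) (Pi.single l.succ 1 : Fin (n + 1) → ℝ) 0 := by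
    rw [hasDerivAt_pi]
    intro i
    refine Fin.cases ?_ (fun j => ?_) i
    · simp only [Fin.cons_zero]
      rw [Pi.single_eq_of_ne (Fin.succ_ne_zero l).symm]
      exact hasDerivAt_const _ _
    · simp only [Fin.cons_succ, Pi.add_apply, Pi.smul_apply, smul_eq_mul]
      have e : (Pi.single l.succ 1 : Fin (n + 1) → ℝ) j.succ = (Pi.single l 1 : Fin n → ℝ) j := by
        by_cases hj : j = l
        · subst hj
          simp
        · rw [Pi.single_eq_of_ne hj, Pi.single_eq_of_ne fun h => hj (Fin.succ_injective _ h)]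
      rw [e]
      simpa using ((hasDerivAt_id' (0 : ℝ)).mul_const ((Pi.single l 1 : Fin n → ℝ) j)).const_add
        (y j)
  have h2 : HasFDerivAt f (fderiv ℝ f (Fin.cons t y : Fin (n + 1) → ℝ))
      ((fun s : ℝ => (Fin.cons t (y + s • (Pi.single l 1 : Fin n → ℝ)) : Fin (n + 1) → ℝ)) 0) := by
    simp only [zero_smul, add_zero]
    exact (hf.differentiable (by norm_num)).differentiableAt.hasFDerivAt
  have h3 := h2.comp_hasDerivAt (0 : ℝ) h1
  have h4 : HasDerivAt (f ∘ fun s : ℝ => (Fin.cons t (y + s • (Pi.single l 1 : Fin n → ℝ)) :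
      Fin (n + 1) → ℝ)) 0 0 := by
    have e : (f ∘ fun s : ℝ => (Fin.cons t (y + s • (Pi.single l 1 : Fin n → ℝ)) :
        Fin (n + 1) → ℝ)) = fun _ => 0 := by
      funext s
      exact h0 _
    rw [e]
    exact hasDerivAt_const _ _
  exact h3.unique h4

/-- The bound for one period length. -/
theorem BL_cell {n : ℕ} {D : Set (Fin n → ℝ)} {τ : ℝ} (h : BL n D τ) {N : ℕ}
    (v : Fin N → (Fin (n + 1) → ℝ) → ℂ) (ω : (Fin (n + 1) → ℝ) → ℝ≥0∞) (Λ : ℝ)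
    (hv : Fam (Fin.tail ⁻¹' D) v) (hω : Measurable ω) (hd : Domin v ω) {c P : ℝ} (hP0 : 0 < P)
    (hcell' : ∀ j x, x 0 ∉ Ioo c (c + P) → v j x = 0) (l0 : ℝ) (S : Finset ℤ)
    (hS : ∀ k, k ∉ S → Λ ≤ (l0 + 2 * π * k / P) ^ 2) :
    ENNReal.ofReal Λ * ∑ j, ∫⁻ x, ‖v j x‖ₑ ^ 2 ≤ Tmag 0 v +
      ∑ k ∈ S, ENNReal.ofReal (Lcl 1 n) * (ENNReal.ofReal (1 / P) * ∫⁻ x, ω x) *
        ENNReal.ofReal (Λ - (l0 + 2 * π * k / P) ^ 2 - τ) ^ (1 + (n : ℝ) / 2) := by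
  have hcell : ∀ j (y : Fin n → ℝ) (t : ℝ), t ∉ Ioo c (c + P) → v j (Fin.cons t y) = 0 := by
    intro j y t ht
    exact hcell' j _ (by simpa using ht)
  have hfd : ∀ j, Continuous (fderiv ℝ (v j)) := fun j => (hv.smooth j).continuous_fderiv (by norm_num)
  obtain ⟨lk, hlk⟩ : ∃ lk : ℤ → ℝ, lk = fun k : ℤ => l0 + 2 * π * (k : ℝ) / P := ⟨_, rfl⟩
  have hlk' : ∀ k : ℤ, l0 + 2 * π * k / P = lk k := fun k => by rw [hlk]
  simp only [hlk'] at hS ⊢
  -- measurability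
  have mv : ∀ j, Measurable fun x => ‖v j x‖ₑ ^ 2 := fun j =>
    (hv.smooth j).continuous.measurable.enorm.pow_const 2
  have md : ∀ j (l : Fin (n + 1)), Measurable fun x => ‖fderiv ℝ (v j) x (Pi.single l 1)‖ₑ ^ 2 :=
    fun j l => ((hfd j).clm_apply continuous_const).measurable.enorm.pow_const 2
  have hw : ∀ k, Fam D (wk v P (lk k)) := fun k => wk_fam hv P (lk k)
  have mw : ∀ k j, Measurable fun y => ‖wk v P (lk k) j y‖ₑ ^ 2 := fun k j =>
    ((hw k).smooth j).continuous.measurable.enorm.pow_const 2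
  have mwd : ∀ k j (l : Fin n), Measurable fun y =>
      ‖fderiv ℝ (wk v P (lk k) j) y (Pi.single l 1)‖ₑ ^ 2 := fun k j l =>
    ((((hw k).smooth j).continuous_fderiv (by norm_num)).clm_apply
      continuous_const).measurable.enorm.pow_const 2
  -- the inequality in the first variable
  have A1 : ∀ j, ENNReal.ofReal Λ * ∫⁻ x, ‖v j x‖ₑ ^ 2 ≤
      (∫⁻ x, ‖fderiv ℝ (v j) x (Pi.single 0 1)‖ₑ ^ 2) +
        ∑ k ∈ S, ENNReal.ofReal (Λ - lk k ^ 2) * ∫⁻ y, ‖wk v P (lk k) j y‖ₑ ^ 2 := by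
    intro j
    rw [(lint_cons' _ (mv j)).1, (lint_cons' _ (md j 0)).1,
      ← lintegral_const_mul _ (lint_cons' _ (mv j)).2]
    have e1 : ∑ k ∈ S, ENNReal.ofReal (Λ - lk k ^ 2) * ∫⁻ y, ‖wk v P (lk k) j y‖ₑ ^ 2 =
        ∫⁻ y, ∑ k ∈ S, ENNReal.ofReal (Λ - lk k ^ 2) * ‖wk v P (lk k) j y‖ₑ ^ 2 := by
      rw [lintegral_finsetSum _ fun k _ => (mw k j).const_mul _]
      refine Finset.sum_congr rfl fun k _ => ?_
      rw [lintegral_const_mul _ (mw k j)]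
    rw [e1, ← lintegral_add_left (lint_cons' _ (md j 0)).2]
    refine lintegral_mono fun y => ?_
    have hder : ∀ t, HasDerivAt (fun t : ℝ => v j (Fin.cons t y))
        (fderiv ℝ (v j) (Fin.cons t y) (Pi.single 0 1)) t := by
      intro t
      have h2 : HasFDerivAt (v j) (fderiv ℝ (v j) (Fin.cons t y : Fin (n + 1) → ℝ))
          (Fin.cons t y : Fin (n + 1) → ℝ) :=
        ((hv.smooth j).differentiable (by norm_num)).differentiableAt.hasFDerivAt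
      exact h2.comp_hasDerivAt t (cons_deriv y t)
    have hcs : HasCompactSupport fun t : ℝ => v j (Fin.cons t y) := by
      refine HasCompactSupport.intro (isCompact_Icc (a := c) (b := c + P)) fun t ht => ?_
      exact hcell j y t fun h => ht ⟨h.1.le, h.2.le⟩
    have h3 := line_ineq hder (((hfd j).comp (cons_cont_left y)).clm_apply continuous_const) hcs hP0
      (hcell j y) l0 Λ S (by simpa only [hlk'] using hS)
    simp only [hlk'] at h3
    exact h3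
  -- Bessel for the gradient
  have A2 : ∀ j (l : Fin n), ∑ k ∈ S, ∫⁻ y, ‖fderiv ℝ (wk v P (lk k) j) y (Pi.single l 1)‖ₑ ^ 2 ≤
      ∫⁻ x, ‖fderiv ℝ (v j) x (Pi.single l.succ 1)‖ₑ ^ 2 := by
    intro j l
    rw [(lint_cons' _ (md j l.succ)).1, ← lintegral_finsetSum _ fun k _ => mwd k j l]
    refine lintegral_mono fun y => ?_
    have e1 : ∀ k, fderiv ℝ (wk v P (lk k) j) y (Pi.single l 1) =
        ∫ t, fderiv ℝ (v j) (Fin.cons t y) (Pi.single l.succ 1) * ek P (lk k) t := fun k =>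
      (PInt (hv.smooth j) (hv.cpt j) (ek_cont P (lk k))).2.2 y l
    simp only [e1]
    have hz : ∀ t, t ∉ Ioo c (c + P) →
        fderiv ℝ (v j) (Fin.cons t y) (Pi.single l.succ 1) = 0 := by
      intro t ht
      exact fd_succ_zero (hv.smooth j) (fun y' => hcell j y' t ht) y l
    have h3 := line_bessel (((hfd j).comp (cons_cont_left y)).clm_apply
      (continuous_const (y := (Pi.single l.succ 1 : Fin (n + 1) → ℝ))))
      (HasCompactSupport.intro (isCompact_Icc (a := c) (b := c + P)) fun t ht =>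
        hz t fun h => ht ⟨h.1.le, h.2.le⟩) hP0 hz l0 S
    simp only [hlk'] at h3
    exact h3
  -- the induction hypothesis
  have A3 : ∀ k, ENNReal.ofReal (Λ - lk k ^ 2) * ∑ j, ∫⁻ y, ‖wk v P (lk k) j y‖ₑ ^ 2 ≤
      Tmag 0 (wk v P (lk k)) + ENNReal.ofReal (Lcl 1 n) * (ENNReal.ofReal (1 / P) * ∫⁻ x, ω x) *
        ENNReal.ofReal (Λ - lk k ^ 2 - τ) ^ (1 + (n : ℝ) / 2) := by
    intro k
    have h3 := h N (wk v P (lk k)) (fun y => ENNReal.ofReal (1 / P) * ∫⁻ t, ω (Fin.cons t y))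
      (Λ - lk k ^ 2) (hw k) ((lint_cons' _ hω).2.const_mul _) (wk_domin hv hω hd hP0 (lk k))
    rw [lintegral_const_mul _ (lint_cons' _ hω).2, ← (lint_cons' _ hω).1] at h3
    exact h3
  have hT0 : Tmag 0 v = ∑ j, (∫⁻ x, ‖fderiv ℝ (v j) x (Pi.single 0 1)‖ₑ ^ 2) +
      ∑ j, ∑ l : Fin n, ∫⁻ x, ‖fderiv ℝ (v j) x (Pi.single l.succ 1)‖ₑ ^ 2 := by
    unfold Tmag
    rw [← Finset.sum_add_distrib]
    refine Finset.sum_congr rfl fun j _ => ?_
    simp only [eT_zero]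
    rw [lintegral_finsetSum _ fun l _ => md j l, Fin.sum_univ_succ]
  have hTk : ∑ k ∈ S, Tmag 0 (wk v P (lk k)) ≤
      ∑ j, ∑ l : Fin n, ∫⁻ x, ‖fderiv ℝ (v j) x (Pi.single l.succ 1)‖ₑ ^ 2 := by
    have e2 : ∀ k, Tmag 0 (wk v P (lk k)) =
        ∑ j, ∑ l : Fin n, ∫⁻ y, ‖fderiv ℝ (wk v P (lk k) j) y (Pi.single l 1)‖ₑ ^ 2 := by
      intro k
      unfold Tmag
      refine Finset.sum_congr rfl fun j _ => ?_
      simp only [eT_zero]
      rw [lintegral_finsetSum _ fun l _ => mwd k j l]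
    simp only [e2]
    rw [Finset.sum_comm]
    refine Finset.sum_le_sum fun j _ => ?_
    rw [Finset.sum_comm]
    exact Finset.sum_le_sum fun l _ => A2 j l
  calc ENNReal.ofReal Λ * ∑ j, ∫⁻ x, ‖v j x‖ₑ ^ 2
      = ∑ j, ENNReal.ofReal Λ * ∫⁻ x, ‖v j x‖ₑ ^ 2 := Finset.mul_sum _ _ _
    _ ≤ ∑ j, ((∫⁻ x, ‖fderiv ℝ (v j) x (Pi.single 0 1)‖ₑ ^ 2) +
        ∑ k ∈ S, ENNReal.ofReal (Λ - lk k ^ 2) * ∫⁻ y, ‖wk v P (lk k) j y‖ₑ ^ 2) :=
        Finset.sum_le_sum fun j _ => A1 j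
    _ = ∑ j, (∫⁻ x, ‖fderiv ℝ (v j) x (Pi.single 0 1)‖ₑ ^ 2) +
        ∑ k ∈ S, ENNReal.ofReal (Λ - lk k ^ 2) * ∑ j, ∫⁻ y, ‖wk v P (lk k) j y‖ₑ ^ 2 := by
        rw [Finset.sum_add_distrib, Finset.sum_comm]
        simp only [Finset.mul_sum]
    _ ≤ ∑ j, (∫⁻ x, ‖fderiv ℝ (v j) x (Pi.single 0 1)‖ₑ ^ 2) +
        ∑ k ∈ S, (Tmag 0 (wk v P (lk k)) +
          ENNReal.ofReal (Lcl 1 n) * (ENNReal.ofReal (1 / P) * ∫⁻ x, ω x) *
          ENNReal.ofReal (Λ - lk k ^ 2 - τ) ^ (1 + (n : ℝ) / 2)) := by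
        gcongr with k _
        exact A3 k
    _ = ∑ j, (∫⁻ x, ‖fderiv ℝ (v j) x (Pi.single 0 1)‖ₑ ^ 2) +
        (∑ k ∈ S, Tmag 0 (wk v P (lk k)) + ∑ k ∈ S,
          ENNReal.ofReal (Lcl 1 n) * (ENNReal.ofReal (1 / P) * ∫⁻ x, ω x) *
          ENNReal.ofReal (Λ - lk k ^ 2 - τ) ^ (1 + (n : ℝ) / 2)) := by
        rw [Finset.sum_add_distrib]
    _ ≤ _ := by
        rw [hT0, add_assoc]
        gcongr

/-- The bound for one long period. -/
theorem BL_step {n : ℕ} {D : Set (Fin n → ℝ)} {τ : ℝ} (h : BL n D τ) {N : ℕ}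
    (v : Fin N → (Fin (n + 1) → ℝ) → ℂ) (ω : (Fin (n + 1) → ℝ) → ℝ≥0∞) (Λ : ℝ)
    (hv : Fam (Fin.tail ⁻¹' D) v) (hω : Measurable ω) (hd : Domin v ω) :
    ∃ P0 : ℝ, 0 < P0 ∧ ∀ P : ℝ, P0 ≤ P → ∀ S : Finset ℤ,
      (∀ k, k ∉ S → Λ ≤ (0 + 2 * π * k / P) ^ 2) →
      ENNReal.ofReal Λ * ∑ j, ∫⁻ x, ‖v j x‖ₑ ^ 2 ≤ Tmag 0 v +
        ∑ k ∈ S, ENNReal.ofReal (Lcl 1 n) * (ENNReal.ofReal (1 / P) * ∫⁻ x, ω x) *
          ENNReal.ofReal (Λ - (0 + 2 * π * k / P) ^ 2 - τ) ^ (1 + (n : ℝ) / 2) := by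
  have hM := fun j => supp_bd (hv.cpt j)
  choose M hM0 hM1 hM2 using hM
  obtain ⟨M0, hM00, hM01⟩ : ∃ M0 : ℝ, 0 < M0 ∧ ∀ j, M j < M0 := by
    refine ⟨1 + ∑ j, M j, ?_, fun j => ?_⟩
    · have : 0 ≤ ∑ j, M j := Finset.sum_nonneg fun j _ => (hM0 j).le
      linarith
    · have := Finset.single_le_sum (f := M) (fun i _ => (hM0 i).le) (Finset.mem_univ j)
      linarith
  refine ⟨2 * M0, by positivity, ?_⟩
  intro P hP S hS
  refine BL_cell h v ω Λ hv hω hd (c := -M0) (P := P) (by linarith) ?_ 0 S hS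
  intro j x hx
  have h1 := hM1 j (x 0) (Fin.tail x) fun h1 => hx ⟨by linarith [h1.1, hM01 j],
    by linarith [h1.2, hM01 j]⟩
  rwa [Fin.cons_self_tail] at h1

theorem BL_succ {n : ℕ} {D : Set (Fin n → ℝ)} {τ : ℝ} (h : BL n D τ) :
    BL (n + 1) (Fin.tail ⁻¹' D) τ := by
  intro N v ω Λ hv hω hd
  obtain ⟨P0, hP0, hstep⟩ := BL_step h v ω Λ hv hω hd
  have hn : (0 : ℝ) ≤ n := Nat.cast_nonneg n
  obtain ⟨q, hq⟩ : ∃ q : ℝ, q = 1 + (n : ℝ) / 2 := ⟨_, rfl⟩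
  have hq0 : 0 < q := by rw [hq]; positivity
  obtain ⟨V, hV⟩ : ∃ V : ℝ≥0∞, V = ENNReal.ofReal (Λ - τ) := ⟨_, rfl⟩
  have hVt : V ≠ ⊤ := by rw [hV]; exact ENNReal.ofReal_ne_top
  obtain ⟨B, hB⟩ : ∃ B : ℝ≥0∞, B = ENNReal.ofReal (Gamma (1 / 2) * Gamma (q + 1) /
      Gamma (1 / 2 + q + 1)) * V ^ (q + 1 / 2) := ⟨_, rfl⟩
  have hc0 : 0 < Gamma (1 / 2) * Gamma (q + 1) / Gamma (1 / 2 + q + 1) :=
    div_pos (mul_pos (Gamma_pos_of_pos (by norm_num)) (Gamma_pos_of_pos (by linarith)))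
      (Gamma_pos_of_pos (by linarith))
  obtain ⟨K, hK⟩ : ∃ K : ℝ≥0∞, K = ENNReal.ofReal (Lcl 1 n) * (ENNReal.ofReal (1 / (2 * π)) *
      ∫⁻ x, ω x) := ⟨_, rfl⟩
  -- the bound for every period
  have hbd : ∀ P : ℝ, P0 ≤ P → ENNReal.ofReal Λ * ∑ j, ∫⁻ x, ‖v j x‖ₑ ^ 2 ≤ Tmag 0 v +
      K * (V ^ q * ENNReal.ofReal (2 * π / P) + B) := by
    intro P hP
    have hPp : 0 < P := by linarith
    obtain ⟨M, hM⟩ : ∃ M : ℕ, |Λ| + 1 ≤ 2 * π / P * M := by
      obtain ⟨M, hM⟩ := exists_nat_ge ((|Λ| + 1) / (2 * π / P))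
      refine ⟨M, ?_⟩
      have h1 : 0 < 2 * π / P := by positivity
      rw [div_le_iff₀ h1] at hM
      linarith
    have hS : ∀ k : ℤ, k ∉ Finset.Icc (-(M : ℤ)) M → Λ ≤ (0 + 2 * π * k / P) ^ 2 := by
      intro k hk
      have h1 : (M : ℝ) ≤ |(k : ℝ)| := by
        rw [Finset.mem_Icc, not_and_or, not_le, not_le] at hk
        rw [← Int.cast_abs]
        have : (M : ℤ) ≤ |k| := by
          rcases hk with h | h
          · rw [abs_of_neg (by omega)]; omega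
          · exact h.le.trans (le_abs_self k)
        exact_mod_cast this
      have h2 : |Λ| + 1 ≤ |2 * π * k / P| := by
        have e : 2 * π * (k : ℝ) / P = 2 * π / P * k := by ring
        rw [e, abs_mul, abs_of_pos (by positivity : 0 < 2 * π / P)]
        exact hM.trans (mul_le_mul_of_nonneg_left h1 (by positivity))
      rw [zero_add, ← sq_abs]
      have h3 := le_abs_self Λ
      have h4 := abs_nonneg Λ
      nlinarith
    have h1 := hstep P hP _ hS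
    refine h1.trans ?_
    gcongr
    have h2 : ∀ k : ℤ, ENNReal.ofReal (Lcl 1 n) * (ENNReal.ofReal (1 / P) * ∫⁻ x, ω x) *
        ENNReal.ofReal (Λ - (0 + 2 * π * k / P) ^ 2 - τ) ^ (1 + (n : ℝ) / 2) =
        K * ((V - ENNReal.ofReal ((2 * π / P * k) ^ 2)) ^ q * ENNReal.ofReal (2 * π / P)) := by
      intro k
      have e1 : ENNReal.ofReal (Λ - (0 + 2 * π * k / P) ^ 2 - τ) =
          V - ENNReal.ofReal ((2 * π / P * k) ^ 2) := by
        rw [hV, ← ENNReal.ofReal_sub _ (by positivity)]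
        congr 1
        ring
      have e2 : ENNReal.ofReal (1 / P) = ENNReal.ofReal (1 / (2 * π)) *
          ENNReal.ofReal (2 * π / P) := by
        rw [← ENNReal.ofReal_mul (by positivity)]
        congr 1
        field_simp
      rw [e1, ← hq, e2, hK]
      ring
    simp only [h2]
    rw [← Finset.mul_sum]
    gcongr
    have hanti : AntitoneOn (fun x : ℝ => (V - ENNReal.ofReal (x ^ 2)) ^ q) (Ici 0) := by
      intro x hx y hy hxy
      have hx0 : (0 : ℝ) ≤ x := hx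
      refine ENNReal.rpow_le_rpow ?_ hq0.le
      refine tsub_le_tsub_left (ENNReal.ofReal_le_ofReal ?_) _
      exact pow_le_pow_left₀ hx0 hxy 2
    have h3 := riem (fun x : ℝ => (V - ENNReal.ofReal (x ^ 2)) ^ q) hanti
      (fun x => by simp only [neg_sq]) (h := 2 * π / P) (by positivity) M
    refine h3.trans ?_
    rw [beta_sq V hq0, hB]
    simp
  -- the limit
  have hconst : K * B = ENNReal.ofReal (Lcl 1 (n + 1)) * (∫⁻ x, ω x) *
      ENNReal.ofReal (Λ - τ) ^ (1 + ((n + 1 : ℕ) : ℝ) / 2) := by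
    have e1 : q + 1 / 2 = 1 + ((n + 1 : ℕ) : ℝ) / 2 := by rw [hq]; push_cast; ring
    rw [hK, hB, e1, Lcl_succ, ← hV, hq] at *
    rw [ENNReal.ofReal_mul (by positivity : (0 : ℝ) ≤ 1 / (2 * π)),
      ENNReal.ofReal_mul (Lcl_pos 1 zero_le_one n).le]
    ring
  rw [← hconst]
  rcases eq_or_ne V 0 with hV0 | hV0
  · have h1 := hbd P0 le_rfl
    rw [hV0, ENNReal.zero_rpow_of_pos hq0, zero_mul, zero_add] at h1
    exact h1
  · have hB0 : B ≠ 0 := by
      rw [hB]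
      refine mul_ne_zero (ENNReal.ofReal_pos.2 hc0).ne' ?_
      exact (ENNReal.rpow_pos (pos_iff_ne_zero.2 hV0) hVt).ne'
    have t1 : Filter.Tendsto (fun P : ℝ => ENNReal.ofReal (2 * π / P)) Filter.atTop (nhds 0) := by
      have h1 : Filter.Tendsto (fun P : ℝ => 2 * π / P) Filter.atTop (nhds 0) :=
        Filter.Tendsto.const_div_atTop Filter.tendsto_id _
      have h2 := ENNReal.tendsto_ofReal h1
      rwa [ENNReal.ofReal_zero] at h2
    have hVq : V ^ q ≠ ⊤ := ENNReal.rpow_ne_top_of_nonneg hq0.le hVt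
    have t2 : Filter.Tendsto (fun P : ℝ => V ^ q * ENNReal.ofReal (2 * π / P) + B) Filter.atTop
        (nhds (V ^ q * 0 + B)) := (ENNReal.Tendsto.const_mul t1 (Or.inr hVq)).add_const B
    rw [mul_zero, zero_add] at t2
    have t3 : Filter.Tendsto (fun P : ℝ => Tmag 0 v +
        K * (V ^ q * ENNReal.ofReal (2 * π / P) + B)) Filter.atTop (nhds (Tmag 0 v + K * B)) :=
      (ENNReal.Tendsto.const_mul t2 (Or.inl hB0)).const_add _
    refine ge_of_tendsto t3 ?_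
    filter_upwards [Filter.eventually_ge_atTop P0] with P hP using hbd P hP

end Pool.Agent.Helper961_mbly
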