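import Mathlib
import Pool.Agent.Helper766.M.Defs
import Pool.Agent.Helper961_mbly.W

set_option autoImplicit false

open MeasureTheory Set Real
open scoped ENNReal

namespace Pool.Agent.Helper961_mbly

open Pool.Agent.Helper766.M

theorem BL_zero : BL 0 univ 0 := by
  intro N v ω Λ hv hω hd
  have hvol : (volume : Measure (Fin 0 → ℝ)) = Measure.dirac 0 :=
    Measure.volume_pi_eq_dirac 0
  have hT : Tmag 0 v = 0 := by
    unfold Tmag eT
    simp
  have h1 := hd (fun _ => 1) continuous_const ⟨1, fun x => by simp⟩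
  simp only [mul_one, enorm_one, one_pow] at h1
  have h2 : ∀ j, ∫ x, v j x = v j 0 := by
    intro j
    rw [hvol, integral_dirac]
  have h3 : ∀ j, ∫⁻ x, ‖v j x‖ₑ ^ 2 = ‖v j 0‖ₑ ^ 2 := by
    intro j
    rw [hvol, lintegral_dirac]
  simp only [h2] at h1
  simp only [h3]
  rw [hT, zero_add, Lcl_one_zero, ENNReal.ofReal_one, one_mul]
  simp only [Nat.cast_zero, zero_div, add_zero, ENNReal.rpow_one, sub_zero]
  rw [mul_comm]
  gcongr

theorem BL_univ (n : ℕ) : BL n univ 0 := by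
  induction n with
  | zero => exact BL_zero
  | succ n ih => exact BL_succ ih

/-- Lower bound for a power `3/2`. -/
theorem le_rpow_three_half {y z : ℝ} (hz : 0 ≤ z) (h : y ^ 2 ≤ z ^ 3) :
    ENNReal.ofReal y ≤ ENNReal.ofReal z ^ (3 / 2 : ℝ) := by
  rcases lt_or_ge y 0 with hy | hy
  · rw [ENNReal.ofReal_of_nonpos hy.le]
    exact zero_le
  · have h1 : y = (y ^ 2) ^ (1 / 2 : ℝ) := by
      rw [← Real.sqrt_eq_rpow, Real.sqrt_sq hy]
    have h2 : z ^ (3 / 2 : ℝ) = (z ^ 3) ^ (1 / 2 : ℝ) := by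
      rw [← Real.rpow_natCast, ← Real.rpow_mul hz]
      norm_num
    rw [ENNReal.ofReal_rpow_of_nonneg hz (by norm_num)]
    refine ENNReal.ofReal_le_ofReal ?_
    rw [h1, h2]
    exact Real.rpow_le_rpow (by positivity) h (by norm_num)

theorem sum_kmk (m : ℕ) (x : ℝ) :
    ∑ k ∈ Finset.range m, ((k : ℝ) + 1) * (x - (k + 1)) =
      m * (m + 1) * (3 * x - 2 * m - 1) / 6 := by
  induction m with
  | zero => simp
  | succ m ih =>
    rw [Finset.sum_range_succ, ih]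
    push_cast
    ring

/-- The one-dimensional bound for one choice of the period. -/
theorem slab_aux {c w : ℝ} {N : ℕ} (v : Fin N → (Fin 1 → ℝ) → ℂ)
    (ω : (Fin 1 → ℝ) → ℝ≥0∞) (Λ : ℝ) (hv : Fam {x | x 0 ∈ Ioo c (c + w)} v)
    (hω : Measurable ω) (hd : Domin v ω) {P : ℝ} (hP0 : 0 < P) (hP : w ≤ P) (hΛ : 0 < Λ)
    (m : ℕ) (hm : √Λ * P / π ≤ m + 1) (hm' : m ≤ √Λ * P / π) :
    ENNReal.ofReal Λ * ∑ j, ∫⁻ x, ‖v j x‖ₑ ^ 2 ≤ Tmag 0 v +
      ENNReal.ofReal (1 / P * ((2 * π / P) ^ 2 *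
        (m * (m + 1) * (3 * (√Λ * P / π) - 2 * m - 1) / 6))) * ∫⁻ x, ω x := by
  have hpi := Real.pi_pos
  obtain ⟨s, hs⟩ : ∃ s : ℝ, s = √Λ * P / π := ⟨_, rfl⟩
  obtain ⟨h, hh⟩ : ∃ h : ℝ, h = 2 * π / P := ⟨_, rfl⟩
  have hh0 : 0 < h := by rw [hh]; positivity
  have hsq : √Λ = h * s / 2 := by
    rw [hs, hh]
    field_simp
  have hΛ2 : Λ = (h * s / 2) ^ 2 := by
    rw [← hsq, Real.sq_sqrt hΛ.le]
  have hs0 : 0 < s := by
    rw [hs]
    have : 0 < √Λ := Real.sqrt_pos.2 hΛ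
    positivity
  rw [← hs, ← hh]
  rw [← hs] at hm hm'
  -- frequencies
  obtain ⟨S, hS⟩ : ∃ S : Finset ℤ, S = (Finset.range m).image fun k : ℕ => (-((k : ℤ) + 1)) :=
    ⟨_, rfl⟩
  have hfr : ∀ k : ℤ, √Λ + 2 * π * k / P = h * (s / 2 + k) := by
    intro k
    rw [hsq, hh]
    ring
  have hSc : ∀ k : ℤ, k ∉ S → Λ ≤ (√Λ + 2 * π * k / P) ^ 2 := by
    intro k hk
    rw [hfr, hΛ2]
    have h1 : 0 ≤ k ∨ k ≤ -((m : ℤ) + 1) := by
      by_contra hcon
      push Not at hcon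
      apply hk
      rw [hS, Finset.mem_image]
      refine ⟨(-k - 1).toNat, ?_, ?_⟩
      · rw [Finset.mem_range]
        omega
      · omega
    have h2 : (h * s / 2) ^ 2 = h ^ 2 * (s / 2) ^ 2 := by ring
    have h3 : (h * (s / 2 + k)) ^ 2 = h ^ 2 * (s / 2 + k) ^ 2 := by ring
    rw [h2, h3]
    refine mul_le_mul_of_nonneg_left ?_ (by positivity)
    rcases h1 with h1 | h1
    · have : (0 : ℝ) ≤ k := by exact_mod_cast h1
      nlinarith
    · have h4 : (k : ℝ) ≤ -((m : ℝ) + 1) := by exact_mod_cast h1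
      nlinarith
  have h1 := BL_cell BL_zero v ω Λ ⟨hv.smooth, hv.cpt, fun i x hx => by simp at hx⟩ hω hd (c := c)
    hP0 (fun j x hx => hv.zero j x fun h => hx ⟨h.1, h.2.trans_le (by linarith)⟩) (√Λ) S hSc
  refine h1.trans ?_
  gcongr
  rw [Lcl_one_zero, ENNReal.ofReal_one]
  simp only [one_mul, Nat.cast_zero, zero_div, add_zero, ENNReal.rpow_one, sub_zero]
  rw [hS, Finset.sum_image (by
    intro a _ b _ hab
    simp only at hab
    omega)]
  have h2 : ∀ k : ℕ, Λ - (√Λ + 2 * π * ((-((k : ℤ) + 1) : ℤ) : ℝ) / P) ^ 2 =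
      h ^ 2 * (((k : ℝ) + 1) * (s - (k + 1))) := by
    intro k
    rw [hfr]
    push_cast
    have : Λ = h ^ 2 * s ^ 2 / 4 := by rw [hΛ2]; ring
    rw [this]
    ring
  simp only [h2]
  have h3 : ∀ k ∈ Finset.range m, 0 ≤ h ^ 2 * (((k : ℝ) + 1) * (s - (k + 1))) := by
    intro k hk
    have h4 : (k : ℝ) + 1 ≤ m := by
      have := Finset.mem_range.1 hk
      exact_mod_cast this
    have h5 : 0 ≤ s - (k + 1) := by linarith
    positivity
  rw [← Finset.mul_sum, ← ENNReal.ofReal_sum_of_nonneg h3, ← Finset.mul_sum, sum_kmk,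
    mul_comm (ENNReal.ofReal (1 / P)), mul_assoc, ← ENNReal.ofReal_mul (by positivity), mul_comm]

theorem slab_base {c w : ℝ} (hw : 0 < w) :
    BL 1 {x | x 0 ∈ Ioo c (c + w)} (26 / 100 * π ^ 2 / w ^ 2) := by
  intro N v ω Λ hv hω hd
  have hpi := Real.pi_pos
  rcases le_or_gt Λ 0 with hΛ | hΛ
  · rw [ENNReal.ofReal_of_nonpos hΛ, zero_mul]
    exact zero_le
  obtain ⟨s, hs⟩ : ∃ s : ℝ, s = √Λ * w / π := ⟨_, rfl⟩
  have hsΛ : √Λ = s * π / w := by rw [hs]; field_simp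
  have hs0 : 0 < s := by
    rw [hs]
    have : 0 < √Λ := Real.sqrt_pos.2 hΛ
    positivity
  have hΛs : Λ = (π / w) ^ 2 * s ^ 2 := by
    have h1 : Λ = (√Λ) ^ 2 := (Real.sq_sqrt hΛ.le).symm
    rw [h1, hsΛ]
    ring
  -- comparison
  have key : ∀ b : ℝ, 0 ≤ Λ - 26 / 100 * π ^ 2 / w ^ 2 →
      (3 * π / 2 * b) ^ 2 ≤ (Λ - 26 / 100 * π ^ 2 / w ^ 2) ^ 3 →
      ENNReal.ofReal b * ∫⁻ x, ω x ≤ ENNReal.ofReal (Lcl 1 1) * (∫⁻ x, ω x) *
        ENNReal.ofReal (Λ - 26 / 100 * π ^ 2 / w ^ 2) ^ (1 + ((1 : ℕ) : ℝ) / 2) := by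
    intro b hz hb
    have h1 := le_rpow_three_half hz hb
    have e1 : (1 + ((1 : ℕ) : ℝ) / 2) = 3 / 2 := by norm_num
    rw [e1, Lcl_one_one]
    have e2 : ENNReal.ofReal b = ENNReal.ofReal (2 / (3 * π)) * ENNReal.ofReal (3 * π / 2 * b) := by
      rw [← ENNReal.ofReal_mul (by positivity)]
      congr 1
      field_simp
    rw [e2]
    calc ENNReal.ofReal (2 / (3 * π)) * ENNReal.ofReal (3 * π / 2 * b) * ∫⁻ x, ω x
        ≤ ENNReal.ofReal (2 / (3 * π)) *
          ENNReal.ofReal (Λ - 26 / 100 * π ^ 2 / w ^ 2) ^ (3 / 2 : ℝ) * ∫⁻ x, ω x := by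
          gcongr
      _ = _ := by ring
  have hz : Λ - 26 / 100 * π ^ 2 / w ^ 2 = (π / w) ^ 2 * (s ^ 2 - 26 / 100) := by
    rw [hΛs]
    ring
  rcases le_or_gt s 1 with h1 | h1
  · have h2 := slab_aux v ω Λ hv hω hd hw le_rfl hΛ 0 (by rw [← hs]; simpa using h1)
      (by rw [← hs]; simpa using hs0.le)
    simp only [Nat.cast_zero, zero_mul, zero_div, mul_zero, ENNReal.ofReal_zero, add_zero] at h2
    exact h2.trans le_self_add
  rcases le_or_gt s (124 / 100) with h2 | h2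
  · have h3 := slab_aux v ω Λ hv hω hd hw le_rfl hΛ 1
      (by rw [← hs]; push_cast; linarith) (by rw [← hs]; push_cast; linarith)
    rw [← hs] at h3
    refine h3.trans (add_le_add le_rfl ?_)
    refine key _ ?_ ?_
    · rw [hz]
      have : 0 ≤ s ^ 2 - 26 / 100 := by nlinarith
      positivity
    · rw [hz]
      have e1 : 3 * π / 2 * (1 / w * ((2 * π / w) ^ 2 *
          (((1 : ℕ) : ℝ) * (((1 : ℕ) : ℝ) + 1) * (3 * s - 2 * ((1 : ℕ) : ℝ) - 1) / 6))) =
          (π / w) ^ 3 * (6 * (s - 1)) := by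
        push_cast
        field_simp
        ring
      rw [e1]
      have e2 : ((π / w) ^ 3 * (6 * (s - 1))) ^ 2 = (π / w) ^ 6 * (36 * (s - 1) ^ 2) := by ring
      have e3 : ((π / w) ^ 2 * (s ^ 2 - 26 / 100)) ^ 3 = (π / w) ^ 6 * (s ^ 2 - 26 / 100) ^ 3 := by
        ring
      rw [e2, e3]
      refine mul_le_mul_of_nonneg_left ?_ (by positivity)
      obtain ⟨t, ht⟩ : ∃ t : ℝ, t = s - 1 := ⟨_, rfl⟩
      have hst : s = 1 + t := by rw [ht]; ring
      have ht0 : 0 ≤ t := by linarith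
      have ht1 : t ≤ 24 / 100 := by linarith
      rw [← ht]
      rcases le_or_gt t (8 / 100) with h4 | h4
      · have ha : (74 / 100 : ℝ) ≤ s ^ 2 - 26 / 100 := by nlinarith
        have hb : (74 / 100 : ℝ) ^ 3 ≤ (s ^ 2 - 26 / 100) ^ 3 :=
          pow_le_pow_left₀ (by norm_num) ha 3
        norm_num at hb
        nlinarith
      · obtain ⟨g, hg⟩ : ∃ g : ℝ, g = s ^ 2 - 26 / 100 := ⟨_, rfl⟩
        rw [← hg]
        have hg1 : g = 74 / 100 + 2 * t + t ^ 2 := by rw [hg, hst]; ring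
        have hg0 : 0 ≤ g := by rw [hg1]; positivity
        have h5 : g ^ 3 - (3 * (12776 / 10000) ^ 2 * g - 2 * (12776 / 10000) ^ 3) =
            (g - 12776 / 10000) ^ 2 * (g + 2 * (12776 / 10000)) := by ring
        have h6 : 0 ≤ (g - 12776 / 10000) ^ 2 * (g + 2 * (12776 / 10000)) := by positivity
        have h7 : 3 * (12776 / 10000) ^ 2 * g - 2 * (12776 / 10000) ^ 3 ≤ g ^ 3 := by linarith
        refine le_trans ?_ h7
        rw [hg1]
        nlinarith [mul_nonneg (sub_nonneg.2 h4.le) (sub_nonneg.2 ht1)]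
  · obtain ⟨m, hm⟩ : ∃ m : ℕ, m + 1 = ⌈s⌉₊ := by
      refine ⟨⌈s⌉₊ - 1, ?_⟩
      have : 0 < ⌈s⌉₊ := Nat.ceil_pos.2 hs0
      omega
    have hm1 : s ≤ m + 1 := by
      have := Nat.le_ceil s
      rw [← hm] at this
      exact_mod_cast this
    have hm2 : (m : ℝ) < s := by
      have : m < ⌈s⌉₊ := by omega
      exact Nat.lt_ceil.1 this
    have hm3 : 1 ≤ m := by
      by_contra h
      have : m = 0 := by omega
      rw [this] at hm1
      norm_num at hm1
      linarith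
    have hm3' : (1 : ℝ) ≤ m := by exact_mod_cast hm3
    obtain ⟨P, hP⟩ : ∃ P : ℝ, P = w * (m + 1) / s := ⟨_, rfl⟩
    have hP0 : 0 < P := by rw [hP]; positivity
    have hPw : w ≤ P := by
      rw [hP, le_div_iff₀ hs0]
      exact mul_le_mul_of_nonneg_left hm1 hw.le
    have hsP : √Λ * P / π = m + 1 := by
      rw [hsΛ, hP]
      field_simp
    have h3 := slab_aux v ω Λ hv hω hd hP0 hPw hΛ m hsP.le (by rw [hsP]; linarith)
    rw [hsP] at h3
    refine h3.trans (add_le_add le_rfl ?_)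
    obtain ⟨X, hX⟩ : ∃ X : ℝ, X = 1 - 26 / 100 / s ^ 2 := ⟨_, rfl⟩
    have hwP : π / w = π / P * ((m + 1) / s) := by
      rw [hP]
      field_simp
    have hz2 : Λ - 26 / 100 * π ^ 2 / w ^ 2 = (π / P) ^ 2 * (m + 1) ^ 2 * X := by
      rw [hz, hwP, hX]
      field_simp
    have hX0 : 0 ≤ X := by
      rw [hX, sub_nonneg, div_le_one (by positivity)]
      nlinarith
    refine key _ ?_ ?_
    · rw [hz2]
      positivity
    · rw [hz2]
      have e1 : 3 * π / 2 * (1 / P * ((2 * π / P) ^ 2 *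
          ((m : ℝ) * ((m : ℝ) + 1) * (3 * ((m : ℝ) + 1) - 2 * (m : ℝ) - 1) / 6))) =
          (π / P) ^ 3 * (m * (m + 1) * (m + 2)) := by
        field_simp
        ring
      rw [e1]
      have e2 : ((π / P) ^ 3 * ((m : ℝ) * (m + 1) * (m + 2))) ^ 2 =
          (π / P) ^ 6 * (m + 1) ^ 2 * (m * (m + 2)) ^ 2 := by ring
      have e3 : ((π / P) ^ 2 * ((m : ℝ) + 1) ^ 2 * X) ^ 3 =
          (π / P) ^ 6 * (m + 1) ^ 2 * ((m + 1) ^ 4 * X ^ 3) := by
        ring
      rw [e2, e3]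
      refine mul_le_mul_of_nonneg_left ?_ (by positivity)
      rcases Nat.lt_or_ge m 2 with hm4 | hm4
      · have hm5 : m = 1 := by omega
        rw [hm5]
        norm_num
        have h4 : 83 / 100 ≤ X := by
          rw [hX]
          have : 26 / 100 / s ^ 2 ≤ 17 / 100 := by
            rw [div_le_iff₀ (by positivity)]
            nlinarith
          linarith
        have h5 : (83 / 100 : ℝ) ^ 3 ≤ X ^ 3 := pow_le_pow_left₀ (by norm_num) h4 3
        norm_num at h5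
        linarith
      · have hm4' : (2 : ℝ) ≤ m := by exact_mod_cast hm4
        have h4 : 1 - 26 / 100 / (m : ℝ) ^ 2 ≤ X := by
          rw [hX]
          have : 26 / 100 / s ^ 2 ≤ 26 / 100 / (m : ℝ) ^ 2 := by
            gcongr
          linarith
        have h5 : 1 - 3 * (26 / 100 / (m : ℝ) ^ 2) ≤ X ^ 3 := by
          have ha : 0 ≤ 1 - 26 / 100 / (m : ℝ) ^ 2 := by
            rw [sub_nonneg, div_le_one (by positivity)]
            nlinarith
          have hb : (1 - 26 / 100 / (m : ℝ) ^ 2) ^ 3 ≤ X ^ 3 := pow_le_pow_left₀ ha h4 3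
          refine le_trans ?_ hb
          have hc : 0 ≤ 26 / 100 / (m : ℝ) ^ 2 := by positivity
          have hd' : 26 / 100 / (m : ℝ) ^ 2 ≤ 1 := by linarith
          obtain ⟨x, hx⟩ : ∃ x : ℝ, x = 26 / 100 / (m : ℝ) ^ 2 := ⟨_, rfl⟩
          rw [← hx] at hc hd' ⊢
          have he : (1 - x) ^ 3 - (1 - 3 * x) = x ^ 2 * (3 - x) := by ring
          have hf : 0 ≤ x ^ 2 * (3 - x) := mul_nonneg (by positivity) (by linarith)
          linarith
        refine le_trans ?_ (mul_le_mul_of_nonneg_left h5 (by positivity))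
        have e4 : ((m : ℝ) + 1) ^ 4 * (1 - 3 * (26 / 100 / (m : ℝ) ^ 2)) =
            ((m : ℝ) + 1) ^ 4 - 78 / 100 * (m + 1) ^ 4 / m ^ 2 := by
          field_simp
          ring
        rw [e4]
        have h6 : 78 / 100 * ((m : ℝ) + 1) ^ 4 / m ^ 2 ≤ 2 * (m + 1) ^ 2 - 1 := by
          rw [div_le_iff₀ (by positivity)]
          obtain ⟨t, ht⟩ : ∃ t : ℝ, (m : ℝ) = 2 + t := ⟨m - 2, by ring⟩
          have ht0 : 0 ≤ t := by linarith
          have h7 : (2 * ((m : ℝ) + 1) ^ 2 - 1) * m ^ 2 - 78 / 100 * ((m : ℝ) + 1) ^ 4 =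
              122 / 100 * t ^ 4 + 1064 / 100 * t ^ 3 + 3088 / 100 * t ^ 2 + 3176 / 100 * t +
                482 / 100 := by
            rw [ht]
            ring
          have h8 : 0 ≤ 122 / 100 * t ^ 4 + 1064 / 100 * t ^ 3 + 3088 / 100 * t ^ 2 +
              3176 / 100 * t + 482 / 100 := by positivity
          linarith
        have h9 : ((m : ℝ) * (m + 2)) ^ 2 = (m + 1) ^ 4 - 2 * (m + 1) ^ 2 + 1 := by ring
        rw [h9]
        linarith

end Pool.Agent.Helper961_mbly
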