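import Mathlib
import Pool.Agent.Helper766.M.Defs
import Pool.Agent.Helper766.M.L_orth_choice
import Pool.Agent.Helper766.M.L_negE_sum
import Pool.Agent.Helper766.M.L_dirichlet_link
import Pool.Agent.Helper766.M.L_beta_lint

set_option autoImplicit false

open MeasureTheory Set Real Matrix
open scoped ENNReal ComplexOrder

namespace Pool.Agent.Helper961_mbly

open Pool.Agent.Helper766.M

/-- The min-max values of the magnetic Dirichlet Laplacian. -/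
noncomputable def lam {n : ℕ} (Ω : Set (Fin n → ℝ)) (A : (Fin n → ℝ) → (Fin n → ℝ)) (k : ℕ) :
    ℝ≥0∞ :=
  ⨅ (V : Submodule ℂ ((Fin n → ℝ) → ℂ))
    (_ : ∀ u ∈ V, ContDiff ℝ 1 u ∧ HasCompactSupport u ∧ tsupport u ⊆ Ω)
    (_ : Module.finrank ℂ V = k + 1),
    ⨆ (u : (Fin n → ℝ) → ℂ) (_ : u ∈ V) (_ : u ≠ 0),
      (∫⁻ x, ∑ j : Fin n,
        (‖fderiv ℝ u x (Pi.single j 1) - Complex.I * ((A x j : ℝ) : ℂ) * u x‖₊ : ENNReal) ^ 2)
          / ∫⁻ x, (‖u x‖₊ : ENNReal) ^ 2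

/-- Admissible families. -/
structure Adm {n N : ℕ} (Ω : Set (Fin n → ℝ)) (u : Fin N → (Fin n → ℝ) → ℂ) : Prop where
  smooth : ∀ i, ContDiff ℝ 1 (u i)
  cpt : ∀ i, HasCompactSupport (u i)
  supp : ∀ i, tsupport (u i) ⊆ Ω

theorem red_fin {n : ℕ} (Ω : Set (Fin n → ℝ)) (A : (Fin n → ℝ) → (Fin n → ℝ))
    (Λ : ℝ) (C : ℝ≥0∞)
    (h : ∀ (N : ℕ) (u : Fin N → (Fin n → ℝ) → ℂ), Adm Ω u → Gram u = 1 → Tmag A u ≠ ⊤ →
      (N : ℝ≥0∞) * ENNReal.ofReal Λ ≤ Tmag A u + C)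
    (F : Finset ℕ) (a : ℕ → ℝ≥0∞)
    (ha : ∀ k ∈ F, a k < negE Ω A 0 (Ω.indicator fun _ => ENNReal.ofReal Λ) k) :
    ∑ k ∈ F, a k ≤ C := by
  classical
  have h1 : ∀ k ∈ F, ∃ S : Submodule ℂ ((Fin n → ℝ) → ℂ), Dom Ω S ∧
      Module.finrank ℂ S = k + 1 ∧ ∀ u ∈ S, u ≠ 0 → ∫⁻ x, ‖u x‖ₑ ^ 2 = 1 →
        a k + ∫⁻ x, eT A u x < ENNReal.ofReal Λ := by
    intro k hk
    have h2 := ha k hk
    unfold negE at h2
    obtain ⟨S, h2⟩ := lt_iSup_iff.1 h2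
    obtain ⟨h3, h2⟩ := lt_iSup_iff.1 h2
    obtain ⟨h4, h2⟩ := lt_iSup_iff.1 h2
    refine ⟨S, h3, h4, ?_⟩
    intro u hu hne hnorm
    have h5 := lt_of_lt_of_le h2 (iInf_le_of_le u (iInf_le_of_le hu (iInf_le _ hne)))
    rw [hnorm, div_one] at h5
    have h6 := lt_tsub_iff_right.1 h5
    have h7 : (∫⁻ x, (Ω.indicator fun _ => ENNReal.ofReal Λ) x * ‖u x‖ₑ ^ 2) =
        ENNReal.ofReal Λ := by
      have h8 : (∫⁻ x, (Ω.indicator fun _ => ENNReal.ofReal Λ) x * ‖u x‖ₑ ^ 2) =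
          ENNReal.ofReal Λ * ∫⁻ x, ‖u x‖ₑ ^ 2 := by
        rw [← lintegral_const_mul' _ _ ENNReal.ofReal_ne_top]
        refine lintegral_congr (fun x => ?_)
        by_cases hx : x ∈ Ω
        · rw [Set.indicator_of_mem hx]
        · have : u x = 0 := by
            by_contra h
            exact hx ((h3 u hu).2.2 (subset_tsupport u h))
          rw [this]; simp
      rw [h8, hnorm, mul_one]
    rw [h7] at h6
    refine lt_of_le_of_lt ?_ h6
    gcongr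
    exact le_self_add
  choose! S hSD hSf hSa using h1
  obtain ⟨K, hK⟩ : ∃ K, F.card = K := ⟨_, rfl⟩
  obtain ⟨e, he⟩ : ∃ e : Fin K ↪o ℕ, e = F.orderEmbOfFin hK := ⟨_, rfl⟩
  have heF : ∀ i, e i ∈ F := by
    intro i
    rw [he]
    exact Finset.orderEmbOfFin_mem F hK i
  have hsum : ∀ g : ℕ → ℝ≥0∞, ∑ k ∈ F, g k = ∑ i : Fin K, g (e i) := by
    intro g
    have h2 : Finset.map e.toEmbedding Finset.univ = F := by
      rw [he]
      exact Finset.map_orderEmbOfFin_univ F hK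
    conv_lhs => rw [← h2]
    rw [Finset.sum_map]
    rfl
  have hκ : ∀ i : Fin K, (i : ℕ) ≤ e i := by
    have : ∀ m : ℕ, ∀ hm : m < K, m ≤ e ⟨m, hm⟩ := by
      intro m
      induction m with
      | zero => intro _; exact Nat.zero_le _
      | succ m ih =>
        intro hm
        have h2 := ih (by omega)
        have h3 : e ⟨m, by omega⟩ < e ⟨m + 1, hm⟩ := e.strictMono (by simp [Fin.lt_def])
        omega
    intro i
    exact this i.1 i.2
  obtain ⟨φ, hφS, hφo⟩ := orth_choice (fun i : Fin K => S (e i)) (fun i => e i) hκ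
    (fun i u hu => ⟨(hSD (e i) (heF i) u hu).1, (hSD (e i) (heF i) u hu).2.1⟩)
    (fun i => hSf (e i) (heF i))
  have hφC : ∀ i, ContDiff ℝ 1 (φ i) := fun i => (hSD (e i) (heF i) _ (hφS i)).1
  have hφK : ∀ i, HasCompactSupport (φ i) := fun i => (hSD (e i) (heF i) _ (hφS i)).2.1
  have hφΩ : ∀ i, tsupport (φ i) ⊆ Ω := fun i => (hSD (e i) (heF i) _ (hφS i)).2.2
  have hnorm : ∀ i, ∫⁻ x, ‖φ i x‖ₑ ^ 2 = 1 := by
    intro i
    apply negE_sum_norm (φ i) (hφC i).continuous (hφK i)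
    simpa using hφo i i
  have hne : ∀ i, φ i ≠ 0 := by
    intro i h0
    have h2 := hnorm i
    rw [h0] at h2
    simp at h2
  have hone : ∀ i, a (e i) + ∫⁻ x, eT A (φ i) x < ENNReal.ofReal Λ := by
    intro i
    exact hSa (e i) (heF i) _ (hφS i) (hne i) (hnorm i)
  have hfin : Tmag A φ ≠ ⊤ := by
    unfold Tmag
    rw [ENNReal.sum_ne_top]
    intro i _
    have h2 := hone i
    have h3 : a (e i) + ∫⁻ x, eT A (φ i) x ≠ ⊤ := ne_top_of_lt h2
    exact (ENNReal.add_ne_top.1 h3).2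
  have hgram : Gram φ = 1 := by
    ext i j
    rw [Matrix.one_apply]
    exact hφo i j
  have h5 := h K φ ⟨hφC, hφK, hφΩ⟩ hgram hfin
  rw [hsum]
  have h7 : ∑ i : Fin K, a (e i) + Tmag A φ ≤ Tmag A φ + C := by
    refine le_trans ?_ h5
    unfold Tmag
    rw [← Finset.sum_add_distrib]
    refine (Finset.sum_le_sum (fun i _ => (hone i).le)).trans (le_of_eq ?_)
    simp
  rw [add_comm] at h7
  exact (ENNReal.add_le_add_iff_left hfin).1 h7

/-- The reduction of the trace bound for `γ = 1` to families. -/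
theorem red {n : ℕ} (Ω : Set (Fin n → ℝ)) (hΩ : IsOpen Ω) (A : (Fin n → ℝ) → (Fin n → ℝ))
    (Λ : ℝ) (hΛ : 0 < Λ) (C : ℝ≥0∞)
    (h : ∀ (N : ℕ) (u : Fin N → (Fin n → ℝ) → ℂ), Adm Ω u → Gram u = 1 → Tmag A u ≠ ⊤ →
      (N : ℝ≥0∞) * ENNReal.ofReal Λ ≤ Tmag A u + C) :
    ∑' k, (ENNReal.ofReal Λ - lam Ω A k) ≤ C := by
  classical
  have e : ∀ k, ENNReal.ofReal Λ - lam Ω A k =
      negE Ω A 0 (Ω.indicator fun _ => ENNReal.ofReal Λ) k := fun k =>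
    dirichlet_link Ω hΩ A Λ hΛ k
  simp only [e]
  apply ENNReal.tsum_le_of_sum_range_le
  intro K
  rw [← Finset.sum_filter_ne_zero]
  apply negE_sum_sup
  · intro k hk
    exact (Finset.mem_filter.1 hk).2
  · intro a ha
    exact red_fin Ω A Λ C h _ a ha

end Pool.Agent.Helper961_mbly
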