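import Mathlib
import Pool.Agent.Helper766.M.Defs

set_option autoImplicit false

open MeasureTheory Set Real ProbabilityTheory
open scoped ENNReal NNReal

namespace Pool.Agent.Helper961_mbly

/-- The square root of the Gaussian density with variance `s / 2`. -/
noncomputable def gg (s z : ℝ) : ℝ := √((√(π * s))⁻¹) * exp (-(z ^ 2) / (2 * s))

theorem gg_pos {s : ℝ} (hs : 0 < s) (z : ℝ) : 0 < gg s z := by
  have hpi := Real.pi_pos
  unfold gg
  positivity

theorem gg_sq {s : ℝ} (hs : 0 < s) (z : ℝ) :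
    gg s z ^ 2 = gaussianPDFReal 0 (Real.toNNReal (s / 2)) z := by
  have hpi := Real.pi_pos
  rw [gaussianPDFReal_def]
  simp only [gg]
  rw [mul_pow, Real.sq_sqrt (by positivity), ← Real.exp_nat_mul,
    Real.coe_toNNReal _ (by positivity)]
  congr 1
  · congr 2
    ring
  · congr 1
    simp only [sub_zero]
    push_cast
    field_simp

theorem gg_deriv {s : ℝ} (hs : 0 < s) (z : ℝ) : HasDerivAt (gg s) (-(z / s) * gg s z) z := by
  unfold gg
  have h1 : HasDerivAt (fun z : ℝ => -(z ^ 2) / (2 * s)) (-(2 * z) / (2 * s)) z := by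
    have h2 := ((hasDerivAt_pow 2 z).neg).div_const (2 * s)
    simpa using h2
  have h3 := (h1.exp).const_mul (√((√(π * s))⁻¹))
  have e : -(z / s) * (√((√(π * s))⁻¹) * exp (-(z ^ 2) / (2 * s))) =
      √((√(π * s))⁻¹) * (exp (-(z ^ 2) / (2 * s)) * (-(2 * z) / (2 * s))) := by
    have : -(2 * z) / (2 * s) = -(z / s) := by
      field_simp
    rw [this]
    ring
  rw [e]
  exact h3

theorem gg_bound {s : ℝ} (hs : 0 < s) (z : ℝ) : gg s z ≤ √((√(π * s))⁻¹) := by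
  unfold gg
  have h1 : exp (-(z ^ 2) / (2 * s)) ≤ 1 := by
    rw [Real.exp_le_one_iff]
    apply div_nonpos_of_nonpos_of_nonneg
    · nlinarith [sq_nonneg z]
    · positivity
  calc _ ≤ √((√(π * s))⁻¹) * 1 := by gcongr
    _ = _ := mul_one _

theorem gg_contDiff (s : ℝ) : ContDiff ℝ 1 (gg s) := by
  unfold gg
  fun_prop

/-- The Gaussian average of a square. -/
theorem gg_int {s : ℝ} (hs : 0 < s) (D C : ℂ) :
    ∫⁻ z : ℝ, ‖((gg s z : ℝ) : ℂ) * (D + ((z : ℝ) : ℂ) * C)‖ₑ ^ 2 =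
      ‖D‖ₑ ^ 2 + ENNReal.ofReal (s / 2) * ‖C‖ₑ ^ 2 := by
  obtain ⟨v, hv⟩ : ∃ v : ℝ≥0, v = Real.toNNReal (s / 2) := ⟨_, rfl⟩
  have hv0 : v ≠ 0 := by
    rw [hv]
    intro h
    rw [Real.toNNReal_eq_zero] at h
    linarith
  have hvr : (v : ℝ) = s / 2 := by rw [hv, Real.coe_toNNReal _ (by positivity)]
  have h1 : ∀ z : ℝ, ‖((gg s z : ℝ) : ℂ) * (D + ((z : ℝ) : ℂ) * C)‖ₑ ^ 2 =
      gaussianPDF 0 v z * ENNReal.ofReal (‖D + ((z : ℝ) : ℂ) * C‖ ^ 2) := by
    intro z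
    rw [enorm_mul, mul_pow, gaussianPDF_def, ← ofReal_norm, ← ofReal_norm,
      ← ENNReal.ofReal_pow (norm_nonneg _), ← ENNReal.ofReal_pow (norm_nonneg _), Complex.norm_real,
      Real.norm_eq_abs, sq_abs, gg_sq hs, ← hv]
  simp only [h1]
  have hm : Measurable fun z : ℝ => ENNReal.ofReal (‖D + ((z : ℝ) : ℂ) * C‖ ^ 2) := by
    fun_prop
  have h2 := lintegral_withDensity_eq_lintegral_mul (volume : Measure ℝ)
    (measurable_gaussianPDF 0 v) hm
  simp only [Pi.mul_apply] at h2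
  rw [← h2, ← gaussianReal_of_var_ne_zero 0 hv0]
  have h3 : ∀ z : ℝ, ‖D + ((z : ℝ) : ℂ) * C‖ ^ 2 = ‖D‖ ^ 2 + (2 * (D * starRingEnd ℂ C).re) * z +
      ‖C‖ ^ 2 * z ^ 2 := by
    intro z
    rw [← Complex.normSq_eq_norm_sq, ← Complex.normSq_eq_norm_sq, ← Complex.normSq_eq_norm_sq,
      Complex.normSq_add]
    simp only [map_mul, Complex.conj_ofReal, Complex.normSq_ofReal]
    have : (D * ((z : ℂ) * starRingEnd ℂ C)).re = (D * starRingEnd ℂ C).re * z := by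
      rw [show D * ((z : ℂ) * starRingEnd ℂ C) = (z : ℂ) * (D * starRingEnd ℂ C) by ring,
        Complex.re_ofReal_mul]
      ring
    rw [this]
    ring
  have hL : MemLp (fun z : ℝ => z) 2 (gaussianReal 0 v) := memLp_id_gaussianReal 2
  have hi1 : Integrable (fun z : ℝ => z) (gaussianReal 0 v) := hL.integrable (by norm_num)
  have hi2 : Integrable (fun z : ℝ => z ^ 2) (gaussianReal 0 v) := hL.integrable_sq
  have hvar : ∫ z, z ^ 2 ∂gaussianReal 0 v = s / 2 := by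
    have h4 : Var[fun x ↦ x; gaussianReal 0 v] = v := variance_fun_id_gaussianReal
    rw [variance_eq_integral measurable_id'.aemeasurable] at h4
    simp only [integral_id_gaussianReal, sub_zero] at h4
    rw [h4, hvr]
  have hint : Integrable (fun z : ℝ => ‖D + ((z : ℝ) : ℂ) * C‖ ^ 2) (gaussianReal 0 v) := by
    simp only [h3]
    exact ((integrable_const _).add (hi1.const_mul _)).add (hi2.const_mul _)
  rw [← ofReal_integral_eq_lintegral_ofReal hint
    (Filter.Eventually.of_forall fun z => by positivity)]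
  simp only [h3]
  have e1 : ∫ x, ‖D‖ ^ 2 + 2 * (D * (starRingEnd ℂ) C).re * x + ‖C‖ ^ 2 * x ^ 2
      ∂gaussianReal 0 v = (∫ x, ‖D‖ ^ 2 + 2 * (D * (starRingEnd ℂ) C).re * x ∂gaussianReal 0 v) +
        ∫ x, ‖C‖ ^ 2 * x ^ 2 ∂gaussianReal 0 v :=
    integral_add ((integrable_const _).add (hi1.const_mul _)) (hi2.const_mul _)
  have e2 : ∫ x, ‖D‖ ^ 2 + 2 * (D * (starRingEnd ℂ) C).re * x ∂gaussianReal 0 v =
      (∫ _, ‖D‖ ^ 2 ∂gaussianReal 0 v) +
        ∫ x, 2 * (D * (starRingEnd ℂ) C).re * x ∂gaussianReal 0 v :=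
    integral_add (integrable_const _) (hi1.const_mul _)
  rw [e1, e2, integral_const_mul, integral_const_mul, integral_id_gaussianReal, hvar,
    integral_const]
  simp only [probReal_univ, smul_eq_mul, one_mul, mul_zero, add_zero]
  rw [ENNReal.ofReal_add (by positivity) (by positivity), mul_comm (‖C‖ ^ 2),
    ENNReal.ofReal_mul (by positivity), ENNReal.ofReal_pow (norm_nonneg _),
    ENNReal.ofReal_pow (norm_nonneg _), ofReal_norm, ofReal_norm]

theorem gg_one {s : ℝ} (hs : 0 < s) (a : ℝ) :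
    ∫⁻ κ : ℝ, ENNReal.ofReal (gg s (κ - a) ^ 2) = 1 := by
  rw [lintegral_sub_right_eq_self (fun κ => ENNReal.ofReal (gg s κ ^ 2)) a]
  simp only [gg_sq hs]
  exact lintegral_gaussianPDFReal_eq_one 0 (by
    intro h
    rw [Real.toNNReal_eq_zero] at h
    linarith)

theorem gg_int' {s : ℝ} (hs : 0 < s) (D C : ℂ) (a : ℝ) :
    ∫⁻ κ : ℝ, ‖((gg s (κ - a) : ℝ) : ℂ) * (D + (((κ - a : ℝ) : ℝ) : ℂ) * C)‖ₑ ^ 2 =
      ‖D‖ₑ ^ 2 + ENNReal.ofReal (s / 2) * ‖C‖ₑ ^ 2 := by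
  rw [← gg_int hs D C]
  exact lintegral_sub_right_eq_self
    (fun κ => ‖((gg s κ : ℝ) : ℂ) * (D + ((κ : ℝ) : ℂ) * C)‖ₑ ^ 2) a

end Pool.Agent.Helper961_mbly
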