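import Mathlib
import Pool.Agent.Helper766.M.Defs
import Pool.Agent.Helper961_mbly.W
import Pool.Agent.Helper961_mbly.Red
import Pool.Agent.Helper961_mbly.Gau

set_option autoImplicit false

open MeasureTheory Set Real
open scoped ENNReal

namespace Pool.Agent.Helper961_mbly

open Pool.Agent.Helper766.M

/-- The weighted Berezin-Li-Yau inequality with a vector potential. -/
def MB (n : ℕ) (Ω : Set (Fin n → ℝ)) (A : (Fin n → ℝ) → (Fin n → ℝ)) (W : ℝ) : Prop :=
  ∀ (N : ℕ) (v : Fin N → (Fin n → ℝ) → ℂ) (ω : (Fin n → ℝ) → ℝ≥0∞) (Λ : ℝ), Adm Ω v →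
    Measurable ω → Domin v ω →
    ENNReal.ofReal Λ * ∑ j, ∫⁻ x, ‖v j x‖ₑ ^ 2 ≤ Tmag A v +
      ENNReal.ofReal (Lcl 1 n) * (∫⁻ x, ω x) * ENNReal.ofReal (Λ + W) ^ (1 + (n : ℝ) / 2)

theorem gauge_eT {n : ℕ} {f : (Fin n → ℝ) → ℂ} {φ : (Fin n → ℝ) → ℝ} {x : Fin n → ℝ}
    (hf : DifferentiableAt ℝ f x) (hφ : DifferentiableAt ℝ φ x)
    (A A' : (Fin n → ℝ) → Fin n → ℝ)
    (h : ∀ l, A' x l = A x l + fderiv ℝ φ x (Pi.single l 1)) :
    eT A (fun y => Complex.exp (-(Complex.I * (φ y : ℂ))) * f y) x = eT A' f x := by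
  unfold eT
  refine Finset.sum_congr rfl fun l _ => ?_
  have h1 : HasFDerivAt (fun y => (φ y : ℂ)) (Complex.ofRealCLM.comp (fderiv ℝ φ x)) x :=
    Complex.ofRealCLM.hasFDerivAt.comp x hφ.hasFDerivAt
  have h2 : HasFDerivAt (fun y => -(Complex.I * (φ y : ℂ)))
      (-(Complex.I • (Complex.ofRealCLM.comp (fderiv ℝ φ x)))) x := (h1.const_mul Complex.I).neg
  have h3 := (h2.cexp).mul hf.hasFDerivAt
  have h4 : fderiv ℝ (fun y => Complex.exp (-(Complex.I * (φ y : ℂ))) * f y) x (Pi.single l 1) =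
      Complex.exp (-(Complex.I * (φ x : ℂ))) * (fderiv ℝ f x (Pi.single l 1) -
        Complex.I * ((fderiv ℝ φ x (Pi.single l 1) : ℝ) : ℂ) * f x) := by
    have e0 : (fun y => Complex.exp (-(Complex.I * (φ y : ℂ))) * f y) =
      (fun y => Complex.exp (-(Complex.I * (φ y : ℂ)))) * f := rfl
    rw [e0, h3.fderiv]
    simp
    ring
  have h5 : fderiv ℝ (fun y => Complex.exp (-(Complex.I * (φ y : ℂ))) * f y) x (Pi.single l 1) -
      Complex.I * ((A x l : ℝ) : ℂ) * (Complex.exp (-(Complex.I * (φ x : ℂ))) * f x) =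
      Complex.exp (-(Complex.I * (φ x : ℂ))) * (fderiv ℝ f x (Pi.single l 1) -
        Complex.I * ((A' x l : ℝ) : ℂ) * f x) := by
    rw [h4, h l]
    push_cast
    ring
  have h6 : ‖Complex.exp (-(Complex.I * (φ x : ℂ)))‖ₑ = 1 := by
    rw [← ofReal_norm]
    have : ‖Complex.exp (-(Complex.I * (φ x : ℂ)))‖ = 1 := norm_ex (φ x)
    rw [this, ENNReal.ofReal_one]
  rw [h5, enorm_mul, h6, one_mul]

theorem MB_const {n : ℕ} {D Ω : Set (Fin n → ℝ)} {τ : ℝ} (h : BL n D τ) (hΩ : Ω ⊆ D)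
    (κ : Fin n → ℝ) : MB n Ω (fun _ => κ) (-τ) := by
  intro N v ω Λ hv hω hd
  obtain ⟨φ, hφ⟩ : ∃ φ : (Fin n → ℝ) → ℝ, φ = fun x => ∑ l, κ l * x l := ⟨_, rfl⟩
  have hφc : ContDiff ℝ 1 φ := by
    rw [hφ]
    fun_prop
  have hφd : ∀ x l, fderiv ℝ φ x (Pi.single l 1) = κ l := by
    intro x l
    have h1 : HasFDerivAt φ (∑ l, κ l • (ContinuousLinearMap.proj l : (Fin n → ℝ) →L[ℝ] ℝ)) x := by
      rw [hφ]
      refine HasFDerivAt.fun_sum fun i _ => ?_
      exact (hasFDerivAt_apply i x).const_mul (κ i)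
    rw [h1.fderiv]
    simp [Pi.single_apply]
  have hexc : Continuous fun x => Complex.exp (-(Complex.I * (φ x : ℂ))) := by
    have := hφc.continuous
    fun_prop
  have hexd : ContDiff ℝ 1 fun x => Complex.exp (-(Complex.I * (φ x : ℂ))) := by
    have h1 : ContDiff ℝ 1 fun x => (φ x : ℂ) := Complex.ofRealCLM.contDiff.comp hφc
    exact (contDiff_const.mul h1).neg.cexp
  have hnorm : ∀ x, ‖Complex.exp (-(Complex.I * (φ x : ℂ)))‖ = 1 := fun x => norm_ex (φ x)
  have hv' : Fam D (fun j x => Complex.exp (-(Complex.I * (φ x : ℂ))) * v j x) := by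
    refine ⟨fun j => hexd.mul (hv.smooth j), fun j => (hv.cpt j).mul_left, fun j x hx => ?_⟩
    have : v j x = 0 := by
      by_contra hne
      exact hx (hΩ (hv.supp j (subset_tsupport _ hne)))
    rw [this, mul_zero]
  have hd' : Domin (fun j x => Complex.exp (-(Complex.I * (φ x : ℂ))) * v j x) ω := by
    intro ψ hψ hψb
    obtain ⟨C, hC⟩ := hψb
    have h1 := hd (fun x => Complex.exp (-(Complex.I * (φ x : ℂ))) * ψ x) (hexc.mul hψ)
      ⟨C, fun x => by rw [norm_mul, hnorm, one_mul]; exact hC x⟩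
    have e1 : ∀ j, ∫ x, Complex.exp (-(Complex.I * (φ x : ℂ))) * v j x * ψ x =
        ∫ x, v j x * (Complex.exp (-(Complex.I * (φ x : ℂ))) * ψ x) := by
      intro j
      congr 1
      funext x
      ring
    simp only [e1]
    refine h1.trans (le_of_eq ?_)
    refine lintegral_congr fun x => ?_
    rw [enorm_mul, ← ofReal_norm, hnorm, ENNReal.ofReal_one, one_mul]
  have h1 := h N _ ω Λ hv' hω hd'
  have e2 : ∀ j, ∫⁻ x, ‖Complex.exp (-(Complex.I * (φ x : ℂ))) * v j x‖ₑ ^ 2 =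
      ∫⁻ x, ‖v j x‖ₑ ^ 2 := by
    intro j
    refine lintegral_congr fun x => ?_
    rw [enorm_mul, ← ofReal_norm (Complex.exp _), hnorm, ENNReal.ofReal_one, one_mul]
  simp only [e2] at h1
  have e3 : Tmag 0 (fun j x => Complex.exp (-(Complex.I * (φ x : ℂ))) * v j x) =
      Tmag (fun _ => κ) v := by
    unfold Tmag
    refine Finset.sum_congr rfl fun j _ => ?_
    refine lintegral_congr fun x => ?_
    refine gauge_eT ((hv.smooth j).differentiable (by norm_num)).differentiableAt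
      (hφc.differentiable (by norm_num)).differentiableAt 0 (fun _ => κ) fun l => ?_
    rw [hφd]
    simp
  rw [e3] at h1
  exact h1

theorem smear_meas {X : Type*} [MeasurableSpace X] {s : ℝ} {a : X → ℝ} (ha : Measurable a)
    {D C : X → ℂ} (hD : Measurable D) (hC : Measurable C) :
    Measurable fun q : ℝ × X =>
      ‖((gg s (q.1 - a q.2) : ℝ) : ℂ) * (D q.2 + (((q.1 - a q.2 : ℝ)) : ℂ) * C q.2)‖ₑ ^ 2 := by
  have h0 : Measurable fun q : ℝ × X => q.1 - a q.2 := measurable_fst.sub (ha.comp measurable_snd)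
  have h1 : Measurable fun q : ℝ × X => ((gg s (q.1 - a q.2) : ℝ) : ℂ) :=
    Complex.measurable_ofReal.comp ((gg_contDiff s).continuous.measurable.comp h0)
  have h2 : Measurable fun q : ℝ × X => (((q.1 - a q.2 : ℝ)) : ℂ) :=
    Complex.measurable_ofReal.comp h0
  exact ((h1.mul ((hD.comp measurable_snd).add (h2.mul (hC.comp measurable_snd)))).enorm).pow_const 2

theorem smear_meas' {X : Type*} [MeasurableSpace X] {s : ℝ} {a : X → ℝ} (ha : Measurable a)
    {D C : X → ℂ} (hD : Measurable D) (hC : Measurable C) (κ : ℝ) :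
    Measurable fun x : X =>
      ‖((gg s (κ - a x) : ℝ) : ℂ) * (D x + (((κ - a x : ℝ)) : ℂ) * C x)‖ₑ ^ 2 := by
  have h0 : Measurable fun x : X => κ - a x := measurable_const.sub ha
  have h1 : Measurable fun x : X => ((gg s (κ - a x) : ℝ) : ℂ) :=
    Complex.measurable_ofReal.comp ((gg_contDiff s).continuous.measurable.comp h0)
  have h2 : Measurable fun x : X => (((κ - a x : ℝ)) : ℂ) :=
    Complex.measurable_ofReal.comp h0
  exact ((h1.mul (hD.add (h2.mul hC))).enorm).pow_const 2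

theorem smear_int {X : Type*} [MeasurableSpace X] (μ : Measure X) [SFinite μ] {s : ℝ} (hs : 0 < s)
    {a : X → ℝ} (ha : Measurable a) {D C : X → ℂ} (hD : Measurable D) (hC : Measurable C) :
    ∫⁻ κ : ℝ, ∫⁻ x, ‖((gg s (κ - a x) : ℝ) : ℂ) * (D x + (((κ - a x : ℝ)) : ℂ) * C x)‖ₑ ^ 2 ∂μ =
      (∫⁻ x, ‖D x‖ₑ ^ 2 ∂μ) + ENNReal.ofReal (s / 2) * ∫⁻ x, ‖C x‖ₑ ^ 2 ∂μ := by
  rw [lintegral_lintegral_swap (smear_meas ha hD hC).aemeasurable]
  have h1 : ∀ x, ∫⁻ κ : ℝ, ‖((gg s (κ - a x) : ℝ) : ℂ) *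
      (D x + (((κ - a x : ℝ)) : ℂ) * C x)‖ₑ ^ 2 = ‖D x‖ₑ ^ 2 + ENNReal.ofReal (s / 2) *
        ‖C x‖ₑ ^ 2 := fun x => gg_int' hs (D x) (C x) (a x)
  simp only [h1]
  rw [lintegral_add_left (hD.enorm.pow_const 2), lintegral_const_mul _ (hC.enorm.pow_const 2)]

/-- The smearing of one component of the vector potential. -/
theorem MB_smear {n : ℕ} {Ω : Set (Fin n → ℝ)} {A : (Fin n → ℝ) → (Fin n → ℝ)} {W s : ℝ}
    (b : Fin n) (hs : 0 < s) (hΩ : MeasurableSet Ω) (hA : Measurable A)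
    (ha : ContDiff ℝ 1 fun x => A x b)
    (hg : ∀ x ∈ Ω, ∑ l, (fderiv ℝ (fun x => A x b) x (Pi.single l 1)) ^ 2 ≤ s ^ 2)
    (h : ∀ κ : ℝ, MB n Ω (fun x => Function.update (A x) b κ) W) : MB n Ω A (W + s) := by
  intro N v ω Λ hv hω hd
  obtain ⟨a, hae⟩ : ∃ a : (Fin n → ℝ) → ℝ, a = fun x => A x b := ⟨_, rfl⟩
  rw [← hae] at ha hg
  have hax : ∀ x, A x b = a x := fun x => by rw [hae]
  have hac := ha.continuous
  rcases lt_or_ge Λ 0 with hΛ | hΛ
  · rw [ENNReal.ofReal_of_nonpos hΛ.le, zero_mul]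
    exact zero_le
  -- the smeared family
  obtain ⟨vk, hvk⟩ : ∃ vk : ℝ → Fin N → (Fin n → ℝ) → ℂ,
      vk = fun κ j x => ((gg s (κ - a x) : ℝ) : ℂ) * v j x := ⟨_, rfl⟩
  obtain ⟨wk, hwk⟩ : ∃ wk : ℝ → (Fin n → ℝ) → ℝ≥0∞,
      wk = fun κ x => ENNReal.ofReal (gg s (κ - a x) ^ 2) * ω x := ⟨_, rfl⟩
  have hggc : Continuous (gg s) := (gg_contDiff s).continuous
  have hgd : ∀ κ, ContDiff ℝ 1 fun x => ((gg s (κ - a x) : ℝ) : ℂ) := fun κ =>
    Complex.ofRealCLM.contDiff.comp ((gg_contDiff s).comp (contDiff_const.sub ha))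
  have hvd : ∀ j, Differentiable ℝ (v j) := fun j => (hv.smooth j).differentiable (by norm_num)
  have had : Differentiable ℝ a := ha.differentiable (by norm_num)
  have hadm : ∀ κ, Adm Ω (vk κ) := by
    intro κ
    rw [hvk]
    refine ⟨fun j => (hgd κ).mul (hv.smooth j), fun j => (hv.cpt j).mul_left, fun j => ?_⟩
    exact (tsupport_mul_subset_right).trans (hv.supp j)
  have hgm : ∀ κ, Measurable fun x => ENNReal.ofReal (gg s (κ - a x) ^ 2) := fun κ =>
    ((hggc.measurable.comp (hac.measurable.const_sub κ)).pow_const 2).ennreal_ofReal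
  have hwm : ∀ κ, Measurable (wk κ) := by
    intro κ
    rw [hwk]
    exact (hgm κ).mul hω
  have hdk : ∀ κ, Domin (vk κ) (wk κ) := by
    intro κ ψ hψ hψb
    obtain ⟨C, hC⟩ := hψb
    have h1 := hd (fun x => ((gg s (κ - a x) : ℝ) : ℂ) * ψ x)
      ((hgd κ).continuous.mul hψ)
      ⟨√((√(π * s))⁻¹) * C, fun x => by
        rw [norm_mul, Complex.norm_real, Real.norm_of_nonneg (gg_pos hs _).le]
        exact mul_le_mul (gg_bound hs _) (hC x) (norm_nonneg _) (by positivity)⟩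
    have e1 : ∀ j, ∫ x, vk κ j x * ψ x =
        ∫ x, v j x * (((gg s (κ - a x) : ℝ) : ℂ) * ψ x) := by
      intro j
      congr 1
      funext x
      rw [hvk]
      ring
    simp only [e1]
    refine h1.trans (le_of_eq ?_)
    refine lintegral_congr fun x => ?_
    rw [enorm_mul, mul_pow, hwk, ← ofReal_norm (((gg s (κ - a x) : ℝ) : ℂ)),
      ← ENNReal.ofReal_pow (norm_nonneg _), Complex.norm_real, Real.norm_eq_abs, sq_abs]
    ring
  have hmain := fun κ => h κ N (vk κ) (wk κ) (Λ + s) (hadm κ) (hwm κ) (hdk κ)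
  -- the coefficient in the energy
  obtain ⟨cl, hcl⟩ : ∃ cl : Fin n → (Fin n → ℝ) → ℂ, cl = fun l x =>
      ((fderiv ℝ a x (Pi.single l 1) / s : ℝ) : ℂ) - (if l = b then Complex.I else 0) := ⟨_, rfl⟩
  have hfd : ∀ κ j x l, fderiv ℝ (vk κ j) x (Pi.single l 1) =
      ((gg s (κ - a x) : ℝ) : ℂ) * (fderiv ℝ (v j) x (Pi.single l 1) +
        (((κ - a x : ℝ)) : ℂ) * ((fderiv ℝ a x (Pi.single l 1) / s : ℝ) : ℂ) * v j x) := by
    intro κ j x l
    have h1 : HasFDerivAt (fun y => κ - a y) (-(fderiv ℝ a x)) x :=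
      (had x).hasFDerivAt.const_sub κ
    have h2 := (gg_deriv hs (κ - a x)).comp_hasFDerivAt x h1
    have h3 : HasFDerivAt (fun y => ((gg s (κ - a y) : ℝ) : ℂ))
        (Complex.ofRealCLM.comp ((-((κ - a x) / s) * gg s (κ - a x)) • (-(fderiv ℝ a x)))) x :=
      Complex.ofRealCLM.hasFDerivAt.comp x h2
    have h4 := h3.mul (hvd j x).hasFDerivAt
    have e0 : vk κ j = (fun y => ((gg s (κ - a y) : ℝ) : ℂ)) * v j := by
      rw [hvk]
      rfl
    rw [e0, h4.fderiv]
    simp only [ContinuousLinearMap.add_apply, ContinuousLinearMap.smul_apply,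
      ContinuousLinearMap.comp_apply, ContinuousLinearMap.neg_apply, smul_eq_mul,
      Complex.ofRealCLM_apply, smul_neg]
    push_cast
    ring
  have heT : ∀ κ j x, eT (fun x => Function.update (A x) b κ) (vk κ j) x =
      ∑ l, ‖((gg s (κ - a x) : ℝ) : ℂ) * ((fderiv ℝ (v j) x (Pi.single l 1) -
        Complex.I * ((A x l : ℝ) : ℂ) * v j x) +
          (((κ - a x : ℝ)) : ℂ) * (cl l x * v j x))‖ₑ ^ 2 := by
    intro κ j x
    unfold eT
    refine Finset.sum_congr rfl fun l _ => ?_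
    congr 2
    rw [hfd]
    simp only [hvk, hcl]
    by_cases hl : l = b
    · subst hl
      rw [Function.update_self, if_pos rfl, hax]
      push_cast
      ring
    · rw [Function.update_of_ne hl, if_neg hl]
      push_cast
      ring
  -- measurability in both variables
  have hjm : Measurable fun q : ℝ × (Fin n → ℝ) => ((gg s (q.1 - a q.2) : ℝ) : ℂ) := by
    have h1 : Continuous fun q : ℝ × (Fin n → ℝ) => ((gg s (q.1 - a q.2) : ℝ) : ℂ) :=
      Complex.continuous_ofReal.comp (hggc.comp (continuous_fst.sub (hac.comp continuous_snd)))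
    exact h1.measurable
  have hdam : ∀ l, Measurable fun x => fderiv ℝ a x (Pi.single l 1) := fun l =>
    ((ha.continuous_fderiv (by norm_num)).clm_apply continuous_const).measurable
  have hdvm : ∀ j l, Measurable fun x => fderiv ℝ (v j) x (Pi.single l 1) := fun j l =>
    (((hv.smooth j).continuous_fderiv (by norm_num)).clm_apply continuous_const).measurable
  have hvm : ∀ j, Measurable (v j) := fun j => (hv.smooth j).continuous.measurable
  have hAm : ∀ l, Measurable fun x => ((A x l : ℝ) : ℂ) := fun l =>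
    Complex.measurable_ofReal.comp ((measurable_pi_apply l).comp hA)
  have hclm : ∀ l, Measurable (cl l) := by
    intro l
    rw [hcl]
    exact (Complex.measurable_ofReal.comp ((hdam l).div_const s)).sub_const _
  have hcvm : ∀ j l, Measurable fun x => ‖cl l x * v j x‖ₑ ^ 2 := fun j l =>
    ((hclm l).mul (hvm j)).enorm.pow_const 2
  have hDm : ∀ j l, Measurable fun x => fderiv ℝ (v j) x (Pi.single l 1) -
        Complex.I * ((A x l : ℝ) : ℂ) * v j x := fun j l =>
    (hdvm j l).sub (((hAm l).const_mul _).mul (hvm j))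
  -- integrate the three terms
  have I1 : ∫⁻ κ : ℝ, ∑ j, ∫⁻ x, ‖vk κ j x‖ₑ ^ 2 = ∑ j, ∫⁻ x, ‖v j x‖ₑ ^ 2 := by
    have hm : ∀ j, Measurable fun q : ℝ × (Fin n → ℝ) => ‖vk q.1 j q.2‖ₑ ^ 2 := by
      intro j
      rw [hvk]
      exact ((hjm.mul ((hvm j).comp measurable_snd)).enorm).pow_const 2
    rw [lintegral_finsetSum _ fun j _ => (hm j).lintegral_prod_right']
    refine Finset.sum_congr rfl fun j _ => ?_
    rw [lintegral_lintegral_swap (hm j).aemeasurable]
    refine lintegral_congr fun x => ?_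
    have e1 : ∀ κ, ‖vk κ j x‖ₑ ^ 2 = ENNReal.ofReal (gg s (κ - a x) ^ 2) * ‖v j x‖ₑ ^ 2 := by
      intro κ
      rw [hvk]
      simp only
      rw [enorm_mul, mul_pow, ← ofReal_norm (((gg s (κ - a x) : ℝ) : ℂ)),
        ← ENNReal.ofReal_pow (norm_nonneg _), Complex.norm_real, Real.norm_eq_abs, sq_abs]
    simp only [e1]
    rw [lintegral_mul_const', gg_one hs, one_mul]
    exact ENNReal.pow_ne_top enorm_ne_top
  have I2 : ∫⁻ κ : ℝ, ∫⁻ x, wk κ x = ∫⁻ x, ω x := by
    have hm : Measurable fun q : ℝ × (Fin n → ℝ) => wk q.1 q.2 := by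
      rw [hwk]
      refine Measurable.mul ?_ (hω.comp measurable_snd)
      exact ((hggc.measurable.comp (measurable_fst.sub (hac.measurable.comp measurable_snd))).pow_const
        2).ennreal_ofReal
    rw [lintegral_lintegral_swap hm.aemeasurable]
    refine lintegral_congr fun x => ?_
    rw [hwk]
    simp only
    rw [lintegral_mul_const, gg_one hs, one_mul]
    exact ((hggc.measurable.comp (measurable_id.sub_const (a x))).pow_const 2).ennreal_ofReal
  have hT : ∀ κ, Tmag (fun x => Function.update (A x) b κ) (vk κ) =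
      ∑ j, ∑ l, ∫⁻ x, ‖((gg s (κ - a x) : ℝ) : ℂ) * ((fderiv ℝ (v j) x (Pi.single l 1) -
        Complex.I * ((A x l : ℝ) : ℂ) * v j x) +
          (((κ - a x : ℝ)) : ℂ) * (cl l x * v j x))‖ₑ ^ 2 := by
    intro κ
    unfold Tmag
    refine Finset.sum_congr rfl fun j _ => ?_
    simp only [heT]
    refine lintegral_finsetSum _ fun l _ => ?_
    exact smear_meas' hac.measurable (hDm j l) ((hclm l).mul (hvm j)) κ
  have hTj : ∀ j l, Measurable fun κ : ℝ => ∫⁻ x, ‖((gg s (κ - a x) : ℝ) : ℂ) *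
      ((fderiv ℝ (v j) x (Pi.single l 1) - Complex.I * ((A x l : ℝ) : ℂ) * v j x) +
          (((κ - a x : ℝ)) : ℂ) * (cl l x * v j x))‖ₑ ^ 2 := fun j l =>
    (smear_meas hac.measurable (hDm j l) ((hclm l).mul (hvm j))).lintegral_prod_right'
  have hcs : ∀ x ∈ Ω, ENNReal.ofReal (s / 2) * ∑ l, ‖cl l x‖ₑ ^ 2 ≤ ENNReal.ofReal s := by
    intro x hx
    have e1 : ∀ l, ‖cl l x‖ₑ ^ 2 = ENNReal.ofReal ((fderiv ℝ a x (Pi.single l 1) / s) ^ 2 +
        (if l = b then 1 else 0)) := by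
      intro l
      rw [← ofReal_norm, ← ENNReal.ofReal_pow (norm_nonneg _), ← Complex.normSq_eq_norm_sq,
        hcl]
      congr 1
      by_cases hl : l = b
      · simp only [if_pos hl]
        rw [Complex.normSq_apply]
        simp
        ring
      · simp only [if_neg hl]
        rw [sub_zero, Complex.normSq_ofReal]
        ring
    simp only [e1]
    rw [← ENNReal.ofReal_sum_of_nonneg fun l _ => by positivity,
      ← ENNReal.ofReal_mul (by positivity)]
    refine ENNReal.ofReal_le_ofReal ?_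
    rw [Finset.sum_add_distrib, Finset.sum_ite_eq']
    simp only [Finset.mem_univ, if_true, div_pow]
    rw [← Finset.sum_div]
    have h1 := hg x hx
    have h2 : (∑ l, fderiv ℝ a x (Pi.single l 1) ^ 2) / s ^ 2 ≤ 1 := by
      rw [div_le_one (by positivity)]
      exact h1
    calc s / 2 * ((∑ l, fderiv ℝ a x (Pi.single l 1) ^ 2) / s ^ 2 + 1)
        ≤ s / 2 * (1 + 1) := by gcongr
      _ = s := by ring
  have I3 : ∫⁻ κ : ℝ, Tmag (fun x => Function.update (A x) b κ) (vk κ) ≤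
      Tmag A v + ENNReal.ofReal s * ∑ j, ∫⁻ x, ‖v j x‖ₑ ^ 2 := by
    simp only [hT]
    rw [lintegral_finsetSum _ fun j _ => Finset.measurable_sum _ fun l _ => hTj j l]
    unfold Tmag
    rw [Finset.mul_sum, ← Finset.sum_add_distrib]
    refine Finset.sum_le_sum fun j _ => ?_
    rw [lintegral_finsetSum _ fun l _ => hTj j l]
    rw [Finset.sum_congr rfl fun l _ => smear_int (volume : Measure (Fin n → ℝ)) hs
      hac.measurable (hDm j l) (C := fun x => cl l x * v j x) ((hclm l).mul (hvm j))]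
    rw [Finset.sum_add_distrib]
    refine add_le_add (le_of_eq ?_) ?_
    · unfold eT
      rw [lintegral_finsetSum _ fun l _ => (hDm j l).enorm.pow_const 2]
    · rw [← Finset.mul_sum, ← lintegral_finsetSum _ fun l _ => hcvm j l,
        ← lintegral_const_mul' _ _ ENNReal.ofReal_ne_top,
        ← lintegral_const_mul' _ _ ENNReal.ofReal_ne_top]
      refine lintegral_mono fun x => ?_
      by_cases hx : x ∈ Ω
      · simp only [enorm_mul, mul_pow]
        rw [← Finset.sum_mul, ← mul_assoc]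
        gcongr
        exact hcs x hx
      · have : v j x = 0 := by
          by_contra hne
          exact hx (hv.supp j (subset_tsupport _ hne))
        simp [this]
  -- conclusion
  have hfin : ∑ j, ∫⁻ x, ‖v j x‖ₑ ^ 2 ≠ ⊤ := by
    refine ENNReal.sum_ne_top.2 fun j _ => ?_
    rw [lint_sq volume (hv.smooth j).continuous (hv.cpt j)]
    exact ENNReal.ofReal_ne_top
  have hTm : Measurable fun κ : ℝ => Tmag (fun x => Function.update (A x) b κ) (vk κ) := by
    simp only [hT]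
    exact Finset.measurable_sum _ fun j _ => Finset.measurable_sum _ fun l _ => hTj j l
  have hvkm : Measurable fun κ : ℝ => ∑ j, ∫⁻ x, ‖vk κ j x‖ₑ ^ 2 := by
    refine Finset.measurable_sum _ fun j _ => ?_
    have hm : Measurable fun q : ℝ × (Fin n → ℝ) => ‖vk q.1 j q.2‖ₑ ^ 2 := by
      rw [hvk]
      exact ((hjm.mul ((hvm j).comp measurable_snd)).enorm).pow_const 2
    exact hm.lintegral_prod_right'
  have hwkm : Measurable fun κ : ℝ => ∫⁻ x, wk κ x := by
    have hm : Measurable fun q : ℝ × (Fin n → ℝ) => wk q.1 q.2 := by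
      rw [hwk]
      refine Measurable.mul ?_ (hω.comp measurable_snd)
      exact ((hggc.measurable.comp (measurable_fst.sub (hac.measurable.comp measurable_snd))).pow_const
        2).ennreal_ofReal
    exact hm.lintegral_prod_right'
  have hI := lintegral_mono (μ := (volume : Measure ℝ)) hmain
  rw [lintegral_const_mul _ hvkm, I1, lintegral_add_left hTm, lintegral_mul_const _
    (hwkm.const_mul _), lintegral_const_mul _ hwkm, I2] at hI
  have hI2 := hI.trans (add_le_add_left I3 _)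
  rw [ENNReal.ofReal_add hΛ hs.le, add_mul] at hI2
  have hsf : ENNReal.ofReal s * ∑ j, ∫⁻ x, ‖v j x‖ₑ ^ 2 ≠ ⊤ :=
    ENNReal.mul_ne_top ENNReal.ofReal_ne_top hfin
  have e5 : Λ + s + W = Λ + (W + s) := by ring
  rw [e5] at hI2
  refine (ENNReal.add_le_add_iff_right hsf).1 (hI2.trans (le_of_eq ?_))
  ring

end Pool.Agent.Helper961_mbly
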