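import Mathlib
import Pool.Agent.Helper766.M.Defs
import Pool.Agent.Helper961_mbly.Smear

set_option autoImplicit false

open MeasureTheory Set Real Matrix
open scoped ENNReal

namespace Pool.Agent.Helper961_mbly

open Pool.Agent.Helper766.M

theorem rot_real {n : ℕ} {R : Matrix (Fin n) (Fin n) ℝ} (hR : R * Rᵀ = 1) (d : Fin n → ℝ) :
    ∑ l, (∑ m, R m l * d m) ^ 2 = ∑ m, d m ^ 2 := by
  have h1 : (Rᵀ *ᵥ d) ⬝ᵥ (Rᵀ *ᵥ d) = d ⬝ᵥ d := by
    rw [Matrix.dotProduct_mulVec, Matrix.vecMul_transpose, Matrix.mulVec_mulVec, hR,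
      Matrix.one_mulVec]
  simp only [dotProduct, mulVec, Matrix.transpose_apply] at h1
  simp only [sq]
  exact h1

theorem rot_enorm {n : ℕ} {R : Matrix (Fin n) (Fin n) ℝ} (hR : R * Rᵀ = 1) (d : Fin n → ℂ) :
    ∑ l, ‖∑ m, ((R m l : ℝ) : ℂ) * d m‖ₑ ^ 2 = ∑ m, ‖d m‖ₑ ^ 2 := by
  have e : ∀ z : ℂ, ‖z‖ₑ ^ 2 = ENNReal.ofReal (z.re ^ 2 + z.im ^ 2) := by
    intro z
    rw [← ofReal_norm, ← ENNReal.ofReal_pow (norm_nonneg _), ← Complex.normSq_eq_norm_sq,
      Complex.normSq_apply, sq, sq]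
  simp only [e]
  rw [← ENNReal.ofReal_sum_of_nonneg fun _ _ => by positivity,
    ← ENNReal.ofReal_sum_of_nonneg fun _ _ => by positivity]
  congr 1
  simp only [Complex.re_sum, Complex.im_sum, Complex.re_ofReal_mul, Complex.im_ofReal_mul]
  rw [Finset.sum_add_distrib, rot_real hR, rot_real hR, Finset.sum_add_distrib]

theorem rot_fderiv {n : ℕ} {F : Type*} [NormedAddCommGroup F] [NormedSpace ℝ F]
    (R : Matrix (Fin n) (Fin n) ℝ) {f : (Fin n → ℝ) → F} {x : Fin n → ℝ}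
    (hf : DifferentiableAt ℝ f (R *ᵥ x)) (l : Fin n) :
    fderiv ℝ (fun x => f (R *ᵥ x)) x (Pi.single l 1) =
      ∑ m, R m l • fderiv ℝ f (R *ᵥ x) (Pi.single m 1) := by
  have h1 : HasFDerivAt (fun x : Fin n → ℝ => R *ᵥ x)
      (LinearMap.toContinuousLinearMap (Matrix.toLin' R)) x := by
    have := (LinearMap.toContinuousLinearMap (Matrix.toLin' R)).hasFDerivAt (x := x)
    simpa [Matrix.toLin'_apply] using this
  have h2 := hf.hasFDerivAt.comp x h1
  have h3 : (fun x => f (R *ᵥ x)) = f ∘ fun x => R *ᵥ x := rfl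
  rw [h3, h2.fderiv]
  simp only [ContinuousLinearMap.comp_apply, LinearMap.coe_toContinuousLinearMap',
    Matrix.toLin'_apply]
  have h4 : R *ᵥ Pi.single l 1 = ∑ m, R m l • (Pi.single m 1 : Fin n → ℝ) := by
    funext i
    simp [Pi.single_apply, Finset.sum_apply]
  rw [h4, map_sum]
  simp only [map_smul]

theorem rot_eT {n : ℕ} {R : Matrix (Fin n) (Fin n) ℝ} (hR : R * Rᵀ = 1)
    (A : (Fin n → ℝ) → (Fin n → ℝ)) {f : (Fin n → ℝ) → ℂ} (hf : Differentiable ℝ f)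
    (x : Fin n → ℝ) :
    eT (fun x l => ∑ m, R m l * A (R *ᵥ x) m) (fun x => f (R *ᵥ x)) x = eT A f (R *ᵥ x) := by
  unfold eT
  rw [← rot_enorm hR fun j => fderiv ℝ f (R *ᵥ x) (Pi.single j 1) -
    Complex.I * ((A (R *ᵥ x) j : ℝ) : ℂ) * f (R *ᵥ x)]
  refine Finset.sum_congr rfl fun l _ => ?_
  have e1 : fderiv ℝ (fun x => f (R *ᵥ x)) x (Pi.single l 1) -
      Complex.I * (((∑ m, R m l * A (R *ᵥ x) m : ℝ)) : ℂ) * f (R *ᵥ x) =
      ∑ m, ((R m l : ℝ) : ℂ) * (fderiv ℝ f (R *ᵥ x) (Pi.single m 1) -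
        Complex.I * ((A (R *ᵥ x) m : ℝ) : ℂ) * f (R *ᵥ x)) := by
    rw [rot_fderiv R (hf _)]
    push_cast
    rw [Finset.mul_sum, Finset.sum_mul, ← Finset.sum_sub_distrib]
    refine Finset.sum_congr rfl fun m _ => ?_
    rw [Complex.real_smul]
    ring
  rw [← e1]

theorem rot_mp {n : ℕ} {R : Matrix (Fin n) (Fin n) ℝ} (hR : R * Rᵀ = 1) :
    MeasurePreserving (fun x : Fin n → ℝ => R *ᵥ x) volume volume := by
  have hdet : R.det ^ 2 = 1 := by
    have := congrArg Matrix.det hR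
    rw [Matrix.det_mul, Matrix.det_transpose, Matrix.det_one] at this
    rw [sq]
    exact this
  have hdet0 : R.det ≠ 0 := by
    intro h
    rw [h] at hdet
    norm_num at hdet
  have habs : |(R.det)⁻¹| = 1 := by
    have h1 : |R.det| = 1 := by
      rw [← sq_eq_sq₀ (abs_nonneg _) (by norm_num), sq_abs, hdet, one_pow]
    rw [abs_inv, h1, inv_one]
  refine ⟨(LinearMap.toContinuousLinearMap (Matrix.toLin' R)).continuous.measurable, ?_⟩
  have h1 := Real.map_matrix_volume_pi_eq_smul_volume_pi hdet0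
  rw [habs, ENNReal.ofReal_one, one_smul] at h1
  exact h1

theorem rot_cont {n : ℕ} (R : Matrix (Fin n) (Fin n) ℝ) :
    Continuous fun x : Fin n → ℝ => R *ᵥ x :=
  (LinearMap.toContinuousLinearMap (Matrix.toLin' R)).continuous

theorem rot_emb {n : ℕ} {R : Matrix (Fin n) (Fin n) ℝ} (hR : R * Rᵀ = 1) :
    Topology.IsClosedEmbedding fun x : Fin n → ℝ => R *ᵥ x := by
  have hR' : Rᵀ * R = 1 := mul_eq_one_comm.1 hR
  have hl : Function.LeftInverse (fun x : Fin n → ℝ => Rᵀ *ᵥ x) fun x : Fin n → ℝ => R *ᵥ x := by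
    intro x
    simp only [Matrix.mulVec_mulVec, hR', Matrix.one_mulVec]
  have hr : Function.RightInverse (fun x : Fin n → ℝ => Rᵀ *ᵥ x) fun x : Fin n → ℝ => R *ᵥ x := by
    intro x
    simp only [Matrix.mulVec_mulVec, hR, Matrix.one_mulVec]
  let e : (Fin n → ℝ) ≃ₜ (Fin n → ℝ) :=
    { toFun := fun x => R *ᵥ x
      invFun := fun x => Rᵀ *ᵥ x
      left_inv := hl
      right_inv := hr
      continuous_toFun := rot_cont R
      continuous_invFun := rot_cont Rᵀ }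
  exact e.isClosedEmbedding

theorem MB_rot {n : ℕ} {Ω : Set (Fin n → ℝ)} {A : (Fin n → ℝ) → (Fin n → ℝ)} {W : ℝ}
    {R : Matrix (Fin n) (Fin n) ℝ} (hR : R * Rᵀ = 1)
    (h : MB n ((fun x => R *ᵥ x) ⁻¹' Ω) (fun x l => ∑ m, R m l * A (R *ᵥ x) m) W) :
    MB n Ω A W := by
  intro N v ω Λ hv hω hd
  have hR' : Rᵀ * R = 1 := mul_eq_one_comm.1 hR
  have hemb := rot_emb hR
  have hmp := rot_mp hR
  have hsm : ContDiff ℝ 1 fun x : Fin n → ℝ => R *ᵥ x :=
    (LinearMap.toContinuousLinearMap (Matrix.toLin' R)).contDiff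
  have hadm : Adm ((fun x => R *ᵥ x) ⁻¹' Ω) fun j x => v j (R *ᵥ x) := by
    refine ⟨fun j => (hv.smooth j).comp hsm, fun j => (hv.cpt j).comp_isClosedEmbedding hemb,
      fun j => ?_⟩
    refine (tsupport_comp_subset_preimage (v j) (rot_cont R)).trans ?_
    exact preimage_mono (hv.supp j)
  have hω' : Measurable fun x => ω (R *ᵥ x) := hω.comp (rot_cont R).measurable
  have hdom : Domin (fun j x => v j (R *ᵥ x)) fun x => ω (R *ᵥ x) := by
    intro φ hφ hφb
    obtain ⟨C, hC⟩ := hφb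
    have h1 := hd (fun y => φ (Rᵀ *ᵥ y)) (hφ.comp (rot_cont Rᵀ)) ⟨C, fun y => hC _⟩
    have e1 : ∀ j, ∫ x, v j (R *ᵥ x) * φ x = ∫ y, v j y * φ (Rᵀ *ᵥ y) := by
      intro j
      rw [← hmp.integral_comp hemb.measurableEmbedding fun y => v j y * φ (Rᵀ *ᵥ y)]
      refine integral_congr_ae (Filter.Eventually.of_forall fun x => ?_)
      simp only [Matrix.mulVec_mulVec, hR', Matrix.one_mulVec]
    simp only [e1]
    refine h1.trans (le_of_eq ?_)
    rw [← hmp.lintegral_comp_emb hemb.measurableEmbedding fun y => ω y * ‖φ (Rᵀ *ᵥ y)‖ₑ ^ 2]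
    refine lintegral_congr fun x => ?_
    simp only [Matrix.mulVec_mulVec, hR', Matrix.one_mulVec]
  have h1 := h N _ _ Λ hadm hω' hdom
  have e1 : ∀ j, ∫⁻ x, ‖v j (R *ᵥ x)‖ₑ ^ 2 = ∫⁻ y, ‖v j y‖ₑ ^ 2 := fun j =>
    hmp.lintegral_comp_emb hemb.measurableEmbedding fun y => ‖v j y‖ₑ ^ 2
  have e2 : Tmag (fun x l => ∑ m, R m l * A (R *ᵥ x) m) (fun j x => v j (R *ᵥ x)) = Tmag A v := by
    unfold Tmag
    refine Finset.sum_congr rfl fun j _ => ?_
    simp only [rot_eT hR A ((hv.smooth j).differentiable (by norm_num))]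
    exact hmp.lintegral_comp_emb hemb.measurableEmbedding fun y => eT A (v j) y
  have e3 : ∫⁻ x, ω (R *ᵥ x) = ∫⁻ y, ω y :=
    hmp.lintegral_comp_emb hemb.measurableEmbedding fun y => ω y
  simp only [e1] at h1
  rw [e2, e3] at h1
  exact h1

/-- A rotation taking the last coordinate direction to a given unit vector. -/
theorem exists_rot {n : ℕ} (e : Fin (n + 1) → ℝ) (he : ∑ i, e i ^ 2 = 1) :
    ∃ R : Matrix (Fin (n + 1)) (Fin (n + 1)) ℝ, R * Rᵀ = 1 ∧
      ∀ x, ∑ i, e i * (R *ᵥ x) i = x (Fin.last n) := by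
  obtain ⟨E, hE⟩ : ∃ E : EuclideanSpace ℝ (Fin (n + 1)), E = WithLp.toLp 2 e := ⟨_, rfl⟩
  have hEi : ∀ i, E i = e i := fun i => by rw [hE]
  have hn : ‖E‖ = 1 := by
    rw [EuclideanSpace.norm_eq]
    simp only [Real.norm_eq_abs, sq_abs, hEi]
    rw [he, Real.sqrt_one]
  have horth : Orthonormal ℝ (({Fin.last n} : Set (Fin (n + 1))).domRestrict fun _ => E) := by
    rw [orthonormal_iff_ite]
    intro i j
    have : i = j := Subsingleton.elim i j
    subst this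
    rw [if_pos rfl, real_inner_self_eq_norm_sq]
    show ‖E‖ ^ 2 = 1
    rw [hn, one_pow]
  obtain ⟨b, hb⟩ := horth.exists_orthonormalBasis_extension_of_card_eq
    (by simp : Module.finrank ℝ (EuclideanSpace ℝ (Fin (n + 1))) = Fintype.card (Fin (n + 1)))
  have hbl : b (Fin.last n) = E := hb _ rfl
  have hin : ∀ j k, ∑ i, b j i * b k i = if j = k then 1 else 0 := by
    intro j k
    have h1 := orthonormal_iff_ite.1 b.orthonormal j k
    rw [PiLp.inner_apply] at h1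
    simp only [RCLike.inner_apply, conj_trivial] at h1
    rw [← h1]
    refine Finset.sum_congr rfl fun i _ => ?_
    ring
  have hRt : (Matrix.of fun i j => b j i)ᵀ * (Matrix.of fun i j => b j i) = 1 := by
    ext j k
    rw [Matrix.mul_apply]
    simp only [Matrix.transpose_apply, Matrix.of_apply]
    rw [hin, Matrix.one_apply]
  refine ⟨Matrix.of fun i j => b j i, mul_eq_one_comm.1 hRt, fun x => ?_⟩
  have h1 : ∀ i, e i = b (Fin.last n) i := fun i => by rw [hbl, hEi]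
  simp only [h1, mulVec, dotProduct, Matrix.of_apply, Finset.mul_sum]
  rw [Finset.sum_comm]
  have h2 : ∀ j, ∑ i, b (Fin.last n) i * (b j i * x j) =
      (if Fin.last n = j then 1 else 0) * x j := by
    intro j
    rw [← hin, Finset.sum_mul]
    refine Finset.sum_congr rfl fun i _ => ?_
    ring
  simp only [h2]
  simp

end Pool.Agent.Helper961_mbly
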