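import Mathlib
import Pool.Agent.Helper766.M.Defs
import Pool.Agent.Helper961_mbly.W
import Pool.Agent.Helper961_mbly.Red
import Pool.Agent.Helper961_mbly.AL
import Pool.Agent.Helper961_mbly.Base
import Pool.Agent.Helper961_mbly.Smear

set_option autoImplicit false

open MeasureTheory Set Real Matrix
open scoped ENNReal Manifold

namespace Pool.Agent.Helper961_mbly

open Pool.Agent.Helper766.M

theorem MB_all {n : ℕ} {Ω : Set (Fin n → ℝ)} (hΩ : MeasurableSet Ω)
    {a : (Fin n → ℝ) → (Fin n → ℝ)} (ha : ContDiff ℝ 1 a) (s : Fin n → ℝ) (hs : ∀ b, 0 < s b)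
    (hg : ∀ b, ∀ x ∈ Ω, ∑ l, (fderiv ℝ (fun x => a x b) x (Pi.single l 1)) ^ 2 ≤ s b ^ 2)
    {W : ℝ} (h : ∀ κ : Fin n → ℝ, MB n Ω (fun _ => κ) W) : MB n Ω a (W + ∑ b, s b) := by
  classical
  have key : ∀ T : Finset (Fin n), ∀ κ : Fin n → ℝ,
      MB n Ω (fun x j => if j ∈ T then a x j else κ j) (W + ∑ b ∈ T, s b) := by
    intro T
    induction T using Finset.induction_on with
    | empty =>
      intro κ
      simpa using h κ
    | insert b T hb ih =>
      intro κ
      have hab : ContDiff ℝ 1 fun x => a x b := contDiff_pi.1 ha b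
      have h1 : ∀ j, ContDiff ℝ 1 fun x => if j ∈ insert b T then a x j else κ j := by
        intro j
        by_cases hj : j ∈ insert b T
        · simp only [hj, if_true]
          exact contDiff_pi.1 ha j
        · simp only [hj, if_false]
          exact contDiff_const
      have e1 : (fun x : Fin n → ℝ => if b ∈ insert b T then a x b else κ b) = fun x => a x b := by
        funext x
        rw [if_pos (Finset.mem_insert_self b T)]
      have h2 := MB_smear (Ω := Ω) (A := fun x j => if j ∈ insert b T then a x j else κ j)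
        (W := W + ∑ b ∈ T, s b) (s := s b) b (hs b) hΩ
        (measurable_pi_lambda _ fun j => (h1 j).continuous.measurable) (h1 b)
        (by simp only [e1]; exact hg b) (fun c => by
          convert ih (Function.update κ b c) using 1
          funext x j
          by_cases hj : j = b
          · subst hj
            rw [Function.update_self, if_neg hb, Function.update_self]
          · rw [Function.update_of_ne hj, Function.update_of_ne hj]
            simp [Finset.mem_insert, hj])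
      convert h2 using 1
      rw [Finset.sum_insert hb]
      ring
  have h3 := key Finset.univ 0
  simpa using h3

/-- Bessel's inequality. -/
theorem domin_of_gram {n N : ℕ} {Ω : Set (Fin n → ℝ)} (hΩ : MeasurableSet Ω)
    {u : Fin N → (Fin n → ℝ) → ℂ} (hu : Adm Ω u) (hG : Gram u = 1) :
    Domin u (Ω.indicator fun _ => 1) := by
  intro φ hφ _
  have e0 : ∫⁻ x, Ω.indicator (fun _ => 1) x * ‖φ x‖ₑ ^ 2 = ∫⁻ x in Ω, ‖φ x‖ₑ ^ 2 := by
    rw [← lintegral_indicator hΩ]
    refine lintegral_congr fun x => ?_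
    by_cases hx : x ∈ Ω
    · rw [indicator_of_mem hx, indicator_of_mem hx, one_mul]
    · rw [indicator_of_notMem hx, indicator_of_notMem hx, zero_mul]
  rw [e0]
  by_cases htop : ∫⁻ x in Ω, ‖φ x‖ₑ ^ 2 = ⊤
  · rw [htop]
    exact le_top
  obtain ⟨μ, hμ⟩ : ∃ μ : Measure (Fin n → ℝ), μ = volume.restrict Ω := ⟨_, rfl⟩
  rw [← hμ] at htop ⊢
  have hφi : Integrable (fun x => ‖φ x‖ ^ 2) μ := by
    refine ⟨(hφ.norm.pow 2).aestronglyMeasurable, ?_⟩
    rw [hasFiniteIntegral_iff_enorm]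
    refine lt_of_le_of_lt (le_of_eq ?_) (lt_top_iff_ne_top.2 htop)
    refine lintegral_congr fun x => ?_
    rw [enorm_pow, enorm_norm]
  have hφL : MemLp φ 2 μ := (memLp_two_iff_integrable_sq_norm hφ.aestronglyMeasurable).2 hφi
  have huc : ∀ j, Continuous fun x => starRingEnd ℂ (u j x) := fun j =>
    Complex.continuous_conj.comp (hu.smooth j).continuous
  have hcs : ∀ j, HasCompactSupport fun x => starRingEnd ℂ (u j x) := fun j =>
    (hu.cpt j).comp_left (map_zero _)
  have huL : ∀ j, MemLp (fun x => starRingEnd ℂ (u j x)) 2 μ := fun j => by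
    rw [hμ]
    exact ((huc j).memLp_of_hasCompactSupport (hcs j)).restrict Ω
  have hz : ∀ j x, x ∉ Ω → u j x = 0 := by
    intro j x hx
    by_contra hne
    exact hx (hu.supp j (subset_tsupport _ hne))
  have hin : ∀ j (ψ : (Fin n → ℝ) → ℂ) (hψ : MemLp ψ 2 μ),
      inner ℂ ((huL j).toLp _) (hψ.toLp ψ) = ∫ x, u j x * ψ x := by
    intro j ψ hψ
    rw [L2.inner_def]
    have e1 : ∫ x, inner ℂ (((huL j).toLp _ : Lp ℂ 2 μ) x) ((hψ.toLp ψ : Lp ℂ 2 μ) x) ∂μ =
        ∫ x, u j x * ψ x ∂μ := by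
      refine integral_congr_ae ?_
      filter_upwards [(huL j).coeFn_toLp, hψ.coeFn_toLp] with x hx1 hx2
      rw [hx1, hx2]
      simp only [RCLike.inner_apply, RingHomCompTriple.comp_apply, RingHom.id_apply]
      ring
    rw [e1, hμ]
    refine setIntegral_eq_integral_of_forall_compl_eq_zero fun x hx => ?_
    rw [hz j x hx, zero_mul]
  have horth : Orthonormal ℂ fun j => (huL j).toLp _ := by
    rw [orthonormal_iff_ite]
    intro i j
    rw [hin i _ (huL j)]
    have h1 := congrFun (congrFun hG i) j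
    simp only [Gram, Matrix.of_apply] at h1
    rw [h1, Matrix.one_apply]
  have hB := horth.sum_inner_products_le (hφL.toLp φ) (s := Finset.univ)
  have hn : ‖hφL.toLp φ‖ ^ 2 = ∫ x, ‖φ x‖ ^ 2 ∂μ := by
    have h1 : (‖hφL.toLp φ‖ ^ 2 : ℝ) = (inner ℂ (hφL.toLp φ) (hφL.toLp φ)).re := by
      rw [inner_self_eq_norm_sq_to_K]
      norm_cast
    rw [h1, L2.inner_def]
    have e1 : ∫ x, inner ℂ ((hφL.toLp φ : Lp ℂ 2 μ) x) ((hφL.toLp φ : Lp ℂ 2 μ) x) ∂μ =
        ∫ x, ((‖φ x‖ ^ 2 : ℝ) : ℂ) ∂μ := by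
      refine integral_congr_ae ?_
      filter_upwards [hφL.coeFn_toLp] with x hx1
      rw [hx1, inner_self_eq_norm_sq_to_K]
      norm_cast
    rw [e1, integral_complex_ofReal, Complex.ofReal_re]
  rw [hn] at hB
  simp only [hin] at hB
  have hfinal := ENNReal.ofReal_le_ofReal hB
  rw [ENNReal.ofReal_sum_of_nonneg fun j _ => by positivity,
    ofReal_integral_eq_lintegral_ofReal hφi (Filter.Eventually.of_forall fun x => by positivity)]
    at hfinal
  simp only [ENNReal.ofReal_pow (norm_nonneg _), ofReal_norm] at hfinal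
  exact hfinal

/-- Cutting off a `C¹` vector potential near a compact set. -/
theorem cutoff {n : ℕ} {Ω K : Set (Fin n → ℝ)} (hΩ : IsOpen Ω) (hK : IsCompact K) (hKΩ : K ⊆ Ω)
    {a : (Fin n → ℝ) → (Fin n → ℝ)} (ha : ContDiffOn ℝ 1 a Ω) :
    ∃ (a' : (Fin n → ℝ) → (Fin n → ℝ)) (U : Set (Fin n → ℝ)), ContDiff ℝ 1 a' ∧ IsOpen U ∧
      K ⊆ U ∧ U ⊆ Ω ∧ ∀ x ∈ U, a' x = a x := by
  obtain ⟨χ, h0, h1, -⟩ := exists_contMDiffMap_zero_one_nhds_of_isClosed (n := 1)
    (𝓘(ℝ, Fin n → ℝ)) hΩ.isClosed_compl hK.isClosed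
    (Set.disjoint_left.2 fun x hx hx' => hx (hKΩ hx'))
  have hχ : ContDiff ℝ 1 χ := χ.contMDiff.contDiff
  obtain ⟨U, hU, hKU, hU1⟩ := mem_nhdsSet_iff_exists.1 h1
  refine ⟨fun x => χ x • a x, U ∩ Ω, ?_, hU.inter hΩ, subset_inter hKU hKΩ, inter_subset_right,
    fun x hx => ?_⟩
  · rw [contDiff_iff_contDiffAt]
    intro x
    by_cases hx : x ∈ Ω
    · exact hχ.contDiffAt.smul (ha.contDiffAt (hΩ.mem_nhds hx))
    · have h2 : ∀ᶠ y in nhds x, χ y = 0 := h0.filter_mono (nhds_le_nhdsSet hx)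
      refine (contDiffAt_const (c := (0 : Fin n → ℝ))).congr_of_eventuallyEq ?_
      filter_upwards [h2] with y hy
      rw [hy, zero_smul]
  · have h2 : χ x = 1 := hU1 hx.1
    simp only [h2, one_smul]

/-- A product with a `C¹` function on `Ω` is `C¹`. -/
theorem contDiff_mul_supp {n : ℕ} {Ω : Set (Fin n → ℝ)} (hΩ : IsOpen Ω) {f u : (Fin n → ℝ) → ℂ}
    (hf : ContDiffOn ℝ 1 f Ω) (hu : ContDiff ℝ 1 u) (hs : tsupport u ⊆ Ω) :
    ContDiff ℝ 1 fun x => f x * u x := by
  rw [contDiff_iff_contDiffAt]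
  intro x
  by_cases hx : x ∈ Ω
  · exact (hf.contDiffAt (hΩ.mem_nhds hx)).mul hu.contDiffAt
  · have h2 : u =ᶠ[nhds x] 0 := notMem_tsupport_iff_eventuallyEq.1 fun h => hx (hs h)
    refine (contDiffAt_const (c := (0 : ℂ))).congr_of_eventuallyEq ?_
    filter_upwards [h2] with y hy
    rw [hy]
    simp

end Pool.Agent.Helper961_mbly
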