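import Mathlib
import Pool.Agent.Helper766.M.Defs
import Pool.Agent.Helper961_mbly.W
import Pool.Agent.Helper961_mbly.Red
import Pool.Agent.Helper961_mbly.AL
import Pool.Agent.Helper961_mbly.Base
import Pool.Agent.Helper961_mbly.Smear
import Pool.Agent.Helper961_mbly.Top
import Pool.Agent.Helper961_mbly.Rot

set_option autoImplicit false

open MeasureTheory Set Real Matrix
open scoped ENNReal

namespace Pool.Agent.Helper961_mbly

open Pool.Agent.Helper766.M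

theorem eT_notMem {n : ℕ} (A : (Fin n → ℝ) → (Fin n → ℝ)) {f : (Fin n → ℝ) → ℂ} {x : Fin n → ℝ}
    (hx : x ∉ tsupport f) : eT A f x = 0 := by
  have h1 : f =ᶠ[nhds x] 0 := notMem_tsupport_iff_eventuallyEq.1 hx
  have h2 : fderiv ℝ f x = 0 := by
    rw [h1.fderiv_eq]
    exact fderiv_const_apply (0 : ℂ)
  have h3 : f x = 0 := h1.eq_of_nhds
  unfold eT
  simp [h2, h3]

/-- Slabs in the last coordinate. -/
theorem BL_slab {c w : ℝ} (hw : 0 < w) (n : ℕ) :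
    BL (n + 1) {x | x (Fin.last n) ∈ Ioo c (c + w)} (26 / 100 * π ^ 2 / w ^ 2) := by
  induction n with
  | zero => exact slab_base hw
  | succ n ih => exact BL_succ ih

/-- The constant potential in a slab of arbitrary direction. -/
theorem MB_slab {n : ℕ} {Ω : Set (Fin n → ℝ)} {e : Fin n → ℝ} {c w : ℝ} (he : ∑ i, e i ^ 2 = 1)
    (hw : 0 < w) (hs : ∀ x ∈ Ω, c < ∑ i, e i * x i ∧ ∑ i, e i * x i < c + w) (κ : Fin n → ℝ) :
    MB n Ω (fun _ => κ) (-(26 / 100 * π ^ 2 / w ^ 2)) := by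
  rcases n with _ | n
  · simp at he
  obtain ⟨Q, hQ, hQe⟩ := exists_rot e he
  refine MB_rot hQ ?_
  refine MB_const (BL_slab (c := c) hw n) ?_ (fun l => ∑ m, Q m l * κ m)
  intro x hx
  have h1 := hs _ hx
  rw [hQe] at h1
  exact h1

theorem MB_frame {n : ℕ} {U : Set (Fin n → ℝ)} (hU : IsOpen U) {a : (Fin n → ℝ) → (Fin n → ℝ)}
    (ha : ContDiff ℝ 1 a) {R : Matrix (Fin n) (Fin n) ℝ} (hR : R * Rᵀ = 1) (s : Fin n → ℝ)
    (hs0 : ∀ b, 0 < s b)
    (hs : ∀ b, ∀ x ∈ U, ∑ l, (fderiv ℝ (fun y => ∑ m, R m b * a y m) x (Pi.single l 1)) ^ 2 ≤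
      s b ^ 2) {W : ℝ}
    (h : ∀ κ : Fin n → ℝ, MB n ((fun x => R *ᵥ x) ⁻¹' U) (fun _ => κ) W) :
    MB n U a (W + ∑ b, s b) := by
  refine MB_rot hR ?_
  have hRc := rot_cont R
  have hsm : ContDiff ℝ 1 fun x : Fin n → ℝ => R *ᵥ x :=
    (LinearMap.toContinuousLinearMap (Matrix.toLin' R)).contDiff
  have ha' := contDiff_pi.1 ha
  refine MB_all (hU.preimage hRc).measurableSet ?_ s hs0 ?_ h
  · refine contDiff_pi.2 fun l => ?_
    exact ContDiff.sum fun m _ => contDiff_const.mul ((ha' m).comp hsm)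
  · intro b x hx
    have hfd : Differentiable ℝ fun y => ∑ m, R m b * a y m :=
      (ContDiff.sum fun m _ => contDiff_const.mul (ha' m)).differentiable (by norm_num)
    have e1 : ∀ l, fderiv ℝ (fun x => ∑ m, R m b * a (R *ᵥ x) m) x (Pi.single l 1) =
        ∑ m, R m l * fderiv ℝ (fun y => ∑ m, R m b * a y m) (R *ᵥ x) (Pi.single m 1) := fun l =>
      rot_fderiv R (f := fun y => ∑ m, R m b * a y m) (hfd _) l
    simp only [e1]
    rw [rot_real hR]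
    exact hs b _ hx

theorem gram_one {n N : ℕ} {Ω : Set (Fin n → ℝ)} {u : Fin N → (Fin n → ℝ) → ℂ} (hu : Adm Ω u)
    (hG : Gram u = 1) : ∑ j, ∫⁻ x, ‖u j x‖ₑ ^ 2 = N := by
  have h1 : ∀ j, ∫⁻ x, ‖u j x‖ₑ ^ 2 = 1 := by
    intro j
    rw [lint_sq volume (hu.smooth j).continuous (hu.cpt j)]
    have h2 := congrFun (congrFun hG j) j
    simp only [Gram, Matrix.of_apply, Matrix.one_apply_eq] at h2
    have h3 : ∫ x, u j x * starRingEnd ℂ (u j x) = ((∫ x, ‖u j x‖ ^ 2 : ℝ) : ℂ) := by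
      rw [← integral_complex_ofReal]
      refine integral_congr_ae (Filter.Eventually.of_forall fun x => ?_)
      simp only
      rw [Complex.mul_conj, Complex.normSq_eq_norm_sq]
    rw [h3] at h2
    have h4 : ∫ x, ‖u j x‖ ^ 2 = 1 := by exact_mod_cast h2
    rw [h4, ENNReal.ofReal_one]
  simp [h1]

/-- The bound for an orthonormal family, with room `ε`. -/
theorem fam_eps {n : ℕ} {Ω : Set (Fin n → ℝ)} (hΩ : IsOpen Ω)
    {A a : (Fin n → ℝ) → (Fin n → ℝ)} {φ : (Fin n → ℝ) → ℝ}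
    (ha : ContDiffOn ℝ 1 a Ω) (hφ : ContDiffOn ℝ 1 φ Ω)
    (hA : ∀ x ∈ Ω, ∀ j, A x j = a x j + fderiv ℝ φ x (Pi.single j 1))
    {R : Matrix (Fin n) (Fin n) ℝ} (hR : R * Rᵀ = 1) (s : Fin n → ℝ) (hs0 : ∀ b, 0 < s b)
    (hs : ∀ b, ∀ x ∈ Ω, ∑ l, (fderiv ℝ (fun y => ∑ m, R m b * a y m) x (Pi.single l 1)) ^ 2 ≤
      s b ^ 2) {W : ℝ}
    (h : ∀ κ : Fin n → ℝ, MB n ((fun x => R *ᵥ x) ⁻¹' Ω) (fun _ => κ) W)
    {N : ℕ} {u : Fin N → (Fin n → ℝ) → ℂ} (hu : Adm Ω u) (hG : Gram u = 1) (Λ : ℝ) :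
    (N : ℝ≥0∞) * ENNReal.ofReal Λ ≤ Tmag A u +
      ENNReal.ofReal (Lcl 1 n) * volume Ω * ENNReal.ofReal (Λ + (W + ∑ b, s b)) ^
        (1 + (n : ℝ) / 2) := by
  obtain ⟨K, hK⟩ : ∃ K : Set (Fin n → ℝ), K = ⋃ j, tsupport (u j) := ⟨_, rfl⟩
  have hKc : IsCompact K := by
    rw [hK]
    exact isCompact_iUnion fun j => hu.cpt j
  have hKΩ : K ⊆ Ω := by
    rw [hK]
    exact iUnion_subset fun j => hu.supp j
  obtain ⟨a', U, ha', hU, hKU, hUΩ, haU⟩ := cutoff hΩ hKc hKΩ ha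
  have huU : ∀ j, tsupport (u j) ⊆ U := fun j => by
    refine subset_trans ?_ hKU
    rw [hK]
    exact subset_iUnion (fun j => tsupport (u j)) j
  obtain ⟨E, hE⟩ : ∃ E : (Fin n → ℝ) → ℂ, E = fun x => Complex.exp (-(Complex.I * (φ x : ℂ))) :=
    ⟨_, rfl⟩
  have hEc : ContDiffOn ℝ 1 E Ω := by
    rw [hE]
    have h1 : ContDiffOn ℝ 1 (fun x => (φ x : ℂ)) Ω := Complex.ofRealCLM.contDiff.comp_contDiffOn hφ
    exact (contDiffOn_const.mul h1).neg.cexp
  have hEn : ∀ x, ‖E x‖ = 1 := fun x => by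
    rw [hE]
    exact norm_ex (φ x)
  obtain ⟨u', hu'⟩ : ∃ u' : Fin N → (Fin n → ℝ) → ℂ, u' = fun j x => E x * u j x := ⟨_, rfl⟩
  have hadm : Adm U u' := by
    rw [hu']
    refine ⟨fun j => contDiff_mul_supp hΩ hEc (hu.smooth j) (hu.supp j),
      fun j => (hu.cpt j).mul_left, fun j => ?_⟩
    exact (tsupport_mul_subset_right).trans (huU j)
  have hG' : Gram u' = 1 := by
    rw [← hG]
    ext i j
    simp only [Gram, Matrix.of_apply, hu']
    congr 1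
    funext x
    rw [map_mul]
    have h1 : E x * starRingEnd ℂ (E x) = 1 := by
      rw [Complex.mul_conj, Complex.normSq_eq_norm_sq, hEn]
      norm_num
    calc E x * u i x * (starRingEnd ℂ (E x) * starRingEnd ℂ (u j x))
        = (E x * starRingEnd ℂ (E x)) * (u i x * starRingEnd ℂ (u j x)) := by ring
      _ = _ := by rw [h1, one_mul]
  have hT : Tmag a' u' = Tmag A u := by
    unfold Tmag
    refine Finset.sum_congr rfl fun j _ => ?_
    refine lintegral_congr fun x => ?_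
    by_cases hx : x ∈ U
    · have hxΩ := hUΩ hx
      have h1 : DifferentiableAt ℝ φ x :=
        (hφ.contDiffAt (hΩ.mem_nhds hxΩ)).differentiableAt (by norm_num)
      have h2 := gauge_eT (((hu.smooth j).differentiable (by norm_num)) x) h1 a' A fun l => by
        rw [haU x hx]
        exact hA x hxΩ l
      rw [← h2, hu', hE]
    · rw [eT_notMem, eT_notMem]
      · exact fun h => hx (huU j h)
      · exact fun h => hx (hadm.supp j h)
  have hMB : MB n U a' (W + ∑ b, s b) := by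
    refine MB_frame hU ha' hR s hs0 ?_ ?_
    · intro b x hx
      have h1 : (fun y => ∑ m, R m b * a' y m) =ᶠ[nhds x] fun y => ∑ m, R m b * a y m := by
        filter_upwards [hU.mem_nhds hx] with y hy
        rw [haU y hy]
      rw [h1.fderiv_eq]
      exact hs b x (hUΩ hx)
    · intro κ N v ω Λ hv
      exact h κ N v ω Λ ⟨hv.smooth, hv.cpt, fun j => (hv.supp j).trans (preimage_mono hUΩ)⟩
  have hD := domin_of_gram hU.measurableSet hadm hG'
  have hm : Measurable (U.indicator fun _ => (1 : ℝ≥0∞)) := measurable_const.indicator hU.measurableSet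
  have h1 := hMB N u' _ Λ hadm hm hD
  rw [gram_one hadm hG', hT, mul_comm] at h1
  refine h1.trans ?_
  gcongr
  rw [lintegral_indicator hU.measurableSet, setLIntegral_const, one_mul]
  exact measure_mono hUΩ

/-- The bound for an orthonormal family. -/
theorem fam_bound {n : ℕ} {Ω : Set (Fin n → ℝ)} (hΩ : IsOpen Ω) (hfin : volume Ω ≠ ⊤)
    {A a : (Fin n → ℝ) → (Fin n → ℝ)} {φ : (Fin n → ℝ) → ℝ}
    (ha : ContDiffOn ℝ 1 a Ω) (hφ : ContDiffOn ℝ 1 φ Ω)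
    (hA : ∀ x ∈ Ω, ∀ j, A x j = a x j + fderiv ℝ φ x (Pi.single j 1))
    {R : Matrix (Fin n) (Fin n) ℝ} (hR : R * Rᵀ = 1) (s : Fin n → ℝ) (hs0 : ∀ b, 0 ≤ s b)
    (hs : ∀ b, ∀ x ∈ Ω, ∑ l, (fderiv ℝ (fun y => ∑ m, R m b * a y m) x (Pi.single l 1)) ^ 2 ≤
      s b ^ 2) {W : ℝ}
    (h : ∀ κ : Fin n → ℝ, MB n ((fun x => R *ᵥ x) ⁻¹' Ω) (fun _ => κ) W)
    {N : ℕ} {u : Fin N → (Fin n → ℝ) → ℂ} (hu : Adm Ω u) (hG : Gram u = 1) (Λ : ℝ) :
    (N : ℝ≥0∞) * ENNReal.ofReal Λ ≤ Tmag A u +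
      ENNReal.ofReal (Lcl 1 n) * volume Ω * ENNReal.ofReal (Λ + (W + ∑ b, s b)) ^
        (1 + (n : ℝ) / 2) := by
  have h1 : ∀ ε : ℝ, 0 < ε → (N : ℝ≥0∞) * ENNReal.ofReal Λ ≤ Tmag A u +
      ENNReal.ofReal (Lcl 1 n) * volume Ω * ENNReal.ofReal (Λ + (W + ∑ b, (s b + ε))) ^
        (1 + (n : ℝ) / 2) := by
    intro ε hε
    refine fam_eps hΩ ha hφ hA hR (fun b => s b + ε) (fun b => by linarith [hs0 b]) ?_ h hu hG Λ
    intro b x hx
    refine (hs b x hx).trans ?_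
    exact pow_le_pow_left₀ (hs0 b) (by linarith) 2
  have hn : (0 : ℝ) ≤ n := Nat.cast_nonneg n
  have hC : ENNReal.ofReal (Lcl 1 n) * volume Ω ≠ ⊤ := ENNReal.mul_ne_top ENNReal.ofReal_ne_top hfin
  have ht : Filter.Tendsto (fun ε : ℝ => Tmag A u +
      ENNReal.ofReal (Lcl 1 n) * volume Ω * ENNReal.ofReal (Λ + (W + ∑ b, (s b + ε))) ^
        (1 + (n : ℝ) / 2)) (nhdsWithin 0 (Ioi 0)) (nhds (Tmag A u +
      ENNReal.ofReal (Lcl 1 n) * volume Ω * ENNReal.ofReal (Λ + (W + ∑ b, (s b + 0))) ^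
        (1 + (n : ℝ) / 2))) := by
    refine Filter.Tendsto.mono_left ?_ nhdsWithin_le_nhds
    refine Filter.Tendsto.const_add _ ?_
    refine ENNReal.Tendsto.const_mul ?_ (Or.inr hC)
    refine Filter.Tendsto.ennrpow_const _ ?_
    refine ENNReal.tendsto_ofReal ?_
    have : Continuous fun ε : ℝ => Λ + (W + ∑ b, (s b + ε)) := by fun_prop
    exact this.tendsto 0
  simp only [add_zero] at ht
  refine ge_of_tendsto ht ?_
  filter_upwards [self_mem_nhdsWithin] with ε hε using h1 ε hε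

end Pool.Agent.Helper961_mbly
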