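import Mathlib
import Pool.Agent.Helper766.M.Defs
import Pool.Agent.Helper961_mbly.Red
import Pool.Agent.Helper961_mbly.Fin

set_option autoImplicit false

open MeasureTheory Set Real Matrix
open scoped ENNReal

namespace Pool.Agent.Helper961_mbly

open Pool.Agent.Helper766.M

theorem enorm_add_sq_le {δ : ℝ} (hδ : 0 < δ) (a b : ℂ) :
    ‖a + b‖ₑ ^ 2 ≤ ENNReal.ofReal (1 + δ) * ‖a‖ₑ ^ 2 + ENNReal.ofReal (1 + 1 / δ) * ‖b‖ₑ ^ 2 := by
  have e : ∀ z : ℂ, ‖z‖ₑ ^ 2 = ENNReal.ofReal (‖z‖ ^ 2) := fun z => by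
    rw [← ofReal_norm, ← ENNReal.ofReal_pow (norm_nonneg z)]
  rw [e, e, e, ← ENNReal.ofReal_mul (by positivity), ← ENNReal.ofReal_mul (by positivity),
    ← ENNReal.ofReal_add (by positivity) (by positivity)]
  refine ENNReal.ofReal_le_ofReal ?_
  have h1 : ‖a + b‖ ^ 2 ≤ (‖a‖ + ‖b‖) ^ 2 := pow_le_pow_left₀ (norm_nonneg _) (norm_add_le a b) 2
  refine h1.trans ?_
  have h2 : (1 + δ) * ‖a‖ ^ 2 + (1 + 1 / δ) * ‖b‖ ^ 2 - (‖a‖ + ‖b‖) ^ 2 =
      (δ * ‖a‖ - ‖b‖) ^ 2 / δ := by
    field_simp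
    ring
  have h3 : 0 ≤ (δ * ‖a‖ - ‖b‖) ^ 2 / δ := by positivity
  linarith

/-- Approximation of a square integrable potential by continuous ones. -/
theorem approx {n N : ℕ} {Ω : Set (Fin n → ℝ)} {A : (Fin n → ℝ) → (Fin n → ℝ)}
    (hA : Measurable A) (hA2 : LocallyIntegrableOn (fun x => ∑ j : Fin n, (A x j) ^ 2) Ω)
    {u : Fin N → (Fin n → ℝ) → ℂ} (hu : Adm Ω u) {X C : ℝ≥0∞}
    (h : ∀ A' : (Fin n → ℝ) → (Fin n → ℝ), Continuous A' → X ≤ Tmag A' u + C) :
    X ≤ Tmag A u + C := by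
  obtain ⟨K, hK⟩ : ∃ K : Set (Fin n → ℝ), K = ⋃ j, tsupport (u j) := ⟨_, rfl⟩
  have hKc : IsCompact K := by
    rw [hK]
    exact isCompact_iUnion fun j => hu.cpt j
  have hKΩ : K ⊆ Ω := by
    rw [hK]
    exact iUnion_subset fun j => hu.supp j
  have huK : ∀ j, tsupport (u j) ⊆ K := fun j => by
    rw [hK]
    exact subset_iUnion (fun j => tsupport (u j)) j
  have hint := hA2.integrableOn_compact_subset hKΩ hKc
  have hM : MemLp (K.indicator A) 2 volume := by
    rw [memLp_indicator_iff_restrict hKc.measurableSet,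
      memLp_two_iff_integrable_sq_norm hA.aestronglyMeasurable]
    refine Integrable.mono' hint (hA.norm.pow_const 2).aestronglyMeasurable ?_
    refine Filter.Eventually.of_forall fun x => ?_
    rw [Real.norm_eq_abs, abs_of_nonneg (by positivity)]
    have h1 : ‖A x‖ ≤ √(∑ j, (A x j) ^ 2) := by
      refine (pi_norm_le_iff_of_nonneg (Real.sqrt_nonneg _)).2 fun j => ?_
      rw [Real.norm_eq_abs]
      refine Real.abs_le_sqrt ?_
      exact Finset.single_le_sum (f := fun j => (A x j) ^ 2) (fun i _ => sq_nonneg _)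
        (Finset.mem_univ j)
    calc ‖A x‖ ^ 2 ≤ (√(∑ j, (A x j) ^ 2)) ^ 2 := pow_le_pow_left₀ (norm_nonneg _) h1 2
      _ = _ := Real.sq_sqrt (Finset.sum_nonneg fun i _ => sq_nonneg _)
  -- a bound for the functions
  obtain ⟨M, hM0, hMu⟩ : ∃ M : ℝ, 0 ≤ M ∧ ∀ j x, ‖u j x‖ ≤ M := by
    have h1 : ∀ j, ∃ M : ℝ, ∀ x, ‖u j x‖ ≤ M := fun j =>
      (hu.smooth j).continuous.bounded_above_of_compact_support (hu.cpt j)
    choose M hM using h1
    refine ⟨∑ j, |M j|, Finset.sum_nonneg fun j _ => abs_nonneg _, fun j x => ?_⟩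
    exact ((hM j x).trans (le_abs_self _)).trans
      (Finset.single_le_sum (f := fun j => |M j|) (fun i _ => abs_nonneg _) (Finset.mem_univ j))
  have hstep : ∀ δ : ℝ, 0 < δ →
      X ≤ ENNReal.ofReal (1 + δ) * Tmag A u + ENNReal.ofReal δ + C := by
    intro δ hδ
    obtain ⟨c, hc⟩ : ∃ c : ℝ, c = (1 + 1 / δ) * (n * M ^ 2) * N := ⟨_, rfl⟩
    have hc0 : 0 ≤ c := by rw [hc]; positivity
    obtain ⟨ε, hε⟩ : ∃ ε : ℝ, ε = √(δ / (c + 1)) := ⟨_, rfl⟩
    have hε0 : 0 < ε := by rw [hε]; exact Real.sqrt_pos.2 (by positivity)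
    have hε2 : c * ε ^ 2 ≤ δ := by
      rw [hε, Real.sq_sqrt (by positivity), ← mul_div_assoc, div_le_iff₀ (by positivity)]
      nlinarith
    obtain ⟨g, -, hg, hgc, -⟩ := hM.exists_hasCompactSupport_eLpNorm_sub_le (by norm_num)
      (ε := ENNReal.ofReal ε) (by
        rw [Ne, ENNReal.ofReal_eq_zero, not_le]
        exact hε0)
    have hg2 : ∫⁻ x, ‖(K.indicator A - g) x‖ₑ ^ 2 ≤ ENNReal.ofReal (ε ^ 2) := by
      have h1 := eLpNorm_nnreal_pow_eq_lintegral (f := K.indicator A - g) (μ := volume)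
        (p := 2) (by norm_num)
      have h2 : (eLpNorm (K.indicator A - g) 2 volume) ^ (2 : ℝ) ≤ ENNReal.ofReal ε ^ (2 : ℝ) :=
        ENNReal.rpow_le_rpow hg (by norm_num)
      have h3 : ∫⁻ x, ‖(K.indicator A - g) x‖ₑ ^ (2 : ℝ) ≤ ENNReal.ofReal ε ^ (2 : ℝ) := by
        have e1 : ((2 : NNReal) : ℝ) = 2 := by norm_num
        have e2 : ((2 : NNReal) : ℝ≥0∞) = 2 := by norm_num
        rw [e1, e2] at h1
        exact (le_of_eq h1.symm).trans h2
      have h4 : ENNReal.ofReal ε ^ (2 : ℝ) = ENNReal.ofReal (ε ^ 2) := by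
        rw [ENNReal.ofReal_pow hε0.le]
        norm_cast
      rw [← h4]
      refine le_trans (le_of_eq ?_) h3
      refine lintegral_congr fun x => ?_
      norm_cast
    have hpt : ∀ j x, eT g (u j) x ≤ ENNReal.ofReal (1 + δ) * eT A (u j) x +
        ENNReal.ofReal ((1 + 1 / δ) * (n * M ^ 2)) * ‖(K.indicator A - g) x‖ₑ ^ 2 := by
      intro j x
      by_cases hx : x ∈ K
      · have h1 : ∀ l : Fin n, ‖fderiv ℝ (u j) x (Pi.single l 1) -
            Complex.I * ((g x l : ℝ) : ℂ) * u j x‖ₑ ^ 2 ≤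
            ENNReal.ofReal (1 + δ) * ‖fderiv ℝ (u j) x (Pi.single l 1) -
            Complex.I * ((A x l : ℝ) : ℂ) * u j x‖ₑ ^ 2 + ENNReal.ofReal ((1 + 1 / δ) * M ^ 2) *
              ‖(K.indicator A - g) x‖ₑ ^ 2 := by
          intro l
          have h2 : fderiv ℝ (u j) x (Pi.single l 1) - Complex.I * ((g x l : ℝ) : ℂ) * u j x =
              (fderiv ℝ (u j) x (Pi.single l 1) - Complex.I * ((A x l : ℝ) : ℂ) * u j x) +
                Complex.I * ((A x l - g x l : ℝ) : ℂ) * u j x := by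
            push_cast
            ring
          rw [h2, ENNReal.ofReal_mul (p := 1 + 1 / δ) (by positivity),
            mul_assoc (ENNReal.ofReal (1 + 1 / δ))]
          refine (enorm_add_sq_le hδ _ _).trans ?_
          refine add_le_add le_rfl (mul_le_mul' le_rfl ?_)
          rw [enorm_mul, enorm_mul, mul_pow, mul_pow]
          have h3 : ‖Complex.I‖ₑ = 1 := by
            rw [← ofReal_norm, Complex.norm_I, ENNReal.ofReal_one]
          rw [h3, one_pow, one_mul, mul_comm]
          refine mul_le_mul' ?_ ?_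
          · rw [ENNReal.ofReal_pow hM0]
            gcongr
            rw [← ofReal_norm]
            exact ENNReal.ofReal_le_ofReal (hMu j x)
          · gcongr
            rw [← ofReal_norm, ← ofReal_norm]
            refine ENNReal.ofReal_le_ofReal ?_
            rw [Complex.norm_real, Pi.sub_apply, indicator_of_mem hx]
            exact norm_le_pi_norm (A x - g x) l
        calc eT g (u j) x ≤ ∑ l : Fin n, (ENNReal.ofReal (1 + δ) *
              ‖fderiv ℝ (u j) x (Pi.single l 1) - Complex.I * ((A x l : ℝ) : ℂ) * u j x‖ₑ ^ 2 +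
                ENNReal.ofReal ((1 + 1 / δ) * M ^ 2) * ‖(K.indicator A - g) x‖ₑ ^ 2) :=
              Finset.sum_le_sum fun l _ => h1 l
          _ = _ := by
            rw [Finset.sum_add_distrib, ← Finset.mul_sum, Finset.sum_const, Finset.card_univ,
              Fintype.card_fin, nsmul_eq_mul, ← mul_assoc,
              show (1 + 1 / δ) * (n * M ^ 2) = n * ((1 + 1 / δ) * M ^ 2) by ring,
              ENNReal.ofReal_mul (p := (n : ℝ)) (by positivity), ENNReal.ofReal_natCast]
            rfl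
      · rw [eT_notMem g (fun h => hx (huK j h))]
        exact bot_le
    have hT : Tmag g u ≤ ENNReal.ofReal (1 + δ) * Tmag A u + ENNReal.ofReal δ := by
      have h1 : ∀ j, ∫⁻ x, eT g (u j) x ≤ ENNReal.ofReal (1 + δ) * (∫⁻ x, eT A (u j) x) +
          ENNReal.ofReal ((1 + 1 / δ) * (n * M ^ 2)) * ENNReal.ofReal (ε ^ 2) := by
        intro j
        refine (lintegral_mono (hpt j)).trans ?_
        have hm : Measurable fun x => ‖(K.indicator A - g) x‖ₑ ^ 2 :=
          (((hA.indicator hKc.measurableSet).sub hgc.measurable).enorm).pow_const 2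
        rw [lintegral_add_right _ (hm.const_mul _), lintegral_const_mul' _ _ ENNReal.ofReal_ne_top,
          lintegral_const_mul _ hm]
        gcongr
      unfold Tmag
      refine (Finset.sum_le_sum fun j _ => h1 j).trans ?_
      rw [Finset.sum_add_distrib, ← Finset.mul_sum]
      gcongr
      rw [Finset.sum_const, Finset.card_univ, Fintype.card_fin, nsmul_eq_mul,
        ← ENNReal.ofReal_mul (by positivity), ← ENNReal.ofReal_natCast,
        ← ENNReal.ofReal_mul (by positivity)]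
      refine ENNReal.ofReal_le_ofReal ?_
      refine le_trans (le_of_eq ?_) hε2
      rw [hc]
      ring
    exact (h g hgc).trans (add_le_add hT le_rfl)
  -- the limit
  by_cases hT : Tmag A u = ⊤
  · rw [hT, top_add]
    exact le_top
  have ht : Filter.Tendsto (fun δ : ℝ => ENNReal.ofReal (1 + δ) * Tmag A u + ENNReal.ofReal δ + C)
      (nhdsWithin 0 (Ioi 0)) (nhds (ENNReal.ofReal (1 + 0) * Tmag A u + ENNReal.ofReal 0 + C)) := by
    refine Filter.Tendsto.mono_left ?_ nhdsWithin_le_nhds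
    refine Filter.Tendsto.add (Filter.Tendsto.add ?_ ?_) tendsto_const_nhds
    · refine ENNReal.Tendsto.mul_const ?_ (Or.inr hT)
      refine ENNReal.tendsto_ofReal ?_
      have : Continuous fun δ : ℝ => 1 + δ := by fun_prop
      exact this.tendsto 0
    · exact ENNReal.tendsto_ofReal Filter.tendsto_id
  simp only [add_zero, ENNReal.ofReal_one, one_mul, ENNReal.ofReal_zero] at ht
  refine ge_of_tendsto ht ?_
  filter_upwards [self_mem_nhdsWithin] with δ hδ using hstep δ hδ

end Pool.Agent.Helper961_mbly
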