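import Mathlib
import Pool.Agent.Helper766.M.Defs
import Pool.Agent.Helper766.M.L_Gram_basic
import Pool.Agent.Helper766.M.L_Gram_der
import Pool.Agent.Helper766.M.L_Tmag_split
import Pool.Agent.Helper766.M.L_cal2
import Pool.Agent.Helper766.M.L_lint_cons
import Pool.Agent.Helper766.M.L_slice_reg
import Pool.Agent.Helper766.M.L_tau_ineq
import Pool.Agent.Helper766.M.L_PPp_to_PP
import Pool.Agent.Helper766.M.L_PP_to_PPp
import Pool.Agent.Helper961_mbly.Red
import Pool.Agent.Helper961_mbly.W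

set_option autoImplicit false

open MeasureTheory Set Real Matrix
open scoped ENNReal ComplexOrder

namespace Pool.Agent.Helper961_mbly

open Pool.Agent.Helper766.M

/-- The length of the section of `Ω` through `x` in the last coordinate direction. -/
noncomputable def len {n : ℕ} (Ω : Set (Fin (n + 1) → ℝ)) (x : Fin (n + 1) → ℝ) : ℝ≥0∞ :=
  volume {s : ℝ | Function.update x (Fin.last n) s ∈ Ω}

/-- The integral of the squared section lengths. -/
noncomputable def I2 {n : ℕ} (Ω : Set (Fin (n + 1) → ℝ)) : ℝ≥0∞ := ∫⁻ x in Ω, len Ω x ^ 2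

/-- The right side of the improved inequality. -/
noncomputable def KK (α β : ℝ) (m : ℕ) {n : ℕ} (Ω : Set (Fin (n + 1) → ℝ)) (σ : ℝ) : ℝ≥0∞ :=
  ENNReal.ofReal (α * cc m) * volume Ω * ENNReal.ofReal σ ^ (((m : ℝ) + 3) / 2) +
    ENNReal.ofReal (β * cc (m + 2)) * I2 Ω * ENNReal.ofReal σ ^ (((m : ℝ) + 5) / 2)

/-- The improved inequality for `γ = 3/2`. -/
def PS (α β : ℝ) (n : ℕ) : Prop :=
  ∀ (N : ℕ) (u : Fin N → (Fin (n + 1) → ℝ) → ℂ) (Ω : Set (Fin (n + 1) → ℝ))
    (A : (Fin (n + 1) → ℝ) → (Fin (n + 1) → ℝ)) (σ : ℝ), Adm Ω u → IsOpen Ω → Continuous A →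
    0 ≤ σ → ENNReal.ofReal σ * ∑ j, ∫⁻ x, ‖u j x‖ₑ ^ 2 ≤ Tmag A u +
      ENNReal.ofReal (1 / 3 * (Gram u * Gram u * Gram u).trace.re) + KK α β (n + 1) Ω σ

/-- The improved inequality for `γ = 2`. -/
def PS' (α β : ℝ) (n : ℕ) : Prop :=
  ∀ (N : ℕ) (u : Fin N → (Fin (n + 1) → ℝ) → ℂ) (Ω : Set (Fin (n + 1) → ℝ))
    (A : (Fin (n + 1) → ℝ) → (Fin (n + 1) → ℝ)) (σ : ℝ), Adm Ω u → IsOpen Ω → Continuous A →
    0 ≤ σ → ENNReal.ofReal σ * ∑ j, ∫⁻ x, ‖u j x‖ₑ ^ 2 ≤ Tmag A u +
      ENNReal.ofReal (2 * (Gram u * Gram u).trace.re) + KK α β (n + 2) Ω σ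

theorem len_meas {n : ℕ} {Ω : Set (Fin (n + 1) → ℝ)} (hΩ : MeasurableSet Ω) :
    Measurable (len Ω) := by
  have hc : Continuous fun q : (Fin (n + 1) → ℝ) × ℝ => Function.update q.1 (Fin.last n) q.2 := by
    refine continuous_pi fun i => ?_
    by_cases hi : i = Fin.last n
    · subst hi
      simp only [Function.update_self]
      exact continuous_snd
    · simp only [Function.update_of_ne hi]
      exact (continuous_apply i).comp continuous_fst
  have hm : MeasurableSet {q : (Fin (n + 1) → ℝ) × ℝ | Function.update q.1 (Fin.last n) q.2 ∈ Ω} :=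
    hc.measurable hΩ
  exact measurable_measure_prodMk_left hm

/-- The slice of a set. -/
def sl {n : ℕ} (Ω : Set (Fin (n + 1) → ℝ)) (t : ℝ) : Set (Fin n → ℝ) :=
  {y | (Fin.cons t y : Fin (n + 1) → ℝ) ∈ Ω}

theorem sl_meas {n : ℕ} {Ω : Set (Fin (n + 1) → ℝ)} (hΩ : MeasurableSet Ω) (t : ℝ) :
    MeasurableSet (sl Ω t) := (cons_cont_right t).measurable hΩ

theorem ind_cons {n : ℕ} (Ω : Set (Fin (n + 1) → ℝ)) (F : (Fin (n + 1) → ℝ) → ℝ≥0∞) (t : ℝ)
    (y : Fin n → ℝ) : Ω.indicator F (Fin.cons t y : Fin (n + 1) → ℝ) =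
      (sl Ω t).indicator (fun y => F (Fin.cons t y : Fin (n + 1) → ℝ)) y := by
  by_cases hy : (Fin.cons t y : Fin (n + 1) → ℝ) ∈ Ω
  · have hy' : y ∈ sl Ω t := hy
    rw [indicator_of_mem hy, indicator_of_mem hy']
  · have hy' : y ∉ sl Ω t := hy
    rw [indicator_of_notMem hy, indicator_of_notMem hy']

theorem sl_open {n : ℕ} {Ω : Set (Fin (n + 1) → ℝ)} (hΩ : IsOpen Ω) (t : ℝ) : IsOpen (sl Ω t) :=
  hΩ.preimage (cons_cont_right t)

theorem len_cons {n : ℕ} (Ω : Set (Fin (n + 2) → ℝ)) (t : ℝ) (y : Fin (n + 1) → ℝ) :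
    len Ω (Fin.cons t y) = len (sl Ω t) y := by
  unfold len sl
  congr 1
  ext s
  simp only [mem_ofPred_eq]
  have : Function.update (Fin.cons t y : Fin (n + 2) → ℝ) (Fin.last (n + 1)) s =
      (Fin.cons t (Function.update y (Fin.last n) s) : Fin (n + 2) → ℝ) := by
    rw [Fin.cons_update]
    rfl
  rw [this]

theorem vol_slice {n : ℕ} {Ω : Set (Fin (n + 1) → ℝ)} (hΩ : MeasurableSet Ω) :
    volume Ω = ∫⁻ t : ℝ, volume (sl Ω t) ∧ Measurable fun t : ℝ => volume (sl Ω t) := by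
  have h1 : Measurable (Ω.indicator fun _ => (1 : ℝ≥0∞)) := measurable_const.indicator hΩ
  obtain ⟨e, m⟩ := lint_cons _ h1
  have h2 : ∀ t : ℝ, ∫⁻ y : Fin n → ℝ, (Ω.indicator fun _ => (1 : ℝ≥0∞))
      (Fin.cons t y : Fin (n + 1) → ℝ) = volume (sl Ω t) := by
    intro t
    simp only [ind_cons]
    rw [lintegral_indicator (sl_meas hΩ t), setLIntegral_const, one_mul]
  simp only [h2] at e m
  rw [lintegral_indicator hΩ, setLIntegral_const, one_mul] at e
  exact ⟨e, m⟩

theorem I2_slice {n : ℕ} {Ω : Set (Fin (n + 2) → ℝ)} (hΩ : MeasurableSet Ω) :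
    I2 Ω = ∫⁻ t : ℝ, I2 (sl Ω t) ∧ Measurable fun t : ℝ => I2 (sl Ω t) := by
  have h1 : Measurable (Ω.indicator fun x => len Ω x ^ 2) :=
    ((len_meas hΩ).pow_const 2).indicator hΩ
  obtain ⟨e, m⟩ := lint_cons _ h1
  have h2 : ∀ t : ℝ, ∫⁻ y : Fin (n + 1) → ℝ, (Ω.indicator fun x => len Ω x ^ 2)
      (Fin.cons t y : Fin (n + 2) → ℝ) = I2 (sl Ω t) := by
    intro t
    simp only [ind_cons, len_cons]
    rw [lintegral_indicator (sl_meas hΩ t)]
    rfl
  simp only [h2] at e m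
  rw [lintegral_indicator hΩ] at e
  exact ⟨e, m⟩

theorem rho_int {n N : ℕ} (u : Fin N → (Fin n → ℝ) → ℂ) (hu : ∀ i, Continuous (u i)) :
    ∑ j, ∫⁻ x, ‖u j x‖ₑ ^ 2 = ∫⁻ x, rho u x := by
  unfold rho
  rw [lintegral_finsetSum _ fun j _ => ((hu j).measurable.enorm).pow_const 2]

theorem slice_adm {n N : ℕ} {Ω : Set (Fin (n + 1) → ℝ)} {u : Fin N → (Fin (n + 1) → ℝ) → ℂ}
    (hu : Adm Ω u) (t : ℝ) : Adm (sl Ω t) (slice u t) := by
  refine ⟨(slice_reg u hu.smooth hu.cpt t).1, (slice_reg u hu.smooth hu.cpt t).2.1, fun i => ?_⟩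
  have h1 : tsupport (slice u t i) ⊆ (fun y : Fin n → ℝ => (Fin.cons t y : Fin (n + 1) → ℝ)) ⁻¹'
      tsupport (u i) := by
    refine closure_minimal ?_ ((isClosed_tsupport _).preimage (cons_cont_right t))
    intro y hy
    exact subset_tsupport _ hy
  intro y hy
  exact hu.supp i (h1 hy)

/-- From `γ = 2` on the slices to `γ = 3/2`. -/
theorem PS'_to_PS {α β : ℝ} {n : ℕ} (h : PS' α β n) : PS α β (n + 1) := by
  intro N u Ω A σ hu hΩ hA hσ
  have hcont : ∀ i, Continuous (u i) := fun i => (hu.smooth i).continuous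
  have hAm : Measurable A := hA.measurable
  have hr : Measurable (rho u) := PP'_to_PP_rho u hcont
  obtain ⟨e1, m1⟩ := lint_cons _ hr
  obtain ⟨hT, mT⟩ := Tmag_split A hAm u hu.smooth hu.cpt
  obtain ⟨hd, hdc⟩ := Gram_der u hu.smooth hu.cpt
  obtain ⟨M, hM⟩ := Gram_supp u hu.cpt
  have hpos : ∀ t, (Gram (slice u t)).PosSemidef := fun t =>
    Gram_psd _ (fun i => ((slice_reg u hu.smooth hu.cpt t).1 i).continuous)
      (slice_reg u hu.smooth hu.cpt t).2.1
  have hGc : ∀ i j, Continuous fun t => Gram (slice u t) i j := fun i j =>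
    continuous_iff_continuousAt.2 (fun t => (hd i j t).continuousAt)
  have hqc : Continuous fun t => (Gram (slice u t) * Gram (slice u t)).trace.re := by
    refine Complex.continuous_re.comp ?_
    simp only [Matrix.trace, Matrix.diag_apply, Matrix.mul_apply]
    exact continuous_finsetSum _ (fun i _ => continuous_finsetSum _ (fun j _ =>
      (hGc i j).mul (hGc j i)))
  have hq0 : ∀ t, 0 ≤ (Gram (slice u t) * Gram (slice u t)).trace.re := fun t =>
    PP'_to_PP_nonneg _ (hpos t)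
  have hqi : Integrable fun t => (Gram (slice u t) * Gram (slice u t)).trace.re := by
    refine hqc.integrable_of_hasCompactSupport ?_
    refine HasCompactSupport.intro (isCompact_Icc : IsCompact (Icc (-M) M)) (fun t ht => ?_)
    have h1 : M < |t| := by
      rw [lt_abs]
      by_contra hcon
      push Not at hcon
      exact ht ⟨by linarith [hcon.2], hcon.1⟩
    simp only [hM t h1, Matrix.mul_zero, Matrix.trace_zero, Complex.zero_re]
  obtain ⟨hv1, hv2⟩ := vol_slice hΩ.measurableSet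
  obtain ⟨hw1, hw2⟩ := I2_slice hΩ.measurableSet
  have hKm : Measurable fun t : ℝ => KK α β (n + 2) (sl Ω t) σ := by
    unfold KK
    exact ((hv2.const_mul _).mul_const _).add ((hw2.const_mul _).mul_const _)
  have hKi : ∫⁻ t : ℝ, KK α β (n + 2) (sl Ω t) σ = KK α β (n + 2) Ω σ := by
    unfold KK
    rw [lintegral_add_left ((hv2.const_mul _).mul_const _), lintegral_mul_const _ (hv2.const_mul _),
      lintegral_const_mul _ hv2, ← hv1, lintegral_mul_const _ (hw2.const_mul _),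
      lintegral_const_mul _ hw2, ← hw1]
  have key : ∀ t : ℝ, ENNReal.ofReal σ * (∫⁻ y : Fin (n + 1) → ℝ,
      rho u (Fin.cons t y : Fin (n + 2) → ℝ)) ≤
      (Tmag (sliceA A t) (slice u t) +
        ENNReal.ofReal (2 * (Gram (slice u t) * Gram (slice u t)).trace.re)) +
        KK α β (n + 2) (sl Ω t) σ := by
    intro t
    have h1 := h N (slice u t) (sl Ω t) (sliceA A t) σ (slice_adm hu t) (sl_open hΩ t) (by
      refine continuous_pi fun j => ?_
      exact (continuous_apply j.succ).comp (hA.comp (cons_cont_right t))) hσ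
    rw [rho_int _ fun i => ((slice_reg u hu.smooth hu.cpt t).1 i).continuous] at h1
    exact h1
  have mR : Measurable fun t =>
      ENNReal.ofReal (2 * (Gram (slice u t) * Gram (slice u t)).trace.re) :=
    ((continuous_const.mul hqc).measurable).ennreal_ofReal
  have e3 : ∫⁻ t, ENNReal.ofReal (2 * (Gram (slice u t) * Gram (slice u t)).trace.re) =
      ENNReal.ofReal (2 * ∫ t, (Gram (slice u t) * Gram (slice u t)).trace.re) := by
    rw [← integral_const_mul, ofReal_integral_eq_lintegral_ofReal (hqi.const_mul 2)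
      (Filter.Eventually.of_forall (fun t => mul_nonneg zero_le_two (hq0 t)))]
  have e4 := cal2 (fun t => Gram (slice u t)) (Gram' u) hd hdc hpos M hM (tau A u)
    (fun t Y hY => tau_ineq A u hu.smooth hu.cpt t Y hY)
  rw [Gram_int u hcont hu.cpt] at e4
  rw [rho_int u hcont, e1, ← lintegral_const_mul _ m1]
  calc ∫⁻ t : ℝ, ENNReal.ofReal σ * ∫⁻ y : Fin (n + 1) → ℝ, rho u (Fin.cons t y : Fin (n + 2) → ℝ)
      ≤ ∫⁻ t : ℝ, ((Tmag (sliceA A t) (slice u t) +
        ENNReal.ofReal (2 * (Gram (slice u t) * Gram (slice u t)).trace.re)) +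
        KK α β (n + 2) (sl Ω t) σ) := lintegral_mono key
    _ = (∫⁻ t, Tmag (sliceA A t) (slice u t)) +
          ENNReal.ofReal (2 * ∫ t, (Gram (slice u t) * Gram (slice u t)).trace.re) +
          KK α β (n + 2) Ω σ := by
        have a1 := lintegral_add_left (μ := (volume : Measure ℝ)) (mT.add mR) (fun t =>
          KK α β (n + 2) (sl Ω t) σ)
        have a2 := lintegral_add_left (μ := (volume : Measure ℝ)) mT (fun t =>
          ENNReal.ofReal (2 * (Gram (slice u t) * Gram (slice u t)).trace.re))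
        simp only [Pi.add_apply] at a1
        rw [a1, a2, e3, hKi]
    _ ≤ (∫⁻ t, Tmag (sliceA A t) (slice u t)) +
          ((∫⁻ t, tau A u t) + ENNReal.ofReal (1 / 3 * (Gram u * Gram u * Gram u).trace.re)) +
          KK α β (n + 2) Ω σ := by
        gcongr
    _ = _ := by
        rw [← add_assoc, hT]

end Pool.Agent.Helper961_mbly
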