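import Mathlib
import Pool.Agent.Helper766.M.Defs
import Pool.Agent.Helper766.M.L_AL_core
import Pool.Agent.Helper766.M.L_beta_lint
import Pool.Agent.Helper766.M.L_cc
import Pool.Agent.Helper766.M.L_diag_family
import Pool.Agent.Helper766.M.L_PP_to_PPp
import Pool.Agent.Helper961_mbly.LowA

set_option autoImplicit false

open MeasureTheory Set Real Matrix
open scoped ENNReal ComplexOrder

namespace Pool.Agent.Helper961_mbly

open Pool.Agent.Helper766.M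

theorem adm_of_rho {n N : ℕ} {Ω : Set (Fin n → ℝ)} {u v : Fin N → (Fin n → ℝ) → ℂ}
    (hu : Adm Ω u) (hv : ∀ i, ContDiff ℝ 1 (v i)) (hvc : ∀ i, HasCompactSupport (v i))
    (h : ∀ x, rho v x = rho u x) : Adm Ω v := by
  refine ⟨hv, hvc, fun i => ?_⟩
  have h1 : IsClosed (⋃ j, tsupport (u j)) :=
    (isCompact_iUnion fun j => hu.cpt j).isClosed
  have h2 : tsupport (v i) ⊆ ⋃ j, tsupport (u j) := by
    refine closure_minimal (fun x hx => ?_) h1
    by_contra hne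
    apply hx
    have h3 : rho u x = 0 := by
      unfold rho
      refine Finset.sum_eq_zero fun j _ => ?_
      have : u j x = 0 := by
        by_contra h4
        exact hne (mem_iUnion.2 ⟨j, subset_tsupport _ h4⟩)
      rw [this]
      simp
    rw [← h x] at h3
    unfold rho at h3
    have h4 := (Finset.sum_eq_zero_iff.1 h3) i (Finset.mem_univ i)
    simpa using h4
  exact h2.trans (iUnion_subset hu.supp)

theorem PS_step {α β : ℝ} {n : ℕ} (h : PS α β n) {N : ℕ}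
    {Ω : Set (Fin (n + 1) → ℝ)} (hΩ : IsOpen Ω) {v : Fin N → (Fin (n + 1) → ℝ) → ℂ}
    (hv : Adm Ω v) (l : Fin N → ℝ) (hl : ∀ i, 0 ≤ l i)
    (hG : Gram v = Matrix.diagonal (fun i => (l i : ℂ)))
    (hL : ∀ i, ∫⁻ x, ‖v i x‖ₑ ^ 2 = ENNReal.ofReal (l i))
    {A : (Fin (n + 1) → ℝ) → (Fin (n + 1) → ℝ)} (hA : Continuous A) {σ : ℝ} (hσ : 0 ≤ σ)
    (t : ℝ) (ht : 0 < t) (b : Fin N → ℝ) (hb : ∀ i, 0 ≤ b i) :
    ∑ i, ENNReal.ofReal (b i / l i) * (ENNReal.ofReal σ * ∫⁻ x, ‖v i x‖ₑ ^ 2) ≤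
      ∑ i, ENNReal.ofReal (b i / l i) * (∫⁻ x, eT A (v i) x) +
        ∑ i, ENNReal.ofReal (b i * t) + ENNReal.ofReal (1 / 3 * ∑ i, b i ^ 3) +
        (ENNReal.ofReal (α * cc (n + 1)) * volume Ω *
          (ENNReal.ofReal σ - ENNReal.ofReal t) ^ ((((n + 1 : ℕ) : ℝ) + 3) / 2) +
        ENNReal.ofReal (β * cc (n + 1 + 2)) * I2 Ω *
          (ENNReal.ofReal σ - ENNReal.ofReal t) ^ ((((n + 1 : ℕ) : ℝ) + 5) / 2)) := by
  have hbl : ∀ i, 0 ≤ b i / l i := fun i => div_nonneg (hb i) (hl i)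
  have hbl' : ∀ i, b i / l i * l i ≤ b i := by
    intro i
    by_cases e : l i = 0
    · rw [e, mul_zero]
      exact hb i
    · rw [div_mul_cancel₀ _ e]
  have hX : ∀ i, ENNReal.ofReal (b i / l i) * (ENNReal.ofReal σ * ∫⁻ x, ‖v i x‖ₑ ^ 2) ≤
      ENNReal.ofReal (σ - t) * (ENNReal.ofReal (b i / l i) * ENNReal.ofReal (l i)) +
        ENNReal.ofReal (b i * t) := by
    intro i
    rw [hL i]
    have h1 : ENNReal.ofReal σ ≤ ENNReal.ofReal (σ - t) + ENNReal.ofReal t := by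
      rw [ENNReal.ofReal_sub _ ht.le]
      exact le_tsub_add
    calc ENNReal.ofReal (b i / l i) * (ENNReal.ofReal σ * ENNReal.ofReal (l i))
        ≤ ENNReal.ofReal (b i / l i) * ((ENNReal.ofReal (σ - t) + ENNReal.ofReal t) *
          ENNReal.ofReal (l i)) := by gcongr
      _ = ENNReal.ofReal (σ - t) * (ENNReal.ofReal (b i / l i) * ENNReal.ofReal (l i)) +
        ENNReal.ofReal (b i / l i) * ENNReal.ofReal (l i) * ENNReal.ofReal t := by ring
      _ ≤ _ := by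
        gcongr
        rw [← ENNReal.ofReal_mul (hbl i), ← ENNReal.ofReal_mul (mul_nonneg (hbl i) (hl i))]
        exact ENNReal.ofReal_le_ofReal (mul_le_mul_of_nonneg_right (hbl' i) ht.le)
  refine (Finset.sum_le_sum fun i _ => hX i).trans ?_
  rw [Finset.sum_add_distrib, ← Finset.mul_sum]
  rcases lt_or_ge σ t with hσt | hσt
  · rw [ENNReal.ofReal_of_nonpos (by linarith : σ - t ≤ 0), zero_mul, zero_add]
    refine le_trans ?_ le_self_add
    refine le_trans ?_ le_self_add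
    exact le_add_self
  have hs : ∀ i, ‖((√(b i / l i) : ℝ) : ℂ)‖ₑ ^ 2 = ENNReal.ofReal (b i / l i) := by
    intro i
    rw [← ofReal_norm, Complex.norm_real, Real.norm_of_nonneg (Real.sqrt_nonneg _),
      ← ENNReal.ofReal_pow (Real.sqrt_nonneg _), Real.sq_sqrt (hbl i)]
  have hadm : Adm Ω fun i x => ((√(b i / l i) : ℝ) : ℂ) * v i x :=
    ⟨fun i => contDiff_const.mul (hv.smooth i), fun i => (hv.cpt i).mul_left,
      fun i => (tsupport_mul_subset_right).trans (hv.supp i)⟩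
  have key := h N (fun i x => ((√(b i / l i) : ℝ) : ℂ) * v i x) Ω A (σ - t) hadm hΩ hA
    (by linarith)
  rw [PP_to_PP'_Gram v l _ hG, PP_to_PP'_tr] at key
  have hT : Tmag A (fun i x => ((√(b i / l i) : ℝ) : ℂ) * v i x) =
      ∑ i, ENNReal.ofReal (b i / l i) * (∫⁻ x, eT A (v i) x) := by
    unfold Tmag
    refine Finset.sum_congr rfl fun i _ => ?_
    rw [← lintegral_const_mul' _ _ ENNReal.ofReal_ne_top]
    refine lintegral_congr fun x => ?_
    rw [PP_to_PP'_eT A (v i) (hv.smooth i), hs i]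
  have hn : ∀ i, ∫⁻ x, ‖((√(b i / l i) : ℝ) : ℂ) * v i x‖ₑ ^ 2 =
      ENNReal.ofReal (b i / l i) * ENNReal.ofReal (l i) := by
    intro i
    simp only [enorm_mul, mul_pow, hs]
    rw [lintegral_const_mul' _ _ ENNReal.ofReal_ne_top, hL i]
  rw [hT] at key
  simp only [hn] at key
  have e5 : ENNReal.ofReal (1 / 3 * ∑ i, (√(b i / l i) ^ 2 * l i) ^ 3) ≤
      ENNReal.ofReal (1 / 3 * ∑ i, b i ^ 3) := by
    apply ENNReal.ofReal_le_ofReal
    have : ∑ i, (√(b i / l i) ^ 2 * l i) ^ 3 ≤ ∑ i, b i ^ 3 := by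
      refine Finset.sum_le_sum fun i _ => ?_
      rw [Real.sq_sqrt (hbl i)]
      exact pow_le_pow_left₀ (mul_nonneg (hbl i) (hl i)) (hbl' i) 3
    linarith
  have e6 : KK α β (n + 1) Ω (σ - t) = ENNReal.ofReal (α * cc (n + 1)) * volume Ω *
          (ENNReal.ofReal σ - ENNReal.ofReal t) ^ ((((n + 1 : ℕ) : ℝ) + 3) / 2) +
        ENNReal.ofReal (β * cc (n + 1 + 2)) * I2 Ω *
          (ENNReal.ofReal σ - ENNReal.ofReal t) ^ ((((n + 1 : ℕ) : ℝ) + 5) / 2) := by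
    unfold KK
    rw [ENNReal.ofReal_sub _ ht.le]
  rw [e6] at key
  calc _ ≤ (∑ i, ENNReal.ofReal (b i / l i) * (∫⁻ x, eT A (v i) x) +
          ENNReal.ofReal (1 / 3 * ∑ i, b i ^ 3) +
          (ENNReal.ofReal (α * cc (n + 1)) * volume Ω *
          (ENNReal.ofReal σ - ENNReal.ofReal t) ^ ((((n + 1 : ℕ) : ℝ) + 3) / 2) +
        ENNReal.ofReal (β * cc (n + 1 + 2)) * I2 Ω *
          (ENNReal.ofReal σ - ENNReal.ofReal t) ^ ((((n + 1 : ℕ) : ℝ) + 5) / 2))) +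
          ∑ i, ENNReal.ofReal (b i * t) := by
        refine add_le_add (key.trans ?_) le_rfl
        gcongr
    _ = _ := by ring

theorem PS_to_PS' {α β : ℝ} (hα : 0 ≤ α) (hβ : 0 ≤ β) {n : ℕ} (h : PS α β n) : PS' α β n := by
  intro N u Ω A σ hu hΩ hA hσ
  have hAm : Measurable A := hA.measurable
  obtain ⟨v, l, hv, hvc, hl, hG, htr, hrho, hTm⟩ := diag_family u hu.smooth hu.cpt
  have hadm := adm_of_rho hu hv hvc hrho
  rw [← hTm A hAm, htr, rho_int u fun i => (hu.smooth i).continuous]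
  simp_rw [← hrho]
  rw [← rho_int v fun i => (hv i).continuous]
  by_cases hTtop : Tmag A v = ⊤
  · rw [hTtop]; simp
  have hL : ∀ i, ∫⁻ x, ‖v i x‖ₑ ^ 2 = ENNReal.ofReal (l i) := by
    intro i
    apply PP_to_PP'_c (v i) (hv i) (hvc i)
    have := congrFun (congrFun hG i) i
    rw [Matrix.diagonal_apply_eq] at this
    exact this
  have hT : ∀ i, ∫⁻ x, eT A (v i) x ≠ ⊤ := by
    intro i hi
    apply hTtop
    unfold Tmag
    exact ENNReal.sum_eq_top.2 ⟨i, Finset.mem_univ i, hi⟩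
  have hX : ∀ i, ENNReal.ofReal σ * ∫⁻ x, ‖v i x‖ₑ ^ 2 ≠ ⊤ := by
    intro i
    rw [hL i]
    exact ENNReal.mul_ne_top ENNReal.ofReal_ne_top ENNReal.ofReal_ne_top
  have h0 : ∀ i, l i = 0 → ENNReal.ofReal σ * ∫⁻ x, ‖v i x‖ₑ ^ 2 = 0 := by
    intro i hi
    rw [hL i, hi, ENNReal.ofReal_zero, mul_zero]
  have core := AL_core (fun i => ENNReal.ofReal σ * ∫⁻ x, ‖v i x‖ₑ ^ 2)
    (fun i => ∫⁻ x, eT A (v i) x) hX hT
    l hl h0 (fun t => ENNReal.ofReal (α * cc (n + 1)) * volume Ω *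
          (ENNReal.ofReal σ - ENNReal.ofReal t) ^ ((((n + 1 : ℕ) : ℝ) + 3) / 2) +
        ENNReal.ofReal (β * cc (n + 1 + 2)) * I2 Ω *
          (ENNReal.ofReal σ - ENNReal.ofReal t) ^ ((((n + 1 : ℕ) : ℝ) + 5) / 2))
    (fun t ht b hb => PS_step h hΩ hadm l hl hG hL hA hσ t ht b hb)
  rw [Finset.mul_sum]
  refine core.trans (le_of_eq ?_)
  unfold Tmag
  congr 1
  obtain ⟨S, hS⟩ : ∃ S : ℝ≥0∞, S = ENNReal.ofReal σ := ⟨_, rfl⟩
  rw [← hS]
  have hm : ∀ q : ℝ, Measurable fun t : ℝ => ENNReal.ofReal (t ^ ((1 / 2 : ℝ) - 1)) *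
      (S - ENNReal.ofReal t) ^ q := by
    intro q
    have h1 : Measurable fun t : ℝ => ENNReal.ofReal (t ^ ((1 / 2 : ℝ) - 1)) :=
      (measurable_id.pow_const _).ennreal_ofReal
    have h2 : Measurable fun t : ℝ => S - ENNReal.ofReal t :=
      measurable_const.sub ENNReal.measurable_ofReal
    exact h1.mul (h2.pow_const q)
  have e1 : ∀ t : ℝ, ENNReal.ofReal (t ^ ((1 / 2 : ℝ) - 1)) *
      (ENNReal.ofReal (α * cc (n + 1)) * volume Ω *
          (S - ENNReal.ofReal t) ^ ((((n + 1 : ℕ) : ℝ) + 3) / 2) +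
        ENNReal.ofReal (β * cc (n + 1 + 2)) * I2 Ω *
          (S - ENNReal.ofReal t) ^ ((((n + 1 : ℕ) : ℝ) + 5) / 2)) =
      ENNReal.ofReal (α * cc (n + 1)) * volume Ω * (ENNReal.ofReal (t ^ ((1 / 2 : ℝ) - 1)) *
          (S - ENNReal.ofReal t) ^ ((((n + 1 : ℕ) : ℝ) + 3) / 2)) +
      ENNReal.ofReal (β * cc (n + 1 + 2)) * I2 Ω * (ENNReal.ofReal (t ^ ((1 / 2 : ℝ) - 1)) *
          (S - ENNReal.ofReal t) ^ ((((n + 1 : ℕ) : ℝ) + 5) / 2)) := fun t => by ring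
  simp only [e1]
  have hn : (0 : ℝ) ≤ ((n + 1 : ℕ) : ℝ) := Nat.cast_nonneg _
  rw [lintegral_add_left ((hm _).const_mul _), lintegral_const_mul _ (hm _),
    lintegral_const_mul _ (hm _), beta_lint S (by norm_num) (by linarith),
    beta_lint S (by norm_num) (by linarith)]
  unfold KK
  rw [← hS]
  have hGp : ∀ q : ℝ, 0 < q → 0 ≤ Gamma (1 / 2) * Gamma (q + 1) / Gamma (1 / 2 + q + 1) := by
    intro q hq
    apply div_nonneg (mul_nonneg _ _) _
    · exact (Real.Gamma_pos_of_pos (by positivity)).le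
    · exact (Real.Gamma_pos_of_pos (by positivity)).le
    · exact (Real.Gamma_pos_of_pos (by positivity)).le
  have e2 : ENNReal.ofReal (α * cc (n + 2)) = ENNReal.ofReal (1 / (2 * π)) *
      (ENNReal.ofReal (α * cc (n + 1)) * ENNReal.ofReal (Gamma (1 / 2) *
        Gamma ((((n + 1 : ℕ) : ℝ) + 3) / 2 + 1) / Gamma (1 / 2 + (((n + 1 : ℕ) : ℝ) + 3) / 2 + 1))) := by
    rw [← ENNReal.ofReal_mul (mul_nonneg hα (cc_succ (n + 1)).1.le),
      ← ENNReal.ofReal_mul (by positivity), show n + 2 = (n + 1) + 1 by rfl, (cc_succ (n + 1)).2]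
    congr 1
    ring
  have e3 : ENNReal.ofReal (β * cc (n + 2 + 2)) = ENNReal.ofReal (1 / (2 * π)) *
      (ENNReal.ofReal (β * cc (n + 1 + 2)) * ENNReal.ofReal (Gamma (1 / 2) *
        Gamma ((((n + 1 : ℕ) : ℝ) + 5) / 2 + 1) / Gamma (1 / 2 + (((n + 1 : ℕ) : ℝ) + 5) / 2 + 1))) := by
    rw [← ENNReal.ofReal_mul (mul_nonneg hβ (cc_succ (n + 1 + 2)).1.le),
      ← ENNReal.ofReal_mul (by positivity), show n + 2 + 2 = (n + 1 + 2) + 1 by rfl,
      (cc_succ (n + 1 + 2)).2]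
    congr 1
    have : (((n + 1 + 2 : ℕ) : ℝ) + 3) / 2 = (((n + 1 : ℕ) : ℝ) + 5) / 2 := by push_cast; ring
    rw [this]
    ring
  have e4 : (((n + 2 : ℕ) : ℝ) + 3) / 2 = (((n + 1 : ℕ) : ℝ) + 3) / 2 + 1 / 2 := by
    push_cast
    ring
  have e5 : (((n + 2 : ℕ) : ℝ) + 5) / 2 = (((n + 1 : ℕ) : ℝ) + 5) / 2 + 1 / 2 := by
    push_cast
    ring
  rw [e2, e3, e4, e5]
  ring

theorem PS_all {α β : ℝ} (hα : 0 ≤ α) (hβ : 0 ≤ β) (h : PS' α β 0) (n : ℕ) : PS α β (n + 1) := by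
  induction n with
  | zero => exact PS'_to_PS h
  | succ n ih => exact PS'_to_PS (PS_to_PS' hα hβ ih)

end Pool.Agent.Helper961_mbly
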