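import Mathlib

set_option autoImplicit false

open Set Real

namespace Pool.Agent.Helper961_mbly

theorem sum_sq_closed (K : ℕ) (x : ℝ) :
    ∑ k ∈ Finset.range K, (x - ((k : ℝ) + 1) ^ 2) ^ 2 =
      K * x ^ 2 - x * (K * (K + 1) * (2 * K + 1) / 3) +
        K * (K + 1) * (2 * K + 1) * (3 * K ^ 2 + 3 * K - 1) / 30 := by
  induction K with
  | zero => simp
  | succ K ih =>
    rw [Finset.sum_range_succ, ih]
    push_cast
    ring

theorem bern3 {φ : ℝ} (h0 : 0 ≤ φ) :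
    φ * (1 - φ) * (φ - 1 / 2) ≤ 4815 / 100000 := by
  have h2 : 0 ≤ (φ - 7887 / 10000) ^ 2 * (φ + 774 / 10000) := by positivity
  nlinarith

theorem bern3' {φ : ℝ} (h1 : φ ≤ 1) :
    -(4815 / 100000) ≤ φ * (1 - φ) * (φ - 1 / 2) := by
  have h2 := bern3 (φ := 1 - φ) (by linarith)
  nlinarith

theorem S2_key {s : ℝ} (hs1 : 1 ≤ s) :
    642 / 10000 * s ^ 2 + 292 / 10000 * s + 6 / 1000 ≤
      s ^ 4 * (1 / 2 - 8 / 15 * (17 / 100) * s + 8 / 15 * (835 / 1000000) * s ^ 3) := by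
  have hs0 : 0 ≤ s := by linarith
  have hs2 : 1 ≤ s ^ 2 := one_le_pow₀ hs1
  have e4 : s ^ 4 = s ^ 2 * s ^ 2 := by ring
  have hp4 : 0 ≤ s ^ 4 := by positivity
  rcases le_or_gt s 2 with h3 | h3
  · have hA : 318 / 1000 ≤ 1 / 2 - 8 / 15 * (17 / 100) * s + 8 / 15 * (835 / 1000000) * s ^ 3 := by
      have : 0 ≤ 8 / 15 * (835 / 1000000) * s ^ 3 := by positivity
      linarith
    have h5 : 1 * s ^ 2 ≤ s ^ 2 * s ^ 2 := mul_le_mul_of_nonneg_right hs2 (by positivity)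
    have h6 : s * 1 ≤ s * s := mul_le_mul_of_nonneg_left hs1 hs0
    have h6' : s ≤ s ^ 2 := by rw [sq]; linarith
    have h7 := mul_le_mul_of_nonneg_left hA hp4
    rw [← e4] at h5
    linarith
  rcases le_or_gt s (65 / 10) with h4 | h4
  · have hA : 329 / 10000 ≤ 1 / 2 - 8 / 15 * (17 / 100) * s +
        8 / 15 * (835 / 1000000) * s ^ 3 := by
      have h5 : 0 ≤ (s - 65 / 10) ^ 2 * (s + 13) := by positivity
      have h6 : (s - 65 / 10) ^ 2 * (s + 13) = s ^ 3 - 3 * (65 / 10) ^ 2 * s + 2 * (65 / 10) ^ 3 := by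
        ring
      rw [h6] at h5
      linarith
    have hs4 : 4 ≤ s ^ 2 := by
      have := mul_self_le_mul_self (by norm_num : (0 : ℝ) ≤ 2) h3.le
      rw [sq]
      linarith
    have h5 : 4 * s ^ 2 ≤ s ^ 2 * s ^ 2 := mul_le_mul_of_nonneg_right hs4 (by positivity)
    rw [← e4] at h5
    have h6 : 2 * s ≤ s * s := mul_le_mul_of_nonneg_right h3.le hs0
    rw [← sq] at h6
    have h7 := mul_le_mul_of_nonneg_left hA hp4
    linarith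
  · have hA : 197 / 100000 ≤ 1 / 2 - 8 / 15 * (17 / 100) * s +
        8 / 15 * (835 / 1000000) * s ^ 3 := by
      have h5 : 0 ≤ (s - 824 / 100) ^ 2 * (s + 1648 / 100) := by positivity
      have h6 : (s - 824 / 100) ^ 2 * (s + 1648 / 100) =
          s ^ 3 - 3 * (824 / 100) ^ 2 * s + 2 * (824 / 100) ^ 3 := by ring
      rw [h6] at h5
      linarith
    have hs4 : 4225 / 100 ≤ s ^ 2 := by
      have := mul_self_le_mul_self (by norm_num : (0 : ℝ) ≤ 65 / 10) h4.le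
      rw [sq]
      linarith
    have h5 : 4225 / 100 * s ^ 2 ≤ s ^ 2 * s ^ 2 := mul_le_mul_of_nonneg_right hs4 (by positivity)
    rw [← e4] at h5
    have h6 : 65 / 10 * s ≤ s * s := mul_le_mul_of_nonneg_right h4.le hs0
    rw [← sq] at h6
    have h7 := mul_le_mul_of_nonneg_left hA hp4
    linarith

/-- The sum for `p = 2`. -/
theorem S2_le {s : ℝ} (hs : 0 ≤ s) :
    ∑ k ∈ Finset.range ⌊s⌋₊, (s ^ 2 - ((k : ℝ) + 1) ^ 2) ^ 2 ≤
      8 / 15 * s ^ 5 * (83 / 100 + 835 / 1000000 * s ^ 2) := by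
  obtain ⟨K, hK⟩ : ∃ K : ℕ, K = ⌊s⌋₊ := ⟨_, rfl⟩
  have hK1 : (K : ℝ) ≤ s := by rw [hK]; exact Nat.floor_le hs
  have hK2 : s < K + 1 := by rw [hK]; exact Nat.lt_floor_add_one s
  rw [← hK]
  rcases Nat.eq_zero_or_pos K with h0 | h0
  · rw [h0]
    simp only [Finset.range_zero, Finset.sum_empty]
    positivity
  have hs1 : 1 ≤ s := by
    have : (1 : ℝ) ≤ K := by exact_mod_cast h0
    linarith
  rw [sum_sq_closed]
  obtain ⟨φ, hφ⟩ : ∃ φ : ℝ, φ = s - K := ⟨_, rfl⟩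
  have hKφ : (K : ℝ) = s - φ := by rw [hφ]; ring
  have hφ0 : 0 ≤ φ := by linarith
  have hφ1 : φ ≤ 1 := by linarith
  rw [hKφ]
  have e1 : (s - φ) * (s ^ 2) ^ 2 - s ^ 2 * ((s - φ) * (s - φ + 1) * (2 * (s - φ) + 1) / 3) +
      (s - φ) * (s - φ + 1) * (2 * (s - φ) + 1) * (3 * (s - φ) ^ 2 + 3 * (s - φ) - 1) / 30 =
      8 / 15 * s ^ 5 - s ^ 4 / 2 + 4 / 3 * s ^ 2 * (φ * (1 - φ) * (φ - 1 / 2)) +
        s * (φ ^ 2 * (1 - φ) ^ 2 - 1 / 30) -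
        1 / 5 * ((φ * (1 - φ) * (φ - 1 / 2)) * (φ * (1 - φ) + 1 / 3)) := by
    ring
  rw [e1]
  have hb3 := bern3 hφ0
  have hb3' := bern3' hφ1
  have hq0 : 0 ≤ φ * (1 - φ) := mul_nonneg hφ0 (by linarith)
  have hq1 : φ * (1 - φ) ≤ 1 / 4 := by nlinarith [sq_nonneg (φ - 1 / 2)]
  have hb4 : φ ^ 2 * (1 - φ) ^ 2 ≤ 1 / 16 := by
    have : φ ^ 2 * (1 - φ) ^ 2 = (φ * (1 - φ)) ^ 2 := by ring
    rw [this]
    nlinarith
  have hb5 : -(1 / 5 * ((φ * (1 - φ) * (φ - 1 / 2)) * (φ * (1 - φ) + 1 / 3))) ≤ 6 / 1000 := by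
    obtain ⟨y, hy⟩ : ∃ y : ℝ, y = φ * (1 - φ) * (φ - 1 / 2) := ⟨_, rfl⟩
    obtain ⟨q, hq⟩ : ∃ q : ℝ, q = φ * (1 - φ) := ⟨_, rfl⟩
    rw [← hy] at hb3' ⊢
    rw [← hq] at hq0 hq1 ⊢
    nlinarith
  have h1 : 4 / 3 * s ^ 2 * (φ * (1 - φ) * (φ - 1 / 2)) ≤ 642 / 10000 * s ^ 2 := by
    nlinarith [sq_nonneg s]
  have h2 : s * (φ ^ 2 * (1 - φ) ^ 2 - 1 / 30) ≤ 292 / 10000 * s := by nlinarith
  have key := S2_key hs1
  have e2 : 8 / 15 * s ^ 5 * (83 / 100 + 835 / 1000000 * s ^ 2) = 8 / 15 * s ^ 5 - s ^ 4 / 2 +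
      s ^ 4 * (1 / 2 - 8 / 15 * (17 / 100) * s + 8 / 15 * (835 / 1000000) * s ^ 3) := by ring
  rw [e2]
  linarith

end Pool.Agent.Helper961_mbly
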