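import Mathlib

set_option autoImplicit false

open MeasureTheory Set Real
open scoped ENNReal

namespace Pool.Agent.Helper961_mbly

theorem open_conn_Ioo {C : Set ℝ} (ho : IsOpen C) (hc : IsPreconnected C) {x : ℝ} (hx : x ∈ C)
    {R : ℝ} (hR : C ⊆ Ioo (-R) R) : ∃ a b : ℝ, a < b ∧ C = Ioo a b := by
  have hb : BddBelow C := ⟨-R, fun y hy => (hR hy).1.le⟩
  have ha : BddAbove C := ⟨R, fun y hy => (hR hy).2.le⟩
  have h1 : Ioo (sInf C) (sSup C) ⊆ C :=
    IsConnected.Ioo_csInf_csSup_subset ⟨⟨x, hx⟩, hc⟩ hb ha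
  have h2 : C ⊆ Ioo (sInf C) (sSup C) := by
    intro y hy
    obtain ⟨ε, hε, hball⟩ := Metric.isOpen_iff.1 ho y hy
    have h3 : y - ε / 2 ∈ C := hball (by
      rw [Metric.mem_ball, Real.dist_eq, abs_lt]
      constructor <;> linarith)
    have h4 : y + ε / 2 ∈ C := hball (by
      rw [Metric.mem_ball, Real.dist_eq, abs_lt]
      constructor <;> linarith)
    exact ⟨lt_of_le_of_lt (csInf_le hb h3) (by linarith),
      lt_of_lt_of_le (by linarith) (le_csSup ha h4)⟩
  have h5 := h2 hx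
  exact ⟨sInf C, sSup C, h5.1.trans h5.2, Subset.antisymm h2 h1⟩

/-- A compact subset of an open set of reals is covered by finitely many disjoint open
intervals contained in the open set. -/
theorem cover_intervals {Ω K : Set ℝ} (hΩ : IsOpen Ω) (hK : IsCompact K) (hKΩ : K ⊆ Ω) :
    ∃ (M : ℕ) (a b : Fin M → ℝ), (∀ m, a m < b m) ∧ (∀ m, Ioo (a m) (b m) ⊆ Ω) ∧
      (∀ m m', m ≠ m' → Disjoint (Ioo (a m) (b m)) (Ioo (a m') (b m'))) ∧
      K ⊆ ⋃ m, Ioo (a m) (b m) := by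
  classical
  obtain ⟨R, hR⟩ : ∃ R : ℝ, K ⊆ Ioo (-R) R := by
    obtain ⟨R, hR⟩ := hK.isBounded.subset_closedBall 0
    refine ⟨R + 1, fun x hx => ?_⟩
    have h1 := hR hx
    rw [mem_closedBall_zero_iff, Real.norm_eq_abs] at h1
    have h2 := abs_le.1 h1
    exact ⟨by linarith [h2.1], by linarith [h2.2]⟩
  obtain ⟨W, hW⟩ : ∃ W : Set ℝ, W = Ω ∩ Ioo (-R) R := ⟨_, rfl⟩
  have hWo : IsOpen W := by rw [hW]; exact hΩ.inter isOpen_Ioo
  have hKW : K ⊆ W := by rw [hW]; exact subset_inter hKΩ hR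
  have hWΩ : W ⊆ Ω := by rw [hW]; exact inter_subset_left
  have hWR : W ⊆ Ioo (-R) R := by rw [hW]; exact inter_subset_right
  obtain ⟨t, ht⟩ := hK.elim_finite_subcover (fun x : W => connectedComponentIn W (x : ℝ))
    (fun x => hWo.connectedComponentIn) (fun x hx => by
      rw [mem_iUnion]
      exact ⟨⟨x, hKW hx⟩, mem_connectedComponentIn (hKW hx)⟩)
  obtain ⟨F, hF⟩ : ∃ F : Finset (Set ℝ), F = t.image fun x : W => connectedComponentIn W (x : ℝ) :=
    ⟨_, rfl⟩
  have hFm : ∀ C : Set ℝ, C ∈ F ↔ ∃ x ∈ t, connectedComponentIn W ((x : W) : ℝ) = C := by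
    intro C
    rw [hF, Finset.mem_image]
  have hFp : ∀ C : F, ∃ a b : ℝ, a < b ∧ (C : Set ℝ) = Ioo a b := by
    intro C
    obtain ⟨x, _, hx⟩ := (hFm C).1 C.2
    have h2 : (x : ℝ) ∈ (C : Set ℝ) := by
      rw [← hx]
      exact mem_connectedComponentIn x.2
    refine open_conn_Ioo ?_ ?_ h2 (R := R) ?_
    · rw [← hx]; exact hWo.connectedComponentIn
    · rw [← hx]; exact isPreconnected_connectedComponentIn
    · rw [← hx]; exact (connectedComponentIn_subset _ _).trans hWR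
  choose a b hab hC using hFp
  have e := (Fintype.equivFin F).symm
  refine ⟨Fintype.card F, fun m => a (e m), fun m => b (e m), fun m => hab _, fun m => ?_,
    fun m m' hne => ?_, fun x hx => ?_⟩
  · rw [← hC]
    obtain ⟨x, _, hx⟩ := (hFm _).1 (e m).2
    rw [← hx]
    exact (connectedComponentIn_subset _ _).trans hWΩ
  · rw [← hC, ← hC]
    obtain ⟨x, _, hx⟩ := (hFm _).1 (e m).2
    obtain ⟨y, _, hy⟩ := (hFm _).1 (e m').2
    rw [Set.disjoint_left]
    intro z hz hz'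
    apply hne
    apply e.injective
    apply Subtype.ext
    rw [← hx] at hz
    rw [← hy] at hz'
    rw [← hx, ← hy, connectedComponentIn_eq hz, connectedComponentIn_eq hz']
  · have h1 := ht hx
    rw [mem_iUnion₂] at h1
    obtain ⟨y, hy, hxy⟩ := h1
    have h2 : connectedComponentIn W (y : ℝ) ∈ F := (hFm _).2 ⟨y, hy, rfl⟩
    rw [mem_iUnion]
    refine ⟨e.symm ⟨_, h2⟩, ?_⟩
    simp only [Equiv.apply_symm_apply]
    rw [← hC]
    exact hxy

end Pool.Agent.Helper961_mbly
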