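import Mathlib
import Pool.Agent.Helper961_mbly.F1
import Pool.Agent.Helper961_mbly.Comp

set_option autoImplicit false

open MeasureTheory Set Real
open scoped ENNReal

namespace Pool.Agent.Helper961_mbly

/-- The sine functions. -/
noncomputable def sk (a ℓ : ℝ) (k : ℕ) (t : ℝ) : ℝ := sin (π * (k + 1) * (t - a) / ℓ)

theorem sk_cont (a ℓ : ℝ) (k : ℕ) : Continuous (sk a ℓ k) := by
  unfold sk
  fun_prop

/-- The sine version of the one-dimensional inequality. -/
theorem sineF1 {f f' : ℝ → ℂ} (hf : ∀ t, HasDerivAt f (f' t) t) (hf' : Continuous f')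
    (hc : HasCompactSupport f) {a ℓ : ℝ} (hℓ : 0 < ℓ)
    (hs : ∀ t, t ∉ Ioo a (a + ℓ) → f t = 0) (Λ : ℝ) (K : ℕ)
    (hK : ∀ k : ℕ, K < k → Λ ≤ (π * k / ℓ) ^ 2) :
    Λ * ∫ t, ‖f t‖ ^ 2 ≤ (∫ t, ‖f' t‖ ^ 2) +
      ∑ k ∈ Finset.range K, (Λ - (π * (k + 1) / ℓ) ^ 2) *
        (2 / ℓ * ‖∫ t, f t * ((sk a ℓ k t : ℝ) : ℂ)‖ ^ 2) := by
  have hpi := Real.pi_pos
  have hfc : Continuous f := continuous_iff_continuousAt.2 fun t => (hf t).continuousAt
  have hc' : HasCompactSupport f' := by
    have : f' = deriv f := by funext t; exact (hf t).deriv.symm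
    rw [this]
    exact hc.deriv
  have hf'0 : ∀ t, t ∉ Icc a (a + ℓ) → f' t = 0 := by
    intro t ht
    rw [← (hf t).deriv]
    have h1 : f =ᶠ[nhds t] fun _ => 0 := by
      filter_upwards [isClosed_Icc.isOpen_compl.mem_nhds ht] with y hy
      exact hs y fun h => hy ⟨h.1.le, h.2.le⟩
    rw [h1.deriv_eq]
    simp
  -- the odd reflection
  obtain ⟨r, hr⟩ : ∃ r : ℝ → ℝ, r = fun t => 2 * a - t := ⟨_, rfl⟩
  have hrc : Continuous r := by rw [hr]; fun_prop
  have hrt : ∀ t, r t = 2 * a - t := fun t => by rw [hr]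
  obtain ⟨g, hg⟩ : ∃ g : ℝ → ℂ, g = fun t => f t - f (r t) := ⟨_, rfl⟩
  obtain ⟨g', hg'⟩ : ∃ g' : ℝ → ℂ, g' = fun t => f' t + f' (r t) := ⟨_, rfl⟩
  have hgd : ∀ t, HasDerivAt g (g' t) t := by
    intro t
    have h1 : HasDerivAt r (-1) t := by
      rw [hr]
      simpa using (hasDerivAt_id' t).const_sub (2 * a)
    have h2 := (hf (r t)).scomp t h1
    have h3 := (hf t).sub h2
    have h4 : f' t + f' (r t) = f' t - (-1 : ℝ) • f' (r t) := by
      rw [neg_one_smul, sub_neg_eq_add]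
    rw [hg, hg']
    simp only [h4]
    exact h3
  have hg'c : Continuous g' := by
    rw [hg']
    exact hf'.add (hf'.comp hrc)
  have hfr : ∀ t, t ∉ Ioo (a - ℓ) a → f (r t) = 0 := by
    intro t ht
    apply hs
    intro h
    rw [hrt] at h
    exact ht ⟨by linarith [h.2], by linarith [h.1]⟩
  have hg0 : ∀ t, t ∉ Ioo (a - ℓ) (a - ℓ + 2 * ℓ) → g t = 0 := by
    intro t ht
    rw [hg]
    simp only
    rw [hs t, hfr t, sub_zero]
    · exact fun h => ht ⟨h.1, by linarith [h.2]⟩
    · exact fun h => ht ⟨by linarith [h.1], by linarith [h.2]⟩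
  have hgcs : HasCompactSupport g := by
    refine HasCompactSupport.intro (isCompact_Icc (a := a - ℓ) (b := a - ℓ + 2 * ℓ)) fun t ht => ?_
    exact hg0 t fun h => ht ⟨h.1.le, h.2.le⟩
  -- integrals of the squares
  have hfi : Integrable fun t => ‖f t‖ ^ 2 := by
    have hcs : HasCompactSupport (fun x => ‖f x‖ ^ 2) := by
      refine hc.mono fun x hx => ?_
      rw [Function.mem_support] at hx ⊢
      intro e
      apply hx
      rw [e, norm_zero]
      norm_num
    exact (hfc.norm.pow 2).integrable_of_hasCompactSupport hcs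
  have hf'i : Integrable fun t => ‖f' t‖ ^ 2 := by
    have hcs : HasCompactSupport (fun x => ‖f' x‖ ^ 2) := by
      refine hc'.mono fun x hx => ?_
      rw [Function.mem_support] at hx ⊢
      intro e
      apply hx
      rw [e, norm_zero]
      norm_num
    exact (hf'.norm.pow 2).integrable_of_hasCompactSupport hcs
  have hrefl : ∀ F : ℝ → ℝ, ∫ t, F (r t) = ∫ t, F t := by
    intro F
    simp only [hrt]
    exact integral_sub_left_eq_self F volume (2 * a)
  have hreflc : ∀ F : ℝ → ℂ, ∫ t, F (r t) = ∫ t, F t := by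
    intro F
    simp only [hrt]
    exact integral_sub_left_eq_self F volume (2 * a)
  have hreflI : ∀ F : ℝ → ℝ, Integrable F → Integrable fun t => F (r t) := by
    intro F hF
    simp only [hrt]
    exact hF.comp_sub_left (2 * a)
  have e1 : ∫ t, ‖g t‖ ^ 2 = 2 * ∫ t, ‖f t‖ ^ 2 := by
    have h1 : ∀ t, ‖g t‖ ^ 2 = ‖f t‖ ^ 2 + ‖f (r t)‖ ^ 2 := by
      intro t
      rw [hg]
      simp only
      rcases le_or_gt t a with h | h
      · rw [hs t fun h' => by linarith [h'.1]]
        simp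
      · rw [hfr t fun h' => by linarith [h'.2]]
        simp
    simp only [h1]
    rw [integral_add hfi (hreflI _ hfi), hrefl fun t => ‖f t‖ ^ 2]
    ring
  have e2 : ∫ t, ‖g' t‖ ^ 2 = 2 * ∫ t, ‖f' t‖ ^ 2 := by
    have h1 : (fun t => ‖g' t‖ ^ 2) =ᵐ[volume] fun t => ‖f' t‖ ^ 2 + ‖f' (r t)‖ ^ 2 := by
      have h0 : ∀ᵐ t : ℝ, t ≠ a := by
        rw [ae_iff]
        simp
      filter_upwards [h0] with t ht
      rw [hg']
      simp only
      rcases lt_or_gt_of_ne ht with h | h
      · rw [hf'0 t fun h' => by linarith [h'.1]]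
        simp
      · rw [hf'0 (r t) fun h' => by
          rw [hrt] at h'
          linarith [h'.1]]
        simp
    rw [integral_congr_ae h1, integral_add hf'i (hreflI _ hf'i), hrefl fun t => ‖f' t‖ ^ 2]
    ring
  -- the coefficients
  have e3 : ∀ l : ℝ, ‖cf g l‖ ^ 2 = 4 * ‖∫ t, f t * ((sin (l * (t - a)) : ℝ) : ℂ)‖ ^ 2 := by
    intro l
    have hint : ∀ E : ℝ → ℂ, Continuous E → Integrable fun t => f t * E t := fun E hE =>
      (hfc.mul hE).integrable_of_hasCompactSupport hc.mul_right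
    have hE1 : Continuous fun t : ℝ => Complex.exp (-(Complex.I * ((l * t : ℝ) : ℂ))) := ex_cont l
    have hE2 : Continuous fun t : ℝ => Complex.exp (-(Complex.I * ((l * (2 * a - t) : ℝ) : ℂ))) := by
      fun_prop
    have h1 : cf g l = (∫ t, f t * Complex.exp (-(Complex.I * ((l * t : ℝ) : ℂ)))) -
        ∫ t, f t * Complex.exp (-(Complex.I * ((l * (2 * a - t) : ℝ) : ℂ))) := by
      have h2 : ∫ t, f t * Complex.exp (-(Complex.I * ((l * (2 * a - t) : ℝ) : ℂ))) =
          ∫ t, f (r t) * Complex.exp (-(Complex.I * ((l * t : ℝ) : ℂ))) := by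
        rw [← hreflc fun t => f t * Complex.exp (-(Complex.I * ((l * (2 * a - t) : ℝ) : ℂ)))]
        refine integral_congr_ae (Filter.Eventually.of_forall fun t => ?_)
        simp only [hrt]
        ring_nf
      rw [h2, cf, ← integral_sub (hint _ hE1)]
      · refine integral_congr_ae (Filter.Eventually.of_forall fun t => ?_)
        rw [hg]
        simp only
        ring
      · have h3 : HasCompactSupport fun t => f (r t) * Complex.exp (-(Complex.I * ((l * t : ℝ) : ℂ))) := by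
          refine HasCompactSupport.intro (isCompact_Icc (a := a - ℓ) (b := a)) fun t ht => ?_
          rw [hfr t fun h => ht ⟨h.1.le, h.2.le⟩, zero_mul]
        exact ((hfc.comp hrc).mul hE1).integrable_of_hasCompactSupport h3
    have h2 : cf g l = (-2 * Complex.I * Complex.exp (-(Complex.I * ((l * a : ℝ) : ℂ)))) *
        ∫ t, f t * ((sin (l * (t - a)) : ℝ) : ℂ) := by
      rw [h1, ← integral_sub (hint _ hE1) (hint _ hE2), ← integral_const_mul]
      refine integral_congr_ae (Filter.Eventually.of_forall fun t => ?_)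
      simp only
      have h3 : Complex.exp (-(Complex.I * ((l * t : ℝ) : ℂ))) =
          Complex.exp (-(Complex.I * ((l * a : ℝ) : ℂ))) *
            Complex.exp (-(((l * (t - a) : ℝ) : ℂ) * Complex.I)) := by
        rw [← Complex.exp_add]
        congr 1
        push_cast
        ring
      have h4 : Complex.exp (-(Complex.I * ((l * (2 * a - t) : ℝ) : ℂ))) =
          Complex.exp (-(Complex.I * ((l * a : ℝ) : ℂ))) *
            Complex.exp (((l * (t - a) : ℝ) : ℂ) * Complex.I) := by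
        rw [← Complex.exp_add]
        congr 1
        push_cast
        ring
      rw [h3, h4, Complex.ofReal_sin, Complex.sin]
      have hI : Complex.I * Complex.I = -1 := Complex.I_mul_I
      have h5 : -(((l * (t - a) : ℝ) : ℂ)) * Complex.I = -(((l * (t - a) : ℝ) : ℂ) * Complex.I) := by
        ring
      rw [h5]
      linear_combination ((f t * Complex.exp (-(Complex.I * ((l * a : ℝ) : ℂ))) *
        (Complex.exp (-(((l * (t - a) : ℝ) : ℂ) * Complex.I)) -
          Complex.exp (((l * (t - a) : ℝ) : ℂ) * Complex.I)))) * hI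
    rw [h2, norm_mul, norm_mul, norm_mul, norm_ex, Complex.norm_I, mul_one, mul_one, mul_pow]
    norm_num
  -- conclusion
  obtain ⟨S, hS⟩ : ∃ S : Finset ℤ, S = Finset.Icc (-(K : ℤ)) K := ⟨_, rfl⟩
  have hSc : ∀ k : ℤ, k ∉ S → Λ ≤ (0 + 2 * π * k / (2 * ℓ)) ^ 2 := by
    intro k hk
    rw [hS, Finset.mem_Icc, not_and_or, not_le, not_le] at hk
    have h1 : K < k.natAbs := by omega
    have h2 := hK _ h1
    have h3 : (0 + 2 * π * (k : ℝ) / (2 * ℓ)) ^ 2 = (π * (k.natAbs : ℝ) / ℓ) ^ 2 := by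
      have h4 : ((k.natAbs : ℕ) : ℝ) = |(k : ℝ)| := by
        rw [Nat.cast_natAbs]
        push_cast
        rfl
      rw [h4]
      have h5 : (0 + 2 * π * (k : ℝ) / (2 * ℓ)) = π / ℓ * k := by
        field_simp
        ring
      have h6 : π * |(k : ℝ)| / ℓ = π / ℓ * |(k : ℝ)| := by ring
      rw [h5, h6, mul_pow, mul_pow, sq_abs]
    rw [h3]
    exact h2
  have hmain := F1 hgd hg'c hgcs (c := a - ℓ) (P := 2 * ℓ) (by positivity) hg0 0 Λ S hSc
  rw [e1, e2] at hmain
  simp only [e3] at hmain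
  have hsum : ∀ F : ℤ → ℝ, F 0 = 0 → (∀ k, F (-k) = F k) →
      ∑ k ∈ S, F k = 2 * ∑ k ∈ Finset.range K, F ((k : ℤ) + 1) := by
    intro F hF0 hFs
    rw [hS]
    clear hmain hSc hS hK
    induction K with
    | zero => simp [hF0]
    | succ K ih =>
      have h1 : Finset.Icc (-((K + 1 : ℕ) : ℤ)) ((K + 1 : ℕ) : ℤ) =
          insert ((K + 1 : ℕ) : ℤ) (insert (-((K + 1 : ℕ) : ℤ)) (Finset.Icc (-(K : ℤ)) K)) := by
        ext k
        simp only [Finset.mem_Icc, Finset.mem_insert]
        push_cast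
        omega
      rw [h1, Finset.sum_insert, Finset.sum_insert, ih, Finset.sum_range_succ, hFs]
      · push_cast
        ring
      · simp only [Finset.mem_Icc]
        push_cast
        omega
      · simp only [Finset.mem_insert, Finset.mem_Icc]
        push_cast
        omega
  rw [hsum] at hmain
  · have h1 : ∀ k : ℕ, (Λ - (0 + 2 * π * (((k : ℤ) + 1 : ℤ) : ℝ) / (2 * ℓ)) ^ 2) *
        (4 * ‖∫ t, f t * ((sin ((0 + 2 * π * (((k : ℤ) + 1 : ℤ) : ℝ) / (2 * ℓ)) * (t - a)) : ℝ) : ℂ)‖ ^ 2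
          / (2 * ℓ)) = (Λ - (π * (k + 1) / ℓ) ^ 2) *
        (2 / ℓ * ‖∫ t, f t * ((sk a ℓ k t : ℝ) : ℂ)‖ ^ 2) := by
      intro k
      have h2 : (0 + 2 * π * (((k : ℤ) + 1 : ℤ) : ℝ) / (2 * ℓ)) = π * (k + 1) / ℓ := by
        push_cast
        field_simp
        ring
      have h3 : ∀ t, sin (π * ((k : ℝ) + 1) / ℓ * (t - a)) = sk a ℓ k t := by
        intro t
        unfold sk
        congr 1
        ring
      rw [h2]
      simp only [h3]
      field_simp
      ring
    simp only [h1] at hmain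
    linarith
  · simp
  · intro k
    have h1 : (0 + 2 * π * ((-k : ℤ) : ℝ) / (2 * ℓ)) = -(0 + 2 * π * (k : ℝ) / (2 * ℓ)) := by
      push_cast
      ring
    rw [h1]
    have h2 : ∀ t, sin (-(0 + 2 * π * (k : ℝ) / (2 * ℓ)) * (t - a)) =
        -sin ((0 + 2 * π * (k : ℝ) / (2 * ℓ)) * (t - a)) := by
      intro t
      rw [← Real.sin_neg]
      congr 1
      ring
    simp only [h2]
    have h3 : ∫ t, f t * ((-sin ((0 + 2 * π * (k : ℝ) / (2 * ℓ)) * (t - a)) : ℝ) : ℂ) =
        -∫ t, f t * ((sin ((0 + 2 * π * (k : ℝ) / (2 * ℓ)) * (t - a)) : ℝ) : ℂ) := by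
      rw [← integral_neg]
      congr 1
      funext t
      push_cast
      ring
    rw [h3, norm_neg]
    ring

end Pool.Agent.Helper961_mbly
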