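import Mathlib
import Pool.Agent.Helper961_mbly.Sine
import Pool.Agent.Helper961_mbly.Num

set_option autoImplicit false

open MeasureTheory Set Real
open scoped ENNReal

namespace Pool.Agent.Helper961_mbly

theorem bessel_gen {X : Type*} [MeasurableSpace X] (μ : Measure X) {N : ℕ} (v : Fin N → X → ℂ)
    (hv : ∀ i, MemLp (v i) 2 μ) (l : Fin N → ℝ) (hl : ∀ i, 0 ≤ l i)
    (hG : ∀ i j, ∫ x, v i x * starRingEnd ℂ (v j x) ∂μ = if i = j then (l i : ℂ) else 0)
    (φ : X → ℂ) (hφ : MemLp φ 2 μ) :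
    ∑ i, (l i)⁻¹ * ‖∫ x, v i x * φ x ∂μ‖ ^ 2 ≤ ∫ x, ‖φ x‖ ^ 2 ∂μ := by
  classical
  have hvc : ∀ i, MemLp (fun x => starRingEnd ℂ (v i x)) 2 μ := fun i => (hv i).star
  have hin : ∀ j (ψ : X → ℂ) (hψ : MemLp ψ 2 μ),
      inner ℂ ((hvc j).toLp _) (hψ.toLp ψ) = ∫ x, v j x * ψ x ∂μ := by
    intro j ψ hψ
    rw [L2.inner_def]
    refine integral_congr_ae ?_
    filter_upwards [(hvc j).coeFn_toLp, hψ.coeFn_toLp] with x hx1 hx2
    rw [hx1, hx2]
    simp only [RCLike.inner_apply, RingHomCompTriple.comp_apply, RingHom.id_apply]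
    ring
  obtain ⟨e, he⟩ : ∃ e : {i // l i ≠ 0} → Lp ℂ 2 μ,
      e = fun i : {i // l i ≠ 0} => (((√(l (i : Fin N)))⁻¹ : ℝ) : ℂ) • (hvc (i : Fin N)).toLp _ :=
    ⟨_, rfl⟩
  have horth : Orthonormal ℂ e := by
    rw [orthonormal_iff_ite]
    intro i j
    rw [he]
    simp only
    rw [inner_smul_left, inner_smul_right, hin i _ (hvc j), hG, Complex.conj_ofReal]
    by_cases hij : i = j
    · subst hij
      rw [if_pos rfl, if_pos rfl]
      have h0 : 0 < l i := lt_of_le_of_ne (hl i) (Ne.symm i.2)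
      have h1 : 0 < √(l i) := Real.sqrt_pos.2 h0
      rw [← Complex.ofReal_mul, ← Complex.ofReal_mul, ← Complex.ofReal_one]
      congr 1
      have h2 : l i = √(l i) * √(l i) := (Real.mul_self_sqrt h0.le).symm
      rw [show (√(l ↑i))⁻¹ * ((√(l ↑i))⁻¹ * l ↑i) = (√(l ↑i))⁻¹ * ((√(l ↑i))⁻¹ *
        (√(l i) * √(l i))) by rw [← h2]]
      field_simp
    · rw [if_neg (fun h => hij (Subtype.ext h)), if_neg hij]
      simp
  have hB := horth.sum_inner_products_le (hφ.toLp φ) (s := Finset.univ)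
  have hn : ‖hφ.toLp φ‖ ^ 2 = ∫ x, ‖φ x‖ ^ 2 ∂μ := by
    have h1 : (‖hφ.toLp φ‖ ^ 2 : ℝ) = (inner ℂ (hφ.toLp φ) (hφ.toLp φ)).re := by
      rw [inner_self_eq_norm_sq_to_K]
      norm_cast
    rw [h1, L2.inner_def]
    have e1 : ∫ x, inner ℂ ((hφ.toLp φ : Lp ℂ 2 μ) x) ((hφ.toLp φ : Lp ℂ 2 μ) x) ∂μ =
        ∫ x, ((‖φ x‖ ^ 2 : ℝ) : ℂ) ∂μ := by
      refine integral_congr_ae ?_
      filter_upwards [hφ.coeFn_toLp] with x hx1
      rw [hx1, inner_self_eq_norm_sq_to_K]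
      norm_cast
    rw [e1, integral_complex_ofReal, Complex.ofReal_re]
  rw [hn] at hB
  refine le_trans (le_of_eq ?_) hB
  have h1 : ∀ i : {i // l i ≠ 0}, ‖inner ℂ (e i) (hφ.toLp φ)‖ ^ 2 =
      (l i)⁻¹ * ‖∫ x, v i x * φ x ∂μ‖ ^ 2 := by
    intro i
    rw [he]
    simp only
    rw [inner_smul_left, hin, norm_mul, mul_pow, Complex.conj_ofReal, Complex.norm_real,
      Real.norm_eq_abs, sq_abs, inv_pow, Real.sq_sqrt (hl i)]
  simp only [h1]
  rw [← Finset.sum_filter_of_ne (p := fun i => l i ≠ 0)]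
  · exact Finset.sum_subtype (Finset.univ.filter fun i => l i ≠ 0) (by simp)
      (fun i => (l i)⁻¹ * ‖∫ x, v i x * φ x ∂μ‖ ^ 2)
  · intro i _ h h0
    apply h
    rw [h0, inv_zero, zero_mul]

theorem sk_norm (a : ℝ) {ℓ : ℝ} (hℓ : 0 < ℓ) (k : ℕ) :
    ∫ t in Ioo a (a + ℓ), sk a ℓ k t ^ 2 = ℓ / 2 := by
  have hpi := Real.pi_pos
  have hk : (0 : ℝ) < (k : ℝ) + 1 := by positivity
  rw [← integral_Ioc_eq_integral_Ioo, ← intervalIntegral.integral_of_le (by linarith)]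
  obtain ⟨c, hc⟩ : ∃ c : ℝ, c = π * (k + 1) / ℓ := ⟨_, rfl⟩
  have hc0 : c ≠ 0 := by rw [hc]; positivity
  have h1 : ∀ t, sk a ℓ k t = sin (c * t - c * a) := by
    intro t
    unfold sk
    rw [hc]
    congr 1
    field_simp
  simp only [h1]
  rw [intervalIntegral.integral_comp_mul_sub (fun t => sin t ^ 2) hc0, integral_sin_sq]
  have h2 : c * (a + ℓ) - c * a = π * (k + 1) := by
    rw [hc]
    field_simp
    ring
  have h3 : c * a - c * a = 0 := by ring
  have h4 : sin (π * ((k : ℝ) + 1)) = 0 := by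
    have := Real.sin_nat_mul_pi (k + 1)
    push_cast at this
    rw [mul_comm]
    exact this
  rw [h2, h3, h4, sin_zero, hc]
  simp only [smul_eq_mul]
  field_simp
  ring

/-- The restriction of a function to a union of components. -/
theorem ind_deriv {v v' : ℝ → ℂ} (hv : ∀ t, HasDerivAt v (v' t) t) (hv' : Continuous v')
    {I : Set ℝ} (hI : IsOpen I)
    (h : ∀ t, t ∉ I → ∃ U, IsOpen U ∧ t ∈ U ∧ ∀ y ∈ U, y ∈ I → v y = 0) :
    (∀ t, HasDerivAt (I.indicator v) (I.indicator v' t) t) ∧ Continuous (I.indicator v') := by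
  have key : ∀ t, t ∉ I → ∃ U, IsOpen U ∧ t ∈ U ∧ (∀ y ∈ U, I.indicator v y = 0) ∧
      ∀ y ∈ U, I.indicator v' y = 0 := by
    intro t ht
    obtain ⟨U, hU, htU, hy⟩ := h t ht
    refine ⟨U, hU, htU, fun y hyU => ?_, fun y hyU => ?_⟩
    · by_cases h1 : y ∈ I
      · rw [indicator_of_mem h1, hy y hyU h1]
      · rw [indicator_of_notMem h1]
    · by_cases h1 : y ∈ I
      · rw [indicator_of_mem h1, ← (hv y).deriv]
        have h2 : v =ᶠ[nhds y] fun _ => 0 := by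
          filter_upwards [(hU.inter hI).mem_nhds ⟨hyU, h1⟩] with z hz
          exact hy z hz.1 hz.2
        rw [h2.deriv_eq]
        simp
      · rw [indicator_of_notMem h1]
  constructor
  · intro t
    by_cases ht : t ∈ I
    · rw [indicator_of_mem ht]
      refine (hv t).congr_of_eventuallyEq ?_
      filter_upwards [hI.mem_nhds ht] with y hy
      rw [indicator_of_mem hy]
    · obtain ⟨U, hU, htU, h1, h2⟩ := key t ht
      rw [h2 t htU]
      refine (hasDerivAt_const t (0 : ℂ)).congr_of_eventuallyEq ?_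
      filter_upwards [hU.mem_nhds htU] with y hy
      exact h1 y hy
  · rw [continuous_iff_continuousAt]
    intro t
    by_cases ht : t ∈ I
    · refine hv'.continuousAt.congr ?_
      filter_upwards [hI.mem_nhds ht] with y hy
      rw [indicator_of_mem hy]
    · obtain ⟨U, hU, htU, h1, h2⟩ := key t ht
      refine (continuousAt_const (y := (0 : ℂ))).congr ?_
      filter_upwards [hU.mem_nhds htU] with y hy
      rw [h2 y hy]

/-- The sum over one interval. -/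
theorem one_int {σ ℓ : ℝ} (hσ : 0 ≤ σ) (hℓ : 0 < ℓ) :
    ∑ k ∈ Finset.range ⌊√σ * ℓ / π⌋₊, (σ - (π * ((k : ℝ) + 1) / ℓ) ^ 2) ^ 2 ≤
      8 / (15 * π) * √σ ^ 5 * (83 / 100 * ℓ + 835 / 1000000 / π ^ 2 * σ * ℓ ^ 3) := by
  have hpi := Real.pi_pos
  obtain ⟨s, hs⟩ : ∃ s : ℝ, s = √σ * ℓ / π := ⟨_, rfl⟩
  have hs0 : 0 ≤ s := by rw [hs]; positivity
  have hσs : σ = (π / ℓ) ^ 2 * s ^ 2 := by
    have h1 : σ = √σ ^ 2 := (Real.sq_sqrt hσ).symm
    rw [hs]
    nth_rw 1 [h1]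
    field_simp
  have hsq : √σ = π / ℓ * s := by
    rw [hs]
    field_simp
  rw [← hs]
  have h1 : ∀ k : ℕ, (σ - (π * ((k : ℝ) + 1) / ℓ) ^ 2) ^ 2 =
      (π / ℓ) ^ 4 * (s ^ 2 - ((k : ℝ) + 1) ^ 2) ^ 2 := by
    intro k
    rw [hσs]
    ring
  simp only [h1]
  rw [← Finset.mul_sum]
  refine (mul_le_mul_of_nonneg_left (S2_le hs0) (by positivity)).trans (le_of_eq ?_)
  rw [hsq, hσs]
  field_simp

theorem base_real {N : ℕ} (v v' : Fin N → ℝ → ℂ) (hv : ∀ i t, HasDerivAt (v i) (v' i t) t)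
    (hv'c : ∀ i, Continuous (v' i)) (hc : ∀ i, HasCompactSupport (v i)) {Ω : Set ℝ}
    (hΩ : IsOpen Ω) (hsupp : ∀ i, tsupport (v i) ⊆ Ω) (hfin : volume Ω ≠ ⊤) (l : Fin N → ℝ)
    (hl : ∀ i, 0 ≤ l i)
    (hG : ∀ i j, ∫ t, v i t * starRingEnd ℂ (v j t) = if i = j then (l i : ℂ) else 0) {σ : ℝ}
    (hσ : 0 ≤ σ) :
    σ * ∑ i, l i ≤ ∑ i, (∫ t, ‖v' i t‖ ^ 2) + 2 * ∑ i, l i ^ 2 +
      1 / (15 * π) * √σ ^ 5 * (83 / 100 * (volume Ω).toReal +
        835 / 1000000 / π ^ 2 * σ * (volume Ω).toReal ^ 3) := by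
  have hpi := Real.pi_pos
  have hvc : ∀ i, Continuous (v i) := fun i => continuous_iff_continuousAt.2 fun t =>
    (hv i t).continuousAt
  have hlv : ∀ i, ∫ t, ‖v i t‖ ^ 2 = l i := by
    intro i
    have h1 := hG i i
    rw [if_pos rfl] at h1
    have h2 : ∫ t, v i t * starRingEnd ℂ (v i t) = ((∫ t, ‖v i t‖ ^ 2 : ℝ) : ℂ) := by
      rw [← integral_complex_ofReal]
      refine integral_congr_ae (Filter.Eventually.of_forall fun x => ?_)
      simp only
      rw [Complex.mul_conj, Complex.normSq_eq_norm_sq]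
    rw [h2] at h1
    exact_mod_cast h1
  obtain ⟨K, hK⟩ : ∃ K : Set ℝ, K = ⋃ i, tsupport (v i) := ⟨_, rfl⟩
  have hKc : IsCompact K := by
    rw [hK]
    exact isCompact_iUnion fun i => hc i
  have hKΩ : K ⊆ Ω := by
    rw [hK]
    exact iUnion_subset hsupp
  have hKv : ∀ i t, t ∉ K → v i t = 0 := by
    intro i t ht
    by_contra hne
    apply ht
    rw [hK]
    exact mem_iUnion.2 ⟨i, subset_tsupport _ hne⟩
  obtain ⟨M, a, b, hab, hIΩ, hdisj, hcov⟩ := cover_intervals hΩ hKc hKΩ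
  obtain ⟨ℓ, hℓ⟩ : ∃ ℓ : Fin M → ℝ, ℓ = fun m => b m - a m := ⟨_, rfl⟩
  have hℓ0 : ∀ m, 0 < ℓ m := fun m => by rw [hℓ]; linarith [hab m]
  have hbl : ∀ m, b m = a m + ℓ m := fun m => by rw [hℓ]; ring
  obtain ⟨I, hI⟩ : ∃ I : Fin M → Set ℝ, I = fun m => Ioo (a m) (a m + ℓ m) := ⟨_, rfl⟩
  have hIm : ∀ m, I m = Ioo (a m) (b m) := fun m => by rw [hI, hbl]
  have hIo : ∀ m, IsOpen (I m) := fun m => by rw [hIm]; exact isOpen_Ioo
  have hId : ∀ m m', m ≠ m' → Disjoint (I m) (I m') := fun m m' h => by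
    rw [hIm, hIm]
    exact hdisj m m' h
  have hKI : K ⊆ ⋃ m, I m := by
    simp only [hIm]
    exact hcov
  -- the pieces
  have hpiece : ∀ i m, (∀ t, HasDerivAt ((I m).indicator (v i)) ((I m).indicator (v' i) t) t) ∧
      Continuous ((I m).indicator (v' i)) := by
    intro i m
    refine ind_deriv (hv i) (hv'c i) (hIo m) fun t ht => ?_
    by_cases h1 : t ∈ ⋃ m, I m
    · obtain ⟨m', hm'⟩ := mem_iUnion.1 h1
      refine ⟨I m', hIo m', hm', fun y hy hy' => ?_⟩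
      exfalso
      have hne : m' ≠ m := by
        rintro rfl
        exact ht hm'
      exact Set.disjoint_left.1 (hId m' m hne) hy hy'
    · refine ⟨Kᶜ, hKc.isClosed.isOpen_compl, fun h2 => h1 (hKI h2), fun y hy _ => hKv i y hy⟩
  have hv'0 : ∀ i t, t ∉ K → v' i t = 0 := by
    intro i t ht
    rw [← (hv i t).deriv]
    have h1 : v i =ᶠ[nhds t] fun _ => 0 := by
      filter_upwards [hKc.isClosed.isOpen_compl.mem_nhds ht] with y hy
      exact hKv i y hy
    rw [h1.deriv_eq]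
    simp
  have hsplit : ∀ F : ℝ → ℂ, (∀ t, t ∉ K → F t = 0) →
      ∀ t, ‖F t‖ ^ 2 = ∑ m, ‖(I m).indicator F t‖ ^ 2 := by
    intro F hF t
    by_cases h1 : t ∈ ⋃ m, I m
    · obtain ⟨m, hm⟩ := mem_iUnion.1 h1
      rw [Finset.sum_eq_single m]
      · rw [indicator_of_mem hm]
      · intro m' _ hne
        rw [indicator_of_notMem fun h => Set.disjoint_left.1 (hId m' m hne) h hm]
        simp
      · intro h
        exact absurd (Finset.mem_univ m) h
    · rw [hF t fun h => h1 (hKI h)]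
      have : ∀ m, (I m).indicator F t = 0 := fun m =>
        indicator_of_notMem (fun h => h1 (mem_iUnion.2 ⟨m, h⟩)) _
      simp [this]
  have hcsI : ∀ (F : ℝ → ℂ), (∀ t, t ∉ K → F t = 0) → ∀ m, HasCompactSupport ((I m).indicator F) := by
    intro F hF m
    refine HasCompactSupport.intro hKc fun t ht => ?_
    by_cases h1 : t ∈ I m
    · rw [indicator_of_mem h1, hF t ht]
    · rw [indicator_of_notMem h1]
  have hintI : ∀ (F : ℝ → ℂ), Continuous F → HasCompactSupport F →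
      Integrable fun t => ‖F t‖ ^ 2 := by
    intro F hF hFc
    have hcs : HasCompactSupport (fun x => ‖F x‖ ^ 2) := by
      refine hFc.mono fun x hx => ?_
      rw [Function.mem_support] at hx ⊢
      intro e
      apply hx
      rw [e, norm_zero]
      norm_num
    exact (hF.norm.pow 2).integrable_of_hasCompactSupport hcs
  have hpc : ∀ i m, Continuous ((I m).indicator (v i)) := fun i m =>
    continuous_iff_continuousAt.2 fun t => ((hpiece i m).1 t).continuousAt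
  have hs1 : ∀ i, l i = ∑ m, ∫ t, ‖(I m).indicator (v i) t‖ ^ 2 := by
    intro i
    rw [← hlv i, ← integral_finset_sum _ fun m _ => hintI _ (hpc i m) (hcsI _ (hKv i) m)]
    exact integral_congr_ae (Filter.Eventually.of_forall fun t => hsplit _ (hKv i) t)
  have hs2 : ∀ i, ∫ t, ‖v' i t‖ ^ 2 = ∑ m, ∫ t, ‖(I m).indicator (v' i) t‖ ^ 2 := by
    intro i
    rw [← integral_finset_sum _ fun m _ => hintI _ (hpiece i m).2 (hcsI _ (hv'0 i) m)]
    exact integral_congr_ae (Filter.Eventually.of_forall fun t => hsplit _ (hv'0 i) t)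
  -- the inequality on every piece
  obtain ⟨Km, hKm⟩ : ∃ Km : Fin M → ℕ, Km = fun m => ⌊√σ * ℓ m / π⌋₊ := ⟨_, rfl⟩
  obtain ⟨c, hcd⟩ : ∃ c : Fin N → Fin M → ℕ → ℝ, c = fun i m k =>
      2 / ℓ m * ‖∫ t, (I m).indicator (v i) t * ((sk (a m) (ℓ m) k t : ℝ) : ℂ)‖ ^ 2 := ⟨_, rfl⟩
  have hc0 : ∀ i m k, 0 ≤ c i m k := fun i m k => by
    rw [hcd]
    have := hℓ0 m
    positivity
  have hA : ∀ i, (σ - 2 * l i) * l i ≤ (∫ t, ‖v' i t‖ ^ 2) +
      ∑ m, ∑ k ∈ Finset.range (Km m), (σ - 2 * l i - (π * ((k : ℝ) + 1) / ℓ m) ^ 2) * c i m k := by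
    intro i
    have h1 : ∀ m, (σ - 2 * l i) * ∫ t, ‖(I m).indicator (v i) t‖ ^ 2 ≤
        (∫ t, ‖(I m).indicator (v' i) t‖ ^ 2) +
        ∑ k ∈ Finset.range (Km m), (σ - 2 * l i - (π * ((k : ℝ) + 1) / ℓ m) ^ 2) * c i m k := by
      intro m
      rw [hcd]
      refine sineF1 (hpiece i m).1 (hpiece i m).2 (hcsI _ (hKv i) m) (hℓ0 m) (fun t ht => ?_) _ _
        fun k hk => ?_
      · rw [indicator_of_notMem]
        rw [hI]
        exact ht
      · have h2 : √σ * ℓ m / π < k := by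
          rw [hKm] at hk
          exact Nat.lt_of_floor_lt hk
        have h3 : √σ ≤ π * k / ℓ m := by
          rw [div_lt_iff₀ hpi] at h2
          rw [le_div_iff₀ (hℓ0 m)]
          linarith
        have h4 : σ ≤ (π * k / ℓ m) ^ 2 := by
          calc σ = √σ ^ 2 := (Real.sq_sqrt hσ).symm
            _ ≤ _ := pow_le_pow_left₀ (Real.sqrt_nonneg _) h3 2
        linarith [hl i]
    calc (σ - 2 * l i) * l i = ∑ m, (σ - 2 * l i) * ∫ t, ‖(I m).indicator (v i) t‖ ^ 2 := by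
          rw [← Finset.mul_sum, ← hs1]
      _ ≤ ∑ m, ((∫ t, ‖(I m).indicator (v' i) t‖ ^ 2) +
        ∑ k ∈ Finset.range (Km m), (σ - 2 * l i - (π * ((k : ℝ) + 1) / ℓ m) ^ 2) * c i m k) :=
          Finset.sum_le_sum fun m _ => h1 m
      _ = _ := by rw [Finset.sum_add_distrib, ← hs2]
  -- Bessel
  have hB : ∀ m k, ∑ i, (l i)⁻¹ * c i m k ≤ 1 := by
    intro m k
    have hℓm := hℓ0 m
    have hφL : MemLp ((I m).indicator fun t => ((√(2 / ℓ m) * sk (a m) (ℓ m) k t : ℝ) : ℂ)) 2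
        (volume : Measure ℝ) := by
      rw [memLp_indicator_iff_restrict (hIo m).measurableSet]
      have : IsFiniteMeasure ((volume : Measure ℝ).restrict (I m)) := by
        refine ⟨?_⟩
        rw [Measure.restrict_apply_univ, hIm, Real.volume_Ioo]
        exact ENNReal.ofReal_lt_top
      refine MemLp.of_bound (C := √(2 / ℓ m)) ?_ (Filter.Eventually.of_forall fun t => ?_)
      · have hct : Continuous fun t => ((√(2 / ℓ m) * sk (a m) (ℓ m) k t : ℝ) : ℂ) :=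
          Complex.continuous_ofReal.comp (continuous_const.mul (sk_cont _ _ _))
        exact hct.aestronglyMeasurable
      · rw [Complex.norm_real, Real.norm_eq_abs, abs_mul, abs_of_nonneg (Real.sqrt_nonneg _)]
        have h1 : |sk (a m) (ℓ m) k t| ≤ 1 := abs_sin_le_one _
        calc _ ≤ √(2 / ℓ m) * 1 := by gcongr
          _ = _ := mul_one _
    have hvL : ∀ i, MemLp (v i) 2 (volume : Measure ℝ) := fun i =>
      (hvc i).memLp_of_hasCompactSupport (hc i)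
    have h1 := bessel_gen (volume : Measure ℝ) v hvL l hl hG _ hφL
    have h2 : ∀ i, ‖∫ t, v i t *
        (I m).indicator (fun t => ((√(2 / ℓ m) * sk (a m) (ℓ m) k t : ℝ) : ℂ)) t‖ ^ 2 = c i m k := by
      intro i
      have h3 : ∫ t, v i t * (I m).indicator
          (fun t => ((√(2 / ℓ m) * sk (a m) (ℓ m) k t : ℝ) : ℂ)) t =
          ((√(2 / ℓ m) : ℝ) : ℂ) * ∫ t, (I m).indicator (v i) t *
            ((sk (a m) (ℓ m) k t : ℝ) : ℂ) := by
        rw [← integral_const_mul]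
        refine integral_congr_ae (Filter.Eventually.of_forall fun t => ?_)
        simp only
        by_cases ht : t ∈ I m
        · rw [indicator_of_mem ht, indicator_of_mem ht]
          push_cast
          ring
        · rw [indicator_of_notMem ht, indicator_of_notMem ht]
          ring
      rw [h3, norm_mul, mul_pow, Complex.norm_real, Real.norm_eq_abs, sq_abs,
        Real.sq_sqrt (by positivity), hcd]
    simp only [h2] at h1
    refine h1.trans (le_of_eq ?_)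
    have h4 : (fun t => ‖(I m).indicator (fun t => ((√(2 / ℓ m) * sk (a m) (ℓ m) k t : ℝ) : ℂ)) t‖ ^ 2) =
        (I m).indicator fun t => 2 / ℓ m * sk (a m) (ℓ m) k t ^ 2 := by
      funext t
      by_cases ht : t ∈ I m
      · rw [indicator_of_mem ht, indicator_of_mem ht, Complex.norm_real, Real.norm_eq_abs, sq_abs,
          mul_pow, Real.sq_sqrt (by positivity)]
      · rw [indicator_of_notMem ht, indicator_of_notMem ht]
        simp
    rw [h4, integral_indicator (hIo m).measurableSet, integral_const_mul, hI]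
    simp only
    rw [sk_norm _ hℓm]
    field_simp
  -- combine
  have hX : ∀ m, ∀ k ∈ Finset.range (Km m), 0 ≤ σ - (π * ((k : ℝ) + 1) / ℓ m) ^ 2 := by
    intro m k hk
    have h1 : k + 1 ≤ ⌊√σ * ℓ m / π⌋₊ := by
      have := Finset.mem_range.1 hk
      rw [hKm] at this
      exact this
    have h2 : ((k + 1 : ℕ) : ℝ) ≤ √σ * ℓ m / π := by
      refine (Nat.le_floor_iff ?_).1 h1
      have := (hℓ0 m).le
      positivity
    push_cast at h2
    have h3 : π * ((k : ℝ) + 1) / ℓ m ≤ √σ := by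
      rw [le_div_iff₀ hpi] at h2
      rw [div_le_iff₀ (hℓ0 m)]
      linarith
    have h4 : 0 ≤ π * ((k : ℝ) + 1) / ℓ m := by
      have := (hℓ0 m).le
      positivity
    have h5 : (π * ((k : ℝ) + 1) / ℓ m) ^ 2 ≤ σ := by
      calc _ ≤ √σ ^ 2 := pow_le_pow_left₀ h4 h3 2
        _ = σ := Real.sq_sqrt hσ
    linarith
  have hC : ∀ i m, ∀ k ∈ Finset.range (Km m),
      (σ - 2 * l i - (π * ((k : ℝ) + 1) / ℓ m) ^ 2) * c i m k ≤
        1 / 8 * (σ - (π * ((k : ℝ) + 1) / ℓ m) ^ 2) ^ 2 * ((l i)⁻¹ * c i m k) := by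
    intro i m k hk
    obtain ⟨X, hXd⟩ : ∃ X : ℝ, X = σ - (π * ((k : ℝ) + 1) / ℓ m) ^ 2 := ⟨_, rfl⟩
    have e1 : σ - 2 * l i - (π * ((k : ℝ) + 1) / ℓ m) ^ 2 = X - 2 * l i := by rw [hXd]; ring
    rw [e1, ← hXd]
    rcases eq_or_lt_of_le (hl i) with h0 | h0
    · have h1 : c i m k = 0 := by
        have h2 : ∀ t, v i t = 0 := by
          have h3 := hlv i
          rw [← h0] at h3
          have h4 := (integral_eq_zero_iff_of_nonneg (fun t => by positivity)
            (hintI _ (hvc i) (hc i))).1 h3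
          have h5 : (fun t => ‖v i t‖ ^ 2) = fun _ => 0 :=
            Continuous.ae_eq_iff_eq volume ((hvc i).norm.pow 2) continuous_const |>.1 h4
          intro t
          have h6 := congrFun h5 t
          simpa using h6
        have h3 : ∀ t, (I m).indicator (v i) t = 0 := by
          intro t
          by_cases ht : t ∈ I m
          · rw [indicator_of_mem ht, h2]
          · rw [indicator_of_notMem ht]
        rw [hcd]
        simp [h3]
      rw [h1]
      simp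
    · have h1 : X - 2 * l i ≤ 1 / 8 * X ^ 2 * (l i)⁻¹ := by
        rw [← div_eq_mul_inv, le_div_iff₀ h0]
        nlinarith [sq_nonneg (X - 4 * l i)]
      calc (X - 2 * l i) * c i m k ≤ (1 / 8 * X ^ 2 * (l i)⁻¹) * c i m k :=
            mul_le_mul_of_nonneg_right h1 (hc0 i m k)
        _ = _ := by ring
  have hD : ∑ i, ∑ m, ∑ k ∈ Finset.range (Km m),
      (σ - 2 * l i - (π * ((k : ℝ) + 1) / ℓ m) ^ 2) * c i m k ≤
      ∑ m, ∑ k ∈ Finset.range (Km m), 1 / 8 * (σ - (π * ((k : ℝ) + 1) / ℓ m) ^ 2) ^ 2 := by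
    rw [Finset.sum_comm]
    refine Finset.sum_le_sum fun m _ => ?_
    rw [Finset.sum_comm]
    refine Finset.sum_le_sum fun k hk => ?_
    calc ∑ i, (σ - 2 * l i - (π * ((k : ℝ) + 1) / ℓ m) ^ 2) * c i m k
        ≤ ∑ i, 1 / 8 * (σ - (π * ((k : ℝ) + 1) / ℓ m) ^ 2) ^ 2 * ((l i)⁻¹ * c i m k) :=
          Finset.sum_le_sum fun i _ => hC i m k hk
      _ = 1 / 8 * (σ - (π * ((k : ℝ) + 1) / ℓ m) ^ 2) ^ 2 * ∑ i, (l i)⁻¹ * c i m k := by
          rw [Finset.mul_sum]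
      _ ≤ 1 / 8 * (σ - (π * ((k : ℝ) + 1) / ℓ m) ^ 2) ^ 2 * 1 := by
          gcongr
          exact hB m k
      _ = _ := mul_one _
  -- lengths
  obtain ⟨L, hL⟩ : ∃ L : ℝ, L = (volume Ω).toReal := ⟨_, rfl⟩
  have hsumℓ : ∑ m, ℓ m ≤ L := by
    have h1 : volume (⋃ m, I m) ≤ volume Ω := by
      refine measure_mono (iUnion_subset fun m => ?_)
      rw [hIm]
      exact hIΩ m
    rw [measure_iUnion (fun m m' h => hId m m' h) (fun m => (hIo m).measurableSet), tsum_fintype]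
      at h1
    have h2 : ∀ m, volume (I m) = ENNReal.ofReal (ℓ m) := by
      intro m
      rw [hI, Real.volume_Ioo]
      congr 1
      ring
    simp only [h2] at h1
    rw [← ENNReal.ofReal_sum_of_nonneg fun m _ => (hℓ0 m).le] at h1
    rw [hL]
    exact (ENNReal.ofReal_le_iff_le_toReal hfin).1 h1
  have hL0 : 0 ≤ L := by rw [hL]; exact ENNReal.toReal_nonneg
  have hℓL : ∀ m, ℓ m ≤ L := fun m =>
    (Finset.single_le_sum (f := ℓ) (fun m _ => (hℓ0 m).le) (Finset.mem_univ m)).trans hsumℓ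
  have hsumℓ3 : ∑ m, ℓ m ^ 3 ≤ L ^ 3 := by
    calc ∑ m, ℓ m ^ 3 ≤ ∑ m, L ^ 2 * ℓ m := by
          refine Finset.sum_le_sum fun m _ => ?_
          have h1 : ℓ m ^ 2 ≤ L ^ 2 := pow_le_pow_left₀ (hℓ0 m).le (hℓL m) 2
          calc ℓ m ^ 3 = ℓ m ^ 2 * ℓ m := by ring
            _ ≤ _ := mul_le_mul_of_nonneg_right h1 (hℓ0 m).le
      _ = L ^ 2 * ∑ m, ℓ m := by rw [Finset.mul_sum]
      _ ≤ L ^ 2 * L := by gcongr
      _ = _ := by ring
  have hE : ∑ m, ∑ k ∈ Finset.range (Km m), 1 / 8 * (σ - (π * ((k : ℝ) + 1) / ℓ m) ^ 2) ^ 2 ≤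
      1 / (15 * π) * √σ ^ 5 * (83 / 100 * L + 835 / 1000000 / π ^ 2 * σ * L ^ 3) := by
    calc ∑ m, ∑ k ∈ Finset.range (Km m), 1 / 8 * (σ - (π * ((k : ℝ) + 1) / ℓ m) ^ 2) ^ 2
        ≤ ∑ m, 1 / 8 * (8 / (15 * π) * √σ ^ 5 *
          (83 / 100 * ℓ m + 835 / 1000000 / π ^ 2 * σ * ℓ m ^ 3)) := by
          refine Finset.sum_le_sum fun m _ => ?_
          rw [← Finset.mul_sum, hKm]
          exact mul_le_mul_of_nonneg_left (one_int hσ (hℓ0 m)) (by norm_num)
      _ = 1 / (15 * π) * √σ ^ 5 * (83 / 100 * ∑ m, ℓ m +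
          835 / 1000000 / π ^ 2 * σ * ∑ m, ℓ m ^ 3) := by
          rw [Finset.mul_sum, Finset.mul_sum, ← Finset.sum_add_distrib, Finset.mul_sum]
          refine Finset.sum_congr rfl fun m _ => ?_
          field_simp
      _ ≤ _ := by gcongr
  have hF := Finset.sum_le_sum (s := Finset.univ) fun i (_ : i ∈ Finset.univ) => hA i
  rw [Finset.sum_add_distrib] at hF
  have hG1 : ∑ i, (σ - 2 * l i) * l i = σ * ∑ i, l i - 2 * ∑ i, l i ^ 2 := by
    rw [Finset.mul_sum, Finset.mul_sum, ← Finset.sum_sub_distrib]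
    refine Finset.sum_congr rfl fun i _ => ?_
    ring
  rw [hG1] at hF
  rw [← hL]
  linarith

end Pool.Agent.Helper961_mbly
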