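import Mathlib
import Pool.Agent.Helper766.M.Defs
import Pool.Agent.Helper766.M.L_diag_family
import Pool.Agent.Helper766.M.L_PP_to_PPp
import Pool.Agent.Helper961_mbly.LowA
import Pool.Agent.Helper961_mbly.LowB
import Pool.Agent.Helper961_mbly.BReal
import Pool.Agent.Helper961_mbly.Smear
import Pool.Agent.Helper961_mbly.Top
import Pool.Agent.Helper961_mbly.Fin

set_option autoImplicit false

open MeasureTheory Set Real Matrix
open scoped ENNReal ComplexOrder

namespace Pool.Agent.Helper961_mbly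

open Pool.Agent.Helper766.M

/-- Gauge transformations of admissible families. -/
theorem gauge_all {n N : ℕ} {Ω : Set (Fin n → ℝ)} (hΩ : IsOpen Ω) {φ : (Fin n → ℝ) → ℝ}
    (hφ : ContDiffOn ℝ 1 φ Ω) {A A' : (Fin n → ℝ) → (Fin n → ℝ)}
    (h : ∀ x ∈ Ω, ∀ l, A' x l = A x l + fderiv ℝ φ x (Pi.single l 1))
    {u : Fin N → (Fin n → ℝ) → ℂ} (hu : Adm Ω u) :
    ∃ u' : Fin N → (Fin n → ℝ) → ℂ, Adm Ω u' ∧ Gram u' = Gram u ∧ Tmag A u' = Tmag A' u ∧
      ∀ j x, ‖u' j x‖ₑ = ‖u j x‖ₑ := by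
  obtain ⟨E, hE⟩ : ∃ E : (Fin n → ℝ) → ℂ, E = fun x => Complex.exp (-(Complex.I * (φ x : ℂ))) :=
    ⟨_, rfl⟩
  have hEc : ContDiffOn ℝ 1 E Ω := by
    rw [hE]
    have h1 : ContDiffOn ℝ 1 (fun x => (φ x : ℂ)) Ω := Complex.ofRealCLM.contDiff.comp_contDiffOn hφ
    exact (contDiffOn_const.mul h1).neg.cexp
  have hEn : ∀ x, ‖E x‖ = 1 := fun x => by
    rw [hE]
    exact norm_ex (φ x)
  have hadm : Adm Ω fun j x => E x * u j x :=
    ⟨fun j => contDiff_mul_supp hΩ hEc (hu.smooth j) (hu.supp j),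
      fun j => (hu.cpt j).mul_left, fun j => (tsupport_mul_subset_right).trans (hu.supp j)⟩
  refine ⟨fun j x => E x * u j x, hadm, ?_, ?_, ?_⟩
  · ext i j
    simp only [Gram, Matrix.of_apply]
    congr 1
    funext x
    rw [map_mul]
    have h1 : E x * starRingEnd ℂ (E x) = 1 := by
      rw [Complex.mul_conj, Complex.normSq_eq_norm_sq, hEn]
      norm_num
    calc E x * u i x * (starRingEnd ℂ (E x) * starRingEnd ℂ (u j x))
        = (E x * starRingEnd ℂ (E x)) * (u i x * starRingEnd ℂ (u j x)) := by ring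
      _ = _ := by rw [h1, one_mul]
  · unfold Tmag
    refine Finset.sum_congr rfl fun j _ => ?_
    refine lintegral_congr fun x => ?_
    by_cases hx : x ∈ Ω
    · have h1 : DifferentiableAt ℝ φ x :=
        (hφ.contDiffAt (hΩ.mem_nhds hx)).differentiableAt (by norm_num)
      have h2 := gauge_eT (((hu.smooth j).differentiable (by norm_num)) x) h1 A A' (h x hx)
      rw [← h2, hE]
    · rw [eT_notMem, eT_notMem]
      · exact fun h => hx (hu.supp j h)
      · exact fun h => hx (hadm.supp j h)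
  · intro j x
    rw [enorm_mul, ← ofReal_norm (E x), hEn, ENNReal.ofReal_one, one_mul]

/-- The embedding of the line. -/
def JJ (t : ℝ) : Fin 1 → ℝ := fun _ => t

theorem JJ_mp : MeasurePreserving (MeasurableEquiv.funUnique (Fin 1) ℝ).symm volume volume :=
  (volume_preserving_funUnique (Fin 1) ℝ).symm _

theorem JJ_eq (t : ℝ) : (MeasurableEquiv.funUnique (Fin 1) ℝ).symm t = JJ t := rfl

theorem JJ_lint (F : (Fin 1 → ℝ) → ℝ≥0∞) : ∫⁻ x, F x = ∫⁻ t : ℝ, F (JJ t) := by
  rw [← JJ_mp.lintegral_comp_emb (MeasurableEquiv.measurableEmbedding _) F]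
  rfl

theorem JJ_int (F : (Fin 1 → ℝ) → ℂ) : ∫ x, F x = ∫ t : ℝ, F (JJ t) := by
  rw [← JJ_mp.integral_comp (MeasurableEquiv.measurableEmbedding _) F]
  rfl

theorem JJ_vol (S : Set (Fin 1 → ℝ)) : volume S = volume (JJ ⁻¹' S) :=
  (JJ_mp.measure_preimage_equiv S).symm

theorem JJ_cont : Continuous JJ := continuous_pi fun _ => continuous_id

theorem JJ_deriv (t : ℝ) : HasDerivAt JJ (Pi.single 0 1 : Fin 1 → ℝ) t := by
  rw [hasDerivAt_pi]
  intro i
  have : i = 0 := Subsingleton.elim _ _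
  subst this
  simpa [JJ] using hasDerivAt_id' t

theorem JJ_self (x : Fin 1 → ℝ) : JJ (x 0) = x := by
  funext i
  have : i = 0 := Subsingleton.elim _ _
  subst this
  rfl

theorem cc_two : cc 2 = 1 / (15 * π) := by
  have hpi := Real.pi_pos
  unfold cc
  have e1 : (((2 : ℕ) : ℝ) + 5) / 2 = 5 / 2 + 1 := by norm_num
  have e2 : ((2 : ℕ) : ℝ) / 2 = 1 := by norm_num
  rw [e1, e2, Real.rpow_one, Real.Gamma_add_one (by norm_num)]
  have hG : Gamma (5 / 2 : ℝ) ≠ 0 := (Real.Gamma_pos_of_pos (by norm_num)).ne'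
  field_simp
  norm_num

theorem cc_four : cc 4 = 1 / (15 * π) / (14 * π) := by
  have hpi := Real.pi_pos
  unfold cc
  have e1 : (((4 : ℕ) : ℝ) + 5) / 2 = 5 / 2 + 1 + 1 := by norm_num
  have e2 : ((4 : ℕ) : ℝ) / 2 = (2 : ℕ) := by norm_num
  rw [e1, e2, Real.rpow_natCast, Real.Gamma_add_one (by norm_num : (5 / 2 + 1 : ℝ) ≠ 0),
    Real.Gamma_add_one (by norm_num)]
  have hG : Gamma (5 / 2 : ℝ) ≠ 0 := (Real.Gamma_pos_of_pos (by norm_num)).ne'
  field_simp
  norm_num

/-- The base case: one dimension, `γ = 2`. -/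
theorem PS'_base : PS' (83 / 100) (14 * (835 / 1000000) / π) 0 := by
  intro N u Ω A σ hu hΩ hA hσ
  have hpi := Real.pi_pos
  -- remove the vector potential
  obtain ⟨α, hα⟩ : ∃ α : ℝ → ℝ, α = fun t => A (JJ t) 0 := ⟨_, rfl⟩
  have hαc : Continuous α := by
    rw [hα]
    exact (continuous_apply 0).comp (hA.comp JJ_cont)
  obtain ⟨Φ, hΦ⟩ : ∃ Φ : ℝ → ℝ, Φ = fun t => ∫ s in (0 : ℝ)..t, α s := ⟨_, rfl⟩
  have hΦd : ∀ t, HasDerivAt Φ (α t) t := by
    intro t
    rw [hΦ]
    exact intervalIntegral.integral_hasDerivAt_right (hαc.intervalIntegrable _ _)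
      (hαc.stronglyMeasurableAtFilter _ _) hαc.continuousAt
  have hΦ1 : ContDiff ℝ 1 Φ := by
    rw [contDiff_one_iff_deriv]
    refine ⟨fun t => (hΦd t).differentiableAt, ?_⟩
    have : deriv Φ = α := funext fun t => (hΦd t).deriv
    rw [this]
    exact hαc
  obtain ⟨φ, hφ⟩ : ∃ φ : (Fin (0 + 1) → ℝ) → ℝ, φ = fun x => Φ (x 0) := ⟨_, rfl⟩
  have hφ1 : ContDiff ℝ 1 φ := by
    rw [hφ]
    exact hΦ1.comp (contDiff_apply ℝ ℝ 0)
  have hφd : ∀ x l, fderiv ℝ φ x (Pi.single l 1) = A x l := by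
    intro x l
    have h1 : HasFDerivAt φ ((α (x 0)) • (ContinuousLinearMap.proj 0 : (Fin (0 + 1) → ℝ) →L[ℝ] ℝ))
        x := by
      rw [hφ]
      exact (hΦd (x 0)).comp_hasFDerivAt x (hasFDerivAt_apply 0 x)
    have hl : l = 0 := Subsingleton.elim (α := Fin 1) _ _
    subst hl
    rw [h1.fderiv, hα]
    simp [JJ_self]
  obtain ⟨u', hadm', hG', hT', hn'⟩ := gauge_all (A := 0) (A' := A) hΩ hφ1.contDiffOn
    (fun x _ l => by rw [hφd]; simp) hu
  have hn2 : ∀ j, ∫⁻ x, ‖u j x‖ₑ ^ 2 = ∫⁻ x, ‖u' j x‖ₑ ^ 2 := fun j =>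
    lintegral_congr fun x => by rw [hn']
  simp only [hn2]
  rw [← hT', ← hG']
  -- diagonalize
  obtain ⟨v, l, hv, hvc, hl, hG, htr, hrho, hTm⟩ := diag_family u' hadm'.smooth hadm'.cpt
  have hadm := adm_of_rho hadm' hv hvc hrho
  rw [← hTm 0 measurable_const, htr, rho_int u' fun i => (hadm'.smooth i).continuous]
  simp_rw [← hrho]
  rw [← rho_int v fun i => (hv i).continuous]
  have hL : ∀ i, ∫⁻ x, ‖v i x‖ₑ ^ 2 = ENNReal.ofReal (l i) := by
    intro i
    apply PP_to_PP'_c (v i) (hv i) (hvc i)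
    have := congrFun (congrFun hG i) i
    rw [Matrix.diagonal_apply_eq] at this
    exact this
  simp only [hL]
  -- the section
  obtain ⟨W, hW⟩ : ∃ W : Set ℝ, W = JJ ⁻¹' Ω := ⟨_, rfl⟩
  have hWo : IsOpen W := by rw [hW]; exact hΩ.preimage JJ_cont
  have hvolW : volume Ω = volume W := by rw [hW]; exact JJ_vol Ω
  have hlen : ∀ x, len Ω x = volume W := by
    intro x
    unfold len
    congr 1
    ext s
    rw [hW]
    simp only [mem_ofPred_eq, mem_preimage]
    have : Function.update x (Fin.last 0) s = JJ s := by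
      funext i
      have hi : i = Fin.last 0 := Subsingleton.elim (α := Fin 1) _ _
      subst hi
      rw [Function.update_self]
      rfl
    rw [this]
  have hI2 : I2 Ω = volume W ^ 3 := by
    unfold I2
    simp only [hlen]
    rw [setLIntegral_const, hvolW]
    ring
  have hKK : KK (83 / 100) (14 * (835 / 1000000) / π) (0 + 2) Ω σ =
      ENNReal.ofReal (83 / 100 * cc 2) * volume W * ENNReal.ofReal σ ^ ((5 : ℝ) / 2) +
      ENNReal.ofReal (14 * (835 / 1000000) / π * cc 4) * volume W ^ 3 *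
        ENNReal.ofReal σ ^ ((7 : ℝ) / 2) := by
    unfold KK
    rw [hI2, hvolW]
    norm_num
  rw [hKK]
  rcases eq_or_lt_of_le hσ with h0 | h0
  · rw [← h0, ENNReal.ofReal_zero, zero_mul]
    exact zero_le
  by_cases htop : volume W = ⊤
  · have h1 : ENNReal.ofReal (83 / 100 * cc 2) ≠ 0 := by
      rw [cc_two]
      exact (ENNReal.ofReal_pos.2 (by positivity)).ne'
    have h2 : ENNReal.ofReal σ ^ ((5 : ℝ) / 2) ≠ 0 :=
      (ENNReal.rpow_pos (ENNReal.ofReal_pos.2 h0) ENNReal.ofReal_ne_top).ne'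
    rw [htop, ENNReal.mul_top h1, ENNReal.top_mul h2]
    simp
  -- the real inequality
  obtain ⟨f, hf⟩ : ∃ f : Fin N → ℝ → ℂ, f = fun i t => v i (JJ t) := ⟨_, rfl⟩
  obtain ⟨f', hf'⟩ : ∃ f' : Fin N → ℝ → ℂ,
      f' = fun i t => fderiv ℝ (v i) (JJ t) (Pi.single 0 1) := ⟨_, rfl⟩
  have hfd : ∀ i t, HasDerivAt (f i) (f' i t) t := by
    intro i t
    rw [hf, hf']
    exact (((hv i).differentiable (by norm_num)) (JJ t)).hasFDerivAt.comp_hasDerivAt t (JJ_deriv t)
  have hf'c : ∀ i, Continuous (f' i) := by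
    intro i
    rw [hf']
    exact (((hv i).continuous_fderiv (by norm_num)).comp JJ_cont).clm_apply continuous_const
  have hts : ∀ i, tsupport (f i) ⊆ JJ ⁻¹' (tsupport (v i)) := by
    intro i
    refine closure_minimal (fun t ht => ?_) ((isClosed_tsupport _).preimage JJ_cont)
    rw [hf] at ht
    exact subset_tsupport _ ht
  have hfc : ∀ i, HasCompactSupport (f i) := by
    intro i
    have h1 : IsCompact ((fun x : Fin 1 → ℝ => x 0) '' tsupport (v i)) :=
      (hvc i).image (continuous_apply 0)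
    refine HasCompactSupport.intro h1 fun t ht => ?_
    by_contra hne
    apply ht
    refine ⟨JJ t, hts i (subset_tsupport _ hne), rfl⟩
  have hfs : ∀ i, tsupport (f i) ⊆ W := by
    intro i
    rw [hW]
    exact (hts i).trans (preimage_mono (hadm.supp i))
  have hfG : ∀ i j, ∫ t, f i t * starRingEnd ℂ (f j t) = if i = j then (l i : ℂ) else 0 := by
    intro i j
    have h1 := congrFun (congrFun hG i) j
    simp only [Gram, Matrix.of_apply, Matrix.diagonal_apply] at h1
    rw [JJ_int] at h1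
    rw [hf]
    exact h1
  have hbr := base_real f f' hfd hf'c hfc hWo hfs htop l hl hfG hσ
  -- conversion
  have hTr : Tmag 0 v = ENNReal.ofReal (∑ i, ∫ t, ‖f' i t‖ ^ 2) := by
    have h1 : ∀ i, HasCompactSupport (f' i) := by
      intro i
      have h2 : f' i = deriv (f i) := by funext t; exact (hfd i t).deriv.symm
      rw [h2]
      exact (hfc i).deriv
    rw [ENNReal.ofReal_sum_of_nonneg fun i _ => integral_nonneg fun t => by positivity]
    unfold Tmag
    refine Finset.sum_congr rfl fun i _ => ?_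
    rw [← lint_sq volume (hf'c i) (h1 i), JJ_lint]
    refine lintegral_congr fun t => ?_
    rw [eT_zero, hf']
    simp
  obtain ⟨L, hLd⟩ : ∃ L : ℝ, L = (volume W).toReal := ⟨_, rfl⟩
  have hL0 : 0 ≤ L := by rw [hLd]; exact ENNReal.toReal_nonneg
  have hWL : volume W = ENNReal.ofReal L := by rw [hLd, ENNReal.ofReal_toReal htop]
  rw [← hLd] at hbr
  have hp5 : ENNReal.ofReal σ ^ ((5 : ℝ) / 2) = ENNReal.ofReal (√σ ^ 5) := by
    rw [ENNReal.ofReal_rpow_of_nonneg hσ (by norm_num)]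
    congr 1
    rw [Real.sqrt_eq_rpow, ← Real.rpow_natCast, ← Real.rpow_mul hσ]
    norm_num
  have hp7 : ENNReal.ofReal σ ^ ((7 : ℝ) / 2) = ENNReal.ofReal (√σ ^ 5 * σ) := by
    rw [ENNReal.ofReal_rpow_of_nonneg hσ (by norm_num)]
    congr 1
    have h1 : √σ ^ 5 = σ ^ ((5 : ℝ) / 2) := by
      rw [Real.sqrt_eq_rpow, ← Real.rpow_natCast, ← Real.rpow_mul hσ]
      norm_num
    rw [h1, ← Real.rpow_add_one h0.ne']
    norm_num
  rw [hTr, hWL, hp5, hp7, cc_two, cc_four, ← ENNReal.ofReal_sum_of_nonneg fun i _ => hl i,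
    ← ENNReal.ofReal_mul hσ, ← ENNReal.ofReal_pow hL0, ← ENNReal.ofReal_mul (by positivity),
    ← ENNReal.ofReal_mul (by positivity), ← ENNReal.ofReal_mul (by positivity),
    ← ENNReal.ofReal_mul (by positivity), ← ENNReal.ofReal_add (Finset.sum_nonneg fun i _ =>
      integral_nonneg fun t => by positivity) (by positivity),
    ← ENNReal.ofReal_add (by positivity) (by positivity),
    ← ENNReal.ofReal_add (add_nonneg (Finset.sum_nonneg fun i _ =>
        integral_nonneg fun t => by positivity) (by positivity)) (by positivity)]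
  refine ENNReal.ofReal_le_ofReal (hbr.trans (le_of_eq ?_))
  field_simp

end Pool.Agent.Helper961_mbly
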