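import Mathlib
import Pool.Agent.Helper766.M.Defs

set_option autoImplicit false

open Set Real

namespace Pool.Agent.Helper961_mbly

open Pool.Agent.Helper766.M

theorem log_le_cubic {y : ℝ} (hy : 0 ≤ y) : Real.log (1 + y) ≤ y - y ^ 2 / 2 + y ^ 3 / 3 := by
  obtain ⟨f, hf⟩ : ∃ f : ℝ → ℝ, f = fun t => t - t ^ 2 / 2 + t ^ 3 / 3 - Real.log (1 + t) :=
    ⟨_, rfl⟩
  have hd : ∀ t : ℝ, 0 ≤ t → HasDerivAt f (1 - t + t ^ 2 - 1 / (1 + t)) t := by
    intro t ht
    rw [hf]
    have h1 : HasDerivAt (fun t : ℝ => t ^ 2 / 2) t t := by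
      have := (hasDerivAt_pow 2 t).div_const 2
      simpa using this
    have h2 : HasDerivAt (fun t : ℝ => t ^ 3 / 3) (t ^ 2) t := by
      have := (hasDerivAt_pow 3 t).div_const 3
      simpa using this
    have h3 : HasDerivAt (fun t : ℝ => Real.log (1 + t)) (1 / (1 + t)) t := by
      have h4 : HasDerivAt (fun t : ℝ => 1 + t) 1 t := by
        simpa using (hasDerivAt_id' t).const_add 1
      exact h4.log (by linarith)
    exact (((hasDerivAt_id' t).sub h1).add h2).sub h3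
  have hm : MonotoneOn f (Ici 0) := by
    refine monotoneOn_of_deriv_nonneg (convex_Ici 0) ?_ ?_ ?_
    · intro t ht
      exact (hd t ht).continuousAt.continuousWithinAt
    · intro t ht
      rw [interior_Ici] at ht
      exact (hd t (le_of_lt ht)).differentiableAt.differentiableWithinAt
    · intro t ht
      rw [interior_Ici] at ht
      have ht' : (0 : ℝ) < t := ht
      rw [(hd t ht'.le).deriv]
      have : 1 - t + t ^ 2 - 1 / (1 + t) = t ^ 3 / (1 + t) := by
        field_simp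
        ring
      rw [this]
      positivity
  have h1 := hm (mem_Ici.2 le_rfl) (mem_Ici.2 hy) hy
  rw [hf] at h1
  simp only [add_zero, Real.log_one, sub_zero] at h1
  norm_num at h1
  linarith

theorem Gamma_five_half : Gamma (5 / 2 : ℝ) = 3 / 4 * √π := by
  rw [show (5 / 2 : ℝ) = 1 / 2 + 1 + 1 by norm_num, Real.Gamma_add_one (by norm_num),
    Real.Gamma_add_one (by norm_num), Real.Gamma_one_half_eq]
  ring

/-- The ratio of Gamma functions. -/
theorem rho_bound (d : ℕ) :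
    (Gamma (2 + (d : ℝ) / 2) / Gamma (((d : ℝ) + 5) / 2)) ^ 2 * ((d : ℝ) / 2 + 178 / 100) ≤
      100728 / 100000 := by
  have hpi := Real.pi_pos
  have h1 := Real.pi_gt_d6
  have h2 := Real.pi_lt_d6
  induction d using Nat.twoStepInduction with
  | zero =>
    have e1 : (2 + ((0 : ℕ) : ℝ) / 2) = 1 + 1 := by norm_num
    have e2 : (((0 : ℕ) : ℝ) + 5) / 2 = 5 / 2 := by norm_num
    rw [e1, e2, Real.Gamma_add_one (by norm_num), Real.Gamma_one, Gamma_five_half]
    have e3 : (1 * 1 / (3 / 4 * √π)) ^ 2 = 16 / (9 * π) := by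
      rw [div_pow, mul_pow (3 / 4 : ℝ) (√π) 2, Real.sq_sqrt hpi.le]
      field_simp
      norm_num
    rw [e3, div_mul_eq_mul_div, div_le_iff₀ (by positivity)]
    norm_num
    linarith
  | one =>
    have e1 : (2 + ((1 : ℕ) : ℝ) / 2) = 5 / 2 := by norm_num
    have e2 : (((1 : ℕ) : ℝ) + 5) / 2 = 2 + 1 := by norm_num
    have e4 : Gamma (2 : ℝ) = 1 := by
      rw [show (2 : ℝ) = 1 + 1 by norm_num, Real.Gamma_add_one (by norm_num), Real.Gamma_one]
      norm_num
    rw [e1, e2, Real.Gamma_add_one (by norm_num), e4, Gamma_five_half]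
    have e3 : (3 / 4 * √π / (2 * 1)) ^ 2 = 9 * π / 64 := by
      rw [div_pow, mul_pow, Real.sq_sqrt hpi.le]
      ring
    rw [e3]
    norm_num
    linarith
  | more d ih _ =>
    have hd : (0 : ℝ) ≤ d := Nat.cast_nonneg d
    obtain ⟨z, hz⟩ : ∃ z : ℝ, z = 2 + (d : ℝ) / 2 := ⟨_, rfl⟩
    have hz2 : 2 ≤ z := by linarith
    have e1 : (2 + ((d + 2 : ℕ) : ℝ) / 2) = z + 1 := by rw [hz]; push_cast; ring
    have e2 : (((d + 2 : ℕ) : ℝ) + 5) / 2 = (z + 1 / 2) + 1 := by rw [hz]; push_cast; ring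
    have e3 : ((d : ℝ) + 5) / 2 = z + 1 / 2 := by rw [hz]; ring
    have e4 : ((d + 2 : ℕ) : ℝ) / 2 + 178 / 100 = z + 78 / 100 := by rw [hz]; push_cast; ring
    have e5 : (d : ℝ) / 2 + 178 / 100 = z - 22 / 100 := by rw [hz]; ring
    rw [← hz, e3, e5] at ih
    rw [e1, e2, e4, Real.Gamma_add_one (by linarith), Real.Gamma_add_one (by linarith)]
    have hG : 0 < Gamma z := Real.Gamma_pos_of_pos (by linarith)
    have hG' : 0 < Gamma (z + 1 / 2) := Real.Gamma_pos_of_pos (by linarith)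
    have e6 : (z * Gamma z / ((z + 1 / 2) * Gamma (z + 1 / 2))) ^ 2 * (z + 78 / 100) =
        (Gamma z / Gamma (z + 1 / 2)) ^ 2 * (z ^ 2 * (z + 78 / 100) / (z + 1 / 2) ^ 2) := by
      field_simp
    rw [e6]
    refine le_trans (mul_le_mul_of_nonneg_left ?_ (by positivity)) ih
    rw [div_le_iff₀ (by positivity)]
    nlinarith

/-- The polynomial inequality. -/
theorem poly_final {y : ℝ} (h0 : 0 ≤ y) (h1 : y ≤ 1 / 4) :
    143366 / 100000 * (83 / 100 * (1 + 3 * y) + 5331 / 10000 * (y * (1 + y))) ^ 2 ≤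
      (1 + 156 / 100 * y) * (1 + 3 * y) ^ 2 * (1 - (y / 2 - y ^ 2 / 12) / 4) ^ 4 := by
  have hq : 1 - 1 / 2 * y + 177 / 1000 * y ^ 2 - 391 / 10000 * y ^ 3 ≤
      (1 - (y / 2 - y ^ 2 / 12) / 4) ^ 4 := by
    have e1 : (1 - (y / 2 - y ^ 2 / 12) / 4) ^ 4 -
        (1 - 1 / 2 * y + 177 / 1000 * y ^ 2 - 391 / 10000 * y ^ 3) =
        y ^ 2 * (17 / 96 - 177 / 1000) + y ^ 3 * (391 / 10000 - 5 / 128) +
          y ^ 4 * (83 / 12288 - 5 / 6144 * y + 17 / 221184 * y ^ 2 - 1 / 221184 * y ^ 3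
            + 1 / 5308416 * y ^ 4) := by
      ring
    have h2 : 0 ≤ 83 / 12288 - 5 / 6144 * y + 17 / 221184 * y ^ 2 - 1 / 221184 * y ^ 3
            + 1 / 5308416 * y ^ 4 := by
      have h6 : y ^ 3 ≤ 1 / 4 * y ^ 2 := by
        have : y ^ 3 = y * y ^ 2 := by ring
        rw [this]
        exact mul_le_mul_of_nonneg_right h1 (by positivity)
      have h7 : 0 ≤ y ^ 4 := by positivity
      have h8 : 0 ≤ y ^ 2 := by positivity
      linarith
    have h3 : 0 ≤ y ^ 2 * (17 / 96 - 177 / 1000) := by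
      apply mul_nonneg (by positivity) (by norm_num)
    have h4 : 0 ≤ y ^ 3 * (391 / 10000 - 5 / 128) := by
      apply mul_nonneg (by positivity) (by norm_num)
    have h5 : 0 ≤ y ^ 4 * (83 / 12288 - 5 / 6144 * y + 17 / 221184 * y ^ 2 -
        1 / 221184 * y ^ 3 + 1 / 5308416 * y ^ 4) := mul_nonneg (by positivity) h2
    linarith
  refine le_trans ?_ (mul_le_mul_of_nonneg_left hq (by positivity))
  have e1 : (1 + 156 / 100 * y) * (1 + 3 * y) ^ 2 *
      (1 - 1 / 2 * y + 177 / 1000 * y ^ 2 - 391 / 10000 * y ^ 3) -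
      143366 / 100000 * (83 / 100 * (1 + 3 * y) + 5331 / 10000 * (y * (1 + y))) ^ 2 =
      (1 - 143366 / 100000 * (83 / 100) ^ 2) +
        (706 / 100 - 143366 / 100000 * (2 * (83 / 100) * (30231 / 10000))) * y +
        (14757 / 1000 - 143366 / 100000 * ((30231 / 10000) ^ 2 + 2 * (83 / 100) * (5331 / 10000))) *
          y ^ 2 + (615902 / 100000 - 143366 / 100000 * (2 * (30231 / 10000) * (5331 / 10000))) *
          y ^ 3 + (-(4065876 / 1000000) - 143366 / 100000 * (5331 / 10000) ^ 2) * y ^ 4 +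
        1767204 / 1000000 * y ^ 5 - 548964 / 1000000 * y ^ 6 := by
    ring
  have h2 : 0 ≤ 1767204 / 1000000 * y ^ 5 - 548964 / 1000000 * y ^ 6 := by
    have : 1767204 / 1000000 * y ^ 5 - 548964 / 1000000 * y ^ 6 =
      y ^ 5 * (1767204 / 1000000 - 548964 / 1000000 * y) := by ring
    rw [this]
    exact mul_nonneg (by positivity) (by linarith)
  have h3 : y ^ 4 ≤ 1 / 4 * y ^ 3 := by
    have : y ^ 4 = y * y ^ 3 := by ring
    rw [this]
    exact mul_le_mul_of_nonneg_right h1 (by positivity)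
  have h4 : 0 ≤ y ^ 3 := by positivity
  nlinarith [sq_nonneg (y - 17 / 100)]

end Pool.Agent.Helper961_mbly
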