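import Mathlib
import Pool.Agent.Helper766.M.Defs
import Pool.Agent.Helper961_mbly.Num2

set_option autoImplicit false

open Set Real

namespace Pool.Agent.Helper961_mbly

open Pool.Agent.Helper766.M

theorem cc_Lcl (d : ℕ) :
    cc d = √π / 2 * (Gamma (2 + (d : ℝ) / 2) / Gamma (((d : ℝ) + 5) / 2)) * Lcl 1 d := by
  have hd : (0 : ℝ) ≤ d := Nat.cast_nonneg d
  have h1 : 0 < Gamma (2 + (d : ℝ) / 2) := Real.Gamma_pos_of_pos (by linarith)
  have h2 : 0 < Gamma (((d : ℝ) + 5) / 2) := Real.Gamma_pos_of_pos (by linarith)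
  have h3 : (0 : ℝ) < (4 * π) ^ ((d : ℝ) / 2) := Real.rpow_pos_of_pos (by positivity) _
  have h4 : Gamma (1 + 1 : ℝ) = 1 := by
    rw [Real.Gamma_add_one (by norm_num), Real.Gamma_one]
    norm_num
  unfold cc Lcl
  rw [Gamma_five_half, h4, show (1 + 1 + (d : ℝ) / 2) = 2 + (d : ℝ) / 2 by ring]
  field_simp
  ring

theorem cc_succ_succ (d : ℕ) : cc (d + 2) = cc d * (1 / (2 * π * ((d : ℝ) + 5))) := by
  have hd : (0 : ℝ) ≤ d := Nat.cast_nonneg d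
  have hpi := Real.pi_pos
  have h2 : 0 < Gamma (((d : ℝ) + 5) / 2) := Real.Gamma_pos_of_pos (by linarith)
  have h3 : (0 : ℝ) < (4 * π) ^ ((d : ℝ) / 2) := Real.rpow_pos_of_pos (by positivity) _
  unfold cc
  have e1 : (((d + 2 : ℕ) : ℝ) + 5) / 2 = ((d : ℝ) + 5) / 2 + 1 := by push_cast; ring
  have e2 : (((d + 2 : ℕ) : ℝ)) / 2 = (d : ℝ) / 2 + 1 := by push_cast; ring
  rw [e1, e2, Real.Gamma_add_one (by linarith), Real.rpow_add (by positivity), Real.rpow_one]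
  field_simp
  ring

theorem pow_bound {y : ℝ} (h0 : 0 < y) (h1 : y ≤ 1 / 4) (d : ℕ) (hy : ((d : ℝ) + 2) * y = 1) :
    (1 + y) ^ (d + 3) * (1 - (y / 2 - y ^ 2 / 12) / 4) ^ 4 ≤ Real.exp 1 := by
  obtain ⟨w, hw⟩ : ∃ w : ℝ, w = y / 2 - y ^ 2 / 12 := ⟨_, rfl⟩
  have hw1 : w ≤ 1 := by nlinarith
  have e1 : (1 + y) ^ (d + 3) ≤ Real.exp (1 + w) := by
    have e2 : (1 + y) ^ (d + 3) = Real.exp (((d + 3 : ℕ) : ℝ) * Real.log (1 + y)) := by
      rw [Real.exp_nat_mul, Real.exp_log (by linarith)]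
    rw [e2]
    refine Real.exp_le_exp.2 ?_
    have h2 := log_le_cubic h0.le
    have h3 : ((d + 3 : ℕ) : ℝ) * y = 1 + y := by push_cast; linarith
    have h4 : (0 : ℝ) ≤ ((d + 3 : ℕ) : ℝ) := Nat.cast_nonneg _
    calc ((d + 3 : ℕ) : ℝ) * Real.log (1 + y)
        ≤ ((d + 3 : ℕ) : ℝ) * (y - y ^ 2 / 2 + y ^ 3 / 3) := mul_le_mul_of_nonneg_left h2 h4
      _ = (((d + 3 : ℕ) : ℝ) * y) * (1 - y / 2 + y ^ 2 / 3) := by ring
      _ = 1 + y / 2 - y ^ 2 / 6 + y ^ 3 / 3 := by rw [h3]; ring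
      _ ≤ 1 + w := by
        rw [hw]
        nlinarith [sq_nonneg y]
  have e3 : (1 - w / 4) ^ 4 ≤ Real.exp (-w) := by
    have h2 : 1 - w / 4 ≤ Real.exp (-(w / 4)) := by
      have := Real.add_one_le_exp (-(w / 4))
      linarith
    have h3 : Real.exp (-w) = Real.exp (-(w / 4)) ^ 4 := by
      rw [← Real.exp_nat_mul]
      congr 1
      push_cast
      ring
    rw [h3]
    exact pow_le_pow_left₀ (by linarith) h2 4
  rw [← hw]
  calc (1 + y) ^ (d + 3) * (1 - w / 4) ^ 4 ≤ Real.exp (1 + w) * Real.exp (-w) :=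
        mul_le_mul e1 e3 (by positivity) (Real.exp_pos _).le
    _ = Real.exp 1 := by rw [← Real.exp_add]; congr 1; ring

theorem num_sq {d : ℕ} (hd : 2 ≤ d) {y : ℝ} (hy : y = 1 / ((d : ℝ) + 2)) :
    √π / 2 * (Gamma (2 + (d : ℝ) / 2) / Gamma (((d : ℝ) + 5) / 2)) *
      (1 + y) ^ (((d : ℝ) + 3) / 2) *
      (83 / 100 + 52605 / 10000 / π ^ 2 * (y * (1 + y) / (1 + 3 * y))) ≤ √(3 * y) := by
  have hd' : (2 : ℝ) ≤ d := by exact_mod_cast hd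
  have hpi := Real.pi_pos
  have hp1 := Real.pi_gt_d6
  have hp2 := Real.pi_lt_d6
  have he := Real.exp_one_lt_d9
  have h0 : 0 < y := by rw [hy]; positivity
  have h1 : y ≤ 1 / 4 := by
    rw [hy]
    exact one_div_le_one_div_of_le (by norm_num) (by linarith)
  have h2 : ((d : ℝ) + 2) * y = 1 := by
    rw [hy]
    field_simp
  obtain ⟨ρ, hρ⟩ : ∃ ρ : ℝ, ρ = Gamma (2 + (d : ℝ) / 2) / Gamma (((d : ℝ) + 5) / 2) := ⟨_, rfl⟩
  have hρ0 : 0 ≤ ρ := by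
    rw [hρ]
    exact div_nonneg (Real.Gamma_pos_of_pos (by linarith)).le
      (Real.Gamma_pos_of_pos (by linarith)).le
  obtain ⟨φ, hφ⟩ : ∃ φ : ℝ, φ = 83 / 100 + 52605 / 10000 / π ^ 2 * (y * (1 + y) / (1 + 3 * y)) :=
    ⟨_, rfl⟩
  have hφ0 : 0 ≤ φ := by rw [hφ]; positivity
  have hrb := rho_bound d
  rw [← hρ] at hrb
  rw [← hρ, ← hφ]
  have hφ1 : φ * (1 + 3 * y) ≤ 83 / 100 * (1 + 3 * y) + 5331 / 10000 * (y * (1 + y)) := by
    have h3 : φ * (1 + 3 * y) = 83 / 100 * (1 + 3 * y) + 52605 / 10000 / π ^ 2 * (y * (1 + y)) := by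
      rw [hφ]
      field_simp
    rw [h3]
    have h4 : 52605 / 10000 / π ^ 2 ≤ 5331 / 10000 := by
      rw [div_le_iff₀ (by positivity)]
      nlinarith
    have h5 : 0 ≤ y * (1 + y) := by positivity
    nlinarith
  have hpow := pow_bound h0 h1 d h2
  have hpoly := poly_final h0.le h1
  obtain ⟨E, hE⟩ : ∃ E : ℝ, E = (1 + y) ^ (d + 3) := ⟨_, rfl⟩
  obtain ⟨Q, hQ⟩ : ∃ Q : ℝ, Q = (1 - (y / 2 - y ^ 2 / 12) / 4) ^ 4 := ⟨_, rfl⟩
  have hE0 : 0 < E := by rw [hE]; positivity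
  have hw : 0 < 1 - (y / 2 - y ^ 2 / 12) / 4 := by nlinarith [sq_nonneg y]
  have hQ0 : 0 < Q := by rw [hQ]; positivity
  rw [← hE, ← hQ] at hpow
  rw [← hQ] at hpoly
  refine Real.le_sqrt_of_sq_le ?_
  have e1 : ((1 + y) ^ (((d : ℝ) + 3) / 2)) ^ 2 = E := by
    rw [hE, ← Real.rpow_natCast, ← Real.rpow_mul (by linarith), ← Real.rpow_natCast]
    congr 1
    push_cast
    ring
  have e2 : (√π / 2 * ρ * (1 + y) ^ (((d : ℝ) + 3) / 2) * φ) ^ 2 = π / 4 * ρ ^ 2 * E * φ ^ 2 := by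
    rw [mul_pow, mul_pow, mul_pow, e1, div_pow, Real.sq_sqrt hpi.le]
    norm_num
  rw [e2]
  -- `ρ² ≤ 2.01456 y / (1 + 1.56 y)`
  have e3 : ρ ^ 2 * (1 + 156 / 100 * y) ≤ 201456 / 100000 * y := by
    have h3 : 1 + 156 / 100 * y = ((d : ℝ) / 2 + 178 / 100) * (2 * y) := by
      have : ((d : ℝ) / 2 + 178 / 100) * (2 * y) = ((d : ℝ) + 2) * y + 156 / 100 * y := by ring
      rw [this, h2]
    rw [h3]
    calc ρ ^ 2 * (((d : ℝ) / 2 + 178 / 100) * (2 * y)) =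
          ρ ^ 2 * ((d : ℝ) / 2 + 178 / 100) * (2 * y) := by ring
      _ ≤ 100728 / 100000 * (2 * y) := mul_le_mul_of_nonneg_right hrb (by positivity)
      _ = _ := by ring
  have e4 : (φ * (1 + 3 * y)) ^ 2 ≤
      (83 / 100 * (1 + 3 * y) + 5331 / 10000 * (y * (1 + y))) ^ 2 :=
    pow_le_pow_left₀ (by positivity) hφ1 2
  have hD : 0 < (1 + 156 / 100 * y) * (1 + 3 * y) ^ 2 * Q := by positivity
  refine le_of_mul_le_mul_right ?_ hD
  calc π / 4 * ρ ^ 2 * E * φ ^ 2 * ((1 + 156 / 100 * y) * (1 + 3 * y) ^ 2 * Q)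
      = π / 4 * (ρ ^ 2 * (1 + 156 / 100 * y)) * (E * Q) * (φ * (1 + 3 * y)) ^ 2 := by ring
    _ ≤ π / 4 * (201456 / 100000 * y) * Real.exp 1 *
        (83 / 100 * (1 + 3 * y) + 5331 / 10000 * (y * (1 + y))) ^ 2 := by
      have := Real.exp_pos 1
      gcongr
    _ ≤ 3 * y * (143366 / 100000 *
        (83 / 100 * (1 + 3 * y) + 5331 / 10000 * (y * (1 + y))) ^ 2) := by
      have h5 : π / 4 * (201456 / 100000) * Real.exp 1 ≤ 3 * (143366 / 100000) := by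
        have h6 : π * Real.exp 1 ≤ 3141593 / 1000000 * (27182818286 / 10000000000) :=
          mul_le_mul (by linarith) (by linarith) (Real.exp_pos 1).le (by norm_num)
        nlinarith
      have h7 : 0 ≤ y * (83 / 100 * (1 + 3 * y) + 5331 / 10000 * (y * (1 + y))) ^ 2 := by positivity
      have h8 := mul_le_mul_of_nonneg_right h5 h7
      linarith
    _ ≤ 3 * y * ((1 + 156 / 100 * y) * (1 + 3 * y) ^ 2 * Q) :=
      mul_le_mul_of_nonneg_left hpoly (by positivity)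

theorem num_final {d : ℕ} (hd : 2 ≤ d) {y : ℝ} (hy : y = 1 / ((d : ℝ) + 2)) :
    cc d * (1 + y) ^ (((d : ℝ) + 3) / 2) *
      (83 / 100 + 52605 / 10000 / π ^ 2 * (y * (1 + y) / (1 + 3 * y))) ≤ Lcl 1 d * √(3 * y) := by
  have h1 := num_sq hd hy
  have hd' : (0 : ℝ) ≤ d := Nat.cast_nonneg d
  have hL : 0 ≤ Lcl 1 d := by
    unfold Lcl
    have h2 : 0 < Gamma (1 + 1 : ℝ) := Real.Gamma_pos_of_pos (by norm_num)
    have h3 : 0 < Gamma (1 + 1 + (d : ℝ) / 2) := Real.Gamma_pos_of_pos (by linarith)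
    positivity
  rw [cc_Lcl]
  calc √π / 2 * (Gamma (2 + (d : ℝ) / 2) / Gamma (((d : ℝ) + 5) / 2)) * Lcl 1 d *
        (1 + y) ^ (((d : ℝ) + 3) / 2) *
      (83 / 100 + 52605 / 10000 / π ^ 2 * (y * (1 + y) / (1 + 3 * y))) =
      Lcl 1 d * (√π / 2 * (Gamma (2 + (d : ℝ) / 2) / Gamma (((d : ℝ) + 5) / 2)) *
        (1 + y) ^ (((d : ℝ) + 3) / 2) *
      (83 / 100 + 52605 / 10000 / π ^ 2 * (y * (1 + y) / (1 + 3 * y)))) := by ring
    _ ≤ _ := mul_le_mul_of_nonneg_left h1 hL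

end Pool.Agent.Helper961_mbly
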