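import Mathlib
import Pool.Agent.Helper766.M.Defs
import Pool.Agent.Helper961_mbly.Red
import Pool.Agent.Helper961_mbly.W
import Pool.Agent.Helper961_mbly.Fin
import Pool.Agent.Helper961_mbly.LowA
import Pool.Agent.Helper961_mbly.LowB
import Pool.Agent.Helper961_mbly.LowC
import Pool.Agent.Helper961_mbly.Num3

set_option autoImplicit false

open MeasureTheory Set Real Matrix
open scoped ENNReal ComplexOrder

namespace Pool.Agent.Helper961_mbly

open Pool.Agent.Helper766.M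

theorem cc_pos (d : ℕ) : 0 < cc d := by
  unfold cc
  have hd : (0 : ℝ) ≤ d := Nat.cast_nonneg d
  have h1 : 0 < Gamma (5 / 2 : ℝ) := Real.Gamma_pos_of_pos (by norm_num)
  have h2 : 0 < Gamma (((d : ℝ) + 5) / 2) := Real.Gamma_pos_of_pos (by linarith)
  have h3 : (0 : ℝ) < (4 * π) ^ ((d : ℝ) / 2) := Real.rpow_pos_of_pos (by positivity) _
  positivity

theorem Lcl_nonneg (d : ℕ) : 0 ≤ Lcl 1 d := by
  have hd' : (0 : ℝ) ≤ d := Nat.cast_nonneg d
  unfold Lcl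
  have h2 : 0 < Gamma (1 + 1 : ℝ) := Real.Gamma_pos_of_pos (by norm_num)
  have h3 : 0 < Gamma (1 + 1 + (d : ℝ) / 2) := Real.Gamma_pos_of_pos (by linarith)
  positivity

/-- The improved right side against the classical one. -/
theorem KK_num {d : ℕ} (hd : 2 ≤ d) {V I : ℝ≥0∞} {Λ : ℝ} (hΛ : 0 < Λ)
    (hI : ENNReal.ofReal Λ * I ≤ 900 * V) {y : ℝ} (hy : y = 1 / ((d : ℝ) + 2)) :
    ENNReal.ofReal (83 / 100 * cc d) * V * ENNReal.ofReal (Λ * (1 + y)) ^ (((d : ℝ) + 3) / 2) +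
      ENNReal.ofReal (14 * (835 / 1000000) / π * cc (d + 2)) * I *
        ENNReal.ofReal (Λ * (1 + y)) ^ (((d : ℝ) + 5) / 2) ≤
      ENNReal.ofReal (√(3 * y) * √Λ) * (ENNReal.ofReal (Lcl 1 d) * V *
        ENNReal.ofReal Λ ^ (1 + (d : ℝ) / 2)) := by
  have hpi := Real.pi_pos
  have hfin := num_final hd hy
  have hd0 : (0 : ℝ) ≤ d := Nat.cast_nonneg d
  have hy0 : 0 < y := by rw [hy]; positivity
  have hcc := cc_pos d
  have hcc2 := cc_pos (d + 2)
  have e1 : ENNReal.ofReal (Λ * (1 + y)) = ENNReal.ofReal Λ * ENNReal.ofReal (1 + y) :=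
    ENNReal.ofReal_mul hΛ.le
  have e2 : ENNReal.ofReal (Λ * (1 + y)) ^ (((d : ℝ) + 5) / 2) =
      ENNReal.ofReal (Λ * (1 + y)) ^ (((d : ℝ) + 3) / 2) *
        (ENNReal.ofReal Λ * ENNReal.ofReal (1 + y)) := by
    rw [← e1, show ((d : ℝ) + 5) / 2 = ((d : ℝ) + 3) / 2 + 1 by ring,
      ENNReal.rpow_add_of_nonneg _ _ (by positivity) (by norm_num), ENNReal.rpow_one]
  have e3 : ENNReal.ofReal (Λ * (1 + y)) ^ (((d : ℝ) + 3) / 2) =
      ENNReal.ofReal ((1 + y) ^ (((d : ℝ) + 3) / 2) * √Λ) *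
        ENNReal.ofReal Λ ^ (1 + (d : ℝ) / 2) := by
    rw [e1, ENNReal.mul_rpow_of_nonneg _ _ (by positivity), ENNReal.ofReal_rpow_of_nonneg
      (by positivity : (0 : ℝ) ≤ 1 + y) (by positivity), ENNReal.ofReal_mul (by positivity),
      show ((d : ℝ) + 3) / 2 = (1 + (d : ℝ) / 2) + 1 / 2 by ring,
      ENNReal.rpow_add_of_nonneg (x := ENNReal.ofReal Λ) _ _ (by positivity) (by norm_num),
      ENNReal.ofReal_rpow_of_nonneg hΛ.le (by norm_num : (0 : ℝ) ≤ 1 / 2), ← Real.sqrt_eq_rpow]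
    ring
  obtain ⟨β, hβ⟩ : ∃ β : ℝ, β = 14 * (835 / 1000000) / π := ⟨_, rfl⟩
  have hβ0 : 0 ≤ β := by rw [hβ]; positivity
  rw [← hβ, e2]
  obtain ⟨S, hS⟩ : ∃ S : ℝ≥0∞, S = ENNReal.ofReal (Λ * (1 + y)) ^ (((d : ℝ) + 3) / 2) := ⟨_, rfl⟩
  rw [← hS]
  have h1 : ENNReal.ofReal (β * cc (d + 2)) * I *
      (S * (ENNReal.ofReal Λ * ENNReal.ofReal (1 + y))) ≤
      ENNReal.ofReal (β * cc (d + 2) * (900 * (1 + y))) * V * S := by
    calc ENNReal.ofReal (β * cc (d + 2)) * I * (S * (ENNReal.ofReal Λ * ENNReal.ofReal (1 + y)))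
        = ENNReal.ofReal (β * cc (d + 2)) * (ENNReal.ofReal Λ * I) *
          (S * ENNReal.ofReal (1 + y)) := by ring
      _ ≤ ENNReal.ofReal (β * cc (d + 2)) * (900 * V) * (S * ENNReal.ofReal (1 + y)) := by
        gcongr
      _ = ENNReal.ofReal (β * cc (d + 2) * (900 * (1 + y))) * V * S := by
        rw [ENNReal.ofReal_mul (p := β * cc (d + 2)) (by positivity),
          ENNReal.ofReal_mul (p := (900 : ℝ)) (by norm_num)]
        have : ENNReal.ofReal (900 : ℝ) = 900 := by norm_num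
        rw [this]
        ring
  have h2 : 83 / 100 * cc d + β * cc (d + 2) * (900 * (1 + y)) =
      cc d * (83 / 100 + 52605 / 10000 / π ^ 2 * (y * (1 + y) / (1 + 3 * y))) := by
    have h3 : (1 : ℝ) / ((d : ℝ) + 5) = y / (1 + 3 * y) := by
      rw [hy]
      field_simp
      ring
    rw [cc_succ_succ, hβ]
    have h4 : (1 : ℝ) / (2 * π * ((d : ℝ) + 5)) = 1 / (2 * π) * (y / (1 + 3 * y)) := by
      rw [← h3]
      field_simp
    rw [h4]
    have h5 : (1 + 3 * y) ≠ 0 := by positivity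
    field_simp
    ring
  calc ENNReal.ofReal (83 / 100 * cc d) * V * S +
        ENNReal.ofReal (β * cc (d + 2)) * I *
          (S * (ENNReal.ofReal Λ * ENNReal.ofReal (1 + y)))
      ≤ ENNReal.ofReal (83 / 100 * cc d) * V * S +
        ENNReal.ofReal (β * cc (d + 2) * (900 * (1 + y))) * V * S := by gcongr
    _ = ENNReal.ofReal (cc d * (83 / 100 + 52605 / 10000 / π ^ 2 * (y * (1 + y) / (1 + 3 * y)))) *
          V * S := by
      rw [← h2, ENNReal.ofReal_add (by positivity) (by positivity)]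
      ring
    _ = ENNReal.ofReal (cc d * (1 + y) ^ (((d : ℝ) + 3) / 2) *
        (83 / 100 + 52605 / 10000 / π ^ 2 * (y * (1 + y) / (1 + 3 * y))) * √Λ) *
          (V * ENNReal.ofReal Λ ^ (1 + (d : ℝ) / 2)) := by
      rw [hS, e3]
      have : cc d * (1 + y) ^ (((d : ℝ) + 3) / 2) *
        (83 / 100 + 52605 / 10000 / π ^ 2 * (y * (1 + y) / (1 + 3 * y))) * √Λ =
        cc d * (83 / 100 + 52605 / 10000 / π ^ 2 * (y * (1 + y) / (1 + 3 * y))) *
          ((1 + y) ^ (((d : ℝ) + 3) / 2) * √Λ) := by ring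
      rw [this, ENNReal.ofReal_mul (p := cc d * (83 / 100 + 52605 / 10000 / π ^ 2 *
        (y * (1 + y) / (1 + 3 * y)))) (by positivity)]
      ring
    _ ≤ ENNReal.ofReal (Lcl 1 d * √(3 * y) * √Λ) *
          (V * ENNReal.ofReal Λ ^ (1 + (d : ℝ) / 2)) := by
      gcongr
    _ = _ := by
      rw [show Lcl 1 d * √(3 * y) * √Λ = (√(3 * y) * √Λ) * Lcl 1 d by ring,
        ENNReal.ofReal_mul (p := √(3 * y) * √Λ) (by positivity)]
      ring

theorem KK_le {n : ℕ} {Ω : Set (Fin (n + 2) → ℝ)} {Λ : ℝ} (hΛ : 0 < Λ)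
    (hI : ENNReal.ofReal Λ * I2 Ω ≤ 900 * volume Ω) {y : ℝ} (hy : y = 1 / (((n + 2 : ℕ) : ℝ) + 2)) :
    KK (83 / 100) (14 * (835 / 1000000) / π) (n + 2) Ω (Λ * (1 + y)) ≤
      ENNReal.ofReal (√(3 * y) * √Λ) * (ENNReal.ofReal (Lcl 1 (n + 2)) * volume Ω *
        ENNReal.ofReal Λ ^ (1 + ((n + 2 : ℕ) : ℝ) / 2)) :=
  KK_num (d := n + 2) (by omega) hΛ hI hy

/-- Scaling of a family. -/
theorem scale_fam {n N : ℕ} {Ω : Set (Fin n → ℝ)} {w : Fin N → (Fin n → ℝ) → ℂ} (hw : Adm Ω w)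
    (A : (Fin n → ℝ) → (Fin n → ℝ)) {a : ℝ} (ha : 0 ≤ a) :
    Adm Ω (fun i x => ((√a : ℝ) : ℂ) * w i x) ∧
    Tmag A (fun i x => ((√a : ℝ) : ℂ) * w i x) = ENNReal.ofReal a * Tmag A w ∧
    Gram (fun i x => ((√a : ℝ) : ℂ) * w i x) = ((a : ℝ) : ℂ) • Gram w ∧
    ∑ i, ∫⁻ x, ‖((√a : ℝ) : ℂ) * w i x‖ₑ ^ 2 = ENNReal.ofReal a * ∑ i, ∫⁻ x, ‖w i x‖ₑ ^ 2 := by
  obtain ⟨s, hs⟩ : ∃ s : ℝ, s = √a := ⟨_, rfl⟩
  rw [← hs]
  have hs0 : 0 ≤ s := by rw [hs]; exact Real.sqrt_nonneg a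
  have hss : s * s = a := by rw [hs]; exact Real.mul_self_sqrt ha
  have hen : ‖(s : ℂ)‖ₑ ^ 2 = ENNReal.ofReal a := by
    rw [← ofReal_norm, Complex.norm_real, Real.norm_eq_abs, abs_of_nonneg hs0,
      ← ENNReal.ofReal_pow hs0, pow_two, hss]
  have hat : ENNReal.ofReal a ≠ ⊤ := ENNReal.ofReal_ne_top
  refine ⟨⟨fun i => contDiff_const.mul (hw.smooth i),
    fun i => (hw.cpt i).mul_left (f := fun _ => (s : ℂ)), fun i => ?_⟩, ?_, ?_, ?_⟩
  · exact (tsupport_mul_subset_right (f := fun _ => (s : ℂ)) (g := w i)).trans (hw.supp i)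
  · have heT : ∀ i x, eT A (fun x => (s : ℂ) * w i x) x = ENNReal.ofReal a * eT A (w i) x := by
      intro i x
      unfold eT
      rw [Finset.mul_sum]
      refine Finset.sum_congr rfl fun j _ => ?_
      have hd : DifferentiableAt ℝ (w i) x := ((hw.smooth i).differentiable one_ne_zero) x
      have hf : fderiv ℝ (fun x => (s : ℂ) * w i x) x (Pi.single j 1) =
          (s : ℂ) * fderiv ℝ (w i) x (Pi.single j 1) := by
        rw [(hd.hasFDerivAt.const_mul (s : ℂ)).fderiv]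
        rfl
      rw [hf]
      have he : (s : ℂ) * fderiv ℝ (w i) x (Pi.single j 1) -
          Complex.I * ((A x j : ℝ) : ℂ) * ((s : ℂ) * w i x) =
          (s : ℂ) * (fderiv ℝ (w i) x (Pi.single j 1) -
            Complex.I * ((A x j : ℝ) : ℂ) * w i x) := by ring
      rw [he, enorm_mul, mul_pow, hen]
    unfold Tmag
    rw [Finset.mul_sum]
    refine Finset.sum_congr rfl fun i _ => ?_
    simp only [heT]
    rw [lintegral_const_mul' _ _ hat]
  · ext i j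
    simp only [Gram, Matrix.of_apply, Matrix.smul_apply, smul_eq_mul]
    rw [← integral_const_mul]
    congr 1
    funext x
    rw [map_mul, Complex.conj_ofReal, ← hss]
    push_cast
    ring
  · rw [Finset.mul_sum]
    refine Finset.sum_congr rfl fun i _ => ?_
    rw [← lintegral_const_mul' _ _ hat]
    refine lintegral_congr fun x => ?_
    rw [enorm_mul, mul_pow, hen]

/-- The bound for orthonormal families and continuous potentials. -/
theorem fam_cont {n N : ℕ} {Ω : Set (Fin (n + 2) → ℝ)} (hΩ : IsOpen Ω)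
    {A : (Fin (n + 2) → ℝ) → (Fin (n + 2) → ℝ)} (hA : Continuous A)
    {u : Fin N → (Fin (n + 2) → ℝ) → ℂ} (hu : Adm Ω u) (hG : Gram u = 1) {Λ : ℝ} (hΛ : 0 < Λ)
    (hI : ENNReal.ofReal Λ * I2 Ω ≤ 900 * volume Ω) :
    (N : ℝ≥0∞) * ENNReal.ofReal Λ ≤ Tmag A u +
      ENNReal.ofReal (Lcl 1 (n + 2)) * volume Ω *
        ENNReal.ofReal Λ ^ (1 + ((n + 2 : ℕ) : ℝ) / 2) := by
  have hpi := Real.pi_pos
  obtain ⟨y, hy⟩ : ∃ y : ℝ, y = 1 / (((n + 2 : ℕ) : ℝ) + 2) := ⟨_, rfl⟩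
  have hy0 : 0 < y := by rw [hy]; positivity
  obtain ⟨b, hb⟩ : ∃ b : ℝ, b = √(3 * y) * √Λ := ⟨_, rfl⟩
  have hb0 : 0 < b := by
    rw [hb]
    exact mul_pos (Real.sqrt_pos.2 (by positivity)) (Real.sqrt_pos.2 hΛ)
  have hbb : b ^ 2 = 3 * y * Λ := by
    rw [hb, mul_pow, Real.sq_sqrt (by positivity), Real.sq_sqrt hΛ.le]
  obtain ⟨h1, h2, h3, h4⟩ := scale_fam hu A hb0.le
  rw [gram_one hu hG] at h4
  rw [hG] at h3
  have h5 := PS_all (α := 83 / 100) (β := 14 * (835 / 1000000) / π) (by norm_num) (by positivity)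
    PS'_base n N _ Ω A (Λ * (1 + y)) h1 hΩ hA (by positivity)
  rw [h2, h3, h4] at h5
  have h6 : 1 / 3 * (((b : ℝ) : ℂ) • (1 : CM N) * ((b : ℝ) : ℂ) • (1 : CM N) *
      ((b : ℝ) : ℂ) • (1 : CM N)).trace.re = b * (Λ * y * N) := by
    rw [smul_mul_smul_comm, smul_mul_smul_comm, Matrix.trace_smul]
    simp only [mul_one, Matrix.trace_one, Fintype.card_fin, smul_eq_mul]
    have h7 : (((b : ℝ) : ℂ) * ((b : ℝ) : ℂ) * ((b : ℝ) : ℂ) * (N : ℂ)).re = b * b * b * N := by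
      norm_cast
    rw [h7]
    have h8 : b * b * b * (N : ℝ) = b * (b ^ 2) * N := by ring
    rw [h8, hbb]
    ring
  rw [h6] at h5
  have h7 := h5.trans (add_le_add_right (KK_le hΛ hI hy) _)
  rw [← hb, ENNReal.ofReal_mul hb0.le, ← mul_add, ← mul_add] at h7
  have h8 : ENNReal.ofReal (Λ * (1 + y)) * (ENNReal.ofReal b * (N : ℝ≥0∞)) =
      ENNReal.ofReal b * ((N : ℝ≥0∞) * ENNReal.ofReal Λ + ENNReal.ofReal (Λ * y * N)) := by
    rw [show Λ * (1 + y) = Λ + Λ * y by ring, ENNReal.ofReal_add hΛ.le (by positivity),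
      ENNReal.ofReal_mul (p := Λ * y) (by positivity), ENNReal.ofReal_natCast]
    ring
  rw [h8] at h7
  have h9 : ENNReal.ofReal b ≠ 0 := by
    rw [Ne, ENNReal.ofReal_eq_zero, not_le]
    exact hb0
  have h10 := (ENNReal.mul_le_mul_iff_right h9 ENNReal.ofReal_ne_top).1 h7
  rw [add_right_comm] at h10
  exact (ENNReal.add_le_add_iff_right ENNReal.ofReal_ne_top).1 h10

end Pool.Agent.Helper961_mbly
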