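import Mathlib
import Pool.Agent.Helper766.M.Defs
import Pool.Agent.Helper961_mbly.Red
import Pool.Agent.Helper961_mbly.Rot
import Pool.Agent.Helper961_mbly.Fin
import Pool.Agent.Helper961_mbly.LowA
import Pool.Agent.Helper961_mbly.LowD
import Pool.Agent.Helper961_mbly.Appr

set_option autoImplicit false

open MeasureTheory Set Real Matrix
open scoped ENNReal ComplexOrder

namespace Pool.Agent.Helper961_mbly

open Pool.Agent.Helper766.M

/-- The length of the section of `Ω` through `x` in the direction `e`. -/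
noncomputable def chord {n : ℕ} (Ω : Set (Fin n → ℝ)) (e x : Fin n → ℝ) : ℝ≥0∞ :=
  volume {s : ℝ | x + s • e ∈ Ω}

theorem len_rot {n : ℕ} {R : Matrix (Fin (n + 1)) (Fin (n + 1)) ℝ} {e : Fin (n + 1) → ℝ}
    (hR : R * Rᵀ = 1) (hRe : ∀ x, ∑ i, e i * (R *ᵥ x) i = x (Fin.last n))
    (Ω : Set (Fin (n + 1) → ℝ)) (x : Fin (n + 1) → ℝ) :
    len ((fun x => R *ᵥ x) ⁻¹' Ω) x = chord Ω e (R *ᵥ x) := by
  have hR' : Rᵀ * R = 1 := mul_eq_one_comm.1 hR
  have h1 : R *ᵥ (Pi.single (Fin.last n) 1) = e := by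
    have h2 : Rᵀ *ᵥ e = Pi.single (Fin.last n) 1 := by
      funext j
      have h3 := hRe (Pi.single j 1)
      have h4 : ∀ i, (R *ᵥ (Pi.single j 1 : Fin (n + 1) → ℝ)) i = R i j := fun i => by
        rw [Matrix.mulVec_single_one]
        rfl
      simp only [h4] at h3
      have h5 : (Rᵀ *ᵥ e) j = ∑ i, e i * R i j := by
        simp only [mulVec, dotProduct, Matrix.transpose_apply]
        exact Finset.sum_congr rfl fun i _ => mul_comm _ _
      rw [h5, h3, Pi.single_apply, Pi.single_apply]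
      simp only [eq_comm]
    rw [← h2, Matrix.mulVec_mulVec, hR, Matrix.one_mulVec]
  unfold len chord
  have h2 : {s : ℝ | Function.update x (Fin.last n) s ∈ (fun x => R *ᵥ x) ⁻¹' Ω} =
      (fun s => s + -(x (Fin.last n))) ⁻¹' {s : ℝ | R *ᵥ x + s • e ∈ Ω} := by
    ext s
    simp only [mem_setOf_eq, mem_preimage]
    have h3 : Function.update x (Fin.last n) s =
        x + (s + -(x (Fin.last n))) • (Pi.single (Fin.last n) 1 : Fin (n + 1) → ℝ) := by
      funext i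
      by_cases hi : i = Fin.last n
      · subst hi
        simp
      · simp [hi]
    rw [h3, Matrix.mulVec_add, Matrix.mulVec_smul, h1]
  rw [h2, measure_preimage_add_right]

theorem I2_rot {n : ℕ} {R : Matrix (Fin (n + 1)) (Fin (n + 1)) ℝ} {e : Fin (n + 1) → ℝ}
    (hR : R * Rᵀ = 1) (hRe : ∀ x, ∑ i, e i * (R *ᵥ x) i = x (Fin.last n))
    {Ω : Set (Fin (n + 1) → ℝ)} (hΩ : MeasurableSet Ω) :
    I2 ((fun x => R *ᵥ x) ⁻¹' Ω) = ∫⁻ x in Ω, chord Ω e x ^ 2 := by
  have hemb := rot_emb hR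
  have hmp := rot_mp hR
  unfold I2
  have h1 : MeasurableSet ((fun x => R *ᵥ x) ⁻¹' Ω) := (rot_cont R).measurable hΩ
  rw [← lintegral_indicator h1, ← lintegral_indicator hΩ]
  rw [← hmp.lintegral_comp_emb hemb.measurableEmbedding fun y => Ω.indicator
    (fun x => chord Ω e x ^ 2) y]
  refine lintegral_congr fun x => ?_
  by_cases hx : R *ᵥ x ∈ Ω
  · have hx' : x ∈ (fun x => R *ᵥ x) ⁻¹' Ω := hx
    rw [indicator_of_mem hx, indicator_of_mem hx', len_rot hR hRe]
  · have hx' : x ∉ (fun x => R *ᵥ x) ⁻¹' Ω := hx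
    rw [indicator_of_notMem hx, indicator_of_notMem hx']

/-- The bound for orthonormal families: arbitrary potentials, low energies. -/
theorem fam_low {n N : ℕ} (hn : 2 ≤ n) {Ω : Set (Fin n → ℝ)} (hΩ : IsOpen Ω)
    {A : (Fin n → ℝ) → (Fin n → ℝ)} (hA : Measurable A)
    (hA2 : LocallyIntegrableOn (fun x => ∑ j : Fin n, (A x j) ^ 2) Ω)
    {e : Fin n → ℝ} (he : ∑ i, e i ^ 2 = 1) {Λ : ℝ} (hΛ : 0 < Λ)
    (hI : ENNReal.ofReal Λ * ∫⁻ x in Ω, chord Ω e x ^ 2 ≤ 900 * volume Ω)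
    {u : Fin N → (Fin n → ℝ) → ℂ} (hu : Adm Ω u) (hG : Gram u = 1) :
    (N : ℝ≥0∞) * ENNReal.ofReal Λ ≤ Tmag A u +
      ENNReal.ofReal (Lcl 1 n) * volume Ω * ENNReal.ofReal Λ ^ (1 + (n : ℝ) / 2) := by
  obtain ⟨m, rfl⟩ : ∃ m, n = m + 2 := ⟨n - 2, by omega⟩
  refine approx hA hA2 hu fun A' hA' => ?_
  obtain ⟨R, hR, hRe⟩ := exists_rot e he
  have hR' : Rᵀ * R = 1 := mul_eq_one_comm.1 hR
  have hemb := rot_emb hR
  have hmp := rot_mp hR
  have hsm : ContDiff ℝ 1 fun x : Fin (m + 2) → ℝ => R *ᵥ x :=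
    (LinearMap.toContinuousLinearMap (Matrix.toLin' R)).contDiff
  have hadm : Adm ((fun x => R *ᵥ x) ⁻¹' Ω) fun j x => u j (R *ᵥ x) := by
    refine ⟨fun j => (hu.smooth j).comp hsm, fun j => (hu.cpt j).comp_isClosedEmbedding hemb,
      fun j => ?_⟩
    refine (tsupport_comp_subset_preimage (u j) (rot_cont R)).trans ?_
    exact preimage_mono (hu.supp j)
  have hΩ' : IsOpen ((fun x => R *ᵥ x) ⁻¹' Ω) := hΩ.preimage (rot_cont R)
  have hvol : volume ((fun x => R *ᵥ x) ⁻¹' Ω) = volume Ω :=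
    hmp.measure_preimage hΩ.measurableSet.nullMeasurableSet
  have hG' : Gram (fun j x => u j (R *ᵥ x)) = 1 := by
    rw [← hG]
    ext i j
    simp only [Gram, Matrix.of_apply]
    exact hmp.integral_comp hemb.measurableEmbedding fun y => u i y * starRingEnd ℂ (u j y)
  have hAc : Continuous fun x : Fin (m + 2) → ℝ => fun l => ∑ k, R k l * A' (R *ᵥ x) k := by
    refine continuous_pi fun l => ?_
    refine continuous_finset_sum _ fun k _ => ?_
    exact continuous_const.mul ((continuous_apply k).comp (hA'.comp (rot_cont R)))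
  have hT : Tmag (fun x l => ∑ k, R k l * A' (R *ᵥ x) k) (fun j x => u j (R *ᵥ x)) =
      Tmag A' u := by
    unfold Tmag
    refine Finset.sum_congr rfl fun j _ => ?_
    simp only [rot_eT hR A' ((hu.smooth j).differentiable (by norm_num))]
    exact hmp.lintegral_comp_emb hemb.measurableEmbedding fun y => eT A' (u j) y
  have hI' : ENNReal.ofReal Λ * I2 ((fun x => R *ᵥ x) ⁻¹' Ω) ≤
      900 * volume ((fun x => R *ᵥ x) ⁻¹' Ω) := by
    rw [I2_rot hR hRe hΩ.measurableSet, hvol]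
    exact hI
  have h1 := fam_cont hΩ' hAc hadm hG' hΛ hI'
  rw [hT, hvol] at h1
  exact h1

end Pool.Agent.Helper961_mbly
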