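import Mathlib
import Pool.Agent.Helper766.M.Defs
import Pool.Agent.Helper961_mbly.LowE

set_option autoImplicit false

open MeasureTheory Set Real
open scoped ENNReal

namespace Pool.Agent.Helper961_mbly

/-- The one-dimensional bathtub principle for powers. -/
theorem bath {T : Set ℝ} (hT : MeasurableSet T) {k : ℕ} {c : ℝ} (hc : 0 ≤ c)
    (hT0 : T ⊆ Ioi 0) (hcT : ENNReal.ofReal c ≤ volume T) :
    ENNReal.ofReal (c ^ (k + 1) / (k + 1)) ≤ ∫⁻ s in T, ENNReal.ofReal (s ^ k) := by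
  obtain ⟨I, hI⟩ : ∃ I : Set ℝ, I = Ioc 0 c := ⟨_, rfl⟩
  have hIm : MeasurableSet I := by rw [hI]; exact measurableSet_Ioc
  have hvI : volume I = ENNReal.ofReal c := by rw [hI, Real.volume_Ioc, sub_zero]
  have h1 : ENNReal.ofReal (c ^ (k + 1) / (k + 1)) = ∫⁻ s in I, ENNReal.ofReal (s ^ k) := by
    rw [hI, ← ofReal_integral_eq_lintegral_ofReal (intervalIntegral.intervalIntegrable_pow _).1,
      ← intervalIntegral.integral_of_le hc]
    · simp
    · filter_upwards [ae_restrict_mem measurableSet_Ioc] with y hy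
      exact pow_nonneg hy.1.le _
  have h2 : volume (I \ T) ≤ volume (T \ I) := by
    have e1 : volume (I ∩ T) + volume (I \ T) = volume I := measure_inter_add_sdiff I hT
    have e2 : volume (T ∩ I) + volume (T \ I) = volume T := measure_inter_add_sdiff T hIm
    have e3 : volume (I ∩ T) ≠ ⊤ := by
      refine ne_top_of_le_ne_top (b := volume I) ?_ (measure_mono inter_subset_left)
      rw [hvI]
      exact ENNReal.ofReal_ne_top
    rw [inter_comm T I] at e2
    have e4 : volume (I ∩ T) + volume (I \ T) ≤ volume (I ∩ T) + volume (T \ I) := by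
      rw [e1, e2, hvI]
      exact hcT
    exact (ENNReal.add_le_add_iff_left e3).1 e4
  rw [h1, ← lintegral_inter_add_sdiff _ I hT, ← lintegral_inter_add_sdiff _ T hIm, inter_comm T I]
  refine add_le_add le_rfl ?_
  calc ∫⁻ s in I \ T, ENNReal.ofReal (s ^ k)
      ≤ ∫⁻ s in I \ T, ENNReal.ofReal (c ^ k) := by
        refine setLIntegral_mono measurable_const fun s hs => ?_
        have h3 := hs.1
        rw [hI] at h3
        exact ENNReal.ofReal_le_ofReal (pow_le_pow_left₀ h3.1.le h3.2 k)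
    _ = ENNReal.ofReal (c ^ k) * volume (I \ T) := by rw [setLIntegral_const]
    _ ≤ ENNReal.ofReal (c ^ k) * volume (T \ I) := by gcongr
    _ = ∫⁻ s in T \ I, ENNReal.ofReal (c ^ k) := by rw [setLIntegral_const]
    _ ≤ ∫⁻ s in T \ I, ENNReal.ofReal (s ^ k) := by
        refine setLIntegral_mono (by fun_prop) fun s hs => ?_
        refine ENNReal.ofReal_le_ofReal (pow_le_pow_left₀ hc ?_ k)
        by_contra h3
        refine hs.2 ?_
        rw [hI]
        exact ⟨hT0 hs.1, (not_le.1 h3).le⟩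

/-- The squared length against the moment. -/
theorem pt {T : Set ℝ} (hT : MeasurableSet T) (hT0 : T ⊆ Ioi 0) {m : ℕ} {ρ : ℝ} (hρ : 0 < ρ) :
    volume T ^ 2 ≤ ENNReal.ofReal ((1 - 2 / ((m : ℝ) + 2)) * ρ ^ 2) +
      ENNReal.ofReal (2 / ρ ^ m) * ∫⁻ s in T, ENNReal.ofReal (s ^ (m + 1)) := by
  have hm : (0 : ℝ) ≤ m := Nat.cast_nonneg m
  obtain ⟨J, hJ⟩ : ∃ J : ℝ≥0∞, J = ∫⁻ s in T, ENNReal.ofReal (s ^ (m + 1)) := ⟨_, rfl⟩
  rw [← hJ]
  have hb : ∀ c : ℝ, 0 ≤ c → ENNReal.ofReal c ≤ volume T →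
      ENNReal.ofReal (c ^ (m + 2) / ((m : ℝ) + 2)) ≤ J := by
    intro c hc hcT
    have := bath (k := m + 1) hT hc hT0 hcT
    rw [hJ]
    refine le_trans (le_of_eq ?_) this
    congr 1
    push_cast
    ring
  by_cases hJt : J = ⊤
  · rw [hJt, ENNReal.mul_top]
    · simp
    · rw [Ne, ENNReal.ofReal_eq_zero, not_le]
      positivity
  have hTt : volume T ≠ ⊤ := by
    intro h
    obtain ⟨c, hc⟩ : ∃ c : ℝ, c = (J.toReal + 1) * ((m : ℝ) + 2) + 1 := ⟨_, rfl⟩
    have hJ0 : 0 ≤ J.toReal := ENNReal.toReal_nonneg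
    have hc1 : 1 ≤ c := by
      rw [hc]
      have : 0 ≤ (J.toReal + 1) * ((m : ℝ) + 2) := by positivity
      linarith
    have h1 := hb c (by linarith) (by rw [h]; exact le_top)
    have h2 := (ENNReal.ofReal_le_iff_le_toReal hJt).1 h1
    rw [div_le_iff₀ (by positivity)] at h2
    have h3 : c ≤ c ^ (m + 2) := by
      calc c = c ^ 1 := (pow_one c).symm
        _ ≤ c ^ (m + 2) := pow_le_pow_right₀ hc1 (by omega)
    nlinarith
  obtain ⟨r, hr⟩ : ∃ r : ℝ, r = (volume T).toReal := ⟨_, rfl⟩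
  have hr0 : 0 ≤ r := by rw [hr]; exact ENNReal.toReal_nonneg
  have hrT : ENNReal.ofReal r = volume T := by rw [hr]; exact ENNReal.ofReal_toReal hTt
  have h1 := hb r hr0 hrT.le
  rw [← hrT, ← ENNReal.ofReal_pow hr0]
  have h2 : r ^ 2 ≤ (1 - 2 / ((m : ℝ) + 2)) * ρ ^ 2 + 2 / ρ ^ m * (r ^ (m + 2) / ((m : ℝ) + 2)) := by
    obtain ⟨t, ht⟩ : ∃ t : ℝ, t = r / ρ := ⟨_, rfl⟩
    have ht0 : 0 ≤ t := by rw [ht]; positivity
    have hrt : r = t * ρ := by
      rw [ht]
      field_simp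
    have h3 : 1 + (((m : ℝ) + 2) / 2) * (t ^ 2 - 1) ≤ t ^ (m + 2) := by
      have h4 := one_add_mul_self_le_rpow_one_add (s := t ^ 2 - 1) (by nlinarith [sq_nonneg t])
        (p := ((m : ℝ) + 2) / 2) (by linarith)
      have h5 : (1 + (t ^ 2 - 1)) ^ (((m : ℝ) + 2) / 2) = t ^ (m + 2) := by
        rw [show 1 + (t ^ 2 - 1) = t ^ 2 by ring, ← Real.rpow_natCast, ← Real.rpow_mul ht0,
          ← Real.rpow_natCast]
        congr 1
        push_cast
        ring
      rw [h5] at h4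
      exact h4
    have h6 : t ^ 2 ≤ (1 - 2 / ((m : ℝ) + 2)) + 2 / ((m : ℝ) + 2) * t ^ (m + 2) := by
      have h7 := mul_le_mul_of_nonneg_left h3 (by positivity : 0 ≤ 2 / ((m : ℝ) + 2))
      have h8 : 2 / ((m : ℝ) + 2) * (1 + (((m : ℝ) + 2) / 2) * (t ^ 2 - 1)) =
          2 / ((m : ℝ) + 2) + (t ^ 2 - 1) := by
        field_simp
      linarith
    have h9 := mul_le_mul_of_nonneg_right h6 (by positivity : 0 ≤ ρ ^ 2)
    rw [hrt]
    refine le_trans (le_of_eq (by ring)) (h9.trans (le_of_eq ?_))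
    field_simp
    ring
  refine (ENNReal.ofReal_le_ofReal h2).trans ?_
  have h3 : 2 / ((m : ℝ) + 2) ≤ 1 := by
    rw [div_le_one (by positivity)]
    linarith
  rw [ENNReal.ofReal_add (mul_nonneg (by linarith) (by positivity)) (by positivity),
    ENNReal.ofReal_mul (p := 2 / ρ ^ m) (by positivity)]
  gcongr

/-- Polar coordinates. -/
theorem polar {m : ℕ} {F : (Fin (m + 2) → ℝ) → ℝ≥0∞} (hF : Measurable F) :
    ∫⁻ e : Metric.sphere (0 : EuclideanSpace ℝ (Fin (m + 2))) 1,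
      (∫⁻ s in Ioi (0 : ℝ), ENNReal.ofReal (s ^ (m + 1)) *
        F (s • WithLp.ofLp (e : EuclideanSpace ℝ (Fin (m + 2)))))
          ∂((volume : Measure (EuclideanSpace ℝ (Fin (m + 2)))).toSphere) = ∫⁻ x, F x := by
  obtain ⟨μ, hμ⟩ : ∃ μ : Measure (EuclideanSpace ℝ (Fin (m + 2))), μ = volume := ⟨_, rfl⟩
  have hofm : Measurable fun x : EuclideanSpace ℝ (Fin (m + 2)) => WithLp.ofLp x :=
    (PiLp.volume_preserving_ofLp (Fin (m + 2))).measurable
  have hFo : Measurable fun x : EuclideanSpace ℝ (Fin (m + 2)) => F (WithLp.ofLp x) := hF.comp hofm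
  have h0 : ∫⁻ x, F x = ∫⁻ x : EuclideanSpace ℝ (Fin (m + 2)), F (WithLp.ofLp x) :=
    ((PiLp.volume_preserving_ofLp (Fin (m + 2))).lintegral_comp hF).symm
  have hms : MeasurableSet ({0}ᶜ : Set (EuclideanSpace ℝ (Fin (m + 2)))) :=
    (measurableSet_singleton _).compl
  have h1 : ∫⁻ x : EuclideanSpace ℝ (Fin (m + 2)), F (WithLp.ofLp x) =
      ∫⁻ x : ({0}ᶜ : Set (EuclideanSpace ℝ (Fin (m + 2)))), F (WithLp.ofLp x.1)
        ∂((volume : Measure (EuclideanSpace ℝ (Fin (m + 2)))).comap Subtype.val) := by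
    rw [lintegral_subtype_comap hms fun x => F (WithLp.ofLp x), restrict_compl_singleton]
  have hmp := (volume : Measure (EuclideanSpace ℝ (Fin (m + 2)))).measurePreserving_homeomorphUnitSphereProd
  have h2 : ∫⁻ x : ({0}ᶜ : Set (EuclideanSpace ℝ (Fin (m + 2)))), F (WithLp.ofLp x.1)
        ∂((volume : Measure (EuclideanSpace ℝ (Fin (m + 2)))).comap Subtype.val) = ∫⁻ p : Metric.sphere (0 : EuclideanSpace ℝ (Fin (m + 2))) 1 ×
          Ioi (0 : ℝ), F (WithLp.ofLp (p.2.1 • p.1.1))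
        ∂((volume : Measure (EuclideanSpace ℝ (Fin (m + 2)))).toSphere.prod (Measure.volumeIoiPow
          (Module.finrank ℝ (EuclideanSpace ℝ (Fin (m + 2))) - 1))) := by
    rw [← hmp.lintegral_comp_emb (Homeomorph.measurableEmbedding _)
      fun p => F (WithLp.ofLp (p.2.1 • p.1.1))]
    refine lintegral_congr fun x => ?_
    have h3 := (homeomorphUnitSphereProd (EuclideanSpace ℝ (Fin (m + 2)))).symm_apply_apply x
    have h4 := congrArg Subtype.val h3
    rw [homeomorphUnitSphereProd_symm_apply_coe] at h4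
    rw [h4]
  have hfr : Module.finrank ℝ (EuclideanSpace ℝ (Fin (m + 2))) - 1 = m + 1 := by
    rw [finrank_euclideanSpace, Fintype.card_fin]
    omega
  rw [h0, h1, h2, hfr]
  have hm1 : Measurable fun p : Metric.sphere (0 : EuclideanSpace ℝ (Fin (m + 2))) 1 ×
      Ioi (0 : ℝ) => F (WithLp.ofLp (p.2.1 • p.1.1)) := by
    refine hFo.comp ?_
    exact (measurable_subtype_coe.comp measurable_snd).smul
      (measurable_subtype_coe.comp measurable_fst)
  rw [lintegral_prod _ hm1.aemeasurable]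
  refine lintegral_congr fun e => ?_
  have hm2 : Measurable fun r : Ioi (0 : ℝ) => ENNReal.ofReal (r.1 ^ (m + 1)) :=
    (measurable_subtype_coe.pow_const _).ennreal_ofReal
  have hm3 : Measurable fun r : Ioi (0 : ℝ) => F (WithLp.ofLp (r.1 • e.1)) :=
    hm1.comp measurable_prodMk_left
  unfold Measure.volumeIoiPow
  rw [lintegral_withDensity_eq_lintegral_mul _ hm2 hm3]
  exact (lintegral_subtype_comap measurableSet_Ioi
    fun s => ENNReal.ofReal (s ^ (m + 1)) * F (WithLp.ofLp (s • e.1))).symm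

theorem add_sq_le' (a b : ℝ≥0∞) : (a + b) ^ 2 ≤ 2 * a ^ 2 + 2 * b ^ 2 := by
  rcases eq_or_ne a ⊤ with rfl | ha
  · simp
  rcases eq_or_ne b ⊤ with rfl | hb
  · simp
  lift a to NNReal using ha
  lift b to NNReal using hb
  have h : (a + b) ^ 2 ≤ 2 * a ^ 2 + 2 * b ^ 2 := by
    rw [← NNReal.coe_le_coe]
    push_cast
    nlinarith [sq_nonneg ((a : ℝ) - b)]
  exact_mod_cast h

/-- The section length through the two half lines. -/
theorem chord_le {n : ℕ} {Ω : Set (Fin n → ℝ)} (e x : Fin n → ℝ) :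
    chord Ω e x ≤ volume {s : ℝ | 0 < s ∧ x + s • e ∈ Ω} +
      volume {s : ℝ | 0 < s ∧ x - s • e ∈ Ω} := by
  have h1 : {s : ℝ | x + s • e ∈ Ω} ⊆ ({s : ℝ | 0 < s ∧ x + s • e ∈ Ω} ∪
      (fun s => -s) ⁻¹' {s : ℝ | 0 < s ∧ x - s • e ∈ Ω}) ∪ {0} := by
    intro s hs
    rcases lt_trichotomy s 0 with h | h | h
    · left
      right
      refine ⟨by simpa using h, ?_⟩
      have : x - (-s) • e = x + s • e := by
        rw [neg_smul, sub_neg_eq_add]
      show x - (-s) • e ∈ Ω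
      rw [this]
      exact hs
    · right
      exact h
    · left
      left
      exact ⟨h, hs⟩
  unfold chord
  refine (measure_mono h1).trans ?_
  refine (measure_union_le _ _).trans ?_
  rw [Real.volume_singleton, add_zero]
  refine (measure_union_le _ _).trans ?_
  refine add_le_add le_rfl (le_of_eq ?_)
  exact Measure.measure_preimage_neg volume _

theorem half_meas {n : ℕ} {Ω : Set (Fin n → ℝ)} (hΩ : MeasurableSet Ω) (e x : Fin n → ℝ) :
    MeasurableSet {s : ℝ | 0 < s ∧ x + s • e ∈ Ω} ∧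
      MeasurableSet {s : ℝ | 0 < s ∧ x - s • e ∈ Ω} := by
  have c1 : Continuous fun s : ℝ => x + s • e := by fun_prop
  have c2 : Continuous fun s : ℝ => x - s • e := by fun_prop
  exact ⟨measurableSet_Ioi.inter (c1.measurable hΩ), measurableSet_Ioi.inter (c2.measurable hΩ)⟩

/-- The pointwise bound. -/
theorem chord_pt {m : ℕ} {Ω : Set (Fin (m + 2) → ℝ)} (hΩ : MeasurableSet Ω)
    {ρ : ℝ} (hρ : 0 < ρ) (e x : Fin (m + 2) → ℝ) :
    chord Ω e x ^ 2 ≤ 4 * ENNReal.ofReal ((1 - 2 / ((m : ℝ) + 2)) * ρ ^ 2) +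
      2 * ENNReal.ofReal (2 / ρ ^ m) *
        ((∫⁻ s in Ioi (0 : ℝ), ENNReal.ofReal (s ^ (m + 1)) *
          Ω.indicator (fun _ => 1) (x + s • e)) +
        ∫⁻ s in Ioi (0 : ℝ), ENNReal.ofReal (s ^ (m + 1)) *
          Ω.indicator (fun _ => 1) (x - s • e)) := by
  obtain ⟨m1, m2⟩ := half_meas hΩ e x
  have h1 := pt m1 (fun s hs => hs.1) (m := m) hρ
  have h2 := pt m2 (fun s hs => hs.1) (m := m) hρ
  have e1 : ∫⁻ s in {s : ℝ | 0 < s ∧ x + s • e ∈ Ω}, ENNReal.ofReal (s ^ (m + 1)) =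
      ∫⁻ s in Ioi (0 : ℝ), ENNReal.ofReal (s ^ (m + 1)) * Ω.indicator (fun _ => 1) (x + s • e) := by
    rw [← lintegral_indicator m1, ← lintegral_indicator measurableSet_Ioi]
    refine lintegral_congr fun s => ?_
    by_cases hs : 0 < s
    · rw [indicator_of_mem (s := Ioi (0 : ℝ)) hs]
      by_cases hx : x + s • e ∈ Ω
      · rw [indicator_of_mem (s := Ω) hx, mul_one]
        exact indicator_of_mem (s := {s : ℝ | 0 < s ∧ x + s • e ∈ Ω}) ⟨hs, hx⟩ _
      · rw [indicator_of_notMem (s := Ω) hx, mul_zero]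
        exact indicator_of_notMem (s := {s : ℝ | 0 < s ∧ x + s • e ∈ Ω}) (fun h => hx h.2) _
    · rw [indicator_of_notMem (s := Ioi (0 : ℝ)) hs]
      exact indicator_of_notMem (s := {s : ℝ | 0 < s ∧ x + s • e ∈ Ω}) (fun h => hs h.1) _
  have e2 : ∫⁻ s in {s : ℝ | 0 < s ∧ x - s • e ∈ Ω}, ENNReal.ofReal (s ^ (m + 1)) =
      ∫⁻ s in Ioi (0 : ℝ), ENNReal.ofReal (s ^ (m + 1)) * Ω.indicator (fun _ => 1) (x - s • e) := by
    rw [← lintegral_indicator m2, ← lintegral_indicator measurableSet_Ioi]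
    refine lintegral_congr fun s => ?_
    by_cases hs : 0 < s
    · rw [indicator_of_mem (s := Ioi (0 : ℝ)) hs]
      by_cases hx : x - s • e ∈ Ω
      · rw [indicator_of_mem (s := Ω) hx, mul_one]
        exact indicator_of_mem (s := {s : ℝ | 0 < s ∧ x - s • e ∈ Ω}) ⟨hs, hx⟩ _
      · rw [indicator_of_notMem (s := Ω) hx, mul_zero]
        exact indicator_of_notMem (s := {s : ℝ | 0 < s ∧ x - s • e ∈ Ω}) (fun h => hx h.2) _
    · rw [indicator_of_notMem (s := Ioi (0 : ℝ)) hs]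
      exact indicator_of_notMem (s := {s : ℝ | 0 < s ∧ x - s • e ∈ Ω}) (fun h => hs h.1) _
  rw [e1] at h1
  rw [e2] at h2
  calc chord Ω e x ^ 2 ≤ (volume {s : ℝ | 0 < s ∧ x + s • e ∈ Ω} +
        volume {s : ℝ | 0 < s ∧ x - s • e ∈ Ω}) ^ 2 := by
        gcongr
        exact chord_le e x
    _ ≤ 2 * volume {s : ℝ | 0 < s ∧ x + s • e ∈ Ω} ^ 2 +
        2 * volume {s : ℝ | 0 < s ∧ x - s • e ∈ Ω} ^ 2 := add_sq_le' _ _
    _ ≤ 2 * _ + 2 * _ := add_le_add (mul_le_mul' le_rfl h1) (mul_le_mul' le_rfl h2)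
    _ = _ := by ring

theorem chord_meas {m : ℕ} {Ω : Set (Fin (m + 2) → ℝ)} (hΩ : MeasurableSet Ω) :
    Measurable fun p : Metric.sphere (0 : EuclideanSpace ℝ (Fin (m + 2))) 1 × (Fin (m + 2) → ℝ) =>
      Ω.indicator (fun x => chord Ω (WithLp.ofLp p.1.1) x ^ 2) p.2 := by
  have hofc : Continuous fun x : EuclideanSpace ℝ (Fin (m + 2)) => WithLp.ofLp x := by
    fun_prop
  have c1 : Continuous fun q : (Metric.sphere (0 : EuclideanSpace ℝ (Fin (m + 2))) 1 ×
      (Fin (m + 2) → ℝ)) × ℝ => q.1.2 + q.2 • WithLp.ofLp q.1.1.1 := by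
    refine (continuous_snd.comp continuous_fst).add (continuous_snd.smul ?_)
    exact hofc.comp (continuous_subtype_val.comp (continuous_fst.comp continuous_fst))
  have h1 : Measurable fun p : Metric.sphere (0 : EuclideanSpace ℝ (Fin (m + 2))) 1 ×
      (Fin (m + 2) → ℝ) => chord Ω (WithLp.ofLp p.1.1) p.2 :=
    measurable_measure_prodMk_left (c1.measurable hΩ)
  have h2 := (h1.pow_const 2).indicator (measurable_snd hΩ)
  exact h2

/-- There is a direction with short sections. -/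
theorem avg {m : ℕ} {Ω : Set (Fin (m + 2) → ℝ)} (hΩ : MeasurableSet Ω) {ρ : ℝ} (hρ : 0 < ρ)
    (hvol : volume Ω ≤ volume (Metric.ball (0 : EuclideanSpace ℝ (Fin (m + 2))) ρ)) :
    ∃ e : Fin (m + 2) → ℝ, ∑ i, e i ^ 2 = 1 ∧
      ∫⁻ x in Ω, chord Ω e x ^ 2 ≤ ENNReal.ofReal (4 * ρ ^ 2) * volume Ω := by
  have hm : (0 : ℝ) ≤ m := Nat.cast_nonneg m
  obtain ⟨σ, hσ⟩ : ∃ σ : Measure (Metric.sphere (0 : EuclideanSpace ℝ (Fin (m + 2))) 1),
    σ = (volume : Measure (EuclideanSpace ℝ (Fin (m + 2)))).toSphere := ⟨_, rfl⟩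
  have hfin : IsFiniteMeasure σ := by rw [hσ]; infer_instance
  have hne : σ ≠ 0 := by
    rw [hσ]
    exact Measure.toSphere_ne_zero _
  obtain ⟨B, hB⟩ : ∃ B : ℝ≥0∞, B = volume (Metric.ball (0 : EuclideanSpace ℝ (Fin (m + 2))) 1) :=
    ⟨_, rfl⟩
  have hσu : σ univ = ((m + 2 : ℕ) : ℝ≥0∞) * B := by
    rw [hσ, Measure.toSphere_apply_univ, finrank_euclideanSpace, Fintype.card_fin, hB]
  have hvol' : volume Ω ≤ ENNReal.ofReal (ρ ^ (m + 2)) * B := by
    refine hvol.trans (le_of_eq ?_)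
    rw [Measure.addHaar_ball_of_pos _ _ hρ, finrank_euclideanSpace, Fintype.card_fin, hB]
  have hind : Measurable (Ω.indicator fun _ => (1 : ℝ≥0∞)) := measurable_const.indicator hΩ
  -- the average over the directions
  have hdir : ∀ x : Fin (m + 2) → ℝ, ∫⁻ e, chord Ω (WithLp.ofLp e.1) x ^ 2 ∂σ ≤
      ENNReal.ofReal (4 * ρ ^ 2) * σ univ := by
    intro x
    have hm1 : Measurable fun z : Fin (m + 2) → ℝ => Ω.indicator (fun _ => (1 : ℝ≥0∞)) (x + z) :=
      hind.comp (measurable_const_add x)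
    have hm2 : Measurable fun z : Fin (m + 2) → ℝ => Ω.indicator (fun _ => (1 : ℝ≥0∞)) (x - z) :=
      hind.comp (measurable_const_sub x)
    have p1 := polar hm1
    have p2 := polar hm2
    rw [lintegral_add_left_eq_self (fun z => Ω.indicator (fun _ => (1 : ℝ≥0∞)) z) x,
      lintegral_indicator hΩ, setLIntegral_const, one_mul] at p1
    rw [lintegral_sub_left_eq_self (fun z => Ω.indicator (fun _ => (1 : ℝ≥0∞)) z) x,
      lintegral_indicator hΩ, setLIntegral_const, one_mul] at p2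
    rw [← hσ] at p1 p2
    have hj1 : Measurable fun e : Metric.sphere (0 : EuclideanSpace ℝ (Fin (m + 2))) 1 =>
        ∫⁻ s in Ioi (0 : ℝ), ENNReal.ofReal (s ^ (m + 1)) *
          Ω.indicator (fun _ => (1 : ℝ≥0∞)) (x + s • WithLp.ofLp e.1) := by
      have hofc : Continuous fun x : EuclideanSpace ℝ (Fin (m + 2)) => WithLp.ofLp x := by
        fun_prop
      have c1 : Continuous fun q : Metric.sphere (0 : EuclideanSpace ℝ (Fin (m + 2))) 1 × ℝ =>
          x + q.2 • WithLp.ofLp q.1.1 :=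
        continuous_const.add (continuous_snd.smul
          (hofc.comp (continuous_subtype_val.comp continuous_fst)))
      have c2 : Measurable fun q : Metric.sphere (0 : EuclideanSpace ℝ (Fin (m + 2))) 1 × ℝ =>
          ENNReal.ofReal (q.2 ^ (m + 1)) *
            Ω.indicator (fun _ => (1 : ℝ≥0∞)) (x + q.2 • WithLp.ofLp q.1.1) :=
        ((measurable_snd.pow_const _).ennreal_ofReal).mul (hind.comp c1.measurable)
      exact c2.lintegral_prod_right'
    have hpt : ∀ e : Metric.sphere (0 : EuclideanSpace ℝ (Fin (m + 2))) 1, _ :=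
      fun e => chord_pt hΩ hρ (WithLp.ofLp e.1) x
    refine (lintegral_mono hpt).trans ?_
    rw [lintegral_add_left measurable_const, lintegral_const,
      lintegral_const_mul' _ _ (ENNReal.mul_ne_top (by norm_num) ENNReal.ofReal_ne_top),
      lintegral_add_left hj1, p1, p2, hσu]
    have h3 : 2 / ((m : ℝ) + 2) ≤ 1 := by
      rw [div_le_one (by positivity)]
      linarith
    calc 4 * ENNReal.ofReal ((1 - 2 / ((m : ℝ) + 2)) * ρ ^ 2) * (((m + 2 : ℕ) : ℝ≥0∞) * B) +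
          2 * ENNReal.ofReal (2 / ρ ^ m) * (volume Ω + volume Ω)
        ≤ 4 * ENNReal.ofReal ((1 - 2 / ((m : ℝ) + 2)) * ρ ^ 2) * (((m + 2 : ℕ) : ℝ≥0∞) * B) +
          2 * ENNReal.ofReal (2 / ρ ^ m) * (ENNReal.ofReal (ρ ^ (m + 2)) * B +
            ENNReal.ofReal (ρ ^ (m + 2)) * B) := by gcongr
      _ = 4 * (ENNReal.ofReal ((1 - 2 / ((m : ℝ) + 2)) * ρ ^ 2) * ((m + 2 : ℕ) : ℝ≥0∞) +
          ENNReal.ofReal (2 / ρ ^ m) * ENNReal.ofReal (ρ ^ (m + 2))) * B := by ring
      _ = 4 * ENNReal.ofReal (ρ ^ 2 * ((m + 2 : ℕ) : ℝ)) * B := by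
        rw [← ENNReal.ofReal_natCast, ← ENNReal.ofReal_mul (mul_nonneg (by linarith)
          (by positivity)), ← ENNReal.ofReal_mul (by positivity), ← ENNReal.ofReal_add
          (mul_nonneg (mul_nonneg (by linarith) (by positivity)) (by positivity)) (by positivity)]
        congr 3
        push_cast
        field_simp
        ring
      _ = ENNReal.ofReal (4 * ρ ^ 2) * (((m + 2 : ℕ) : ℝ≥0∞) * B) := by
        rw [ENNReal.ofReal_mul (p := ρ ^ 2) (by positivity), ENNReal.ofReal_natCast,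
          ENNReal.ofReal_mul (p := (4 : ℝ)) (by norm_num)]
        have : ENNReal.ofReal (4 : ℝ) = 4 := by norm_num
        rw [this]
        ring
  -- exchange of the integrals
  have hcm := chord_meas hΩ
  obtain ⟨e, he⟩ := exists_le_laverage (μ := σ) hne
    (hcm.lintegral_prod_right' (ν := volume)).aemeasurable
  have hen : ‖(e.1 : EuclideanSpace ℝ (Fin (m + 2)))‖ = 1 := by
    have := e.2
    rw [mem_sphere_zero_iff_norm] at this
    exact this
  refine ⟨WithLp.ofLp e.1, ?_, ?_⟩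
  · rw [EuclideanSpace.norm_eq] at hen
    simp only [Real.norm_eq_abs, sq_abs] at hen
    rw [Real.sqrt_eq_one] at hen
    exact hen
  have h1 : ∀ e : Metric.sphere (0 : EuclideanSpace ℝ (Fin (m + 2))) 1,
      ∫⁻ x, Ω.indicator (fun x => chord Ω (WithLp.ofLp e.1) x ^ 2) x =
        ∫⁻ x in Ω, chord Ω (WithLp.ofLp e.1) x ^ 2 := fun e => lintegral_indicator hΩ _
  simp only [h1] at he
  refine he.trans ?_
  have hσ0 : σ univ ≠ 0 := by
    rw [Ne, Measure.measure_univ_eq_zero]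
    exact hne
  have hσt : σ univ ≠ ⊤ := measure_ne_top σ univ
  rw [laverage_eq, ENNReal.div_le_iff hσ0 hσt]
  have h2 : ∫⁻ e, (∫⁻ x in Ω, chord Ω (WithLp.ofLp e.1) x ^ 2) ∂σ =
      ∫⁻ x in Ω, (∫⁻ e, chord Ω (WithLp.ofLp e.1) x ^ 2 ∂σ) := by
    simp only [← h1]
    rw [lintegral_lintegral_swap hcm.aemeasurable, ← lintegral_indicator hΩ]
    refine lintegral_congr fun x => ?_
    by_cases hx : x ∈ Ω
    · rw [indicator_of_mem hx]
      refine lintegral_congr fun e => ?_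
      rw [indicator_of_mem hx]
    · rw [indicator_of_notMem hx]
      refine (lintegral_congr fun e => ?_).trans lintegral_zero
      rw [indicator_of_notMem hx]
  rw [h2]
  calc ∫⁻ x in Ω, (∫⁻ e, chord Ω (WithLp.ofLp e.1) x ^ 2 ∂σ)
      ≤ ∫⁻ _ in Ω, ENNReal.ofReal (4 * ρ ^ 2) * σ univ := lintegral_mono hdir
    _ = ENNReal.ofReal (4 * ρ ^ 2) * volume Ω * σ univ := by
      rw [setLIntegral_const]
      ring

end Pool.Agent.Helper961_mbly
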